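import Mathlib

/-!
# MP_1f2a9f_co : Chernoff bounds for independent Bernoulli variables (finite weights)
-/

namespace Pool.Agent.Lib.MP_1f2a9f_co.Chern

open Finset

variable {I G : Type} [Fintype I] [DecidableEq I] [DecidableEq G]

/-- Weight of a Boolean configuration under independent coordinates with densities `ρ`. -/
noncomputable def wt (ρ : I → ℝ) (x : I → Bool) : ℝ :=
  ∏ i, (if x i = true then ρ i else 1 - ρ i)

lemma wt_nonneg (ρ : I → ℝ) (h0 : ∀ i, 0 ≤ ρ i) (h1 : ∀ i, ρ i ≤ 1) (x : I → Bool) :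
    0 ≤ wt ρ x := by
  unfold wt
  refine Finset.prod_nonneg fun i _ => ?_
  split_ifs
  · exact h0 i
  · linarith [h1 i]

lemma sum_wt_mul (ρ : I → ℝ) (F : I → Bool → ℝ) :
    ∑ x : I → Bool, wt ρ x * ∏ i, F i (x i) = ∏ i, (ρ i * F i true + (1 - ρ i) * F i false) := by
  unfold wt
  have h := (Finset.prod_univ_sum (fun _ : I => (univ : Finset Bool))
    (fun i c => (if c = true then ρ i else 1 - ρ i) * F i c)).symm
  rw [Fintype.piFinset_univ] at h
  calc ∑ x : I → Bool, (∏ i, (if x i = true then ρ i else 1 - ρ i)) * ∏ i, F i (x i)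
      = ∑ x : I → Bool, ∏ i, ((if x i = true then ρ i else 1 - ρ i) * F i (x i)) := by
        refine Finset.sum_congr rfl fun x _ => ?_
        rw [Finset.prod_mul_distrib]
    _ = ∏ i, ∑ c : Bool, (if c = true then ρ i else 1 - ρ i) * F i c := h
    _ = _ := by
        refine Finset.prod_congr rfl fun i _ => ?_
        simp

lemma sum_wt (ρ : I → ℝ) : ∑ x : I → Bool, wt ρ x = 1 := by
  have h := sum_wt_mul ρ (fun _ _ => 1)
  simpa using h

/-- Expectation of the indicator that all coordinates in `U` are true. -/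
lemma sum_wt_all (ρ : I → ℝ) (U : Finset I) :
    ∑ x : I → Bool, wt ρ x * (if ∀ i ∈ U, x i = true then 1 else 0) = ∏ i ∈ U, ρ i := by
  have h := sum_wt_mul ρ (fun i c => if i ∈ U then (if c = true then 1 else 0) else 1)
  have e1 : ∀ x : I → Bool, (if ∀ i ∈ U, x i = true then (1 : ℝ) else 0) =
      ∏ i, (if i ∈ U then (if x i = true then (1 : ℝ) else 0) else 1) := by
    intro x
    by_cases hx : ∀ i ∈ U, x i = true
    · rw [if_pos hx, Finset.prod_eq_one]
      intro i _
      by_cases hi : i ∈ U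
      · simp [hi, hx i hi]
      · simp [hi]
    · rw [if_neg hx]
      push Not at hx
      obtain ⟨i, hi, hxi⟩ := hx
      symm
      apply Finset.prod_eq_zero (Finset.mem_univ i)
      simp [hi, hxi]
  calc ∑ x : I → Bool, wt ρ x * (if ∀ i ∈ U, x i = true then 1 else 0)
      = ∑ x : I → Bool, wt ρ x *
          ∏ i, (if i ∈ U then (if x i = true then (1 : ℝ) else 0) else 1) := by
        refine Finset.sum_congr rfl fun x _ => ?_
        rw [e1 x]
    _ = ∏ i, (ρ i * (if i ∈ U then (if true = true then (1 : ℝ) else 0) else 1) +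
          (1 - ρ i) * (if i ∈ U then (if false = true then (1 : ℝ) else 0) else 1)) := h
    _ = ∏ i, (if i ∈ U then ρ i else 1) := by
        refine Finset.prod_congr rfl fun i _ => ?_
        by_cases hi : i ∈ U <;> simp [hi]
    _ = ∏ i ∈ U, ρ i := by
        rw [Finset.prod_ite_mem]
        simp

/-- The number of blocks all of whose coordinates are true. -/
def cnt (J : Finset G) (B : G → Finset I) (x : I → Bool) : ℕ :=
  (J.filter (fun g => ∀ i ∈ B g, x i = true)).card

lemma mgf (ρ : I → ℝ) (J : Finset G) (B : G → Finset I)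
    (hB : ∀ g ∈ J, ∀ g' ∈ J, g ≠ g' → Disjoint (B g) (B g')) (p : ℝ)
    (hp : ∀ g ∈ J, ∏ i ∈ B g, ρ i = p) (c : ℝ) :
    ∑ x : I → Bool, wt ρ x * (1 + c) ^ cnt J B x = (1 + c * p) ^ J.card := by
  have e1 : ∀ x : I → Bool, (1 + c) ^ cnt J B x =
      ∑ H ∈ J.powerset, c ^ H.card * (if ∀ i ∈ H.biUnion B, x i = true then 1 else 0) := by
    intro x
    have h1 : (1 + c) ^ cnt J B x =
        ∏ g ∈ J, (1 + c * (if ∀ i ∈ B g, x i = true then 1 else 0)) := by
      unfold cnt
      rw [← Finset.prod_const, Finset.prod_filter]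
      refine Finset.prod_congr rfl fun g _ => ?_
      split_ifs <;> simp
    rw [h1, Finset.prod_one_add]
    refine Finset.sum_congr rfl fun H _ => ?_
    rw [Finset.prod_mul_distrib, Finset.prod_const]
    congr 1
    by_cases hx : ∀ i ∈ H.biUnion B, x i = true
    · rw [if_pos hx, Finset.prod_eq_one]
      intro g hg
      rw [if_pos]
      intro i hi
      exact hx i (Finset.mem_biUnion.2 ⟨g, hg, hi⟩)
    · rw [if_neg hx]
      push Not at hx
      obtain ⟨i, hi, hxi⟩ := hx
      obtain ⟨g, hg, hgi⟩ := Finset.mem_biUnion.1 hi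
      apply Finset.prod_eq_zero hg
      rw [if_neg]
      intro hall
      exact hxi (hall i hgi)
  calc ∑ x : I → Bool, wt ρ x * (1 + c) ^ cnt J B x
      = ∑ x : I → Bool, ∑ H ∈ J.powerset, c ^ H.card *
          (wt ρ x * (if ∀ i ∈ H.biUnion B, x i = true then 1 else 0)) := by
        refine Finset.sum_congr rfl fun x _ => ?_
        rw [e1 x, Finset.mul_sum]
        refine Finset.sum_congr rfl fun H _ => ?_
        ring
    _ = ∑ H ∈ J.powerset, c ^ H.card * ∏ i ∈ H.biUnion B, ρ i := by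
        rw [Finset.sum_comm]
        refine Finset.sum_congr rfl fun H _ => ?_
        rw [← Finset.mul_sum, sum_wt_all]
    _ = ∑ H ∈ J.powerset, ∏ _g ∈ H, (c * p) := by
        refine Finset.sum_congr rfl fun H hH => ?_
        rw [Finset.mem_powerset] at hH
        rw [Finset.prod_biUnion]
        · rw [Finset.prod_congr rfl (fun g hg => hp g (hH hg)), Finset.prod_const,
            Finset.prod_const, mul_pow]
        · intro g hg g' hg' hne
          exact hB g (hH hg) g' (hH hg') hne
    _ = ∏ _g ∈ J, (1 + c * p) := by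
        rw [Finset.prod_one_add]
    _ = _ := by rw [Finset.prod_const]

/-- Upper tail. -/
lemma upper (ρ : I → ℝ) (h0 : ∀ i, 0 ≤ ρ i) (h1 : ∀ i, ρ i ≤ 1)
    (J : Finset G) (B : G → Finset I)
    (hB : ∀ g ∈ J, ∀ g' ∈ J, g ≠ g' → Disjoint (B g) (B g')) (p : ℝ) (hp0 : 0 ≤ p)
    (hp : ∀ g ∈ J, ∏ i ∈ B g, ρ i = p) (γ : ℝ) (hγ : 0 ≤ γ) (hγ1 : γ ≤ 2) :
    ∑ x ∈ (univ : Finset (I → Bool)).filter (fun x => (1 + γ) * (J.card * p) < (cnt J B x : ℝ)),
      wt ρ x ≤ Real.exp (-(γ ^ 2 * (J.card * p) / 4)) := by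
  set n : ℝ := (J.card : ℝ) with hn
  have hn0 : 0 ≤ n := by positivity
  set s : ℝ := γ / 2 with hs
  have hs0 : 0 ≤ s := by positivity
  have hm := mgf ρ J B hB p hp (Real.exp s - 1)
  have hexp : Real.exp s - 1 ≤ s + s ^ 2 := by
    have h := Real.abs_exp_sub_one_sub_id_le (x := s) (by rw [abs_of_nonneg hs0]; linarith)
    have h2 := (abs_le.1 h).2
    linarith
  have hexp0 : 0 ≤ Real.exp s - 1 := by
    have := Real.add_one_le_exp s
    linarith
  have hR : (1 + (Real.exp s - 1) * p) ^ J.card ≤ Real.exp ((s + s ^ 2) * (n * p)) := by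
    have h2 : 1 + (Real.exp s - 1) * p ≤ Real.exp ((s + s ^ 2) * p) := by
      have h3 := Real.add_one_le_exp ((s + s ^ 2) * p)
      have h4 : (Real.exp s - 1) * p ≤ (s + s ^ 2) * p := mul_le_mul_of_nonneg_right hexp hp0
      linarith
    calc (1 + (Real.exp s - 1) * p) ^ J.card ≤ (Real.exp ((s + s ^ 2) * p)) ^ J.card :=
          pow_le_pow_left₀ (by positivity) h2 _
      _ = Real.exp ((s + s ^ 2) * (n * p)) := by
          rw [← Real.exp_nat_mul]; congr 1; rw [hn]; ring
  -- Markov
  have hkey : ∑ x ∈ (univ : Finset (I → Bool)).filter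
      (fun x => (1 + γ) * (n * p) < (cnt J B x : ℝ)), wt ρ x * Real.exp (s * ((1 + γ) * (n * p)))
      ≤ Real.exp ((s + s ^ 2) * (n * p)) := by
    calc _ ≤ ∑ x ∈ (univ : Finset (I → Bool)).filter
          (fun x => (1 + γ) * (n * p) < (cnt J B x : ℝ)),
          wt ρ x * (1 + (Real.exp s - 1)) ^ cnt J B x := by
          refine Finset.sum_le_sum fun x hx => ?_
          rw [Finset.mem_filter] at hx
          refine mul_le_mul_of_nonneg_left ?_ (wt_nonneg ρ h0 h1 x)
          rw [add_sub_cancel, ← Real.exp_nat_mul]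
          refine Real.exp_le_exp.2 ?_
          rw [mul_comm (cnt J B x : ℝ) s]
          exact mul_le_mul_of_nonneg_left hx.2.le hs0
      _ ≤ ∑ x : I → Bool, wt ρ x * (1 + (Real.exp s - 1)) ^ cnt J B x := by
          refine Finset.sum_le_univ_sum_of_nonneg fun x => ?_
          have := wt_nonneg ρ h0 h1 x
          have h5 : 0 ≤ 1 + (Real.exp s - 1) := by linarith
          positivity
      _ = (1 + (Real.exp s - 1) * p) ^ J.card := hm
      _ ≤ _ := hR
  rw [← Finset.sum_mul] at hkey
  have hpos : 0 < Real.exp (s * ((1 + γ) * (n * p))) := Real.exp_pos _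
  have := (le_div_iff₀ hpos).2 hkey
  refine this.trans ?_
  rw [← Real.exp_sub]
  refine Real.exp_le_exp.2 ?_
  have : (s + s ^ 2) * (n * p) - s * ((1 + γ) * (n * p)) = -(γ ^ 2 * (n * p) / 4) := by
    rw [hs]; ring
  linarith

/-- Lower tail. -/
lemma lower (ρ : I → ℝ) (h0 : ∀ i, 0 ≤ ρ i) (h1 : ∀ i, ρ i ≤ 1)
    (J : Finset G) (B : G → Finset I)
    (hB : ∀ g ∈ J, ∀ g' ∈ J, g ≠ g' → Disjoint (B g) (B g')) (p : ℝ) (hp0 : 0 ≤ p)
    (hp1 : p ≤ 1)
    (hp : ∀ g ∈ J, ∏ i ∈ B g, ρ i = p) (γ : ℝ) (hγ : 0 ≤ γ) (hγ1 : γ ≤ 2) :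
    ∑ x ∈ (univ : Finset (I → Bool)).filter (fun x => (cnt J B x : ℝ) < (1 - γ) * (J.card * p)),
      wt ρ x ≤ Real.exp (-(γ ^ 2 * (J.card * p) / 4)) := by
  set n : ℝ := (J.card : ℝ) with hn
  have hn0 : 0 ≤ n := by positivity
  set s : ℝ := γ / 2 with hs
  have hs0 : 0 ≤ s := by positivity
  have hm := mgf ρ J B hB p hp (Real.exp (-s) - 1)
  have hexp : Real.exp (-s) - 1 ≤ -s + s ^ 2 := by
    have h := Real.abs_exp_sub_one_sub_id_le (x := -s)
      (by rw [abs_neg, abs_of_nonneg hs0]; linarith)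
    have h2 := (abs_le.1 h).2
    have h3 : (-s) ^ 2 = s ^ 2 := by ring
    linarith
  have hexp0 : Real.exp (-s) - 1 ≤ 0 := by
    have : Real.exp (-s) ≤ 1 := Real.exp_le_one_iff.2 (by linarith)
    linarith
  have hexp1 : 0 < Real.exp (-s) := Real.exp_pos _
  have hbase : 0 ≤ 1 + (Real.exp (-s) - 1) * p := by
    have : (Real.exp (-s) - 1) * p ≥ (Real.exp (-s) - 1) * 1 :=
      mul_le_mul_of_nonpos_left hp1 hexp0
    linarith
  have hR : (1 + (Real.exp (-s) - 1) * p) ^ J.card ≤ Real.exp ((-s + s ^ 2) * (n * p)) := by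
    have h2 : 1 + (Real.exp (-s) - 1) * p ≤ Real.exp ((-s + s ^ 2) * p) := by
      have h3 := Real.add_one_le_exp ((-s + s ^ 2) * p)
      have h4 : (Real.exp (-s) - 1) * p ≤ (-s + s ^ 2) * p := mul_le_mul_of_nonneg_right hexp hp0
      linarith
    calc (1 + (Real.exp (-s) - 1) * p) ^ J.card ≤ (Real.exp ((-s + s ^ 2) * p)) ^ J.card :=
          pow_le_pow_left₀ hbase h2 _
      _ = Real.exp ((-s + s ^ 2) * (n * p)) := by
          rw [← Real.exp_nat_mul]; congr 1; rw [hn]; ring
  have hkey : ∑ x ∈ (univ : Finset (I → Bool)).filter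
      (fun x => (cnt J B x : ℝ) < (1 - γ) * (n * p)), wt ρ x * Real.exp (-s * ((1 - γ) * (n * p)))
      ≤ Real.exp ((-s + s ^ 2) * (n * p)) := by
    calc _ ≤ ∑ x ∈ (univ : Finset (I → Bool)).filter
          (fun x => (cnt J B x : ℝ) < (1 - γ) * (n * p)),
          wt ρ x * (1 + (Real.exp (-s) - 1)) ^ cnt J B x := by
          refine Finset.sum_le_sum fun x hx => ?_
          rw [Finset.mem_filter] at hx
          refine mul_le_mul_of_nonneg_left ?_ (wt_nonneg ρ h0 h1 x)
          rw [add_sub_cancel, ← Real.exp_nat_mul]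
          refine Real.exp_le_exp.2 ?_
          have := mul_le_mul_of_nonneg_left hx.2.le hs0
          linarith
      _ ≤ ∑ x : I → Bool, wt ρ x * (1 + (Real.exp (-s) - 1)) ^ cnt J B x := by
          refine Finset.sum_le_univ_sum_of_nonneg fun x => ?_
          have := wt_nonneg ρ h0 h1 x
          have h5 : 0 ≤ 1 + (Real.exp (-s) - 1) := by linarith
          positivity
      _ = (1 + (Real.exp (-s) - 1) * p) ^ J.card := hm
      _ ≤ _ := hR
  rw [← Finset.sum_mul] at hkey
  have hpos : 0 < Real.exp (-s * ((1 - γ) * (n * p))) := Real.exp_pos _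
  have := (le_div_iff₀ hpos).2 hkey
  refine this.trans ?_
  rw [← Real.exp_sub]
  refine Real.exp_le_exp.2 ?_
  have : (-s + s ^ 2) * (n * p) - -s * ((1 - γ) * (n * p)) = -(γ ^ 2 * (n * p) / 4) := by
    rw [hs]; ring
  linarith

/-- If the density is zero no block is full, up to weight zero. -/
lemma upper_zero (ρ : I → ℝ) (h0 : ∀ i, 0 ≤ ρ i) (h1 : ∀ i, ρ i ≤ 1)
    (J : Finset G) (B : G → Finset I)
    (hp : ∀ g ∈ J, ∏ i ∈ B g, ρ i = 0) :
    ∑ x ∈ (univ : Finset (I → Bool)).filter (fun x => 0 < (cnt J B x : ℝ)), wt ρ x ≤ 0 := by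
  calc ∑ x ∈ (univ : Finset (I → Bool)).filter (fun x => 0 < (cnt J B x : ℝ)), wt ρ x
      ≤ ∑ x ∈ (univ : Finset (I → Bool)).filter (fun x => 0 < (cnt J B x : ℝ)),
          wt ρ x * (cnt J B x : ℝ) := by
        refine Finset.sum_le_sum fun x hx => ?_
        rw [Finset.mem_filter] at hx
        have h2 : (1 : ℝ) ≤ (cnt J B x : ℝ) := by
          have : 0 < cnt J B x := by exact_mod_cast hx.2
          exact_mod_cast this
        have := wt_nonneg ρ h0 h1 x
        nlinarith
    _ ≤ ∑ x : I → Bool, wt ρ x * (cnt J B x : ℝ) := by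
        refine Finset.sum_le_univ_sum_of_nonneg fun x => ?_
        have := wt_nonneg ρ h0 h1 x
        positivity
    _ = ∑ x : I → Bool, ∑ g ∈ J, wt ρ x * (if ∀ i ∈ B g, x i = true then 1 else 0) := by
        refine Finset.sum_congr rfl fun x _ => ?_
        unfold cnt
        rw [Finset.card_filter, ← Finset.mul_sum]
        push_cast
        rfl
    _ = ∑ g ∈ J, ∏ i ∈ B g, ρ i := by
        rw [Finset.sum_comm]
        refine Finset.sum_congr rfl fun g _ => ?_
        rw [sum_wt_all]
    _ = 0 := Finset.sum_eq_zero hp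
    _ ≤ 0 := le_refl _

/-- Union bound. -/
lemma exists_good (ρ : I → ℝ) (h0 : ∀ i, 0 ≤ ρ i) (h1 : ∀ i, ρ i ≤ 1) {K : Type} [DecidableEq K]
    (T : Finset K) (P : K → (I → Bool) → Prop) [∀ k, DecidablePred (P k)] (δ : ℝ)
    (hP : ∀ k ∈ T, ∑ x ∈ (univ : Finset (I → Bool)).filter (P k), wt ρ x ≤ δ)
    (hT : T.card * δ < 1) : ∃ x : I → Bool, ∀ k ∈ T, ¬ P k x := by
  by_contra hcon
  push Not at hcon
  have h2 : (1 : ℝ) ≤ T.card * δ := by
    calc (1 : ℝ) = ∑ x : I → Bool, wt ρ x := (sum_wt ρ).symm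
      _ ≤ ∑ x : I → Bool, ∑ k ∈ T, (if P k x then wt ρ x else 0) := by
          refine Finset.sum_le_sum fun x _ => ?_
          obtain ⟨k, hk, hkx⟩ := hcon x
          have h3 := Finset.single_le_sum (f := fun k => if P k x then wt ρ x else 0)
            (fun k _ => by
              have := wt_nonneg ρ h0 h1 x
              positivity) hk
          simp only [hkx, if_true] at h3
          exact h3
      _ = ∑ k ∈ T, ∑ x ∈ (univ : Finset (I → Bool)).filter (P k), wt ρ x := by
          rw [Finset.sum_comm]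
          refine Finset.sum_congr rfl fun k _ => ?_
          rw [Finset.sum_filter]
      _ ≤ ∑ _k ∈ T, δ := Finset.sum_le_sum hP
      _ = T.card * δ := by rw [Finset.sum_const, nsmul_eq_mul]
  linarith

/-- Number of subsets of size at most `D`. -/
lemma card_small_subsets {α : Type} [Fintype α] [DecidableEq α] (D : ℕ) :
    ((univ : Finset (Finset α)).filter (fun A => A.card ≤ D)).card ≤ (Fintype.card α + 1) ^ D := by
  induction D with
  | zero =>
      have : (univ : Finset (Finset α)).filter (fun A => A.card ≤ 0) = {∅} := by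
        ext A
        simp
      rw [this]
      simp
  | succ D ih =>
      have hsplit : (univ : Finset (Finset α)).filter (fun A => A.card ≤ D + 1) =
          (univ : Finset (Finset α)).filter (fun A => A.card ≤ D) ∪
            Finset.powersetCard (D + 1) univ := by
        ext A
        simp only [Finset.mem_filter, Finset.mem_univ, true_and, Finset.mem_union,
          Finset.mem_powersetCard, Finset.subset_univ]
        omega
      rw [hsplit]
      refine (Finset.card_union_le _ _).trans ?_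
      rw [Finset.card_powersetCard, Finset.card_univ]
      have h2 : (Fintype.card α).choose (D + 1) ≤ Fintype.card α ^ (D + 1) :=
        Nat.choose_le_pow _ _
      have h3 : Fintype.card α ^ (D + 1) ≤ Fintype.card α * (Fintype.card α + 1) ^ D := by
        rw [pow_succ, mul_comm]
        exact Nat.mul_le_mul_left _ (Nat.pow_le_pow_left (by omega) _)
      calc _ ≤ (Fintype.card α + 1) ^ D + Fintype.card α * (Fintype.card α + 1) ^ D := by
            omega
        _ = (Fintype.card α + 1) ^ (D + 1) := by ring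

end Pool.Agent.Lib.MP_1f2a9f_co.Chern
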