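import Pool.Agent.Lib.MP_1f2a9f_co.TopDefs

/-!
# E2: classification of the vertices by degree
-/

namespace Pool.Agent.Lib.MP_1f2a9f_co

open Finset

namespace Classify

theorem card_mul_le {n : ℕ} (H : SimpleGraph (Fin n)) [DecidableRel H.Adj] (m : ℕ)
    (hm : H.edgeFinset.card = m) (S : Finset (Fin n)) (t : ℝ)
    (h : ∀ v ∈ S, t ≤ (H.degree v : ℝ)) : (S.card : ℝ) * t ≤ 2 * m := by
  have h1 : (S.card : ℝ) * t ≤ ∑ v ∈ S, (H.degree v : ℝ) := by
    rw [← nsmul_eq_mul]
    exact Finset.card_nsmul_le_sum _ _ _ h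
  have h2 : ∑ v ∈ S, (H.degree v : ℝ) ≤ ∑ v, (H.degree v : ℝ) :=
    Finset.sum_le_sum_of_subset_of_nonneg (subset_univ _) (fun _ _ _ => Nat.cast_nonneg _)
  have h3 : ∑ v, (H.degree v : ℝ) = 2 * m := by
    rw [← Nat.cast_sum, H.sum_degrees_eq_twice_card_edges, hm]
    push_cast
    ring
  linarith

theorem qi_nonneg (ε : ℝ) (m i : ℕ) : 0 ≤ qi ε m i := (Real.exp_pos _).le

theorem qi_le_one (ε : ℝ) (hε : 0 < ε) (m i : ℕ) (h1 : 1 < Real.log m) : qi ε m i ≤ 1 := by
  unfold qi
  rw [Real.exp_le_one_iff, neg_nonpos]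
  refine le_min ?_ ?_
  · positivity
  · positivity

end Classify

theorem classify {ε η χ Dc ε₁ : ℝ} {B K J r : ℕ} (hc : Consts ε η χ Dc ε₁ B K J r) (m : ℕ)
    (h1 : 1 < Real.log m) (hI : ∀ i : ℕ, i < pI η m ↔ (2 : ℝ) ^ i < η * Real.log m)
    (hDc : Dc ≤ 2 * (Real.log m) ^ 2) (hq : 0 < pq m)
    (hΔ : 2 * (ε * χ) * (pDel Dc m : ℝ) ^ 2 / pq m ≤ ε₁)
    (hT : ∀ i < pI η m, ptau ε m ≤ pt ε m * qi ε m i ^ (2 ^ (i + 1)))
    (hb : ptau ε m ≤ pb ε m) (ht : ptau ε m ≤ pt ε m)
    (R : ((Fin B × Fin (pq m)) × Fin J) × Fin (pbg ε J m) →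
      ((Fin B × Fin (pq m)) × Fin J) × Fin (pbg ε J m) → Bool)
    (hmid : MidProp ε χ Dc ε₁ B K J m R) (g0 : Pre ε J m)
    (n : ℕ) (H : SimpleGraph (Fin n)) [DecidableRel H.Adj] (hm : H.edgeSet.ncard = m)
    (hiso : ∀ v, ∃ w, H.Adj v w) :
    ∃ (A : Finset (Fin n)) (lev : Fin n → Lev B (pI η m)) (pre : Fin n → Pre ε J m)
      (P : Fin n → Finset (Fin n)),
      (A.card : ℝ) ≤ m / (Real.log m) ^ 3 ∧ (n : ℝ) ≤ 2 * m ∧
      (∀ v, v ∉ A → pre v ∈ GamF g0 (lev v)) ∧
      (∀ l, (((univ \ A).filter (fun v => lev v = l)).card : ℝ) ≤ cap ε χ Dc ε₁ m l) ∧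
      (∀ v, v ∉ P v) ∧ (∀ v, (P v).card ≤ pD m) ∧
      (∀ u, (univ.filter (fun v => u ∈ P v)).card ≤ pD m) ∧
      (∀ v, ptau ε m ≤ tS ε m (lev v) * ∏ u ∈ P v, rhoS ε m (lev v) (lev u)) ∧
      (∀ u v, u ∉ A → v ∉ A → H.Adj u v → v ∈ P u ∨ u ∈ P v ∨
        QQ K R (lev u, pre u) (lev v, pre v)) ∧
      (∑ x : Fin B, (((((univ \ A) ×ˢ (univ \ A)).filter (fun p => lev p.1 = .inr (.inl x) ∧
          lev p.2 = .inr (.inl x) ∧ pre p.1 = pre p.2)).card : ℝ))) ≤
        sig2 ε Dc J m * (((∑ x : Fin B,
            (((univ \ A).filter (fun v => lev v = .inr (.inl x))).card : ℝ) ^ 2) / (pq m : ℝ) +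
              2 * (ε * χ * (m / Real.log m)) +
              4 * (ε * χ * (m / Real.log m) * (pDel Dc m : ℝ) / pq m) ^ 2) /
              (pbg ε J m : ℝ) ^ J) +
          ε * χ * (m / Real.log m) * ((pDel Dc m : ℝ) + 1) ^ 2 := by
  classical
  have hl0 : (0 : ℝ) < Real.log m := by linarith
  have hε := hc.hε
  have hη0 : 0 < η := by rw [hc.hη]; positivity
  have hχ0 : 0 < χ := by rw [hc.hχ]; positivity
  have hDc0 : 0 < Dc := by rw [hc.hDc]; positivity
  have hε₁0 : 0 < ε₁ := by rw [hc.hε₁]; positivity
  have hm0 : (0 : ℝ) ≤ m := Nat.cast_nonneg _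
  have hcardE : H.edgeFinset.card = m := by
    rw [← hm, Set.ncard_eq_toFinset_card']
    rfl
  have hexp : ε * χ = 2 / η := by rw [hc.hχ]; field_simp
  set l : ℝ := Real.log m with hl
  have hmain := Classify.card_mul_le H m hcardE
  -- the three classes
  set A : Finset (Fin n) := univ.filter (fun v => 2 * l ^ 3 < (H.degree v : ℝ)) with hA
  set M : Finset (Fin n) := univ.filter
    (fun v => η * l ≤ (H.degree v : ℝ) ∧ (H.degree v : ℝ) ≤ Dc * l) with hM
  have hMcard : (M.card : ℝ) ≤ ε * χ * (m / l) := by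
    have h := hmain M (η * l) (fun v hv => by
      rw [hM, mem_filter] at hv
      exact hv.2.1)
    rw [hexp, div_mul_div_comm, le_div_iff₀ (by positivity)]
    linarith
  obtain ⟨Bad, X, c, g, hBadM, hBadcard, hcap, hR, hcoll⟩ := hmid n H M
    (by rw [hcardE]) (fun v hv => by
      rw [hM, mem_filter] at hv
      exact hv.2.2) hMcard
  -- the level
  have hidx : ∀ v : Fin n, (H.degree v : ℝ) < η * l → Nat.log 2 (H.degree v) < pI η m := by
    intro v hv
    rw [hI]
    have hpos : H.degree v ≠ 0 := by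
      obtain ⟨w, hw⟩ := hiso v
      have : 0 < H.degree v := (H.degree_pos_iff_exists_adj v).2 ⟨w, hw⟩
      omega
    have h2 := Nat.pow_log_le_self 2 hpos
    have h3 : ((2 : ℝ) ^ (Nat.log 2 (H.degree v))) ≤ (H.degree v : ℝ) := by exact_mod_cast h2
    linarith
  let lev : Fin n → Lev B (pI η m) := fun v =>
    if v ∈ M \ Bad then .inr (.inl (X v))
    else if h : (H.degree v : ℝ) < η * l then .inr (.inr ⟨Nat.log 2 (H.degree v), hidx v h⟩)
    else .inl ()
  let pre : Fin n → Pre ε J m := fun v => if v ∈ M \ Bad then (c v, g v) else g0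
  have levX : ∀ v, v ∈ M \ Bad → lev v = .inr (.inl (X v)) := fun v hv => by
    simp only [lev, if_pos hv]
  have levS : ∀ v (h : (H.degree v : ℝ) < η * l),
      lev v = .inr (.inr ⟨Nat.log 2 (H.degree v), hidx v h⟩) := fun v h => by
    have hv : v ∉ M \ Bad := by
      intro hv
      have := (mem_sdiff.1 hv).1
      rw [hM, mem_filter] at this
      linarith [this.2.1]
    simp only [lev, if_neg hv, dif_pos h]
  have levZ : ∀ v, v ∉ M \ Bad → ¬ ((H.degree v : ℝ) < η * l) → lev v = .inl () :=
    fun v hv h => by simp only [lev, if_neg hv, dif_neg h]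
  have levXiff : ∀ v x, lev v = .inr (.inl x) ↔ v ∈ M \ Bad ∧ X v = x := by
    intro v x
    by_cases hv : v ∈ M \ Bad
    · rw [levX v hv]; simp [hv]
    · by_cases h : (H.degree v : ℝ) < η * l
      · rw [levS v h]; simp [hv]
      · rw [levZ v hv h]; simp [hv]
  have levSiff : ∀ v i, lev v = .inr (.inr i) →
      (H.degree v : ℝ) < η * l ∧ Nat.log 2 (H.degree v) = (i : ℕ) := by
    intro v i hi
    by_cases hv : v ∈ M \ Bad
    · rw [levX v hv] at hi; simp at hi
    · by_cases h : (H.degree v : ℝ) < η * l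
      · rw [levS v h] at hi
        refine ⟨h, ?_⟩
        simp only [Sum.inr.injEq] at hi
        rw [← hi]
      · rw [levZ v hv h] at hi; simp at hi
  have levZiff : ∀ v u, lev v = .inl u → v ∉ M \ Bad ∧ ¬ ((H.degree v : ℝ) < η * l) := by
    intro v u hi
    by_cases hv : v ∈ M \ Bad
    · rw [levX v hv] at hi; simp at hi
    · by_cases h : (H.degree v : ℝ) < η * l
      · rw [levS v h] at hi; simp at hi
      · exact ⟨hv, h⟩
  have hMA : ∀ v ∈ M, v ∉ A := by
    intro v hv hvA
    rw [hM, mem_filter] at hv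
    rw [hA, mem_filter] at hvA
    have h2 : Dc * l ≤ 2 * l ^ 3 := by nlinarith
    linarith [hv.2.2, hvA.2]
  -- the sets `P`
  let P : Fin n → Finset (Fin n) := fun v =>
    if v ∈ A then ∅ else
      match lev v with
      | .inl _ => univ.filter (fun u => H.Adj v u ∧ u ∉ A ∧ ¬ ((H.degree u : ℝ) < η * l))
      | .inr (.inl _) => ∅
      | .inr (.inr i) => univ.filter (fun u => H.Adj v u ∧ u ∉ A ∧
          ∀ i', lev u = .inr (.inr i') → i ≤ i')
  have hPadj : ∀ v u, u ∈ P v → H.Adj v u ∧ v ∉ A ∧ u ∉ A := by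
    intro v u hu
    by_cases hv : v ∈ A
    · simp [P, hv] at hu
    · rcases hlv : lev v with z | x | i
      · simp only [P, if_neg hv, hlv, mem_filter] at hu
        exact ⟨hu.2.1, hv, hu.2.2.1⟩
      · simp [P, hv, hlv] at hu
      · simp only [P, if_neg hv, hlv, mem_filter] at hu
        exact ⟨hu.2.1, hv, hu.2.2.1⟩
  have hdegA : ∀ v, v ∉ A → H.degree v ≤ pD m := by
    intro v hv
    have : ¬ (2 * l ^ 3 < (H.degree v : ℝ)) := by
      intro h
      exact hv (by rw [hA, mem_filter]; exact ⟨mem_univ _, h⟩)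
    have h2 : (H.degree v : ℝ) ≤ 2 * l ^ 3 := not_lt.1 this
    unfold pD
    have h3 := Nat.le_ceil (2 * (Real.log m) ^ 3)
    exact_mod_cast h2.trans h3
  refine ⟨A, lev, pre, P, ?_, ?_, ?_, ?_, ?_, ?_, ?_, ?_, ?_, ?_⟩
  · -- card A
    have h := hmain A (2 * l ^ 3) (fun v hv => by
      rw [hA, mem_filter] at hv
      exact hv.2.le)
    rw [le_div_iff₀ (by positivity)]
    linarith
  · -- n ≤ 2 m
    have h := hmain univ 1 (fun v _ => by
      obtain ⟨w, hw⟩ := hiso v
      have : 0 < H.degree v := (H.degree_pos_iff_exists_adj v).2 ⟨w, hw⟩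
      exact_mod_cast this)
    simpa using h
  · -- prefixes
    intro v _
    by_cases hv : v ∈ M \ Bad
    · rw [levX v hv]; simp [GamF]
    · have hpre : pre v = g0 := by simp only [pre, if_neg hv]
      rw [hpre]
      by_cases h : (H.degree v : ℝ) < η * l
      · rw [levS v h]; simp [GamF]
      · rw [levZ v hv h]; simp [GamF]
  · -- capacities
    rintro (z | x | i)
    · -- Z
      have hsub : (univ \ A).filter (fun v => lev v = .inl z) ⊆
          (univ.filter (fun v => Dc * l < (H.degree v : ℝ))) ∪ Bad := by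
        intro v hv
        rw [mem_filter] at hv
        obtain ⟨h2, h3⟩ := levZiff v z hv.2
        rw [mem_union, mem_filter]
        by_cases h4 : Dc * l < (H.degree v : ℝ)
        · exact Or.inl ⟨mem_univ _, h4⟩
        · right
          by_contra h5
          apply h2
          rw [mem_sdiff]
          refine ⟨?_, h5⟩
          rw [hM, mem_filter]
          exact ⟨mem_univ _, not_lt.1 h3, not_lt.1 h4⟩
      have h4 := hmain (univ.filter (fun v => Dc * l < (H.degree v : ℝ))) (Dc * l) (fun v hv => by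
        rw [mem_filter] at hv
        exact hv.2.le)
      have h5 : ((univ.filter (fun v => Dc * l < (H.degree v : ℝ))).card : ℝ) ≤
          2 / Dc * (m / l) := by
        rw [div_mul_div_comm, le_div_iff₀ (by positivity)]
        linarith
      have h6 : ((((univ \ A).filter (fun v => lev v = .inl z)).card : ℕ) : ℝ) ≤
          ((univ.filter (fun v => Dc * l < (H.degree v : ℝ))).card : ℝ) + Bad.card := by
        exact_mod_cast (card_le_card hsub).trans (card_union_le _ _)
      have hqR : (0 : ℝ) < pq m := by exact_mod_cast hq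
      have h7 : 2 * (M.card : ℝ) * (pDel Dc m : ℝ) ^ 2 / pq m ≤ ε₁ * (m / l) := by
        have h8 : 2 * (M.card : ℝ) * (pDel Dc m : ℝ) ^ 2 / pq m ≤
            2 * (ε * χ * (m / l)) * (pDel Dc m : ℝ) ^ 2 / pq m := by
          gcongr
        have h9 : 2 * (ε * χ * (m / l)) * (pDel Dc m : ℝ) ^ 2 / pq m =
            (2 * (ε * χ) * (pDel Dc m : ℝ) ^ 2 / pq m) * (m / l) := by ring
        rw [h9] at h8
        exact h8.trans (mul_le_mul_of_nonneg_right hΔ (by positivity))
      simp only [cap]
      calc _ ≤ _ := h6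
        _ ≤ 2 / Dc * (m / l) + (2 * ε₁ * (m / l) + ε₁ * (m / l)) := by linarith
        _ = _ := by ring
    · -- X
      refine le_trans ?_ (hcap x)
      have hsub : (univ \ A).filter (fun v => lev v = .inr (.inl x)) ⊆
          M.filter (fun v => X v = x) := by
        intro v hv
        rw [mem_filter] at hv
        obtain ⟨h2, h3⟩ := (levXiff v x).1 hv.2
        rw [mem_filter]
        exact ⟨(mem_sdiff.1 h2).1, h3⟩
      exact_mod_cast card_le_card hsub
    · -- small
      have h4 := hmain ((univ \ A).filter (fun v => lev v = .inr (.inr i))) (2 ^ (i : ℕ))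
        (fun v hv => by
          rw [mem_filter] at hv
          obtain ⟨h2, h3⟩ := levSiff v i hv.2
          have hpos : H.degree v ≠ 0 := by
            obtain ⟨w, hw⟩ := hiso v
            have : 0 < H.degree v := (H.degree_pos_iff_exists_adj v).2 ⟨w, hw⟩
            omega
          have h5 := Nat.pow_log_le_self 2 hpos
          rw [h3] at h5
          exact_mod_cast h5)
      simp only [cap]
      rw [le_div_iff₀ (by positivity)]
      exact h4
  · -- irreflexive
    intro v hv
    exact (hPadj v v hv).1.ne rfl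
  · -- card P
    intro v
    by_cases hv : v ∈ A
    · simp [P, hv]
    · refine le_trans ?_ (hdegA v hv)
      rw [← H.card_neighborFinset_eq_degree]
      apply card_le_card
      intro u hu
      rw [H.mem_neighborFinset]
      exact (hPadj v u hu).1
  · -- reverse
    intro u
    by_cases hu : u ∈ A
    · have : univ.filter (fun v => u ∈ P v) = ∅ := by
        rw [filter_eq_empty_iff]
        intro v _ hv
        exact (hPadj v u hv).2.2 hu
      rw [this]; simp
    · refine le_trans ?_ (hdegA u hu)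
      rw [← H.card_neighborFinset_eq_degree]
      apply card_le_card
      intro v hv
      rw [mem_filter] at hv
      rw [H.mem_neighborFinset]
      exact (hPadj v u hv.2).1.symm
  · -- cost
    intro v
    by_cases hv : v ∈ A
    · have hP : P v = ∅ := by simp [P, hv]
      rw [hP, prod_empty, mul_one]
      rcases lev v with z | x | i
      · exact ht
      · exact hb
      · exact ht
    · rcases hlv : lev v with z | x | i
      · have hprod : ∏ u ∈ P v, rhoS ε m (Sum.inl z : Lev B (pI η m)) (lev u) = 1 := by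
          apply prod_eq_one
          intro u hu
          simp only [P, if_neg hv, hlv, mem_filter] at hu
          by_cases hu2 : u ∈ M \ Bad
          · rw [levX u hu2]; rfl
          · rw [levZ u hu2 hu.2.2.2]; rfl
        rw [hprod, mul_one]
        exact ht
      · have hP : P v = ∅ := by simp [P, hv, hlv]
        rw [hP, prod_empty, mul_one]
        exact hb
      · have hprod : ∏ u ∈ P v, rhoS ε m (Sum.inr (Sum.inr i) : Lev B (pI η m)) (lev u) =
            qi ε m i ^ (P v).card := by
          rw [← prod_const]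
          apply prod_congr rfl
          intro u hu
          simp only [P, if_neg hv, hlv, mem_filter] at hu
          rcases hlu : lev u with z | x | i'
          · rfl
          · rfl
          · have := hu.2.2.2 i' hlu
            simp only [rhoS, if_pos this]
        rw [hprod]
        refine (hT i i.2).trans ?_
        have hcard : (P v).card ≤ 2 ^ ((i : ℕ) + 1) := by
          have h2 : (P v).card ≤ H.degree v := by
            rw [← H.card_neighborFinset_eq_degree]
            apply card_le_card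
            intro u hu
            rw [H.mem_neighborFinset]
            exact (hPadj v u hu).1
          have h3 := (levSiff v i hlv).2
          have h4 := Nat.lt_pow_succ_log_self (b := 2) (by norm_num) (H.degree v)
          rw [h3] at h4
          exact h2.trans h4.le
        have h5 : qi ε m i ^ (2 ^ ((i : ℕ) + 1)) ≤ qi ε m i ^ (P v).card :=
          pow_le_pow_of_le_one (Classify.qi_nonneg _ _ _) (Classify.qi_le_one ε hε m i h1) hcard
        exact mul_le_mul_of_nonneg_left h5 (Nat.cast_nonneg _)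
  · -- cover
    intro u v hu hv hadj
    rcases hlu : lev u with z | x | i
    · -- u in Z
      by_cases hvs : (H.degree v : ℝ) < η * l
      · right; left
        simp only [P, if_neg hv, levS v hvs, mem_filter]
        refine ⟨mem_univ _, hadj.symm, hu, ?_⟩
        intro i' hi'
        rw [hlu] at hi'
        simp at hi'
      · left
        simp only [P, if_neg hu, hlu, mem_filter]
        exact ⟨mem_univ _, hadj, hv, hvs⟩
    · -- u in X
      rcases hlv : lev v with z | y | i'
      · right; left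
        simp only [P, if_neg hv, hlv, mem_filter]
        refine ⟨mem_univ _, hadj.symm, hu, ?_⟩
        have h2 := ((levXiff u x).1 hlu).1
        have h3 := (mem_sdiff.1 h2).1
        rw [hM, mem_filter] at h3
        exact not_lt.2 h3.2.1
      · right; right
        obtain ⟨hu2, hxu⟩ := (levXiff u x).1 hlu
        obtain ⟨hv2, hyv⟩ := (levXiff v y).1 hlv
        have hpu : pre u = (c u, g u) := by simp only [pre, if_pos hu2]
        have hpv : pre v = (c v, g v) := by simp only [pre, if_pos hv2]
        rw [hpu, hpv]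
        intro j j' hjj
        have := hR u v hu2 hv2 hadj j j' hjj
        rw [hxu, hyv] at this
        exact this
      · right; left
        simp only [P, if_neg hv, hlv, mem_filter]
        refine ⟨mem_univ _, hadj.symm, hu, ?_⟩
        intro i'' hi''
        rw [hlu] at hi''
        simp at hi''
    · -- u small
      rcases hlv : lev v with z | y | i'
      · left
        simp only [P, if_neg hu, hlu, mem_filter]
        refine ⟨mem_univ _, hadj, hv, ?_⟩
        intro i'' hi''
        rw [hlv] at hi''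
        simp at hi''
      · left
        simp only [P, if_neg hu, hlu, mem_filter]
        refine ⟨mem_univ _, hadj, hv, ?_⟩
        intro i'' hi''
        rw [hlv] at hi''
        simp at hi''
      · rcases le_total i i' with h | h
        · left
          simp only [P, if_neg hu, hlu, mem_filter]
          refine ⟨mem_univ _, hadj, hv, ?_⟩
          intro i'' hi''
          rw [hlv] at hi''
          simp only [Sum.inr.injEq] at hi''
          rw [← hi'']
          exact h
        · right; left
          simp only [P, if_neg hv, hlv, mem_filter]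
          refine ⟨mem_univ _, hadj.symm, hu, ?_⟩
          intro i'' hi''
          rw [hlu] at hi''
          simp only [Sum.inr.injEq] at hi''
          rw [← hi'']
          exact h
  · -- collisions
    have hqR : (0 : ℝ) < pq m := by exact_mod_cast hq
    have hfib : ∀ x : Fin B, (univ \ A).filter (fun v => lev v = .inr (.inl x)) =
        (M \ Bad).filter (fun v => X v = x) := by
      intro x
      ext v
      rw [mem_filter, mem_filter, mem_sdiff, levXiff]
      constructor
      · rintro ⟨_, h⟩; exact h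
      · rintro h; exact ⟨⟨mem_univ _, hMA v (mem_sdiff.1 h.1).1⟩, h⟩
    have hL : (∑ x : Fin B, (((((univ \ A) ×ˢ (univ \ A)).filter
        (fun p => lev p.1 = .inr (.inl x) ∧
          lev p.2 = .inr (.inl x) ∧ pre p.1 = pre p.2)).card : ℝ))) =
        ((((M \ Bad) ×ˢ (M \ Bad)).filter
          (fun p => X p.1 = X p.2 ∧ c p.1 = c p.2 ∧ g p.1 = g p.2)).card : ℝ) := by
      rw [← Nat.cast_sum]
      congr 1
      rw [card_eq_sum_card_fiberwise (f := fun p => X p.1) (t := univ)
        (fun _ _ => mem_coe.2 (mem_univ _))]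
      apply sum_congr rfl
      intro x _
      congr 1
      ext ⟨u, v⟩
      simp only [mem_filter, mem_product, mem_sdiff, mem_univ, true_and]
      constructor
      · rintro ⟨⟨huA, hvA⟩, hu, hv, hp⟩
        obtain ⟨hu2, hxu⟩ := (levXiff u x).1 hu
        obtain ⟨hv2, hyv⟩ := (levXiff v x).1 hv
        have hpu : pre u = (c u, g u) := by simp only [pre, if_pos hu2]
        have hpv : pre v = (c v, g v) := by simp only [pre, if_pos hv2]
        rw [hpu, hpv, Prod.mk.injEq] at hp
        exact ⟨⟨⟨mem_sdiff.1 hu2, mem_sdiff.1 hv2⟩, by rw [hxu, hyv], hp.1, hp.2⟩, hxu⟩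
      · rintro ⟨⟨⟨hu2, hv2⟩, hX, hc', hg⟩, hxu⟩
        have hu3 : u ∈ M \ Bad := mem_sdiff.2 hu2
        have hv3 : v ∈ M \ Bad := mem_sdiff.2 hv2
        have hpu : pre u = (c u, g u) := by simp only [pre, if_pos hu3]
        have hpv : pre v = (c v, g v) := by simp only [pre, if_pos hv3]
        refine ⟨⟨hMA u hu2.1, hMA v hv2.1⟩, (levXiff u x).2 ⟨hu3, hxu⟩,
          (levXiff v x).2 ⟨hv3, hX ▸ hxu⟩, ?_⟩
        rw [hpu, hpv, hc', hg]
    have hS : ((((M \ Bad) ×ˢ (M \ Bad)).filter (fun p => X p.1 = X p.2)).card : ℝ) =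
        ∑ x : Fin B, (((univ \ A).filter (fun v => lev v = .inr (.inl x))).card : ℝ) ^ 2 := by
      have : (((M \ Bad) ×ˢ (M \ Bad)).filter (fun p => X p.1 = X p.2)).card =
          ∑ x : Fin B, (((univ \ A).filter (fun v => lev v = .inr (.inl x))).card) ^ 2 := by
        rw [card_eq_sum_card_fiberwise (f := fun p => X p.1) (t := univ)
          (fun _ _ => mem_coe.2 (mem_univ _))]
        apply sum_congr rfl
        intro x _
        rw [hfib, sq, ← card_product]
        congr 1
        ext ⟨u, v⟩
        simp only [mem_filter, mem_product]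
        constructor
        · rintro ⟨⟨⟨hu, hv⟩, hX⟩, hx⟩
          exact ⟨⟨hu, hx⟩, hv, by rw [← hX, hx]⟩
        · rintro ⟨⟨hu, hx⟩, hv, hy⟩
          exact ⟨⟨⟨hu, hv⟩, by rw [hx, hy]⟩, hx⟩
      rw [this]
      push_cast
      rfl
    rw [hL]
    refine hcoll.trans ?_
    rw [hS]
    have hsig : 0 ≤ sig2 ε Dc J m := by
      unfold sig2
      rw [mul_assoc, pow_mul]
      exact pow_nonneg (sq_nonneg _) _
    have hM0 : (0 : ℝ) ≤ M.card := Nat.cast_nonneg _
    have hb0 : (0 : ℝ) ≤ (pbg ε J m : ℝ) ^ J := by positivity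
    have hD0 : (0 : ℝ) ≤ (pDel Dc m : ℝ) := Nat.cast_nonneg _
    clear_value M A l
    have e1 : 2 * (M.card : ℝ) ≤ 2 * (ε * χ * (m / l)) := by linarith
    have e2 : (M.card : ℝ) * (pDel Dc m : ℝ) / pq m ≤ ε * χ * (m / l) * (pDel Dc m : ℝ) / pq m :=
      div_le_div_of_nonneg_right (mul_le_mul_of_nonneg_right hMcard hD0) hqR.le
    have e2' : 0 ≤ (M.card : ℝ) * (pDel Dc m : ℝ) / pq m :=
      div_nonneg (mul_nonneg hM0 hD0) hqR.le
    have e3 := pow_le_pow_left₀ e2' e2 2
    have e4 : (M.card : ℝ) * ((pDel Dc m : ℝ) + 1) ^ 2 ≤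
        ε * χ * (m / l) * ((pDel Dc m : ℝ) + 1) ^ 2 :=
      mul_le_mul_of_nonneg_right hMcard (sq_nonneg _)
    refine add_le_add (mul_le_mul_of_nonneg_left (div_le_div_of_nonneg_right ?_ hb0) hsig) e4
    linarith

end Pool.Agent.Lib.MP_1f2a9f_co
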