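import Pool.Agent.Lib.MP_1f2a9f_co.Defs

/-!
# MP_1f2a9f_co : a colouring that is injective on almost all neighbourhoods and balanced
-/

set_option autoImplicit false
set_option linter.unusedSectionVars false

namespace Pool.Agent.Lib.MP_1f2a9f_co

open Finset

namespace Color

/-- number of pairs with equal values -/
theorem card_pairs {V κ : Type} [Fintype κ] [DecidableEq κ] [DecidableEq V] (U : Finset V)
    (f : V → κ) :
    ((U ×ˢ U).filter (fun p => f p.1 = f p.2)).card =
      ∑ y, ((U.filter (fun v => f v = y)).card) ^ 2 := by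
  classical
  rw [Finset.card_eq_sum_card_fiberwise (f := fun p : V × V => f p.1) (t := univ)
    (fun _ _ => Finset.mem_coe.2 (mem_univ _))]
  refine Finset.sum_congr rfl fun y _ => ?_
  rw [sq, ← Finset.card_product]
  congr 1
  ext p
  simp only [mem_filter, mem_product]
  constructor
  · rintro ⟨⟨⟨h1, h2⟩, h3⟩, h4⟩
    exact ⟨⟨h1, h4⟩, h2, h3 ▸ h4⟩
  · rintro ⟨⟨h1, h2⟩, h3, h4⟩
    exact ⟨⟨⟨h1, h3⟩, h2.trans h4.symm⟩, h2⟩

/-- Cauchy-Schwarz: same level pairs against same level and colour pairs -/
theorem cauchy {V Λ : Type} [DecidableEq V] [Fintype Λ] [DecidableEq Λ] (U : Finset V)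
    (lev : V → Λ) (q : ℕ) (c : V → Fin q) :
    (((U ×ˢ U).filter (fun p => lev p.1 = lev p.2)).card : ℝ) ≤
      q * (((U ×ˢ U).filter (fun p => lev p.1 = lev p.2 ∧ c p.1 = c p.2)).card : ℝ) := by
  have h2 : ((U ×ˢ U).filter (fun p => lev p.1 = lev p.2 ∧ c p.1 = c p.2)) =
      (U ×ˢ U).filter (fun p => (fun v => (lev v, c v)) p.1 = (fun v => (lev v, c v)) p.2) := by
    ext p
    simp only [mem_filter, Prod.mk.injEq]
  rw [h2, card_pairs, card_pairs U (fun v => (lev v, c v)), Fintype.sum_prod_type]
  push_cast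
  rw [Finset.mul_sum]
  refine Finset.sum_le_sum fun x _ => ?_
  have h3 : ((U.filter (fun v => lev v = x)).card : ℝ) =
      ∑ a : Fin q, ((U.filter (fun v => (lev v, c v) = (x, a))).card : ℝ) := by
    rw [← Nat.cast_sum]
    congr 1
    rw [Finset.card_eq_sum_card_fiberwise (f := c) (t := univ)
      (fun _ _ => Finset.mem_coe.2 (mem_univ _))]
    refine Finset.sum_congr rfl fun a _ => ?_
    congr 1
    ext v
    simp only [mem_filter, Prod.mk.injEq]
    tauto
  rw [h3]
  have := sq_sum_le_card_mul_sum_sq (s := (univ : Finset (Fin q)))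
    (f := fun a => ((U.filter (fun v => (lev v, c v) = (x, a))).card : ℝ))
  rw [Finset.card_univ, Fintype.card_fin] at this
  exact this

/-- colourings with equal colours at two different vertices -/
theorem card_eq_col {V : Type} [Fintype V] [DecidableEq V] (q : ℕ) {v w : V} (h : v ≠ w) :
    (univ.filter (fun c : V → Fin q => c v = c w)).card * q = Fintype.card (V → Fin q) := by
  classical
  have e : {c : V → Fin q // c v = c w} × Fin q ≃ (V → Fin q) :=
    { toFun := fun p => Function.update p.1.1 v p.2
      invFun := fun c => (⟨Function.update c v (c w), by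
        rw [Function.update_self, Function.update_of_ne h.symm]⟩, c v)
      left_inv := by
        rintro ⟨⟨c, hc⟩, a⟩
        simp only [Function.update_self, Function.update_idem, Function.update_of_ne h.symm,
          Prod.mk.injEq, Subtype.mk.injEq, and_true]
        rw [← hc, Function.update_eq_self]
      right_inv := by
        intro c
        simp }
  have h1 := Fintype.card_congr e
  rw [Fintype.card_prod, Fintype.card_fin, Fintype.card_subtype] at h1
  exact h1

/-- the average over all colourings -/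
theorem sum_col {V : Type} [Fintype V] [DecidableEq V] (q : ℕ) {v w : V} (h : v ≠ w) :
    (q : ℝ) * ∑ c : V → Fin q, (if c v = c w then (1 : ℝ) else 0) =
      Fintype.card (V → Fin q) := by
  rw [Finset.sum_boole, ← card_eq_col q h]
  push_cast
  ring

variable {V Λ : Type} [Fintype V] [DecidableEq V] [Fintype Λ] [DecidableEq Λ]
  (H : SimpleGraph V) [DecidableRel H.Adj] (lev : V → Λ) (q : ℕ)

open Classical in
/-- the bad vertices -/
noncomputable def bad (c : V → Fin q) : Finset V :=
  univ.filter (fun u => ¬ Set.InjOn c {v | H.Adj u v})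

theorem bad_le (c : V → Fin q) :
    ((bad H q c).card : ℝ) ≤
      ∑ u, ∑ v ∈ H.neighborFinset u, ∑ w ∈ (H.neighborFinset u).erase v,
        (if c v = c w then (1 : ℝ) else 0) := by
  classical
  rw [bad, ← Finset.sum_boole]
  refine Finset.sum_le_sum fun u _ => ?_
  have hnn : ∀ v, (0 : ℝ) ≤ ∑ w ∈ (H.neighborFinset u).erase v,
      (if c v = c w then (1 : ℝ) else 0) :=
    fun v => Finset.sum_nonneg fun w _ => by split_ifs <;> norm_num
  by_cases h : Set.InjOn c {v | H.Adj u v}
  · rw [if_neg (not_not.2 h)]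
    exact Finset.sum_nonneg fun v _ => hnn v
  · rw [if_pos h]
    rw [Set.InjOn] at h
    push Not at h
    obtain ⟨v, hv, w, hw, hvw, hne⟩ := h
    have hv' : v ∈ H.neighborFinset u := by
      rw [SimpleGraph.mem_neighborFinset]; exact hv
    have hw' : w ∈ (H.neighborFinset u).erase v := by
      rw [mem_erase, SimpleGraph.mem_neighborFinset]; exact ⟨hne.symm, hw⟩
    calc (1 : ℝ) = (if c v = c w then (1 : ℝ) else 0) := by rw [if_pos hvw]
      _ ≤ ∑ w ∈ (H.neighborFinset u).erase v, (if c v = c w then (1 : ℝ) else 0) :=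
        Finset.single_le_sum (f := fun w => if c v = c w then (1 : ℝ) else 0)
          (fun w _ => by split_ifs <;> norm_num) hw'
      _ ≤ _ := Finset.single_le_sum (f := fun v => ∑ w ∈ (H.neighborFinset u).erase v,
          (if c v = c w then (1 : ℝ) else 0)) (fun v _ => hnn v) hv'

/-- the average number of bad vertices -/
theorem sum_bad {Δ : ℕ} (hΔ : ∀ v, H.degree v ≤ Δ) :
    (q : ℝ) * ∑ c : V → Fin q, ((bad H q c).card : ℝ) ≤
      Fintype.card V * (Δ : ℝ) ^ 2 * Fintype.card (V → Fin q) := by
  calc (q : ℝ) * ∑ c : V → Fin q, ((bad H q c).card : ℝ)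
      ≤ q * ∑ c : V → Fin q, ∑ u, ∑ v ∈ H.neighborFinset u,
          ∑ w ∈ (H.neighborFinset u).erase v, (if c v = c w then (1 : ℝ) else 0) := by
        gcongr with c
        exact bad_le H q c
    _ = ∑ u, ∑ v ∈ H.neighborFinset u, ∑ w ∈ (H.neighborFinset u).erase v,
          (Fintype.card (V → Fin q) : ℝ) := by
        rw [Finset.sum_comm, Finset.mul_sum]
        refine Finset.sum_congr rfl fun u _ => ?_
        rw [Finset.sum_comm, Finset.mul_sum]
        refine Finset.sum_congr rfl fun v _ => ?_
        rw [Finset.sum_comm, Finset.mul_sum]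
        refine Finset.sum_congr rfl fun w hw => ?_
        exact sum_col q (mem_erase.1 hw).1.symm
    _ ≤ ∑ _u : V, (Δ : ℝ) * (Δ * (Fintype.card (V → Fin q) : ℝ)) := by
        refine Finset.sum_le_sum fun u _ => ?_
        calc ∑ v ∈ H.neighborFinset u, ∑ w ∈ (H.neighborFinset u).erase v,
              (Fintype.card (V → Fin q) : ℝ)
            ≤ ∑ v ∈ H.neighborFinset u, (Δ : ℝ) * (Fintype.card (V → Fin q) : ℝ) := by
              refine Finset.sum_le_sum fun v _ => ?_
              rw [Finset.sum_const, nsmul_eq_mul]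
              gcongr
              calc ((H.neighborFinset u).erase v).card ≤ (H.neighborFinset u).card :=
                    Finset.card_erase_le
                _ ≤ Δ := by rw [SimpleGraph.card_neighborFinset_eq_degree]; exact hΔ u
          _ ≤ Δ * (Δ * (Fintype.card (V → Fin q) : ℝ)) := by
              rw [Finset.sum_const, nsmul_eq_mul]
              gcongr
              rw [SimpleGraph.card_neighborFinset_eq_degree]
              exact hΔ u
    _ = Fintype.card V * (Δ : ℝ) ^ 2 * Fintype.card (V → Fin q) := by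
        rw [Finset.sum_const, nsmul_eq_mul, Finset.card_univ]
        ring

/-- the average number of pairs with the same level and colour -/
theorem sum_same (U : Finset V) :
    (q : ℝ) * ∑ c : V → Fin q,
        (((U ×ˢ U).filter (fun p => lev p.1 = lev p.2 ∧ c p.1 = c p.2)).card : ℝ) ≤
      ((((U ×ˢ U).filter (fun p => lev p.1 = lev p.2)).card : ℝ) + q * Fintype.card V) *
        Fintype.card (V → Fin q) := by
  classical
  have h1 : ∀ c : V → Fin q,
      (((U ×ˢ U).filter (fun p => lev p.1 = lev p.2 ∧ c p.1 = c p.2)).card : ℝ) =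
      ∑ p ∈ (U ×ˢ U).filter (fun p => lev p.1 = lev p.2),
        (if c p.1 = c p.2 then (1 : ℝ) else 0) := by
    intro c
    rw [Finset.sum_boole, Finset.filter_filter]
  simp only [h1]
  rw [Finset.sum_comm, Finset.mul_sum]
  calc ∑ p ∈ (U ×ˢ U).filter (fun p => lev p.1 = lev p.2),
        (q : ℝ) * ∑ c : V → Fin q, (if c p.1 = c p.2 then (1 : ℝ) else 0)
      ≤ ∑ p ∈ (U ×ˢ U).filter (fun p => lev p.1 = lev p.2),
          ((Fintype.card (V → Fin q) : ℝ) +
            if p.1 = p.2 then (q : ℝ) * Fintype.card (V → Fin q) else 0) := by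
        refine Finset.sum_le_sum fun p _ => ?_
        split_ifs with hp
        · rw [hp]
          simp
        · rw [sum_col q hp, add_zero]
    _ = (((U ×ˢ U).filter (fun p => lev p.1 = lev p.2)).card : ℝ) *
          Fintype.card (V → Fin q) +
        (((U ×ˢ U).filter (fun p => lev p.1 = lev p.2)).filter
          (fun p => p.1 = p.2)).card * ((q : ℝ) * Fintype.card (V → Fin q)) := by
        rw [Finset.sum_add_distrib, Finset.sum_const, nsmul_eq_mul, ← Finset.sum_filter,
          Finset.sum_const, nsmul_eq_mul]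
    _ ≤ (((U ×ˢ U).filter (fun p => lev p.1 = lev p.2)).card : ℝ) *
          Fintype.card (V → Fin q) +
        Fintype.card V * ((q : ℝ) * Fintype.card (V → Fin q)) := by
        gcongr
        calc (((U ×ˢ U).filter (fun p => lev p.1 = lev p.2)).filter
              (fun p => p.1 = p.2)).card ≤ (univ.image (fun v : V => (v, v))).card := by
              apply Finset.card_le_card
              intro p hp
              rw [mem_filter] at hp
              rw [mem_image]
              exact ⟨p.1, mem_univ _, Prod.ext rfl hp.2⟩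
          _ ≤ Fintype.card V := Finset.card_image_le
    _ = _ := by ring

end Color

theorem exists_coloring {V Λ : Type} [Fintype V] [DecidableEq V] [Fintype Λ] [DecidableEq Λ]
    (H : SimpleGraph V) [DecidableRel H.Adj] (lev : V → Λ) (q Δ : ℕ) (hq : 0 < q)
    (hΔ : ∀ v, H.degree v ≤ Δ) (U : Finset V) :
    ∃ (c : V → Fin q) (Bad : Finset V),
      (∀ u, u ∉ Bad → Set.InjOn c {v | H.Adj u v}) ∧
      (Bad.card : ℝ) ≤ 2 * Fintype.card V * (Δ : ℝ) ^ 2 / q ∧
      ((((U \ Bad) ×ˢ (U \ Bad)).filter (fun p => lev p.1 = lev p.2 ∧ c p.1 = c p.2)).card : ℝ) ≤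
        (((U \ Bad) ×ˢ (U \ Bad)).filter (fun p => lev p.1 = lev p.2)).card / (q : ℝ) +
          2 * Fintype.card V + 2 * Fintype.card V * Bad.card / q := by
  classical
  have hq' : (0 : ℝ) < q := by exact_mod_cast hq
  have : Nonempty (Fin q) := ⟨⟨0, hq⟩⟩
  -- the quantity P
  set M : ℝ := (((U ×ˢ U).filter (fun p => lev p.1 = lev p.2)).card : ℝ) with hM
  set S : (V → Fin q) → ℝ := fun c =>
    (((U ×ˢ U).filter (fun p => lev p.1 = lev p.2 ∧ c p.1 = c p.2)).card : ℝ) with hS
  have hkey : ∀ a : ℝ, 0 ≤ a → ∃ c : V → Fin q,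
      q * ((Color.bad H q c).card : ℝ) + a * (q * S c - M) ≤
        Fintype.card V * (Δ : ℝ) ^ 2 + a * (q * Fintype.card V) := by
    intro a ha
    have h1 := Color.sum_bad H q hΔ
    have h2 := Color.sum_same lev q U
    have h3 : ∑ c : V → Fin q, (q * ((Color.bad H q c).card : ℝ) + a * (q * S c - M)) ≤
        ∑ _c : V → Fin q, (Fintype.card V * (Δ : ℝ) ^ 2 + a * (q * Fintype.card V)) := by
      rw [Finset.sum_add_distrib, ← Finset.mul_sum, ← Finset.mul_sum, Finset.sum_sub_distrib,
        ← Finset.mul_sum, Finset.sum_const, Finset.sum_const, nsmul_eq_mul, nsmul_eq_mul,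
        Finset.card_univ]
      have h4 : (q : ℝ) * ∑ c : V → Fin q, S c - (Fintype.card (V → Fin q) : ℝ) * M ≤
          q * Fintype.card V * Fintype.card (V → Fin q) := by
        have := h2
        simp only [hS]
        rw [← hM] at this
        nlinarith [this]
      have h5 := mul_le_mul_of_nonneg_left h4 ha
      calc _ ≤ Fintype.card V * (Δ : ℝ) ^ 2 * Fintype.card (V → Fin q) +
            a * (q * Fintype.card V * Fintype.card (V → Fin q)) := add_le_add h1 h5
        _ = _ := by ring
    obtain ⟨c, -, hc⟩ := Finset.exists_le_of_sum_le (s := (univ : Finset (V → Fin q)))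
      univ_nonempty h3
    exact ⟨c, hc⟩
  -- conclusion from a suitable colouring
  have hfin : ∀ c : V → Fin q, q * ((Color.bad H q c).card : ℝ) ≤
      2 * Fintype.card V * (Δ : ℝ) ^ 2 → q * S c - M ≤ 2 * (q * Fintype.card V) →
      ∃ (c : V → Fin q) (Bad : Finset V),
      (∀ u, u ∉ Bad → Set.InjOn c {v | H.Adj u v}) ∧
      (Bad.card : ℝ) ≤ 2 * Fintype.card V * (Δ : ℝ) ^ 2 / q ∧
      ((((U \ Bad) ×ˢ (U \ Bad)).filter (fun p => lev p.1 = lev p.2 ∧ c p.1 = c p.2)).card : ℝ) ≤
        (((U \ Bad) ×ˢ (U \ Bad)).filter (fun p => lev p.1 = lev p.2)).card / (q : ℝ) +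
          2 * Fintype.card V + 2 * Fintype.card V * Bad.card / q := by
    intro c h1 h2
    refine ⟨c, Color.bad H q c, ?_, ?_, ?_⟩
    · intro u hu
      by_contra h
      exact hu (by rw [Color.bad, mem_filter]; exact ⟨mem_univ _, h⟩)
    · rw [le_div_iff₀ hq', mul_comm]
      exact h1
    · set Bad := Color.bad H q c with hBad
      have h3 : ((((U \ Bad) ×ˢ (U \ Bad)).filter
          (fun p => lev p.1 = lev p.2 ∧ c p.1 = c p.2)).card : ℝ) ≤ S c := by
        simp only [hS]
        exact_mod_cast Finset.card_le_card (Finset.filter_subset_filter _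
          (Finset.product_subset_product Finset.sdiff_subset Finset.sdiff_subset))
      have h4 : M ≤ (((U \ Bad) ×ˢ (U \ Bad)).filter (fun p => lev p.1 = lev p.2)).card +
          2 * Fintype.card V * Bad.card := by
        have : ((U ×ˢ U).filter (fun p => lev p.1 = lev p.2)) ⊆
            (((U \ Bad) ×ˢ (U \ Bad)).filter (fun p => lev p.1 = lev p.2)) ∪
              ((Bad ×ˢ (univ : Finset V)) ∪ ((univ : Finset V) ×ˢ Bad)) := by
          intro p hp
          rw [mem_filter, mem_product] at hp
          simp only [mem_union, mem_filter, mem_product, mem_sdiff, mem_univ, and_true, true_and]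
          by_cases ha : p.1 ∈ Bad
          · exact Or.inr (Or.inl ha)
          by_cases hb : p.2 ∈ Bad
          · exact Or.inr (Or.inr hb)
          exact Or.inl ⟨⟨⟨hp.1.1, ha⟩, hp.1.2, hb⟩, hp.2⟩
        have h5 := (Finset.card_le_card this).trans ((Finset.card_union_le _ _).trans
          (Nat.add_le_add_left (Finset.card_union_le _ _) _))
        rw [Finset.card_product, Finset.card_product, Finset.card_univ] at h5
        have h6 : M ≤ (((((U \ Bad) ×ˢ (U \ Bad)).filter
            (fun p => lev p.1 = lev p.2)).card + (Bad.card * Fintype.card V +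
              Fintype.card V * Bad.card) : ℕ) : ℝ) := by
          rw [hM]; exact_mod_cast h5
        push_cast at h6
        linarith
      refine h3.trans ?_
      rw [div_add' _ _ _ hq'.ne', ← add_div, le_div_iff₀ hq']
      have h7 : S c * q ≤ M + 2 * (q * Fintype.card V) := by linarith
      linarith
  rcases Nat.eq_zero_or_pos Δ with hΔ0 | hΔ0
  · obtain ⟨c, hc⟩ := hkey 1 zero_le_one
    have hb : (Color.bad H q c).card = 0 := by
      rw [Finset.card_eq_zero, Color.bad, Finset.filter_eq_empty_iff]
      intro u _ h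
      apply h
      intro v hv
      have h1 : 0 < H.degree u := by
        rw [← SimpleGraph.card_neighborFinset_eq_degree, Finset.card_pos]
        exact ⟨v, by rw [SimpleGraph.mem_neighborFinset]; exact hv⟩
      have := hΔ u
      omega
    apply hfin c
    · rw [hb]
      push_cast
      rw [mul_zero]
      positivity
    · rw [hb, hΔ0] at hc
      push_cast at hc
      have : (0 : ℝ) ≤ q * Fintype.card V := by positivity
      nlinarith
  · obtain ⟨c, hc⟩ := hkey ((Δ : ℝ) ^ 2 / q) (by positivity)
    have hΔ1 : (0 : ℝ) < (Δ : ℝ) ^ 2 := by positivity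
    have hP : 0 ≤ q * S c - M := by
      have := Color.cauchy U lev q c
      simp only [hS, hM]
      linarith
    have e1 : (Δ : ℝ) ^ 2 / q * (q * Fintype.card V) = Fintype.card V * (Δ : ℝ) ^ 2 := by
      field_simp
    have hb0 : (0 : ℝ) ≤ q * ((Color.bad H q c).card : ℝ) := by positivity
    have hP2 : 0 ≤ (Δ : ℝ) ^ 2 / q * (q * S c - M) := by positivity
    apply hfin c
    · rw [e1] at hc
      linarith
    · rw [e1] at hc
      have h8 : (Δ : ℝ) ^ 2 / q * (q * S c - M) ≤ 2 * (Fintype.card V * (Δ : ℝ) ^ 2) := by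
        linarith
      have h9 : (Δ : ℝ) ^ 2 * (q * S c - M) ≤ (Δ : ℝ) ^ 2 * (2 * (q * Fintype.card V)) := by
        have := mul_le_mul_of_nonneg_left h8 hq'.le
        calc (Δ : ℝ) ^ 2 * (q * S c - M) = q * ((Δ : ℝ) ^ 2 / q * (q * S c - M)) := by
              field_simp
          _ ≤ _ := this
          _ = _ := by ring
      exact le_of_mul_le_mul_left h9 hΔ1

end Pool.Agent.Lib.MP_1f2a9f_co
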