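import Pool.Agent.Lib.MP_1f2a9f_co.TopDefs

/-!
# Module CONST: the constants exist
-/

namespace Pool.Agent.Lib.MP_1f2a9f_co

theorem exists_consts (ε : ℝ) (hε : 0 < ε) (hε1 : ε ≤ 1 / 1000) :
    ∃ (η χ Dc ε₁ : ℝ) (B K J r : ℕ), Consts ε η χ Dc ε₁ B K J r := by
  set η : ℝ := ε ^ 2 / 2000 with hη
  have hη0 : 0 < η := by positivity
  set χ : ℝ := 2 / (η * ε) with hχ
  have hχ0 : 0 < χ := by positivity
  set Dc : ℝ := 4 * χ / ε with hDc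
  have hDc0 : 0 < Dc := by positivity
  set ε₁ : ℝ := ε / (12 * χ) with hε₁
  have hε₁0 : 0 < ε₁ := by positivity
  obtain ⟨B, hB⟩ := exists_nat_gt (Dc * χ / ε)
  obtain ⟨K, hK⟩ := exists_nat_gt (χ * Dc / ε)
  obtain ⟨J, hJ⟩ := exists_nat_gt (2 * ((K : ℝ) + 1) / ε)
  obtain ⟨r, hr⟩ := pow_unbounded_of_one_lt (ε * χ / ε₁) (by linarith : (1 : ℝ) < 1 + ε)
  have hB0 : (0 : ℝ) < B := lt_trans (by positivity) hB
  have hK0 : (0 : ℝ) < K := lt_trans (by positivity) hK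
  refine ⟨η, χ, Dc, ε₁, B, K, J, r, ⟨hε, hε1, rfl, rfl, rfl, rfl, ?_, ?_, ?_, ?_, ?_, ?_⟩⟩
  · exact_mod_cast hB0
  · rw [div_lt_iff₀ hε] at hB
    rw [← mul_div_assoc, div_le_iff₀ hB0]
    linarith
  · exact_mod_cast hK0
  · rw [div_lt_iff₀ hε] at hK
    linarith
  · rw [div_lt_iff₀ hε₁0] at hr
    linarith
  · rw [div_lt_iff₀ hε] at hJ
    linarith

end Pool.Agent.Lib.MP_1f2a9f_co
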