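import Pool.Agent.Lib.MP_1f2a9f_co.TopDefs

/-! # MP_1f2a9f_co : the number of edges of the relation `Q` -/

namespace Pool.Agent.Lib.MP_1f2a9f_co

open Finset

namespace CostQ

theorem geo (a : ℝ) (ha : 0 < a) (B : ℕ) :
    ∑ x : Fin B, Real.exp (-(a * ((x : ℝ) + 1))) ≤ 1 / a := by
  have hr : a * Real.exp (-a) ≤ 1 - Real.exp (-a) := by
    have h1 : a + 1 ≤ Real.exp a := Real.add_one_le_exp a
    have h2 : Real.exp (-a) * Real.exp a = 1 := by rw [← Real.exp_add]; simp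
    have h3 := mul_le_mul_of_nonneg_left h1 (Real.exp_pos (-a)).le
    rw [h2] at h3
    linarith
  have key : ∀ n : ℕ, a * ∑ x ∈ range n, Real.exp (-(a * ((x : ℝ) + 1))) ≤
      1 - Real.exp (-(a * n)) := by
    intro n
    induction n with
    | zero => simp
    | succ n ih =>
      rw [Finset.sum_range_succ, mul_add]
      have e : Real.exp (-(a * ((n : ℝ) + 1))) = Real.exp (-(a * n)) * Real.exp (-a) := by
        rw [← Real.exp_add]; congr 1; ring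
      have h := mul_le_mul_of_nonneg_left hr (Real.exp_pos (-(a * n))).le
      push_cast
      rw [e]
      nlinarith
  rw [Fin.sum_univ_eq_sum_range (fun x => Real.exp (-(a * ((x : ℝ) + 1)))) B, le_div_iff₀ ha,
    mul_comm]
  exact (key B).trans (by linarith [Real.exp_pos (-(a * (B : ℝ)))])

theorem ev {ε : ℝ} (hε : 0 < ε) {J : ℕ} (hJ : 0 < J) :
    ∃ m0 : ℕ, ∀ m ≥ m0, (1 + pgamg ε J m) ^ J ≤ 1 + ε := by
  have h1 : Filter.Tendsto (fun m : ℕ => (m : ℝ) ^ (-(ε / (16 * J)))) Filter.atTop (nhds 0) :=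
    (tendsto_rpow_neg_atTop (by positivity)).comp tendsto_natCast_atTop_atTop
  have h2 : Filter.Tendsto (fun m : ℕ => (1 + (m : ℝ) ^ (-(ε / (16 * J)))) ^ J) Filter.atTop
      (nhds ((1 + 0) ^ J)) := (h1.const_add 1).pow J
  have h3 : ∀ᶠ m : ℕ in Filter.atTop, (1 + (m : ℝ) ^ (-(ε / (16 * J)))) ^ J < 1 + ε :=
    h2.eventually (gt_mem_nhds (by rw [add_zero, one_pow]; linarith))
  obtain ⟨m0, hm0⟩ := Filter.eventually_atTop.1 h3
  exact ⟨m0, fun m hm => (hm0 m hm).le⟩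

end CostQ

theorem cost_Q {ε η χ Dc ε₁ : ℝ} {B K J r : ℕ} (hc : Consts ε η χ Dc ε₁ B K J r) :
    ∃ m0 : ℕ, ∀ m ≥ m0,
      1 / 2 * ∑ l : Lev B (pI η m), ∑ l' : Lev B (pI η m), rhoQ ε χ J m l l' *
        ((1 + 2 * ε) * cap ε χ Dc ε₁ m l) * ((1 + 2 * ε) * cap ε χ Dc ε₁ m l') ≤
        (1 / 2 + 40 * ε) * (m / Real.log m) ^ 2 := by
  have hε := hc.hε
  have hε1 := hc.hε1
  have hJ : 0 < J := by
    rcases Nat.eq_zero_or_pos J with h | h
    · have := hc.hJ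
      rw [h] at this
      have hK : (0 : ℝ) ≤ K := Nat.cast_nonneg K
      simp at this
      linarith
    · exact h
  have hη : 0 < η := by rw [hc.hη]; positivity
  have hχ : 0 < χ := by rw [hc.hχ]; positivity
  have hB : (0 : ℝ) < B := by exact_mod_cast hc.hB
  obtain ⟨m0, hm0⟩ := CostQ.ev hε hJ
  refine ⟨m0, fun m hm => ?_⟩
  have hg := hm0 m hm
  set s : ℝ := (m : ℝ) / Real.log m with hs
  set a : ℝ := (1 - 12 * ε) * (χ / B) with ha
  have ha0 : 0 < a := by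
    rw [ha]; exact mul_pos (by linarith) (div_pos hχ hB)
  set c : ℝ := (1 + 2 * ε) * ((1 + 3 * ε) * (χ / B) * s) with hcdef
  have hsum : ∑ l : Lev B (pI η m), ∑ l' : Lev B (pI η m), rhoQ ε χ J m l l' *
        ((1 + 2 * ε) * cap ε χ Dc ε₁ m l) * ((1 + 2 * ε) * cap ε χ Dc ε₁ m l') =
      (1 + pgamg ε J m) ^ J * c ^ 2 * (∑ x : Fin B, Real.exp (-(a * ((x : ℝ) + 1)))) ^ 2 := by
    simp only [Fintype.sum_sum_type, rhoQ, cap, zero_mul, Finset.sum_const_zero, add_zero,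
      zero_add]
    rw [sq (∑ x : Fin B, Real.exp (-(a * ((x : ℝ) + 1)))), Finset.sum_mul_sum, Finset.mul_sum]
    refine Finset.sum_congr rfl fun x _ => ?_
    rw [Finset.mul_sum]
    refine Finset.sum_congr rfl fun y _ => ?_
    have e : Real.exp (-((1 - 12 * ε) * ((x : ℝ) + (y : ℝ) + 2) * (χ / B))) =
        Real.exp (-(a * ((x : ℝ) + 1))) * Real.exp (-(a * ((y : ℝ) + 1))) := by
      rw [← Real.exp_add, ha]; congr 1; ring
    rw [e, hcdef, hs]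
    ring
  rw [hsum]
  have hG := CostQ.geo a ha0 B
  have hG0 : 0 ≤ ∑ x : Fin B, Real.exp (-(a * ((x : ℝ) + 1))) :=
    Finset.sum_nonneg fun x _ => (Real.exp_pos _).le
  have hG2 : (∑ x : Fin B, Real.exp (-(a * ((x : ℝ) + 1)))) ^ 2 ≤ (1 / a) ^ 2 :=
    pow_le_pow_left₀ hG0 hG 2
  have hgam0 : 0 ≤ (1 + pgamg ε J m) ^ J := by
    have : 0 ≤ pgamg ε J m := by unfold pgamg; positivity
    positivity
  have hca : c * (1 / a) = (1 + 2 * ε) * (1 + 3 * ε) / (1 - 12 * ε) * s := by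
    rw [hcdef, ha]
    have h12 : (1 - 12 * ε) ≠ 0 := by linarith
    have hχ' := hχ.ne'
    have hB' := hB.ne'
    field_simp
  have hfrac : (1 + 2 * ε) * (1 + 3 * ε) / (1 - 12 * ε) ≤ 1 + 18 * ε := by
    rw [div_le_iff₀ (by linarith)]
    nlinarith
  have hfrac0 : 0 ≤ (1 + 2 * ε) * (1 + 3 * ε) / (1 - 12 * ε) :=
    div_nonneg (by positivity) (by linarith)
  calc 1 / 2 * ((1 + pgamg ε J m) ^ J * c ^ 2 *
        (∑ x : Fin B, Real.exp (-(a * ((x : ℝ) + 1)))) ^ 2)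
      ≤ 1 / 2 * ((1 + ε) * c ^ 2 * (1 / a) ^ 2) := by
        gcongr
    _ = 1 / 2 * (1 + ε) * (c * (1 / a)) ^ 2 := by ring
    _ = 1 / 2 * (1 + ε) * (((1 + 2 * ε) * (1 + 3 * ε) / (1 - 12 * ε)) ^ 2) * s ^ 2 := by
        rw [hca]; ring
    _ ≤ 1 / 2 * (1 + ε) * (1 + 18 * ε) ^ 2 * s ^ 2 := by
        gcongr
    _ ≤ (1 / 2 + 40 * ε) * s ^ 2 := by
        gcongr
        nlinarith [mul_pos hε hε, mul_pos (mul_pos hε hε) hε]

end Pool.Agent.Lib.MP_1f2a9f_co
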