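import Pool.Agent.Lib.MP_1f2a9f_co.TopDefs

/-! # MP_1f2a9f_co : the number of edges of the relation `S` -/

namespace Pool.Agent.Lib.MP_1f2a9f_co

open Finset

namespace CostS

theorem sum4 (A : ℝ) (I : ℕ) (h : ∀ i < I, (2 : ℝ) ^ i < A) :
    ∑ i ∈ range I, (4 : ℝ) ^ i ≤ 4 / 3 * A ^ 2 := by
  cases I with
  | zero => simp; positivity
  | succ n =>
    rw [geom_sum_eq (by norm_num)]
    have h1 := h n (Nat.lt_succ_self n)
    have h2 : (4 : ℝ) ^ (n + 1) = 4 * (2 ^ n) ^ 2 := by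
      rw [← pow_mul, mul_comm n 2, pow_mul, pow_succ]; norm_num; ring
    have h3 : ((2 : ℝ) ^ n) ^ 2 ≤ A ^ 2 := pow_le_pow_left₀ (by positivity) h1.le 2
    rw [h2]
    linarith

theorem exp3 (t : ℝ) (ht : 0 < t) : t * Real.exp (-(t / 4)) ≤ 384 / t ^ 2 := by
  have h := Real.pow_div_factorial_le_exp (t / 4) (by positivity) 3
  have h2 : Real.exp (-(t / 4)) ≤ ((t / 4) ^ 3 / (Nat.factorial 3 : ℕ))⁻¹ := by
    rw [Real.exp_neg]
    exact inv_anti₀ (by positivity) h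
  refine (mul_le_mul_of_nonneg_left h2 ht.le).trans (le_of_eq ?_)
  simp only [Nat.factorial]
  field_simp
  norm_num

theorem exp4 (t : ℝ) (ht : 0 < t) : t ^ 2 * Real.exp (-(t / 4)) ≤ 6144 / t ^ 2 := by
  have h := Real.pow_div_factorial_le_exp (t / 4) (by positivity) 4
  have h2 : Real.exp (-(t / 4)) ≤ ((t / 4) ^ 4 / (Nat.factorial 4 : ℕ))⁻¹ := by
    rw [Real.exp_neg]
    exact inv_anti₀ (by positivity) h
  refine (mul_le_mul_of_nonneg_left h2 (by positivity)).trans (le_of_eq ?_)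
  simp only [Nat.factorial]
  field_simp
  norm_num

theorem qle (ε : ℝ) (m i : ℕ) : qi ε m i ≤
    Real.exp (-(Real.log m / 2 ^ i / 4)) + Real.exp (-(ε * Real.log m / 16)) := by
  have e : Real.log m / 2 ^ (i + 2) = Real.log m / 2 ^ i / 4 := by
    rw [pow_add, div_div]; norm_num
  unfold qi
  rw [e]
  rcases min_choice (Real.log m / 2 ^ i / 4) (ε * Real.log m / 16) with h | h
  · rw [h]; linarith [Real.exp_pos (-(ε * Real.log m / 16))]
  · rw [h]; linarith [Real.exp_pos (-(Real.log m / 2 ^ i / 4))]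

theorem half (I : ℕ) : ∑ i ∈ range I, (1 / (2 : ℝ)) ^ i ≤ 2 := sum_geometric_two_le I

section

variable {ε η : ℝ} {m I : ℕ} (hη : 0 < η) (hL : 1 ≤ Real.log m)
  (hE : (Real.log m) ^ 2 * Real.exp (-(ε * Real.log m / 16)) ≤ η ^ 2)
  (hI : ∀ i < I, (2 : ℝ) ^ i < η * Real.log m)

include hη hL hE hI

theorem sumA1 : ∑ i ∈ range I, qi ε m i * (Real.log m / 2 ^ i) ≤ 514 * η ^ 2 := by
  set L := Real.log m with hLdef
  set E := Real.exp (-(ε * L / 16)) with hEdef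
  have hL0 : 0 < L := by linarith
  have hE0 : 0 < E := Real.exp_pos _
  have h1 : ∀ i ∈ range I, qi ε m i * (L / 2 ^ i) ≤
      384 / L ^ 2 * 4 ^ i + L * E * (1 / (2 : ℝ)) ^ i := by
    intro i _
    have ht : 0 < L / 2 ^ i := by positivity
    have h2 := mul_le_mul_of_nonneg_right (qle ε m i) ht.le
    have h3 := exp3 (L / 2 ^ i) ht
    have e1 : 384 / (L / 2 ^ i) ^ 2 = 384 / L ^ 2 * 4 ^ i := by
      have : (4 : ℝ) ^ i = (2 ^ i) ^ 2 := by
        rw [← pow_mul, mul_comm i 2, pow_mul]; norm_num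
      rw [this]
      field_simp
    have e2 : E * (L / 2 ^ i) = L * E * (1 / (2 : ℝ)) ^ i := by
      rw [one_div, inv_pow]; ring
    rw [e1] at h3
    rw [add_mul, e2] at h2
    linarith
  refine (Finset.sum_le_sum h1).trans ?_
  rw [Finset.sum_add_distrib, ← Finset.mul_sum, ← Finset.mul_sum]
  have h4 := sum4 (η * L) I hI
  have h5 : 384 / L ^ 2 * ∑ i ∈ range I, (4 : ℝ) ^ i ≤ 384 / L ^ 2 * (4 / 3 * (η * L) ^ 2) :=
    mul_le_mul_of_nonneg_left h4 (by positivity)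
  have h6 : 384 / L ^ 2 * (4 / 3 * (η * L) ^ 2) = 512 * η ^ 2 := by field_simp; norm_num
  have h7 : L * E * ∑ i ∈ range I, (1 / (2 : ℝ)) ^ i ≤ L * E * 2 :=
    mul_le_mul_of_nonneg_left (half I) (by positivity)
  have h8 : L * E ≤ L ^ 2 * E := by
    apply mul_le_mul_of_nonneg_right _ hE0.le
    nlinarith
  nlinarith

theorem sumA2 : ∑ i ∈ range I, qi ε m i * (Real.log m / 2 ^ i) ^ 2 ≤ 8194 * η ^ 2 := by
  set L := Real.log m with hLdef
  set E := Real.exp (-(ε * L / 16)) with hEdef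
  have hL0 : 0 < L := by linarith
  have hE0 : 0 < E := Real.exp_pos _
  have h1 : ∀ i ∈ range I, qi ε m i * (L / 2 ^ i) ^ 2 ≤
      6144 / L ^ 2 * 4 ^ i + L ^ 2 * E * (1 / (2 : ℝ)) ^ i := by
    intro i _
    have ht : 0 < L / 2 ^ i := by positivity
    have h2 := mul_le_mul_of_nonneg_right (qle ε m i) (sq_nonneg (L / 2 ^ i))
    have h3 := exp4 (L / 2 ^ i) ht
    have e1 : 6144 / (L / 2 ^ i) ^ 2 = 6144 / L ^ 2 * 4 ^ i := by
      have : (4 : ℝ) ^ i = (2 ^ i) ^ 2 := by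
        rw [← pow_mul, mul_comm i 2, pow_mul]; norm_num
      rw [this]
      field_simp
    have e2 : E * (L / 2 ^ i) ^ 2 ≤ L ^ 2 * E * (1 / (2 : ℝ)) ^ i := by
      have h10 : (1 / (2 : ℝ)) ^ i ≤ 1 := pow_le_one₀ (by norm_num) (by norm_num)
      have h11 : 0 ≤ (1 / (2 : ℝ)) ^ i := by positivity
      have e3 : E * (L / 2 ^ i) ^ 2 = L ^ 2 * E * ((1 / (2 : ℝ)) ^ i * (1 / (2 : ℝ)) ^ i) := by
        rw [one_div, inv_pow]; ring
      rw [e3]
      apply mul_le_mul_of_nonneg_left _ (by positivity)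
      nlinarith
    rw [e1] at h3
    rw [add_mul] at h2
    nlinarith
  refine (Finset.sum_le_sum h1).trans ?_
  rw [Finset.sum_add_distrib, ← Finset.mul_sum, ← Finset.mul_sum]
  have h4 := sum4 (η * L) I hI
  have h5 : 6144 / L ^ 2 * ∑ i ∈ range I, (4 : ℝ) ^ i ≤ 6144 / L ^ 2 * (4 / 3 * (η * L) ^ 2) :=
    mul_le_mul_of_nonneg_left h4 (by positivity)
  have h6 : 6144 / L ^ 2 * (4 / 3 * (η * L) ^ 2) = 8192 * η ^ 2 := by field_simp; norm_num
  have h7 : L ^ 2 * E * ∑ i ∈ range I, (1 / (2 : ℝ)) ^ i ≤ L ^ 2 * E * 2 :=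
    mul_le_mul_of_nonneg_left (half I) (by positivity)
  nlinarith

end

/-- tail of the geometric series -/
theorem tail (I i : ℕ) : ∑ j ∈ range I, (if i ≤ j then (1 / (2 : ℝ)) ^ j else 0) ≤
    2 * (1 / (2 : ℝ)) ^ i := by
  have key : ∀ n, ∑ j ∈ range n, (if i ≤ j then (1 / (2 : ℝ)) ^ j else 0) ≤
      2 * (1 / (2 : ℝ)) ^ i - (if i ≤ n then 2 * (1 / (2 : ℝ)) ^ n else 0) := by
    intro n
    induction n with
    | zero =>
      simp only [Finset.range_zero, Finset.sum_empty]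
      split_ifs with h
      · have : i = 0 := by omega
        subst this; simp
      · rw [sub_zero]; positivity
    | succ n ih =>
      rw [Finset.sum_range_succ]
      by_cases h : i ≤ n
      · rw [if_pos h] at ih ⊢
        rw [if_pos (by omega)]
        rw [pow_succ]
        nlinarith [pow_pos (show (0 : ℝ) < 1 / 2 by norm_num) n]
      · rw [if_neg h] at ih ⊢
        by_cases h' : i ≤ n + 1
        · have : i = n + 1 := by omega
          rw [if_pos h', add_zero]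
          subst this
          have h0 : ∑ j ∈ range n, (if n + 1 ≤ j then (1 / (2 : ℝ)) ^ j else 0) = 0 := by
            apply Finset.sum_eq_zero
            intro j hj
            rw [Finset.mem_range] at hj
            rw [if_neg (by omega)]
          rw [h0]; simp
        · rw [if_neg h']
          linarith
  refine (key I).trans ?_
  split_ifs
  · have : 0 ≤ 2 * (1 / (2 : ℝ)) ^ I := by positivity
    linarith
  · linarith

theorem ev {ε η : ℝ} (hε : 0 < ε) (hη : 0 < η) : ∃ m0 : ℕ, ∀ m ≥ m0,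
    1 ≤ Real.log m ∧ (Real.log m) ^ 2 * Real.exp (-(ε * Real.log m / 16)) ≤ η ^ 2 ∧
      pgam ε m ≤ 1 := by
  have hlog : Filter.Tendsto (fun m : ℕ => Real.log m) Filter.atTop Filter.atTop :=
    Real.tendsto_log_atTop.comp tendsto_natCast_atTop_atTop
  have h1 : ∀ᶠ m : ℕ in Filter.atTop, 1 ≤ Real.log m := hlog.eventually_ge_atTop 1
  have h2 : Filter.Tendsto (fun x : ℝ => x ^ 2 * Real.exp (-x)) Filter.atTop (nhds 0) :=
    Real.tendsto_pow_mul_exp_neg_atTop_nhds_zero 2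
  have h3 : Filter.Tendsto (fun m : ℕ => ε / 16 * Real.log m) Filter.atTop Filter.atTop :=
    hlog.const_mul_atTop (by positivity)
  have h4 := h2.comp h3
  have h5 : ∀ᶠ m : ℕ in Filter.atTop,
      (ε / 16 * Real.log m) ^ 2 * Real.exp (-(ε / 16 * Real.log m)) < (ε / 16) ^ 2 * η ^ 2 :=
    h4.eventually (gt_mem_nhds (by positivity))
  have h6 : Filter.Tendsto (fun m : ℕ => (m : ℝ) ^ (-(ε / 64))) Filter.atTop (nhds 0) :=
    (tendsto_rpow_neg_atTop (by positivity)).comp tendsto_natCast_atTop_atTop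
  have h7 : ∀ᶠ m : ℕ in Filter.atTop, (m : ℝ) ^ (-(ε / 64)) < 1 :=
    h6.eventually (gt_mem_nhds one_pos)
  obtain ⟨m0, hm0⟩ := Filter.eventually_atTop.1 (h1.and (h5.and h7))
  refine ⟨m0, fun m hm => ?_⟩
  obtain ⟨a, b, c⟩ := hm0 m hm
  refine ⟨a, ?_, c.le⟩
  have e : ε * Real.log m / 16 = ε / 16 * Real.log m := by ring
  rw [e]
  have hp : (0 : ℝ) < (ε / 16) ^ 2 := by positivity
  have : (ε / 16) ^ 2 * ((Real.log m) ^ 2 * Real.exp (-(ε / 16 * Real.log m))) ≤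
      (ε / 16) ^ 2 * η ^ 2 := by
    have := b.le
    rw [mul_pow] at this
    linarith
  exact le_of_mul_le_mul_left this hp

theorem numbers {ε η χ Dc ε₁ A1 A2 : ℝ} (hε : 0 < ε) (hε1 : ε ≤ 1 / 1000)
    (hηv : η = ε ^ 2 / 2000) (hχv : χ = 2 / (η * ε)) (hDcv : Dc = 4 * χ / ε)
    (hε₁v : ε₁ = ε / (12 * χ)) (hA1 : A1 ≤ 514 * η ^ 2)
    (hA2 : A2 ≤ 8194 * η ^ 2) :
    (2 / Dc + 3 * ε₁) ^ 2 + (2 / Dc + 3 * ε₁) * ((1 + 3 * ε) * χ) +
      2 * A1 * ((2 / Dc + 3 * ε₁) + (1 + 3 * ε) * χ) + 8 * A2 ≤ 6 * ε := by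
  have hη : 0 < η := by rw [hηv]; positivity
  have hχ : 0 < χ := by rw [hχv]; positivity
  have hεε : ε ^ 2 ≤ ε / 1000 := by
    rw [sq]
    calc ε * ε ≤ ε * (1 / 1000) := mul_le_mul_of_nonneg_left hε1 hε.le
      _ = ε / 1000 := by ring
  have hη1 : η ≤ ε / 2000000 := by rw [hηv]; linarith
  have hη01 : η ≤ 1 / 2000000000 := by linarith
  have hκv : 2 / Dc + 3 * ε₁ = 3 / 8 * (ε ^ 2 * η) := by
    rw [hDcv, hε₁v, hχv]
    field_simp
    norm_num
  have hξv : (1 + 3 * ε) * χ = (1 + 3 * ε) * 2 / (η * ε) := by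
    rw [hχv]; ring
  rw [hκv]
  set κ : ℝ := 3 / 8 * (ε ^ 2 * η) with hκ
  set ξ : ℝ := (1 + 3 * ε) * χ with hξ
  have hεη : ε ^ 2 * η ≤ ε / 1000 * (1 / 2000000000) := by
    apply mul_le_mul hεε hη01 hη.le (by positivity)
  have hκ0 : 0 ≤ κ := by rw [hκ]; positivity
  have hκ1 : κ ≤ ε / 2 := by rw [hκ]; linarith
  have hκ2 : κ ≤ 1 := by linarith
  have hκξ : κ * ξ ≤ ε := by
    have : κ * ξ = 3 / 4 * ε * (1 + 3 * ε) := by
      rw [hκ, hξv]; field_simp; ring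
    rw [this]
    have h1 : 3 / 4 * ε * (1 + 3 * ε) = 3 / 4 * ε + 9 / 4 * ε ^ 2 := by ring
    rw [h1]; linarith
  have hξ0 : 0 ≤ ξ := by rw [hξ]; positivity
  have hA1ξ : 2 * A1 * ξ ≤ 2 * ε := by
    have h1 : 2 * A1 * ξ ≤ 2 * (514 * η ^ 2) * ξ := by gcongr
    refine h1.trans ?_
    rw [hξv]
    have : 2 * (514 * η ^ 2) * ((1 + 3 * ε) * 2 / (η * ε)) = 2056 * η * (1 + 3 * ε) / ε := by
      field_simp; ring
    rw [this, div_le_iff₀ hε, hηv]
    have h2 : 1 + 3 * ε ≤ 101 / 100 := by linarith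
    have h3 : 2056 * (ε ^ 2 / 2000) * (1 + 3 * ε) ≤ 2056 * (ε ^ 2 / 2000) * (101 / 100) :=
      mul_le_mul_of_nonneg_left h2 (by positivity)
    have h4 : 0 ≤ ε ^ 2 := sq_nonneg ε
    have h5 : 2 * ε * ε = 2 * ε ^ 2 := by ring
    rw [h5]
    linarith
  have hη2 : η ^ 2 ≤ ε / 2000000 * (1 / 2000000000) := by
    rw [sq]; exact mul_le_mul hη1 hη01 hη.le (by positivity)
  have hA1κ : 2 * A1 * κ ≤ ε := by
    have h1 : 2 * A1 ≤ 1 := by linarith
    calc 2 * A1 * κ ≤ 1 * κ := mul_le_mul_of_nonneg_right h1 hκ0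
      _ ≤ ε := by linarith
  have hA2' : 8 * A2 ≤ ε / 2 := by linarith
  have hκκ : κ ^ 2 ≤ ε / 2 := by
    rw [sq]
    calc κ * κ ≤ κ * 1 := mul_le_mul_of_nonneg_left hκ2 hκ0
      _ ≤ ε / 2 := by linarith
  have hexp : 2 * A1 * (κ + ξ) = 2 * A1 * κ + 2 * A1 * ξ := by ring
  rw [hexp]
  linarith

end CostS

theorem cost_S {ε η χ Dc ε₁ : ℝ} {B K J r : ℕ} (hc : Consts ε η χ Dc ε₁ B K J r) :
    ∃ m0 : ℕ, ∀ m ≥ m0,
      ∑ l : Lev B (pI η m), ∑ l' : Lev B (pI η m), (1 + pgam ε m) * rhoS ε m l l' *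
        ((1 + 2 * ε) * cap ε χ Dc ε₁ m l) * ((1 + 2 * ε) * cap ε χ Dc ε₁ m l') ≤
        40 * ε * (m / Real.log m) ^ 2 := by
  have hε := hc.hε
  have hε1 := hc.hε1
  have hη : 0 < η := by rw [hc.hη]; positivity
  have hχ : 0 < χ := by rw [hc.hχ]; positivity
  have hB : (0 : ℝ) < B := by exact_mod_cast hc.hB
  obtain ⟨m0, hm0⟩ := CostS.ev hε hη
  refine ⟨m0, fun m hm => ?_⟩
  obtain ⟨hL, hE, hγ⟩ := hm0 m hm
  have hI : ∀ i < pI η m, (2 : ℝ) ^ i < η * Real.log m := by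
    intro i hi
    have h1 : (i : ℝ) < Real.logb 2 (η * Real.log m) := Nat.lt_ceil.1 hi
    have h2 := (Real.lt_logb_iff_rpow_lt (by norm_num : (1 : ℝ) < 2)
      (by positivity : 0 < η * Real.log m)).1 h1
    rwa [Real.rpow_natCast] at h2
  have hA1 := CostS.sumA1 hη hL hE hI
  have hA2 := CostS.sumA2 hη hL hE hI
  set L := Real.log m with hLdef
  have hL0 : 0 < L := by linarith
  set s : ℝ := (m : ℝ) / L with hs
  have hms : (m : ℝ) = s * L := by rw [hs, div_mul_cancel₀ _ hL0.ne']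
  set κ : ℝ := 2 / Dc + 3 * ε₁ with hκ
  set ξ : ℝ := (1 + 3 * ε) * χ with hξ
  set A1 := ∑ i ∈ range (pI η m), qi ε m i * (L / 2 ^ i) with hA1def
  set A2 := ∑ i ∈ range (pI η m), qi ε m i * (L / 2 ^ i) ^ 2 with hA2def
  have hqpos : ∀ i, 0 < qi ε m i := fun i => Real.exp_pos _
  have hA10 : 0 ≤ A1 := Finset.sum_nonneg fun i _ => by
    have := hqpos i
    positivity
  have hA20 : 0 ≤ A2 := Finset.sum_nonneg fun i _ => by
    have := hqpos i
    positivity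
  -- the double sum
  have hsum : ∑ l : Lev B (pI η m), ∑ l' : Lev B (pI η m), rhoS ε m l l' *
        cap ε χ Dc ε₁ m l * cap ε χ Dc ε₁ m l' ≤
      s ^ 2 * (κ ^ 2 + κ * ξ + 2 * A1 * (κ + ξ) + 8 * A2) := by
    have hX : ∑ x : Fin B, cap ε χ Dc ε₁ m (B := B) (I := pI η m) (.inr (.inl x)) = ξ * s := by
      simp only [cap, Finset.sum_const, Finset.card_univ, Fintype.card_fin, nsmul_eq_mul]
      rw [← hLdef, ← hs, hξ]
      field_simp
    have hZ : cap ε χ Dc ε₁ m (B := B) (I := pI η m) (.inl ()) = κ * s := rfl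
    have hT : ∀ i : Fin (pI η m), cap ε χ Dc ε₁ m (B := B) (I := pI η m) (.inr (.inr i)) =
        2 * s * (L / 2 ^ (i : ℕ)) := by
      intro i
      simp only [cap]
      rw [hms]; ring
    have hrow1 : ∑ l' : Lev B (pI η m), rhoS ε m (.inl ()) l' *
        cap ε χ Dc ε₁ m (B := B) (I := pI η m) (.inl ()) * cap ε χ Dc ε₁ m l' =
        κ * s * (κ * s + ξ * s) := by
      simp only [Fintype.sum_sum_type, rhoS, one_mul, zero_mul, Finset.sum_const_zero, add_zero,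
        Finset.univ_unique, Finset.sum_singleton]
      rw [← Finset.mul_sum, hX]
      change cap ε χ Dc ε₁ m (B := B) (I := pI η m) (.inl ()) *
        cap ε χ Dc ε₁ m (B := B) (I := pI η m) (.inl ()) + _ = _
      rw [hZ]; ring
    have hrow2 : ∀ x : Fin B, ∑ l' : Lev B (pI η m), rhoS ε m (.inr (.inl x)) l' *
        cap ε χ Dc ε₁ m (B := B) (I := pI η m) (.inr (.inl x)) * cap ε χ Dc ε₁ m l' = 0 := by
      intro x
      simp only [rhoS, zero_mul, Finset.sum_const_zero]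
    have hrow3 : ∀ i : Fin (pI η m), ∑ l' : Lev B (pI η m), rhoS ε m (.inr (.inr i)) l' *
        cap ε χ Dc ε₁ m (B := B) (I := pI η m) (.inr (.inr i)) * cap ε χ Dc ε₁ m l' ≤
        s ^ 2 * (2 * (κ + ξ) * (qi ε m i * (L / 2 ^ (i : ℕ))) +
          8 * (qi ε m i * (L / 2 ^ (i : ℕ)) ^ 2)) := by
      intro i
      simp only [Fintype.sum_sum_type, rhoS, Finset.univ_unique, Finset.sum_singleton]
      have e1 : ∑ x : Fin B, qi ε m i * cap ε χ Dc ε₁ m (B := B) (I := pI η m) (.inr (.inr i)) *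
          cap ε χ Dc ε₁ m (B := B) (I := pI η m) (.inr (.inl x)) =
          qi ε m i * (2 * s * (L / 2 ^ (i : ℕ))) * (ξ * s) := by
        rw [← Finset.mul_sum, hX, hT]
      have e2 : ∑ i' : Fin (pI η m), (if i ≤ i' then qi ε m i else 0) *
          cap ε χ Dc ε₁ m (B := B) (I := pI η m) (.inr (.inr i)) *
          cap ε χ Dc ε₁ m (B := B) (I := pI η m) (.inr (.inr i')) ≤
          s ^ 2 * (8 * (qi ε m i * (L / 2 ^ (i : ℕ)) ^ 2)) := by
        have e3 : ∀ i' : Fin (pI η m), (if i ≤ i' then qi ε m i else 0) *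
            cap ε χ Dc ε₁ m (B := B) (I := pI η m) (.inr (.inr i)) *
            cap ε χ Dc ε₁ m (B := B) (I := pI η m) (.inr (.inr i')) =
            4 * s ^ 2 * L * (qi ε m i * (L / 2 ^ (i : ℕ))) *
              (if (i : ℕ) ≤ (i' : ℕ) then (1 / (2 : ℝ)) ^ (i' : ℕ) else 0) := by
          intro i'
          rw [hT, hT]
          by_cases h : i ≤ i'
          · have h' : (i : ℕ) ≤ (i' : ℕ) := h
            rw [if_pos h, if_pos h', one_div, inv_pow]
            ring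
          · have h' : ¬ (i : ℕ) ≤ (i' : ℕ) := h
            rw [if_neg h, if_neg h']
            ring
        rw [Finset.sum_congr rfl (fun i' _ => e3 i'), ← Finset.mul_sum,
          Fin.sum_univ_eq_sum_range (fun j => if (i : ℕ) ≤ j then (1 / (2 : ℝ)) ^ j else 0)]
        have h1 := CostS.tail (pI η m) i
        have hq := hqpos i
        have h2 : 0 ≤ 4 * s ^ 2 * L * (qi ε m i * (L / 2 ^ (i : ℕ))) := by positivity
        refine (mul_le_mul_of_nonneg_left h1 h2).trans (le_of_eq ?_)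
        rw [one_div, inv_pow]
        ring
      have e4 : qi ε m i * cap ε χ Dc ε₁ m (B := B) (I := pI η m) (.inr (.inr i)) *
          cap ε χ Dc ε₁ m (B := B) (I := pI η m) (.inl ()) =
          qi ε m i * (2 * s * (L / 2 ^ (i : ℕ))) * (κ * s) := by
        rw [hT, hZ]
      change qi ε m i * cap ε χ Dc ε₁ m (B := B) (I := pI η m) (.inr (.inr i)) *
          cap ε χ Dc ε₁ m (B := B) (I := pI η m) (.inl ()) + _ ≤ _
      rw [e4, e1]
      calc _ ≤ qi ε m i * (2 * s * (L / 2 ^ (i : ℕ))) * (κ * s) +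
            (qi ε m i * (2 * s * (L / 2 ^ (i : ℕ))) * (ξ * s) +
              s ^ 2 * (8 * (qi ε m i * (L / 2 ^ (i : ℕ)) ^ 2))) := by gcongr
        _ = _ := by ring
    have hsplit : ∑ l : Lev B (pI η m), ∑ l' : Lev B (pI η m), rhoS ε m l l' *
        cap ε χ Dc ε₁ m l * cap ε χ Dc ε₁ m l' =
        (∑ l' : Lev B (pI η m), rhoS ε m (.inl ()) l' *
          cap ε χ Dc ε₁ m (B := B) (I := pI η m) (.inl ()) * cap ε χ Dc ε₁ m l') +
        ((∑ x : Fin B, ∑ l' : Lev B (pI η m), rhoS ε m (.inr (.inl x)) l' *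
          cap ε χ Dc ε₁ m (B := B) (I := pI η m) (.inr (.inl x)) * cap ε χ Dc ε₁ m l') +
        ∑ i : Fin (pI η m), ∑ l' : Lev B (pI η m), rhoS ε m (.inr (.inr i)) l' *
          cap ε χ Dc ε₁ m (B := B) (I := pI η m) (.inr (.inr i)) * cap ε χ Dc ε₁ m l') := by
      rw [Fintype.sum_sum_type, Fintype.sum_sum_type]
      congr 1
      exact Fintype.sum_unique _
    rw [hsplit, hrow1, Finset.sum_congr rfl (fun x _ => hrow2 x), Finset.sum_const_zero, zero_add]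
    have h3 : ∑ i : Fin (pI η m), ∑ l' : Lev B (pI η m), rhoS ε m (.inr (.inr i)) l' *
          cap ε χ Dc ε₁ m (B := B) (I := pI η m) (.inr (.inr i)) * cap ε χ Dc ε₁ m l' ≤
        s ^ 2 * (2 * (κ + ξ) * A1 + 8 * A2) := by
      refine (Finset.sum_le_sum fun i _ => hrow3 i).trans (le_of_eq ?_)
      rw [← Finset.mul_sum, Finset.sum_add_distrib, ← Finset.mul_sum, ← Finset.mul_sum,
        Fin.sum_univ_eq_sum_range (fun i => qi ε m i * (L / 2 ^ i)),
        Fin.sum_univ_eq_sum_range (fun i => qi ε m i * (L / 2 ^ i) ^ 2)]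
    nlinarith
  have hpull : ∑ l : Lev B (pI η m), ∑ l' : Lev B (pI η m), (1 + pgam ε m) * rhoS ε m l l' *
        ((1 + 2 * ε) * cap ε χ Dc ε₁ m l) * ((1 + 2 * ε) * cap ε χ Dc ε₁ m l') =
      (1 + pgam ε m) * (1 + 2 * ε) ^ 2 * ∑ l : Lev B (pI η m), ∑ l' : Lev B (pI η m),
        rhoS ε m l l' * cap ε χ Dc ε₁ m l * cap ε χ Dc ε₁ m l' := by
    rw [Finset.mul_sum]
    refine Finset.sum_congr rfl fun l _ => ?_
    rw [Finset.mul_sum]
    refine Finset.sum_congr rfl fun l' _ => ?_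
    ring
  rw [hpull]
  have htot : κ ^ 2 + κ * ξ + 2 * A1 * (κ + ξ) + 8 * A2 ≤ 6 * ε :=
    CostS.numbers hε hε1 hc.hη hc.hχ hc.hDc hc.hε₁ hA1 hA2
  have hfac : (1 + pgam ε m) * (1 + 2 * ε) ^ 2 ≤ 3 := by
    have h1 : (1 + 2 * ε) ^ 2 ≤ 3 / 2 := by nlinarith
    have h2 : 0 ≤ (1 + 2 * ε) ^ 2 := by positivity
    nlinarith
  have hfac0 : 0 ≤ (1 + pgam ε m) * (1 + 2 * ε) ^ 2 := by
    have : 0 ≤ pgam ε m := by unfold pgam; positivity
    positivity
  have hs2 : 0 ≤ s ^ 2 := sq_nonneg s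
  calc (1 + pgam ε m) * (1 + 2 * ε) ^ 2 * ∑ l : Lev B (pI η m), ∑ l' : Lev B (pI η m),
        rhoS ε m l l' * cap ε χ Dc ε₁ m l * cap ε χ Dc ε₁ m l'
      ≤ (1 + pgam ε m) * (1 + 2 * ε) ^ 2 *
        (s ^ 2 * (κ ^ 2 + κ * ξ + 2 * A1 * (κ + ξ) + 8 * A2)) :=
        mul_le_mul_of_nonneg_left hsum hfac0
    _ ≤ (1 + pgam ε m) * (1 + 2 * ε) ^ 2 * (s ^ 2 * (6 * ε)) :=
        mul_le_mul_of_nonneg_left (mul_le_mul_of_nonneg_left htot hs2) hfac0
    _ ≤ 3 * (s ^ 2 * (6 * ε)) := mul_le_mul_of_nonneg_right hfac (by positivity)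
    _ = 18 * (ε * s ^ 2) := by ring
    _ ≤ 40 * (ε * s ^ 2) := by
        have : 0 ≤ ε * s ^ 2 := by positivity
        linarith
    _ = 40 * ε * s ^ 2 := by ring

end Pool.Agent.Lib.MP_1f2a9f_co
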