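import Pool.Agent.Lib.MP_1f2a9f_co.TopDefs

/-!
# Cost of the universal vertices
-/

namespace Pool.Agent.Lib.MP_1f2a9f_co

open Finset

theorem sum_cap_eq (ε χ Dc ε₁ : ℝ) (B I m : ℕ) :
    ∑ l : Lev B I, cap ε χ Dc ε₁ m l =
      (2 / Dc + 3 * ε₁) * (m / Real.log m) + (B * ((1 + 3 * ε) * (χ / B) * (m / Real.log m)) +
        ∑ i : Fin I, 2 * (m : ℝ) / 2 ^ (i : ℕ)) := by
  rw [Fintype.sum_sum_type, Fintype.sum_sum_type]
  simp [cap]

theorem sum_geom_fin_le (I : ℕ) (m : ℕ) : ∑ i : Fin I, 2 * (m : ℝ) / 2 ^ (i : ℕ) ≤ 4 * m := by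
  have h1 : ∀ n : ℕ, ∑ i ∈ range n, (1 / 2 : ℝ) ^ i ≤ 2 := by
    intro n
    rw [geom_sum_eq (by norm_num)]
    have h0 : (0 : ℝ) ≤ (1 / 2) ^ n := by positivity
    have h00 : (((1 : ℝ) / 2) ^ n - 1) / (1 / 2 - 1) = 2 - 2 * (1 / 2) ^ n := by
      rw [div_eq_iff (by norm_num)]; ring
    rw [h00]
    linarith
  rw [Fin.sum_univ_eq_sum_range (fun i => 2 * (m : ℝ) / 2 ^ i) I]
  have h2 : ∑ i ∈ range I, 2 * (m : ℝ) / 2 ^ i = 2 * m * ∑ i ∈ range I, (1 / 2 : ℝ) ^ i := by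
    rw [mul_sum]
    apply sum_congr rfl
    intro i _
    rw [one_div, inv_pow, div_eq_mul_inv]
  rw [h2]
  have := h1 I
  have hm : (0 : ℝ) ≤ m := by positivity
  nlinarith

/-- `cap`-sum against the universal vertices -/
theorem cost_univ {ε η χ Dc ε₁ : ℝ} {B K J r : ℕ} (hc : Consts ε η χ Dc ε₁ B K J r) :
    ∃ m0 : ℕ, ∀ m ≥ m0,
      (pa m : ℝ) * (pa m + ∑ l : Lev B (pI η m), (1 + 2 * ε) * cap ε χ Dc ε₁ m l) ≤
        ε * (m / Real.log m) ^ 2 := by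
  have hε := hc.hε
  have hη : 0 < η := by rw [hc.hη]; positivity
  have hχ : 0 < χ := by rw [hc.hχ]; positivity
  have hDc : 0 < Dc := by rw [hc.hDc]; positivity
  have hε₁ : 0 < ε₁ := by rw [hc.hε₁]; positivity
  have hε1 := hc.hε1
  have hB : (0 : ℝ) < B := by exact_mod_cast hc.hB
  set C : ℝ := (2 / Dc + 3 * ε₁) + (1 + 3 * ε) * χ with hC
  have hC0 : 0 < C := by positivity
  have h1 : Filter.Tendsto (fun m : ℕ => Real.log (m : ℝ)) Filter.atTop Filter.atTop :=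
    Real.tendsto_log_atTop.comp tendsto_natCast_atTop_atTop
  have h2 : ∀ᶠ x : ℝ in Filter.atTop, ‖Real.log x ^ 3‖ ≤ 1 / 2 * ‖id x‖ :=
    (Real.isLittleO_pow_log_id_atTop (n := 3)).bound (by norm_num)
  have h2' := tendsto_natCast_atTop_atTop.eventually h2
  have h3 : ∀ᶠ m : ℕ in Filter.atTop, max (max (18 / ε) (10 * C)) 2 ≤ Real.log (m : ℝ) :=
    h1.eventually_ge_atTop _
  obtain ⟨m0, hm0⟩ := Filter.eventually_atTop.1 (h2'.and h3)
  refine ⟨m0, fun m hm => ?_⟩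
  obtain ⟨ha, hb⟩ := hm0 m hm
  set ℓ := Real.log (m : ℝ) with hℓ
  have hb1 : 18 / ε ≤ ℓ := le_trans (le_trans (le_max_left _ _) (le_max_left _ _)) hb
  have hb2 : 10 * C ≤ ℓ := le_trans (le_trans (le_max_right _ _) (le_max_left _ _)) hb
  have hb3 : 2 ≤ ℓ := le_trans (le_max_right _ _) hb
  have hℓ0 : 0 < ℓ := by linarith
  have hm' : (0 : ℝ) ≤ m := by positivity
  have ha' : ℓ ^ 3 ≤ 1 / 2 * m := by
    have := ha
    simp only [id, Real.norm_eq_abs] at this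
    rw [abs_of_nonneg (by positivity), abs_of_nonneg hm'] at this
    exact this
  -- the number of universal vertices
  have hpa : (pa m : ℝ) ≤ 3 * (m / ℓ ^ 3) := by
    have h4 : (2 : ℝ) ≤ m / ℓ ^ 3 := by
      rw [le_div_iff₀ (by positivity)]
      linarith
    have h5 : (⌈(m : ℝ) / ℓ ^ 3⌉₊ : ℝ) < m / ℓ ^ 3 + 1 := Nat.ceil_lt_add_one (by positivity)
    unfold pa
    push_cast
    rw [← hℓ]
    linarith
  -- the capacities
  have hcap : ∑ l : Lev B (pI η m), (1 + 2 * ε) * cap ε χ Dc ε₁ m l ≤ 5 * m := by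
    rw [← mul_sum, sum_cap_eq]
    have h6 := sum_geom_fin_le (pI η m) m
    have h7 : (B : ℝ) * ((1 + 3 * ε) * (χ / B) * (m / ℓ)) = (1 + 3 * ε) * χ * (m / ℓ) := by
      field_simp
    rw [← hℓ, h7]
    have h8 : (2 / Dc + 3 * ε₁) * (m / ℓ) + (1 + 3 * ε) * χ * (m / ℓ) = C * (m / ℓ) := by
      rw [hC]; ring
    have h9 : C * (m / ℓ) ≤ m / 10 := by
      rw [mul_div_assoc', div_le_div_iff₀ hℓ0 (by norm_num)]
      nlinarith
    have h10 : (2 / Dc + 3 * ε₁) * (m / ℓ) + ((1 + 3 * ε) * χ * (m / ℓ) +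
        ∑ i : Fin (pI η m), 2 * (m : ℝ) / 2 ^ (i : ℕ)) ≤ 41 / 10 * m := by
      linarith
    have h11 : (0 : ℝ) ≤ 1 + 2 * ε := by positivity
    calc (1 + 2 * ε) * ((2 / Dc + 3 * ε₁) * (m / ℓ) + ((1 + 3 * ε) * χ * (m / ℓ) +
        ∑ i : Fin (pI η m), 2 * (m : ℝ) / 2 ^ (i : ℕ))) ≤ (1 + 2 * ε) * (41 / 10 * m) :=
          mul_le_mul_of_nonneg_left h10 h11
      _ ≤ 5 * m := by nlinarith
  have hpa2 : (pa m : ℝ) ≤ m := by
    refine hpa.trans ?_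
    have h8 : (8 : ℝ) ≤ ℓ ^ 3 := by
      have : (2 : ℝ) ^ 3 ≤ ℓ ^ 3 := pow_le_pow_left₀ (by norm_num) hb3 3
      linarith
    rw [mul_div_assoc', div_le_iff₀ (by positivity)]
    nlinarith
  have hsum : (pa m : ℝ) + ∑ l : Lev B (pI η m), (1 + 2 * ε) * cap ε χ Dc ε₁ m l ≤ 6 * m := by
    linarith
  have hpa0 : (0 : ℝ) ≤ pa m := by positivity
  calc (pa m : ℝ) * (pa m + ∑ l : Lev B (pI η m), (1 + 2 * ε) * cap ε χ Dc ε₁ m l)
      ≤ pa m * (6 * m) := mul_le_mul_of_nonneg_left hsum hpa0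
    _ ≤ 3 * (m / ℓ ^ 3) * (6 * m) := mul_le_mul_of_nonneg_right hpa (by positivity)
    _ = 18 / ℓ * (m / ℓ) ^ 2 := by field_simp; ring
    _ ≤ ε * (m / ℓ) ^ 2 := by
        apply mul_le_mul_of_nonneg_right _ (by positivity)
        rw [div_le_iff₀ hℓ0]
        rw [div_le_iff₀ hε] at hb1
        linarith

end Pool.Agent.Lib.MP_1f2a9f_co
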