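import Mathlib

/-!
# MP_1f2a9f_co : graphs containing all graphs with `m` edges (definitions shared by all modules)
-/

namespace Pool.Agent.Lib.MP_1f2a9f_co

open Finset

/-- `G` contains every finite graph with exactly `m` edges and no isolated vertex. -/
def Univ (m : ℕ) {W : Type} (G : SimpleGraph W) : Prop :=
  ∀ (n : ℕ) (H : SimpleGraph (Fin n)), H.edgeSet.ncard = m → (∀ v, ∃ w, H.Adj v w) →
    H.IsContained G

/-- `S l f (l', e)` (fine digit `f` of a position of level `l` accepts the label `e` of a position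
of level `l'`) is a pseudo-random relation with densities `ρ l l'`. -/
structure GoodRel {Λ : Type} [Fintype Λ] [DecidableEq Λ] (b : ℕ) (t : Λ → ℕ) (ρ : Λ → Λ → ℝ)
    (D : ℕ) (γ τ : ℝ) (S : Λ → ℕ → Λ × Fin b → Bool) : Prop where
  large : ∀ (l : Λ) (A : Finset (Λ × Fin b)), A.card ≤ D → τ ≤ t l * ∏ κ ∈ A, ρ l κ.1 →
    (1 - γ) * (t l * ∏ κ ∈ A, ρ l κ.1) ≤
      (((range (t l)).filter (fun f => ∀ κ ∈ A, S l f κ = true)).card : ℝ)
  row : ∀ (l : Λ) (f : ℕ), f < t l → ∀ l' : Λ,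
    ((univ.filter (fun e : Fin b => S l f (l', e) = true)).card : ℝ) ≤ (1 + γ) * ρ l l' * b
  col : ∀ (l : Λ) (κ : Λ × Fin b),
    (((range (t l)).filter (fun f => S l f κ = true)).card : ℝ) ≤ (1 + γ) * ρ l κ.1 * t l

/-- A symmetric pseudo-random relation `R` on digit values `(class, value)`; two sided. -/
structure GoodRel2 {C : Type} [Fintype C] [DecidableEq C] (b : ℕ) (ρ : C → C → ℝ)
    (D : ℕ) (γ τ : ℝ) (R : C × Fin b → C × Fin b → Bool) : Prop where
  symm : ∀ x y, R x y = R y x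
  count : ∀ (κ : C) (A : Finset (C × Fin b)), A.card ≤ D → (∀ a ∈ A, a.1 ≠ κ) →
    τ ≤ b * ∏ a ∈ A, ρ κ a.1 →
    |((univ.filter (fun g : Fin b => ∀ a ∈ A, R (κ, g) a = true)).card : ℝ) -
      b * ∏ a ∈ A, ρ κ a.1| ≤ γ * (b * ∏ a ∈ A, ρ κ a.1)

/-- Number of shares (out of `2 * K`) which a vertex of potential `a` pays for an edge to a vertex
of potential `c`. -/
def bet (K a c : ℕ) : ℕ := min (K + a - c) (2 * K)

/-- The digits `j` and `j'` are linked: different and at distance at most `K`. -/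
def Linked (K j j' : ℕ) : Prop := j ≠ j' ∧ j ≤ j' + K ∧ j' ≤ j + K

instance (K j j' : ℕ) : Decidable (Linked K j j') := by unfold Linked; infer_instance

/-- Number of ordered pairs of linked digits. -/
def kap (K J : ℕ) : ℕ :=
  ((univ : Finset (Fin J × Fin J)).filter (fun p => Linked K p.1 p.2)).card

/-- Keep only the edges inside `U`. -/
def restr {V : Type} (H : SimpleGraph V) (U : Finset V) : SimpleGraph V where
  Adj u v := H.Adj u v ∧ u ∈ U ∧ v ∈ U
  symm := ⟨fun _ _ h => ⟨h.1.symm, h.2.2, h.2.1⟩⟩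
  loopless := ⟨fun _ h => h.1.ne rfl⟩

end Pool.Agent.Lib.MP_1f2a9f_co
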