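import Pool.Agent.Lib.MP_1f2a9f_co.Defs

/-!
# MP_1f2a9f_co, module DIG : `exists_digits`

A sequential random choice of the digits, analysed by a potential (supermartingale) of product
form.
-/

namespace Pool.Agent.Lib.MP_1f2a9f_co

open Finset

namespace Digits

set_option linter.unusedSectionVars false
set_option linter.unusedDecidableInType false
set_option linter.unusedFintypeInType false

/-- Sequential choice in the order of `time`, the potential `M` does not increase. -/
theorem seq_choice {S β T : Type*} [DecidableEq S] [LinearOrder T] (time : S → T)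
    (C : S → (S → β) → Finset β) (hne : ∀ s g, (C s g).Nonempty)
    (hC : ∀ s g g', (∀ s', time s' < time s → g s' = g' s') → C s g = C s g')
    (M : Finset S → (S → β) → ℝ)
    (hM : ∀ (Q : Finset S) (s : S) (g : S → β), s ∈ Q →
      ∑ x ∈ C s g, M (Q.erase s) (Function.update g s x) ≤ ((C s g).card : ℝ) * M Q g) :
    ∀ (n : ℕ) (Q : Finset S), Q.card = n → ∀ g : S → β,
      ∃ g' : S → β, (∀ s, s ∉ Q → g' s = g s) ∧ (∀ s ∈ Q, g' s ∈ C s g') ∧ M ∅ g' ≤ M Q g := by
  intro n
  induction n with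
  | zero =>
    intro Q hQ g
    rw [Finset.card_eq_zero] at hQ
    subst hQ
    exact ⟨g, fun _ _ => rfl, fun s hs => absurd hs (Finset.notMem_empty s), le_rfl⟩
  | succ n ih =>
    intro Q hQ g
    have hQne : Q.Nonempty := by
      rw [← Finset.card_pos]; omega
    obtain ⟨s, hs, hmin⟩ := Finset.exists_min_image Q time hQne
    obtain ⟨x, hx, hxM⟩ : ∃ x ∈ C s g, M (Q.erase s) (Function.update g s x) ≤ M Q g := by
      apply Finset.exists_le_of_sum_le (hne s g)
      rw [Finset.sum_const, nsmul_eq_mul]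
      exact hM Q s g hs
    obtain ⟨g', h1, h2, h3⟩ := ih (Q.erase s) (by rw [Finset.card_erase_of_mem hs, hQ]; rfl)
      (Function.update g s x)
    have hg's : g' s = x := by
      rw [h1 s (Finset.notMem_erase s Q), Function.update_self]
    have hout : ∀ s', s' ∉ Q → g' s' = g s' := by
      intro s' hs'
      rw [h1 s' (fun h => hs' (Finset.mem_of_mem_erase h)), Function.update_of_ne]
      rintro rfl
      exact hs' hs
    refine ⟨g', hout, ?_, h3.trans hxM⟩
    intro s' hs'
    by_cases hss : s' = s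
    · subst hss
      rw [hg's]
      rw [← hC s' g g' ?_]
      · exact hx
      · intro s'' hs''
        exact (hout s'' (fun h => absurd (hmin s'' h) (not_le.mpr hs''))).symm
    · exact h2 s' (Finset.mem_erase.mpr ⟨hss, hs'⟩)

/-- The sequential choice with product potentials. -/
theorem seq_exists {S β T ι : Type*} [Fintype S] [DecidableEq S] [LinearOrder T] (time : S → T)
    (C : S → (S → β) → Finset β) (hne : ∀ s g, (C s g).Nonempty)
    (hC : ∀ s g g', (∀ s', time s' < time s → g s' = g' s') → C s g = C s g')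
    (g0 : S → β) (I : Finset ι) (w : ι → S → ℝ) (φ : ι → S → β → ℝ)
    (hw : ∀ i ∈ I, ∀ s, 0 ≤ w i s) (hφ : ∀ i ∈ I, ∀ s x, 0 ≤ φ i s x)
    (hstep : ∀ i ∈ I, ∀ s g, ∑ x ∈ C s g, φ i s x ≤ ((C s g).card : ℝ) * w i s) :
    ∃ g : S → β, (∀ s, g s ∈ C s g) ∧ ∑ i ∈ I, ∏ s, φ i s (g s) ≤ ∑ i ∈ I, ∏ s, w i s := by
  have hM : ∀ (Q : Finset S) (s : S) (g : S → β), s ∈ Q →
      ∑ x ∈ C s g, (∑ i ∈ I, (∏ s ∈ Q.erase s, w i s) *
        ∏ s' ∈ univ \ Q.erase s, φ i s' (Function.update g s x s')) ≤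
      ((C s g).card : ℝ) * ∑ i ∈ I, (∏ s ∈ Q, w i s) * ∏ s ∈ univ \ Q, φ i s (g s) := by
    intro Q s g hs
    rw [Finset.sum_comm, Finset.mul_sum]
    apply Finset.sum_le_sum
    intro i hi
    have hsd : univ \ Q.erase s = insert s (univ \ Q) := by
      ext s'
      simp only [Finset.mem_sdiff, Finset.mem_univ, true_and, Finset.mem_erase,
        Finset.mem_insert]
      by_cases h : s' = s
      · simp [h]
      · simp [h]
    have hsn : s ∉ univ \ Q := by simp [hs]
    have hterm : ∀ x, (∏ s ∈ Q.erase s, w i s) *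
        ∏ s' ∈ univ \ Q.erase s, φ i s' (Function.update g s x s') =
        φ i s x * ((∏ s ∈ Q.erase s, w i s) * ∏ s' ∈ univ \ Q, φ i s' (g s')) := by
      intro x
      rw [hsd, Finset.prod_insert hsn, Function.update_self]
      have : ∏ s' ∈ univ \ Q, φ i s' (Function.update g s x s') =
          ∏ s' ∈ univ \ Q, φ i s' (g s') := by
        apply Finset.prod_congr rfl
        intro s' hs'
        rw [Function.update_of_ne]
        rintro rfl
        exact hsn hs'
      rw [this]; ring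
    simp only [hterm]
    rw [← Finset.sum_mul, ← Finset.mul_prod_erase Q (w i) hs]
    have hnn : 0 ≤ (∏ s ∈ Q.erase s, w i s) * ∏ s' ∈ univ \ Q, φ i s' (g s') :=
      mul_nonneg (Finset.prod_nonneg fun _ _ => hw i hi _)
        (Finset.prod_nonneg fun _ _ => hφ i hi _ _)
    calc (∑ x ∈ C s g, φ i s x) * ((∏ s ∈ Q.erase s, w i s) * ∏ s' ∈ univ \ Q, φ i s' (g s'))
        ≤ (((C s g).card : ℝ) * w i s) *
          ((∏ s ∈ Q.erase s, w i s) * ∏ s' ∈ univ \ Q, φ i s' (g s')) :=
          mul_le_mul_of_nonneg_right (hstep i hi s g) hnn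
      _ = _ := by ring
  obtain ⟨g', -, h2, h3⟩ := seq_choice time C hne hC
    (fun Q g => ∑ i ∈ I, (∏ s ∈ Q, w i s) * ∏ s ∈ univ \ Q, φ i s (g s)) hM _ univ rfl g0
  refine ⟨g', fun s => h2 s (Finset.mem_univ s), ?_⟩
  simpa using h3

/-! ### counting linked digits -/

theorem card_linked {J : ℕ} (K : ℕ) (j : Fin J) :
    ((univ : Finset (Fin J)).filter (fun j' : Fin J => Linked K j j')).card ≤ 2 * K := by
  have h1 : (((univ : Finset (Fin J)).filter (fun j' : Fin J => Linked K j j')).image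
      (fun j' : Fin J => (j' : ℕ) + K)) ⊆ (Icc (j : ℕ) (j + 2 * K)).erase (j + K) := by
    intro x hx
    simp only [Finset.mem_image, Finset.mem_filter, Finset.mem_univ, true_and] at hx
    obtain ⟨j', ⟨h1, h2, h3⟩, rfl⟩ := hx
    rw [Finset.mem_erase, Finset.mem_Icc]
    omega
  have h2 := Finset.card_le_card h1
  rw [Finset.card_image_of_injective _ (fun x y h => Fin.ext (by simpa using h)),
    Finset.card_erase_of_mem (by rw [Finset.mem_Icc]; omega), Nat.card_Icc] at h2
  omega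

theorem card_bet {J : ℕ} (K a c : ℕ) (j : Fin J) :
    ((univ : Finset (Fin J)).filter (fun j' : Fin J => Linked K j j' ∧
      (toLex ((j' : ℕ) + c, c) : ℕ ×ₗ ℕ) < toLex ((j : ℕ) + a, a))).card ≤ bet K a c := by
  have hlt : ∀ j' : Fin J, ((toLex ((j' : ℕ) + c, c) : ℕ ×ₗ ℕ) < toLex ((j : ℕ) + a, a)) ↔
      ((j' : ℕ) + c < j + a ∨ ((j' : ℕ) + c = j + a ∧ c < a)) := by
    intro j'
    rw [Prod.Lex.toLex_lt_toLex]
  simp only [hlt]
  unfold bet
  by_cases hca : c < a
  · have h1 : (((univ : Finset (Fin J)).filter (fun j' : Fin J => Linked K j j' ∧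
        ((j' : ℕ) + c < j + a ∨ ((j' : ℕ) + c = j + a ∧ c < a)))).image
        (fun j' : Fin J => (j' : ℕ) + K)) ⊆
        (Icc (j : ℕ) (j + min (K + a - c) (2 * K))).erase (j + K) := by
      intro x hx
      simp only [Finset.mem_image, Finset.mem_filter, Finset.mem_univ, true_and] at hx
      obtain ⟨j', ⟨⟨h1, h2, h3⟩, h4⟩, rfl⟩ := hx
      rw [Finset.mem_erase, Finset.mem_Icc]
      omega
    have h2 := Finset.card_le_card h1
    rw [Finset.card_image_of_injective _ (fun x y h => Fin.ext (by simpa using h)),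
      Finset.card_erase_of_mem (by rw [Finset.mem_Icc]; omega), Nat.card_Icc] at h2
    omega
  · have h1 : (((univ : Finset (Fin J)).filter (fun j' : Fin J => Linked K j j' ∧
        ((j' : ℕ) + c < j + a ∨ ((j' : ℕ) + c = j + a ∧ c < a)))).image
        (fun j' : Fin J => (j' : ℕ) + K)) ⊆
        Ico (j : ℕ) (j + min (K + a - c) (2 * K)) := by
      intro x hx
      simp only [Finset.mem_image, Finset.mem_filter, Finset.mem_univ, true_and] at hx
      obtain ⟨j', ⟨⟨h1, h2, h3⟩, h4⟩, rfl⟩ := hx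
      rw [Finset.mem_Ico]
      omega
    have h2 := Finset.card_le_card h1
    rw [Finset.card_image_of_injective _ (fun x y h => Fin.ext (by simpa using h)),
      Nat.card_Ico] at h2
    omega

/-! ### slots -/

/-- The time of a slot. -/
def tm {V : Type} {J : ℕ} (y : V → ℕ) (s : V × Fin J) : ℕ ×ₗ ℕ :=
  toLex ((s.2 : ℕ) + y s.1, y s.1)

theorem tm_ne {V : Type} {J : ℕ} (y : V → ℕ) (s s' : V × Fin J) (h : s.2 ≠ s'.2) :
    tm y s ≠ tm y s' := by
  intro he
  unfold tm at he
  have h1 := congrArg (fun z => (ofLex z).1) he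
  have h2 := congrArg (fun z => (ofLex z).2) he
  simp only [ofLex_toLex] at h1 h2
  exact h (Fin.ext (by omega))

section

variable {V Ξ : Type} [Fintype V] [DecidableEq V] [Fintype Ξ] [DecidableEq Ξ]
    (H : SimpleGraph V) [DecidableRel H.Adj] (lab : V → Ξ) {J : ℕ} (K : ℕ) {b : ℕ}
    (ρ : Ξ → Ξ → ℝ) (y : V → ℕ) (R : (Ξ × Fin J) × Fin b → (Ξ × Fin J) × Fin b → Bool)

/-- Linked neighbour slots of `s` which are earlier than `s`. -/
def Ear (s : V × Fin J) : Finset (V × Fin J) :=
  univ.filter (fun s' => H.Adj s.1 s'.1 ∧ Linked K s.2 s'.2 ∧ tm y s' < tm y s)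

/-- The density of the admissible digits of a slot. -/
noncomputable def pc (s : V × Fin J) : ℝ := ∏ s' ∈ Ear H K y s, ρ (lab s.1) (lab s'.1)

/-- Admissible digits of the slot `s`. -/
def Ch (s : V × Fin J) (g : V × Fin J → Fin b) : Finset (Fin b) :=
  univ.filter (fun z => ∀ s' ∈ Ear H K y s,
    R ((lab s.1, s.2), z) ((lab s'.1, s'.2), g s') = true)

/-- Digits of `v` which are linked to the slot `s` and later. -/
def Lat (v : V) (s : V × Fin J) : Finset (Fin J) :=
  univ.filter (fun j => Linked K s.2 j ∧ tm y s < tm y (v, j))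

theorem linked_symm {K j j' : ℕ} (h : Linked K j j') : Linked K j' j :=
  ⟨h.1.symm, h.2.2, h.2.1⟩

theorem prod_Ear (s : V × Fin J) (f : V → ℝ) :
    ∏ s' ∈ Ear H K y s, f s'.1 = ∏ u ∈ H.neighborFinset s.1, f u ^
      ((univ : Finset (Fin J)).filter (fun j' : Fin J => Linked K s.2 j' ∧
        tm y (u, j') < tm y s)).card := by
  unfold Ear
  rw [Finset.prod_filter, Fintype.prod_prod_type, SimpleGraph.neighborFinset_eq_filter,
    Finset.prod_filter]
  apply Finset.prod_congr rfl
  intro u _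
  by_cases hu : H.Adj s.1 u
  · simp only [hu, true_and, if_true]
    rw [← Finset.prod_filter, Finset.prod_const]
  · simp [hu]

theorem card_Ear (s : V × Fin J) (Δ : ℕ) (hdeg : ∀ v, H.degree v ≤ Δ) :
    (Ear H K y s).card ≤ 2 * K * Δ := by
  have h1 : (Ear H K y s).card = ∑ u ∈ H.neighborFinset s.1,
      ((univ : Finset (Fin J)).filter (fun j' : Fin J => Linked K s.2 j' ∧
        tm y (u, j') < tm y s)).card := by
    unfold Ear
    rw [Finset.card_filter, Fintype.sum_prod_type, SimpleGraph.neighborFinset_eq_filter,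
      Finset.sum_filter]
    apply Finset.sum_congr rfl
    intro u _
    by_cases hu : H.Adj s.1 u
    · simp only [hu, true_and, if_true]
      rw [← Finset.card_filter]
    · simp [hu]
  rw [h1]
  calc _ ≤ ∑ u ∈ H.neighborFinset s.1, 2 * K := by
        apply Finset.sum_le_sum
        intro u _
        refine le_trans (Finset.card_le_card ?_) (card_linked K s.2)
        intro j' hj'
        simp only [Finset.mem_filter, Finset.mem_univ, true_and] at hj' ⊢
        exact hj'.1
    _ = H.degree s.1 * (2 * K) := by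
        rw [Finset.sum_const, smul_eq_mul, SimpleGraph.card_neighborFinset_eq_degree]
    _ ≤ _ := by
        rw [mul_comm]
        exact Nat.mul_le_mul_left _ (hdeg _)

theorem card_Lat (v : V) (s : V × Fin J) : (Lat K y v s).card ≤ 2 * K := by
  refine le_trans (Finset.card_le_card ?_) (card_linked K s.2)
  intro j' hj'
  simp only [Lat, Finset.mem_filter, Finset.mem_univ, true_and] at hj' ⊢
  exact hj'.1

theorem pc_lower (s : V × Fin J) (hρ0 : ∀ x y, 0 < ρ x y) (hρ1 : ∀ x y, ρ x y ≤ 1) :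
    ∏ u ∈ H.neighborFinset s.1, ρ (lab s.1) (lab u) ^ bet K (y s.1) (y u) ≤
      pc H lab K ρ y s := by
  unfold pc
  rw [prod_Ear H K y s (fun u => ρ (lab s.1) (lab u))]
  apply Finset.prod_le_prod
  · intro u _
    exact pow_nonneg (hρ0 _ _).le _
  · intro u _
    exact pow_le_pow_of_le_one (hρ0 _ _).le (hρ1 _ _) (card_bet K (y s.1) (y u) s.2)

/-- Two sided count of the digits related to prescribed digits of neighbour slots. -/
theorem gcount {D : ℕ} {γ τ : ℝ} (hR : GoodRel2 b (fun κ κ' => ρ κ.1 κ'.1) D γ τ R)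
    (hinj : ∀ u, Set.InjOn lab {v | H.Adj u v}) (s : V × Fin J) (E : Finset (V × Fin J))
    (hE : ∀ s' ∈ E, H.Adj s.1 s'.1 ∧ s'.2 ≠ s.2) (hcard : E.card ≤ D)
    (hτ : τ ≤ b * ∏ s' ∈ E, ρ (lab s.1) (lab s'.1)) (g : V × Fin J → Fin b) :
    |((univ.filter (fun z : Fin b => ∀ s' ∈ E,
        R ((lab s.1, s.2), z) ((lab s'.1, s'.2), g s') = true)).card : ℝ) -
      b * ∏ s' ∈ E, ρ (lab s.1) (lab s'.1)| ≤ γ * (b * ∏ s' ∈ E, ρ (lab s.1) (lab s'.1)) := by
  have hinj' : Set.InjOn (fun s' : V × Fin J => (((lab s'.1, s'.2), g s') :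
      (Ξ × Fin J) × Fin b)) E := by
    intro s1 h1 s2 h2 he
    simp only [Prod.mk.injEq] at he
    have h3 := hinj s.1 (hE s1 h1).1 (hE s2 h2).1 he.1.1
    exact Prod.ext h3 he.1.2
  have hc := hR.count (lab s.1, s.2) (E.image (fun s' => ((lab s'.1, s'.2), g s')))
    (le_trans Finset.card_image_le hcard) (by
      intro a ha
      rw [Finset.mem_image] at ha
      obtain ⟨s', hs', rfl⟩ := ha
      intro he
      simp only [Prod.mk.injEq] at he
      exact (hE s' hs').2 he.2)
  rw [Finset.prod_image hinj'] at hc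
  have hc' := hc hτ
  simpa only [Finset.forall_mem_image] using hc'

theorem Ch_lower {D : ℕ} {γ τ : ℝ} (hR : GoodRel2 b (fun κ κ' => ρ κ.1 κ'.1) D γ τ R)
    (hinj : ∀ u, Set.InjOn lab {v | H.Adj u v}) {Δ : ℕ} (hdeg : ∀ v, H.degree v ≤ Δ)
    (hD : 2 * K * (Δ + 1) ≤ D) (s : V × Fin J) (hτ : τ ≤ b * pc H lab K ρ y s)
    (g : V × Fin J → Fin b) :
    (1 - γ) * (b * pc H lab K ρ y s) ≤ ((Ch H lab K y R s g).card : ℝ) := by
  have h := gcount H lab ρ R hR hinj s (Ear H K y s) (by
    intro s' hs'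
    simp only [Ear, Finset.mem_filter, Finset.mem_univ, true_and] at hs'
    refine ⟨hs'.1, fun h => hs'.2.1.1 (by rw [h])⟩)
    (by have := card_Ear H K y s Δ hdeg; nlinarith) hτ g
  rw [abs_le] at h
  unfold Ch pc
  linarith [h.1]

theorem Ch_upper {D : ℕ} {γ τ : ℝ} (hR : GoodRel2 b (fun κ κ' => ρ κ.1 κ'.1) D γ τ R)
    (hinj : ∀ u, Set.InjOn lab {v | H.Adj u v}) {Δ : ℕ} (hdeg : ∀ v, H.degree v ≤ Δ)
    (hD : 2 * K * (Δ + 1) ≤ D) (v : V) (s : V × Fin J) (hv : H.Adj v s.1) (x : Fin J → Fin b)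
    (hτ : τ ≤ b * (pc H lab K ρ y s * ∏ _j ∈ Lat K y v s, ρ (lab s.1) (lab v)))
    (g : V × Fin J → Fin b) :
    (((Ch H lab K y R s g).filter (fun z => ∀ j ∈ Lat K y v s,
      R ((lab s.1, s.2), z) ((lab v, j), x j) = true)).card : ℝ) ≤
      (1 + γ) * (b * (pc H lab K ρ y s * ∏ _j ∈ Lat K y v s, ρ (lab s.1) (lab v))) := by
  have hdisj : Disjoint (Ear H K y s) ((Lat K y v s).image (fun j => (v, j))) := by
    rw [Finset.disjoint_left]
    intro s' h1 h2
    rw [Finset.mem_image] at h2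
    obtain ⟨j, hj, rfl⟩ := h2
    simp only [Ear, Lat, Finset.mem_filter, Finset.mem_univ, true_and] at h1 hj
    exact absurd h1.2.2 (not_lt.mpr hj.2.le)
  have hprod : ∏ s' ∈ Ear H K y s ∪ (Lat K y v s).image (fun j => (v, j)),
      ρ (lab s.1) (lab s'.1) = pc H lab K ρ y s * ∏ _j ∈ Lat K y v s, ρ (lab s.1) (lab v) := by
    rw [Finset.prod_union hdisj, Finset.prod_image]
    · rfl
    · intro a _ c _ h
      simpa using h
  have h := gcount H lab ρ R hR hinj s (Ear H K y s ∪ (Lat K y v s).image (fun j => (v, j))) (by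
    intro s' hs'
    rw [Finset.mem_union] at hs'
    rcases hs' with hs' | hs'
    · simp only [Ear, Finset.mem_filter, Finset.mem_univ, true_and] at hs'
      exact ⟨hs'.1, fun h => hs'.2.1.1 (by rw [h])⟩
    · rw [Finset.mem_image] at hs'
      obtain ⟨j, hj, rfl⟩ := hs'
      simp only [Lat, Finset.mem_filter, Finset.mem_univ, true_and] at hj
      exact ⟨hv.symm, fun h => hj.1.1 (by simp only at h; rw [h])⟩)
    (by
      refine le_trans (Finset.card_union_le _ _) ?_
      have h1 := card_Ear H K y s Δ hdeg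
      have h2 := card_Lat K y v s
      have h3 : ((Lat K y v s).image (fun j => (v, j))).card ≤ (Lat K y v s).card :=
        Finset.card_image_le
      nlinarith) (by rw [hprod]; exact hτ)
    (fun s' => if s' ∈ Ear H K y s then g s' else x s'.2)
  rw [hprod, abs_le] at h
  have hsub : (Ch H lab K y R s g).filter (fun z => ∀ j ∈ Lat K y v s,
      R ((lab s.1, s.2), z) ((lab v, j), x j) = true) ⊆
      univ.filter (fun z : Fin b => ∀ s' ∈ Ear H K y s ∪ (Lat K y v s).image (fun j => (v, j)),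
        R ((lab s.1, s.2), z) ((lab s'.1, s'.2),
          (if s' ∈ Ear H K y s then g s' else x s'.2)) = true) := by
    intro z hz
    simp only [Ch, Finset.mem_filter, Finset.mem_univ, true_and] at hz ⊢
    intro s' hs'
    by_cases hE : s' ∈ Ear H K y s
    · rw [if_pos hE]
      exact hz.1 s' hE
    · rw [if_neg hE]
      rw [Finset.mem_union] at hs'
      rcases hs' with hs' | hs'
      · exact absurd hs' hE
      · rw [Finset.mem_image] at hs'
        obtain ⟨j, hj, rfl⟩ := hs'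
        exact hz.2 j hj
  have hc : (((Ch H lab K y R s g).filter (fun z => ∀ j ∈ Lat K y v s,
      R ((lab s.1, s.2), z) ((lab v, j), x j) = true)).card : ℝ) ≤ _ :=
    Nat.cast_le.mpr (Finset.card_le_card hsub)
  linarith [h.2]

/-- Weight of the slot `s` in the potential of `v`. -/
noncomputable def wt (b : ℕ) (γ : ℝ) (v : V) (s : V × Fin J) : ℝ :=
  if s.1 = v then 1 / ((1 - γ) * (b * pc H lab K ρ y s))
  else if H.Adj v s.1 then (1 + γ) / (1 - γ) * ∏ _j ∈ Lat K y v s, ρ (lab s.1) (lab v) else 1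

open Classical in
/-- Indicator that the digit `z` in the slot `s` is compatible with the event that the digits of
`v` are `x`. -/
noncomputable def ph (v : V) (x : Fin J → Fin b) (s : V × Fin J) (z : Fin b) : ℝ :=
  if s.1 = v then (if z = x s.2 then 1 else 0)
  else if H.Adj v s.1 then
    (if ∀ j ∈ Lat K y v s, R ((lab s.1, s.2), z) ((lab v, j), x j) = true then 1 else 0)
  else 1

theorem ph_nonneg (v : V) (x : Fin J → Fin b) (s : V × Fin J) (z : Fin b) :
    0 ≤ ph H lab K y R v x s z := by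
  unfold ph
  split_ifs <;> norm_num

theorem pc_pos (hρ0 : ∀ x y, 0 < ρ x y) (s : V × Fin J) : 0 < pc H lab K ρ y s :=
  Finset.prod_pos fun _ _ => hρ0 _ _

theorem wt_nonneg (hb : 0 < b) {γ : ℝ} (hγ : 0 < γ) (hγ1 : γ ≤ 1 / 2)
    (hρ0 : ∀ x y, 0 < ρ x y) (v : V) (s : V × Fin J) : 0 ≤ wt H lab K ρ y b γ v s := by
  have h1 : 0 < 1 - γ := by linarith
  have h2 : 0 < 1 + γ := by linarith
  have hb' : (0 : ℝ) < b := by exact_mod_cast hb
  have hp := pc_pos H lab K ρ y hρ0 s
  unfold wt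
  split_ifs
  · positivity
  · exact mul_nonneg (by positivity) (Finset.prod_nonneg fun _ _ => (hρ0 _ _).le)
  · norm_num

theorem step {D : ℕ} {γ τ : ℝ} (hR : GoodRel2 b (fun κ κ' => ρ κ.1 κ'.1) D γ τ R)
    (hinj : ∀ u, Set.InjOn lab {v | H.Adj u v}) {Δ : ℕ} (hdeg : ∀ v, H.degree v ≤ Δ)
    (hD : 2 * K * (Δ + 1) ≤ D) (hb : 0 < b) (hγ : 0 < γ) (hγ1 : γ ≤ 1 / 2)
    (hρ0 : ∀ x y, 0 < ρ x y)
    (hc1 : ∀ s : V × Fin J, τ ≤ b * pc H lab K ρ y s)
    (hc2 : ∀ (v : V) (s : V × Fin J),
      τ ≤ b * (pc H lab K ρ y s * ∏ _j ∈ Lat K y v s, ρ (lab s.1) (lab v)))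
    (v : V) (x : Fin J → Fin b) (s : V × Fin J) (g : V × Fin J → Fin b) :
    ∑ z ∈ Ch H lab K y R s g, ph H lab K y R v x s z ≤
      ((Ch H lab K y R s g).card : ℝ) * wt H lab K ρ y b γ v s := by
  have h1 : 0 < 1 - γ := by linarith
  have h2 : 0 < 1 + γ := by linarith
  have hb' : (0 : ℝ) < b := by exact_mod_cast hb
  have hp := pc_pos H lab K ρ y hρ0 s
  have hlow := Ch_lower H lab K ρ y R hR hinj hdeg hD s (hc1 s) g
  by_cases hv : s.1 = v
  · have hs : ∑ z ∈ Ch H lab K y R s g, ph H lab K y R v x s z ≤ 1 := by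
      unfold ph
      simp only [hv, if_true]
      rw [Finset.sum_ite_eq']
      split_ifs <;> norm_num
    have hw : wt H lab K ρ y b γ v s = 1 / ((1 - γ) * (b * pc H lab K ρ y s)) := by
      unfold wt; rw [if_pos hv]
    rw [hw]
    refine hs.trans ?_
    have hpos : 0 < (1 - γ) * (b * pc H lab K ρ y s) := by positivity
    rw [mul_one_div, le_div_iff₀ hpos, one_mul]
    exact hlow
  · by_cases ha : H.Adj v s.1
    · have hs : ∑ z ∈ Ch H lab K y R s g, ph H lab K y R v x s z =
          (((Ch H lab K y R s g).filter (fun z => ∀ j ∈ Lat K y v s,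
            R ((lab s.1, s.2), z) ((lab v, j), x j) = true)).card : ℝ) := by
        unfold ph
        simp only [hv, if_false, ha, if_true]
        rw [← Finset.sum_filter, Finset.sum_const, nsmul_eq_mul, mul_one]
      have hw : wt H lab K ρ y b γ v s =
          (1 + γ) / (1 - γ) * ∏ _j ∈ Lat K y v s, ρ (lab s.1) (lab v) := by
        unfold wt; rw [if_neg hv, if_pos ha]
      rw [hs, hw]
      refine (Ch_upper H lab K ρ y R hR hinj hdeg hD v s ha x (hc2 v s) g).trans ?_
      set P := ∏ _j ∈ Lat K y v s, ρ (lab s.1) (lab v) with hP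
      have hP0 : 0 < P := Finset.prod_pos fun _ _ => hρ0 _ _
      have h3 : (1 + γ) * (b * (pc H lab K ρ y s * P)) =
          ((1 - γ) * (b * pc H lab K ρ y s)) * ((1 + γ) / (1 - γ) * P) := by
        field_simp
      rw [h3]
      exact mul_le_mul_of_nonneg_right hlow (by positivity)
    · have hs : ∑ z ∈ Ch H lab K y R s g, ph H lab K y R v x s z =
          ((Ch H lab K y R s g).card : ℝ) := by
        unfold ph
        simp only [hv, if_false, ha]
        rw [Finset.sum_const, nsmul_eq_mul, mul_one]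
      have hw : wt H lab K ρ y b γ v s = 1 := by
        unfold wt; rw [if_neg hv, if_neg ha]
      rw [hs, hw, mul_one]

theorem prod_exchange (hρs : ∀ x y, ρ x y = ρ y x) (v : V) :
    ∏ u ∈ H.neighborFinset v, ∏ i : Fin J, ∏ _j ∈ Lat K y v (u, i), ρ (lab u) (lab v) =
      ∏ j : Fin J, pc H lab K ρ y (v, j) := by
  have h1 : ∏ u ∈ H.neighborFinset v, ∏ i : Fin J, ∏ _j ∈ Lat K y v (u, i), ρ (lab u) (lab v) =
      ∏ u : V, ∏ i : Fin J, ∏ j : Fin J, if H.Adj v u ∧ Linked K i j ∧
        tm y (u, i) < tm y (v, j) then ρ (lab u) (lab v) else 1 := by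
    rw [SimpleGraph.neighborFinset_eq_filter, Finset.prod_filter]
    apply Finset.prod_congr rfl
    intro u _
    by_cases hu : H.Adj v u
    · simp only [hu, true_and, if_true]
      apply Finset.prod_congr rfl
      intro i _
      unfold Lat
      rw [Finset.prod_filter]
    · simp [hu]
  have h2 : ∏ j : Fin J, pc H lab K ρ y (v, j) =
      ∏ j : Fin J, ∏ u : V, ∏ i : Fin J, if H.Adj v u ∧ Linked K i j ∧
        tm y (u, i) < tm y (v, j) then ρ (lab u) (lab v) else 1 := by
    apply Finset.prod_congr rfl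
    intro j _
    unfold pc Ear
    rw [Finset.prod_filter, Fintype.prod_prod_type]
    apply Finset.prod_congr rfl
    intro u _
    apply Finset.prod_congr rfl
    intro i _
    have hiff : (H.Adj v u ∧ Linked K (j : ℕ) (i : ℕ) ∧ tm y (u, i) < tm y (v, j)) ↔
        (H.Adj v u ∧ Linked K (i : ℕ) (j : ℕ) ∧ tm y (u, i) < tm y (v, j)) :=
      ⟨fun h => ⟨h.1, linked_symm h.2.1, h.2.2⟩, fun h => ⟨h.1, linked_symm h.2.1, h.2.2⟩⟩
    by_cases h : H.Adj v u ∧ Linked K (i : ℕ) (j : ℕ) ∧ tm y (u, i) < tm y (v, j)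
    · rw [if_pos (hiff.mpr h), if_pos h, hρs]
    · rw [if_neg (fun h' => h (hiff.mp h')), if_neg h]
  rw [h1, h2]
  symm
  rw [Finset.prod_comm]
  apply Finset.prod_congr rfl
  intro u _
  rw [Finset.prod_comm]

theorem prod_wt {γ : ℝ} (hρs : ∀ x y, ρ x y = ρ y x) {Δ : ℕ} (hdeg : ∀ v, H.degree v ≤ Δ)
    (hb : 0 < b) (hγ : 0 < γ) (hγ1 : γ ≤ 1 / 2) (hρ0 : ∀ x y, 0 < ρ x y) (v : V) :
    ∏ s : V × Fin J, wt H lab K ρ y b γ v s ≤
      ((1 + γ) / (1 - γ)) ^ (J * (Δ + 1)) / (b : ℝ) ^ J := by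
  have h1 : 0 < 1 - γ := by linarith
  have h2 : 0 < 1 + γ := by linarith
  have hb' : (0 : ℝ) < b := by exact_mod_cast hb
  set q : ℝ := (1 + γ) / (1 - γ) with hq
  have hq1 : 1 ≤ q := by
    rw [hq, le_div_iff₀ h1]; linarith
  have hq0 : 0 < q := lt_of_lt_of_le one_pos hq1
  set P : ℝ := ∏ j : Fin J, pc H lab K ρ y (v, j) with hP
  have hP0 : 0 < P := Finset.prod_pos fun j _ => pc_pos H lab K ρ y hρ0 (v, j)
  rw [Fintype.prod_prod_type, ← Finset.mul_prod_erase univ _ (Finset.mem_univ v)]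
  have hA : ∏ i : Fin J, wt H lab K ρ y b γ v (v, i) = (1 / ((1 - γ) * b)) ^ J * P⁻¹ := by
    have : ∀ i : Fin J, wt H lab K ρ y b γ v (v, i) =
        (1 / ((1 - γ) * b)) * (pc H lab K ρ y (v, i))⁻¹ := by
      intro i
      have hp := pc_pos H lab K ρ y hρ0 (v, i)
      unfold wt
      rw [if_pos rfl]
      field_simp
    simp only [this]
    rw [Finset.prod_mul_distrib, Finset.prod_const, Finset.card_univ, Fintype.card_fin,
      Finset.prod_inv_distrib]
  have hB : ∏ u ∈ univ.erase v, ∏ i : Fin J, wt H lab K ρ y b γ v (u, i) =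
      q ^ (J * H.degree v) * P := by
    have hsub : H.neighborFinset v ⊆ univ.erase v := by
      intro u hu
      rw [SimpleGraph.mem_neighborFinset] at hu
      rw [Finset.mem_erase]
      exact ⟨hu.ne', Finset.mem_univ u⟩
    rw [← Finset.prod_subset hsub]
    · have : ∀ u ∈ H.neighborFinset v, ∏ i : Fin J, wt H lab K ρ y b γ v (u, i) =
          q ^ J * ∏ i : Fin J, ∏ _j ∈ Lat K y v (u, i), ρ (lab u) (lab v) := by
        intro u hu
        rw [SimpleGraph.mem_neighborFinset] at hu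
        have hi : ∀ i : Fin J, wt H lab K ρ y b γ v (u, i) =
            q * ∏ _j ∈ Lat K y v (u, i), ρ (lab u) (lab v) := by
          intro i
          unfold wt
          rw [if_neg (fun h : u = v => hu.ne' h), if_pos hu]
        simp only [hi]
        rw [Finset.prod_mul_distrib, Finset.prod_const, Finset.card_univ, Fintype.card_fin]
      rw [Finset.prod_congr rfl this, Finset.prod_mul_distrib, Finset.prod_const,
        SimpleGraph.card_neighborFinset_eq_degree, prod_exchange H lab K ρ y hρs v, ← pow_mul]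
    · intro u hu hu'
      apply Finset.prod_eq_one
      intro i _
      rw [SimpleGraph.mem_neighborFinset] at hu'
      unfold wt
      rw [if_neg (fun h : u = v => (Finset.mem_erase.mp hu).1 h), if_neg hu']
  rw [hA, hB]
  have hC : (1 / ((1 - γ) * b)) ^ J * P⁻¹ * (q ^ (J * H.degree v) * P) =
      (1 / ((1 - γ) * b)) ^ J * q ^ (J * H.degree v) := by
    field_simp
  rw [hC]
  have hD : (1 / ((1 - γ) * b)) ≤ q / b := by
    rw [hq, div_div, div_le_div_iff_of_pos_right (by positivity)]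
    linarith
  calc (1 / ((1 - γ) * b)) ^ J * q ^ (J * H.degree v) ≤ (q / b) ^ J * q ^ (J * Δ) := by
        apply mul_le_mul (pow_le_pow_left₀ (by positivity) hD J)
          (pow_le_pow_right₀ hq1 (Nat.mul_le_mul_left _ (hdeg v))) (by positivity)
          (by positivity)
    _ = q ^ (J * (Δ + 1)) / (b : ℝ) ^ J := by
        rw [div_pow, Nat.mul_add, mul_one, pow_add]
        ring

/-- Far pairs: distinct, not adjacent and without a common neighbour. -/
def Far (p : V × V) : Prop :=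
  p.1 ≠ p.2 ∧ ¬ H.Adj p.1 p.2 ∧ ∀ u, ¬ (H.Adj p.1 u ∧ H.Adj p.2 u)

theorem far_cases {p : V × V} (hp : Far H p) (γ : ℝ) (s : V × Fin J) :
    ((wt H lab K ρ y b γ p.1 s = 1) ∧ ∀ (x : Fin J → Fin b) z, ph H lab K y R p.1 x s z = 1) ∨
    ((wt H lab K ρ y b γ p.2 s = 1) ∧ ∀ (x : Fin J → Fin b) z, ph H lab K y R p.2 x s z = 1) := by
  obtain ⟨h1, h2, h3⟩ := hp
  by_cases ha : s.1 = p.1 ∨ H.Adj p.1 s.1
  · right
    have hn1 : ¬ s.1 = p.2 := by
      rintro h
      rcases ha with ha | ha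
      · exact h1 (ha.symm.trans h)
      · rw [h] at ha; exact h2 ha
    have hn2 : ¬ H.Adj p.2 s.1 := by
      intro h
      rcases ha with ha | ha
      · rw [ha] at h; exact h2 h.symm
      · exact h3 s.1 ⟨ha, h⟩
    refine ⟨?_, fun x z => ?_⟩
    · unfold wt; rw [if_neg hn1, if_neg hn2]
    · unfold ph; rw [if_neg hn1, if_neg hn2]
  · left
    rw [not_or] at ha
    refine ⟨?_, fun x z => ?_⟩
    · unfold wt; rw [if_neg ha.1, if_neg ha.2]
    · unfold ph; rw [if_neg ha.1, if_neg ha.2]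

theorem ph_valid {D : ℕ} {γ τ : ℝ} (hR : GoodRel2 b (fun κ κ' => ρ κ.1 κ'.1) D γ τ R)
    (g : V × Fin J → Fin b) (hg : ∀ s, g s ∈ Ch H lab K y R s g) (v : V) (s : V × Fin J) :
    ph H lab K y R v (fun j => g (v, j)) s (g s) = 1 := by
  unfold ph
  by_cases hv : s.1 = v
  · rw [if_pos hv, if_pos]
    rw [← hv]
  · rw [if_neg hv]
    by_cases ha : H.Adj v s.1
    · rw [if_pos ha, if_pos]
      intro j hj
      simp only [Lat, Finset.mem_filter, Finset.mem_univ, true_and] at hj
      have h1 := hg (v, j)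
      simp only [Ch, Finset.mem_filter, Finset.mem_univ, true_and] at h1
      rw [hR.symm]
      apply h1 s
      simp only [Ear, Finset.mem_filter, Finset.mem_univ, true_and]
      exact ⟨ha, linked_symm hj.1, hj.2⟩
    · rw [if_neg ha]

theorem card_nonfar {Δ : ℕ} (hdeg : ∀ v, H.degree v ≤ Δ) (U : Finset V) :
    letI := Classical.decPred (Far H)
    ((U ×ˢ U).filter (fun p => ¬ Far H p)).card ≤ U.card * (Δ + 1) ^ 2 := by
  classical
  have hsub : (U ×ˢ U).filter (fun p => ¬ Far H p) ⊆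
      U.biUnion (fun v => ((({v} : Finset V) ∪ H.neighborFinset v) ∪
        (H.neighborFinset v).biUnion (fun w => H.neighborFinset w)).image (fun v' => (v, v'))) := by
    intro p hp
    rw [Finset.mem_filter, Finset.mem_product] at hp
    rw [Finset.mem_biUnion]
    refine ⟨p.1, hp.1.1, ?_⟩
    rw [Finset.mem_image]
    refine ⟨p.2, ?_, rfl⟩
    by_contra hcon
    apply hp.2
    simp only [Finset.mem_union, Finset.mem_singleton, SimpleGraph.mem_neighborFinset,
      Finset.mem_biUnion, not_or, not_exists, not_and] at hcon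
    refine ⟨fun h => hcon.1.1 h.symm, hcon.1.2, fun u hu => hcon.2 u hu.1 hu.2.symm⟩
  refine (Finset.card_le_card hsub).trans ?_
  refine Finset.card_biUnion_le.trans ?_
  rw [← smul_eq_mul, ← Finset.sum_const]
  apply Finset.sum_le_sum
  intro v _
  refine Finset.card_image_le.trans ?_
  refine (Finset.card_union_le _ _).trans ?_
  have h1 : (({v} : Finset V) ∪ H.neighborFinset v).card ≤ 1 + Δ := by
    refine (Finset.card_union_le _ _).trans ?_
    rw [Finset.card_singleton, SimpleGraph.card_neighborFinset_eq_degree]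
    have := hdeg v
    omega
  have h2 : ((H.neighborFinset v).biUnion (fun w => H.neighborFinset w)).card ≤ Δ * Δ := by
    refine Finset.card_biUnion_le.trans ?_
    calc ∑ w ∈ H.neighborFinset v, (H.neighborFinset w).card ≤
          ∑ w ∈ H.neighborFinset v, Δ := by
          apply Finset.sum_le_sum
          intro w _
          rw [SimpleGraph.card_neighborFinset_eq_degree]
          exact hdeg w
      _ ≤ Δ * Δ := by
          rw [Finset.sum_const, SimpleGraph.card_neighborFinset_eq_degree, smul_eq_mul]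
          exact Nat.mul_le_mul_right _ (hdeg v)
  nlinarith

end

end Digits

open Digits in
theorem exists_digits {V Ξ : Type} [Fintype V] [DecidableEq V] [Fintype Ξ] [DecidableEq Ξ]
    (H : SimpleGraph V) [DecidableRel H.Adj] (lab : V → Ξ) (J K b Δ : ℕ) (hb : 0 < b)
    (ρ : Ξ → Ξ → ℝ) (hρs : ∀ x y, ρ x y = ρ y x) (ρm : ℝ) (hρm0 : 0 < ρm)
    (hρm : ∀ x y, ρm ≤ ρ x y) (hρ1 : ∀ x y, ρ x y ≤ 1)
    (y : V → ℕ) (D : ℕ) (hD : 2 * K * (Δ + 1) ≤ D) (γ τ : ℝ) (hγ : 0 < γ) (hγ1 : γ ≤ 1 / 2)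
    (hτ : 0 < τ) (R : (Ξ × Fin J) × Fin b → (Ξ × Fin J) × Fin b → Bool)
    (hR : GoodRel2 b (fun κ κ' => ρ κ.1 κ'.1) D γ τ R)
    (hinj : ∀ u, Set.InjOn lab {v | H.Adj u v}) (hdeg : ∀ v, H.degree v ≤ Δ)
    (hcost : ∀ v, τ ≤ ρm ^ (2 * K) *
      (b * ∏ u ∈ H.neighborFinset v, ρ (lab v) (lab u) ^ bet K (y v) (y u)))
    (U : Finset V) :
    ∃ g : V → Fin J → Fin b,
      (∀ u v, H.Adj u v → ∀ j j' : Fin J, Linked K j j' →
        R ((lab u, j), g u j) ((lab v, j'), g v j') = true) ∧
      (((U ×ˢ U).filter (fun p => lab p.1 = lab p.2 ∧ g p.1 = g p.2)).card : ℝ) ≤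
        ((1 + γ) / (1 - γ)) ^ (2 * J * (Δ + 1)) *
          ((((U ×ˢ U).filter (fun p => lab p.1 = lab p.2)).card : ℝ) / (b : ℝ) ^ J) +
        U.card * ((Δ : ℝ) + 1) ^ 2 := by
  classical
  have h1 : 0 < 1 - γ := by linarith
  have h2 : 0 < 1 + γ := by linarith
  have hb' : (0 : ℝ) < b := by exact_mod_cast hb
  have hρ0 : ∀ x y, 0 < ρ x y := fun x y => lt_of_lt_of_le hρm0 (hρm x y)
  have hc2' : ∀ s : V × Fin J, τ ≤ ρm ^ (2 * K) * (b * pc H lab K ρ y s) := by
    intro s
    refine (hcost s.1).trans ?_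
    apply mul_le_mul_of_nonneg_left _ (pow_nonneg hρm0.le _)
    exact mul_le_mul_of_nonneg_left (pc_lower H lab K ρ y s hρ0 hρ1) hb'.le
  have hc2 : ∀ (v : V) (s : V × Fin J),
      τ ≤ b * (pc H lab K ρ y s * ∏ _j ∈ Lat K y v s, ρ (lab s.1) (lab v)) := by
    intro v s
    refine (hc2' s).trans ?_
    have hp := pc_pos H lab K ρ y hρ0 s
    have hm1 : ρm ≤ 1 := (hρm (lab v) (lab v)).trans (hρ1 _ _)
    have h3 : ρm ^ (2 * K) ≤ ∏ _j ∈ Lat K y v s, ρ (lab s.1) (lab v) := by
      rw [Finset.prod_const]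
      calc ρm ^ (2 * K) ≤ ρm ^ (Lat K y v s).card :=
            pow_le_pow_of_le_one hρm0.le hm1 (card_Lat K y v s)
        _ ≤ _ := pow_le_pow_left₀ hρm0.le (hρm _ _) _
    calc ρm ^ (2 * K) * (b * pc H lab K ρ y s) = b * (pc H lab K ρ y s * ρm ^ (2 * K)) := by ring
      _ ≤ _ := mul_le_mul_of_nonneg_left (mul_le_mul_of_nonneg_left h3 hp.le) hb'.le
  have hc1 : ∀ s : V × Fin J, τ ≤ b * pc H lab K ρ y s := by
    intro s
    refine (hc2' s).trans ?_
    have hp := pc_pos H lab K ρ y hρ0 s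
    have hm1 : ρm ≤ 1 := (hρm (lab s.1) (lab s.1)).trans (hρ1 _ _)
    have : ρm ^ (2 * K) ≤ 1 := pow_le_one₀ hρm0.le hm1
    calc ρm ^ (2 * K) * (b * pc H lab K ρ y s) ≤ 1 * (b * pc H lab K ρ y s) :=
          mul_le_mul_of_nonneg_right this (by positivity)
      _ = _ := one_mul _
  have hlow := fun s g => Ch_lower H lab K ρ y R hR hinj hdeg hD s (hc1 s) g
  have hne : ∀ s g, (Ch H lab K y R s g).Nonempty := by
    intro s g
    rw [← Finset.card_pos]
    have hp := pc_pos H lab K ρ y hρ0 s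
    have h3 : 0 < (1 - γ) * (b * pc H lab K ρ y s) := by positivity
    have h4 := lt_of_lt_of_le h3 (hlow s g)
    exact_mod_cast h4
  have hC : ∀ s g g', (∀ s', tm y s' < tm y s → g s' = g' s') →
      Ch H lab K y R s g = Ch H lab K y R s g' := by
    intro s g g' hgg
    unfold Ch
    ext z
    simp only [Finset.mem_filter, Finset.mem_univ, true_and]
    constructor
    · intro h s' hs'
      have : tm y s' < tm y s := by
        simp only [Ear, Finset.mem_filter, Finset.mem_univ, true_and] at hs'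
        exact hs'.2.2
      rw [← hgg s' this]
      exact h s' hs'
    · intro h s' hs'
      have : tm y s' < tm y s := by
        simp only [Ear, Finset.mem_filter, Finset.mem_univ, true_and] at hs'
        exact hs'.2.2
      rw [hgg s' this]
      exact h s' hs'
  set I : Finset ((V × V) × (Fin J → Fin b)) :=
    ((U ×ˢ U).filter (fun p => lab p.1 = lab p.2 ∧ Far H p)) ×ˢ univ with hI
  have hstep := step H lab K ρ y R hR hinj hdeg hD hb hγ hγ1 hρ0 hc1 hc2
  obtain ⟨g, hg, hsum⟩ := seq_exists (tm y) (Ch H lab K y R) hne hC (fun _ => ⟨0, hb⟩) I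
    (fun i s => wt H lab K ρ y b γ i.1.1 s * wt H lab K ρ y b γ i.1.2 s)
    (fun i s z => ph H lab K y R i.1.1 i.2 s z * ph H lab K y R i.1.2 i.2 s z)
    (fun i _ s => mul_nonneg (wt_nonneg H lab K ρ y hb hγ hγ1 hρ0 _ _)
      (wt_nonneg H lab K ρ y hb hγ hγ1 hρ0 _ _))
    (fun i _ s z => mul_nonneg (ph_nonneg H lab K y R _ _ _ _) (ph_nonneg H lab K y R _ _ _ _))
    (by
      intro i hi s g
      rw [hI, Finset.mem_product, Finset.mem_filter] at hi
      rcases far_cases H lab K ρ y R hi.1.2.2 γ s with ⟨hw, hp⟩ | ⟨hw, hp⟩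
      · simp only [hw, hp, one_mul]
        exact hstep _ _ _ _
      · simp only [hw, hp, mul_one]
        exact hstep _ _ _ _)
  refine ⟨fun v j => g (v, j), ?_, ?_⟩
  · intro u v huv j j' hjj
    rcases lt_or_gt_of_ne (tm_ne y (u, j) (v, j') (fun h => hjj.1 (by simpa using congrArg Fin.val h)))
      with hlt | hlt
    · have h3 := hg (v, j')
      simp only [Ch, Finset.mem_filter, Finset.mem_univ, true_and] at h3
      rw [hR.symm]
      apply h3 (u, j)
      simp only [Ear, Finset.mem_filter, Finset.mem_univ, true_and]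
      exact ⟨huv.symm, linked_symm hjj, hlt⟩
    · have h3 := hg (u, j)
      simp only [Ch, Finset.mem_filter, Finset.mem_univ, true_and] at h3
      apply h3 (v, j')
      simp only [Ear, Finset.mem_filter, Finset.mem_univ, true_and]
      exact ⟨huv, hjj, hlt⟩
  · -- counting
    set q : ℝ := (1 + γ) / (1 - γ) with hq
    have hq1 : 1 ≤ q := by
      rw [hq, le_div_iff₀ h1]; linarith
    have hq0 : 0 < q := lt_of_lt_of_le one_pos hq1
    set FP := (U ×ˢ U).filter (fun p => lab p.1 = lab p.2 ∧ Far H p) with hFP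
    set FC := FP.filter (fun p => (fun j => g (p.1, j)) = (fun j => g (p.2, j))) with hFC
    have hcard1 : ((U ×ˢ U).filter (fun p => lab p.1 = lab p.2 ∧
        (fun j => g (p.1, j)) = (fun j => g (p.2, j)))).card ≤
        FC.card + ((U ×ˢ U).filter (fun p => ¬ Far H p)).card := by
      refine le_trans (Finset.card_le_card ?_) (Finset.card_union_le _ _)
      intro p hp
      rw [Finset.mem_filter] at hp
      rw [Finset.mem_union, hFC, hFP, Finset.mem_filter, Finset.mem_filter, Finset.mem_filter]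
      by_cases hf : Far H p
      · exact Or.inl ⟨⟨hp.1, hp.2.1, hf⟩, hp.2.2⟩
      · exact Or.inr ⟨hp.1, hf⟩
    have hFCle : (FC.card : ℝ) ≤ ∑ i ∈ I, ∏ s, (ph H lab K y R i.1.1 i.2 s (g s) *
        ph H lab K y R i.1.2 i.2 s (g s)) := by
      rw [hI, Finset.sum_product]
      have h3 : (FC.card : ℝ) ≤ ∑ p ∈ FP, if (fun j => g (p.1, j)) = (fun j => g (p.2, j))
          then (1 : ℝ) else 0 := by
        rw [hFC, ← Finset.sum_filter, Finset.sum_const, nsmul_eq_mul, mul_one]
      refine h3.trans (Finset.sum_le_sum ?_)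
      intro p _
      have hnn : ∀ x ∈ (univ : Finset (Fin J → Fin b)),
          0 ≤ ∏ s, (ph H lab K y R p.1 x s (g s) * ph H lab K y R p.2 x s (g s)) := by
        intro x _
        exact Finset.prod_nonneg fun s _ => mul_nonneg (ph_nonneg H lab K y R _ _ _ _)
          (ph_nonneg H lab K y R _ _ _ _)
      split_ifs with hpp
      · refine le_trans (le_of_eq ?_) (Finset.single_le_sum hnn
          (Finset.mem_univ (fun j => g (p.1, j))))
        symm
        apply Finset.prod_eq_one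
        intro s _
        have h4 := ph_valid H lab K ρ y R hR g hg p.1 s
        have h5 := ph_valid H lab K ρ y R hR g hg p.2 s
        rw [← hpp] at h5
        rw [h4, h5, mul_one]
      · exact Finset.sum_nonneg hnn
    have hWle : ∑ i ∈ I, ∏ s : V × Fin J, (wt H lab K ρ y b γ i.1.1 s * wt H lab K ρ y b γ i.1.2 s) ≤
        q ^ (2 * J * (Δ + 1)) * ((FP.card : ℝ) / (b : ℝ) ^ J) := by
      have h3 : ∀ i ∈ I, ∏ s : V × Fin J, (wt H lab K ρ y b γ i.1.1 s * wt H lab K ρ y b γ i.1.2 s) ≤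
          (q ^ (J * (Δ + 1)) / (b : ℝ) ^ J) * (q ^ (J * (Δ + 1)) / (b : ℝ) ^ J) := by
        intro i _
        rw [Finset.prod_mul_distrib]
        exact mul_le_mul (prod_wt H lab K ρ y hρs hdeg hb hγ hγ1 hρ0 _)
          (prod_wt H lab K ρ y hρs hdeg hb hγ hγ1 hρ0 _)
          (Finset.prod_nonneg fun s _ => wt_nonneg H lab K ρ y hb hγ hγ1 hρ0 _ _) (by positivity)
      refine (Finset.sum_le_sum h3).trans (le_of_eq ?_)
      rw [Finset.sum_const, nsmul_eq_mul, hI, Finset.card_product, Finset.card_univ,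
        Fintype.card_fun, Fintype.card_fin, Fintype.card_fin, mul_assoc 2 J, two_mul, pow_add]
      push_cast
      field_simp
    have hFPle : (FP.card : ℝ) ≤ (((U ×ˢ U).filter (fun p => lab p.1 = lab p.2)).card : ℝ) := by
      apply Nat.cast_le.mpr
      apply Finset.card_le_card
      intro p hp
      rw [hFP, Finset.mem_filter] at hp
      rw [Finset.mem_filter]
      exact ⟨hp.1, hp.2.1⟩
    have hnf : (((U ×ˢ U).filter (fun p => ¬ Far H p)).card : ℝ) ≤
        U.card * ((Δ : ℝ) + 1) ^ 2 := by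
      have h3 := card_nonfar H hdeg U
      have h4 : (((U ×ˢ U).filter (fun p => ¬ Far H p)).card : ℝ) ≤
          ((U.card * (Δ + 1) ^ 2 : ℕ) : ℝ) := by
        apply Nat.cast_le.mpr
        convert h3
      push_cast at h4
      exact h4
    calc (((U ×ˢ U).filter (fun p => lab p.1 = lab p.2 ∧
          (fun j => g (p.1, j)) = (fun j => g (p.2, j)))).card : ℝ)
        ≤ FC.card + ((U ×ˢ U).filter (fun p => ¬ Far H p)).card := by exact_mod_cast hcard1
      _ ≤ q ^ (2 * J * (Δ + 1)) *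
          ((((U ×ˢ U).filter (fun p => lab p.1 = lab p.2)).card : ℝ) / (b : ℝ) ^ J) +
          U.card * ((Δ : ℝ) + 1) ^ 2 := by
        apply add_le_add _ hnf
        refine (hFCle.trans (hsum.trans hWle)).trans ?_
        apply mul_le_mul_of_nonneg_left _ (by positivity)
        exact div_le_div_of_nonneg_right hFPle (by positivity)

end Pool.Agent.Lib.MP_1f2a9f_co
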