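import Pool.Agent.Lib.MP_1f2a9f_co.Defs

/-! MP_1f2a9f_co, module DUAL (helper9): finite minimax by Hahn-Banach. -/

namespace Pool.Agent.Lib.MP_1f2a9f_co

open Finset

namespace Dual

/-- perspective of the square is convex -/
theorem persp {a b p₁ p₂ q₁ q₂ : ℝ} (ha : 0 ≤ a) (hb : 0 ≤ b) (hq₁ : 0 < q₁) (hq₂ : 0 < q₂)
    (hab : 0 < a * q₁ + b * q₂) :
    (a * p₁ + b * p₂) ^ 2 / (a * q₁ + b * q₂) ≤ a * (p₁ ^ 2 / q₁) + b * (p₂ ^ 2 / q₂) := by
  rw [div_le_iff₀ hab]
  have h1 : (a * (p₁ ^ 2 / q₁) + b * (p₂ ^ 2 / q₂)) * (a * q₁ + b * q₂) -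
      (a * p₁ + b * p₂) ^ 2 = a * b * (p₁ * q₂ - p₂ * q₁) ^ 2 / (q₁ * q₂) := by
    field_simp
    ring
  have h2 : 0 ≤ a * b * (p₁ * q₂ - p₂ * q₁) ^ 2 / (q₁ * q₂) := by positivity
  linarith

/-- the edge function -/
noncomputable def phi (a b : ℝ) : ℝ := if a ≤ b then a - a ^ 2 / (2 * b) else b / 2

theorem phi_pos {a b : ℝ} (ha : 0 < a) (hb : 0 < b) : 0 < phi a b := by
  unfold phi
  split_ifs with h
  · have : a ^ 2 / (2 * b) ≤ a / 2 := by
      rw [div_le_div_iff₀ (by positivity) (by norm_num)]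
      nlinarith
    linarith
  · positivity

theorem phi_sum {a b : ℝ} (ha : 0 < a) (hb : 0 < b) : phi a b / a + phi b a / b = 1 := by
  unfold phi
  rcases lt_trichotomy a b with h | h | h
  · rw [if_pos h.le, if_neg (not_le.mpr h)]
    field_simp
    ring
  · subst h
    simp only [le_refl, if_true]
    field_simp
    ring
  · rw [if_neg (not_le.mpr h), if_pos h.le]
    field_simp
    ring

theorem phi_edge {a b L : ℝ} (_ha : 0 < a) (hb : 0 < b) (hL : 0 < L) :
    a * (L * max 0 (1 - a / b)) + b * ((L - L * max 0 (1 - a / b)) ^ 2 / (2 * L)) =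
      L * phi a b := by
  unfold phi
  split_ifs with h
  · rw [max_eq_right (by rw [sub_nonneg, div_le_one hb]; exact h)]
    field_simp
    ring
  · rw [max_eq_left (by rw [sub_nonpos, one_le_div hb]; exact (not_le.mp h).le)]
    field_simp
    ring

variable {V : Type} [Fintype V] [DecidableEq V] (H : SimpleGraph V) [DecidableRel H.Adj]

/-- exchange of the two ends of the edges -/
theorem swap_sum (g : V → V → ℝ) :
    ∑ v, ∑ u ∈ H.neighborFinset v, g v u = ∑ v, ∑ u ∈ H.neighborFinset v, g u v := by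
  have h : ∀ (g : V → V → ℝ), ∑ v, ∑ u ∈ H.neighborFinset v, g v u =
      ∑ v, ∑ u, if H.Adj v u then g v u else 0 := by
    intro g
    refine Finset.sum_congr rfl fun v _ => ?_
    rw [← Finset.sum_filter]
    refine Finset.sum_congr ?_ fun _ _ => rfl
    ext u
    simp
  rw [h, h, Finset.sum_comm]
  refine Finset.sum_congr rfl fun v _ => Finset.sum_congr rfl fun u _ => ?_
  simp only [H.adj_comm]

/-- feasible points -/
def Feas (L : V → ℝ) (k : V → V → ℝ) : Prop :=
  (∀ v, 0 < L v) ∧ (∀ u v, 0 ≤ k u v ∧ k u v ≤ L u) ∧ ∑ v, 1 / L v ≤ 1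

/-- the load -/
noncomputable def load (L : V → ℝ) (k : V → V → ℝ) (v : V) : ℝ :=
  ∑ u ∈ H.neighborFinset v, (k v u + (L u - k u v) ^ 2 / (2 * L u))

/-- the open convex set -/
def C : Set (V → ℝ) := {z | ∃ L k, Feas (V := V) L k ∧ ∀ v, load H L k v < z v}

theorem isOpen_C : IsOpen (C H) := by
  have : C H = ⋃ (p : {p : (V → ℝ) × (V → V → ℝ) // Feas p.1 p.2}),
      Set.pi Set.univ (fun v => Set.Ioi (load H p.1.1 p.1.2 v)) := by
    ext z
    simp only [C, Set.mem_ofPred_eq, Set.mem_iUnion, Set.mem_pi, Set.mem_univ, true_imp_iff,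
      Set.mem_Ioi, Subtype.exists, Prod.exists, exists_prop]
  rw [this]
  exact isOpen_iUnion fun p => isOpen_set_pi Set.finite_univ fun v _ => isOpen_Ioi

theorem convex_C : Convex ℝ (C H) := by
  rintro z₁ ⟨L₁, k₁, ⟨hL₁, hk₁, hs₁⟩, h₁⟩ z₂ ⟨L₂, k₂, ⟨hL₂, hk₂, hs₂⟩, h₂⟩ a b ha hb hab
  have hpos : ∀ v, 0 < a * L₁ v + b * L₂ v := by
    intro v
    rcases ha.eq_or_lt with h | h
    · have hb1 : b = 1 := by linarith
      rw [← h, hb1]; simpa using hL₂ v
    · have := mul_pos h (hL₁ v)
      have := mul_nonneg hb (hL₂ v).le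
      linarith
  refine ⟨fun v => a * L₁ v + b * L₂ v, fun u v => a * k₁ u v + b * k₂ u v, ⟨hpos, ?_, ?_⟩, ?_⟩
  · intro u v
    obtain ⟨h1, h2⟩ := hk₁ u v
    obtain ⟨h3, h4⟩ := hk₂ u v
    constructor
    · positivity
    · exact add_le_add (mul_le_mul_of_nonneg_left h2 ha) (mul_le_mul_of_nonneg_left h4 hb)
  · calc ∑ v, 1 / (a * L₁ v + b * L₂ v) ≤ ∑ v, (a * (1 / L₁ v) + b * (1 / L₂ v)) := by
          refine Finset.sum_le_sum fun v _ => ?_
          have := persp (p₁ := 1) (p₂ := 1) ha hb (hL₁ v) (hL₂ v) (hpos v)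
          simpa [hab] using this
      _ = a * ∑ v, 1 / L₁ v + b * ∑ v, 1 / L₂ v := by
          rw [Finset.sum_add_distrib, Finset.mul_sum, Finset.mul_sum]
      _ ≤ a * 1 + b * 1 := add_le_add (mul_le_mul_of_nonneg_left hs₁ ha)
          (mul_le_mul_of_nonneg_left hs₂ hb)
      _ = 1 := by linarith
  · intro v
    have hle : load H (fun v => a * L₁ v + b * L₂ v) (fun u v => a * k₁ u v + b * k₂ u v) v ≤
        a * load H L₁ k₁ v + b * load H L₂ k₂ v := by
      unfold load
      rw [Finset.mul_sum, Finset.mul_sum, ← Finset.sum_add_distrib]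
      refine Finset.sum_le_sum fun u _ => ?_
      have := persp (p₁ := L₁ u - k₁ u v) (p₂ := L₂ u - k₂ u v) (q₁ := 2 * L₁ u)
        (q₂ := 2 * L₂ u) ha hb (by linarith [hL₁ u]) (by linarith [hL₂ u])
        (by linarith [hpos u])
      have e1 : (a * L₁ u + b * L₂ u - (a * k₁ u v + b * k₂ u v)) ^ 2 /
          (2 * (a * L₁ u + b * L₂ u)) = (a * (L₁ u - k₁ u v) + b * (L₂ u - k₂ u v)) ^ 2 /
          (a * (2 * L₁ u) + b * (2 * L₂ u)) := by
        congr 1 <;> ring
      rw [e1]
      linarith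
    have h3 : a * load H L₁ k₁ v + b * load H L₂ k₂ v < a * z₁ v + b * z₂ v := by
      rcases ha.eq_or_lt with h | h
      · have hb1 : b = 1 := by linarith
        rw [← h, hb1]; simpa using h₂ v
      · have := mul_lt_mul_of_pos_left (h₁ v) h
        have := mul_le_mul_of_nonneg_left (h₂ v).le hb
        linarith
    simpa using hle.trans_lt h3

theorem upper_C {z z' : V → ℝ} (hz : z ∈ C H) (h : ∀ v, z v ≤ z' v) : z' ∈ C H := by
  obtain ⟨L, k, hf, hl⟩ := hz
  exact ⟨L, k, hf, fun v => (hl v).trans_le (h v)⟩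

/-- the test point -/
theorem test_point [Nonempty V] (m : ℝ) (hm : 0 < m) (he : (H.edgeFinset.card : ℝ) ≤ m)
    (y : V → ℝ) (hy : ∀ v, 0 < y v) (η : ℝ) (hη : 0 < η) :
    ∃ L k, Feas (V := V) L k ∧ ∑ v, y v * load H L k v ≤ (1 + η) * m * ∑ v, y v := by
  classical
  set κ : ℝ := η * m / ∑ v, 1 / y v with hκ
  have hs : 0 < ∑ v, 1 / y v := Finset.sum_pos (fun v _ => by have := hy v; positivity)
    Finset.univ_nonempty
  have hκ0 : 0 < κ := by positivity
  set Φ : V → ℝ := fun u => ∑ v ∈ H.neighborFinset u, phi (y u) (y v) with hΦ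
  set c : V → ℝ := fun u => κ + Φ u with hc
  have hΦ0 : ∀ u, 0 ≤ Φ u := fun u => Finset.sum_nonneg fun v _ => (phi_pos (hy u) (hy v)).le
  have hc0 : ∀ u, 0 < c u := fun u => by have := hΦ0 u; simp only [hc]; linarith
  set S : ℝ := ∑ u, Real.sqrt (c u) with hS
  have hS0 : 0 < S := Finset.sum_pos (fun v _ => Real.sqrt_pos.mpr (hc0 v)) Finset.univ_nonempty
  have hsq : ∀ u, 0 < Real.sqrt (c u) := fun u => Real.sqrt_pos.mpr (hc0 u)
  set L : V → ℝ := fun u => S / Real.sqrt (c u) with hL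
  have hL0 : ∀ u, 0 < L u := fun u => div_pos hS0 (hsq u)
  refine ⟨L, fun u v => L u * max 0 (1 - y u / y v), ⟨hL0, ?_, ?_⟩, ?_⟩
  · intro u v
    have h1 : 0 ≤ max 0 (1 - y u / y v) := le_max_left _ _
    have h2 : max 0 (1 - y u / y v) ≤ 1 := max_le (by norm_num)
      (by have := div_pos (hy u) (hy v); linarith)
    constructor
    · exact mul_nonneg (hL0 u).le h1
    · nlinarith [hL0 u]
  · have : ∀ v, 1 / L v = Real.sqrt (c v) / S := fun v => by
      simp only [hL]; rw [one_div_div]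
    simp_rw [this]
    rw [← Finset.sum_div, ← hS, div_self hS0.ne']
  · have h1 : ∑ v, y v * load H L (fun u v => L u * max 0 (1 - y u / y v)) v =
        ∑ u, L u * Φ u := by
      unfold load
      have e : ∀ v, y v * ∑ u ∈ H.neighborFinset v, ((L v * max 0 (1 - y v / y u)) +
          (L u - L u * max 0 (1 - y u / y v)) ^ 2 / (2 * L u)) =
          ∑ u ∈ H.neighborFinset v, y v * (L v * max 0 (1 - y v / y u)) +
          ∑ u ∈ H.neighborFinset v, y v * ((L u - L u * max 0 (1 - y u / y v)) ^ 2 /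
            (2 * L u)) := by
        intro v
        rw [Finset.mul_sum, ← Finset.sum_add_distrib]
        exact Finset.sum_congr rfl fun u _ => by ring
      simp_rw [e]
      rw [Finset.sum_add_distrib, swap_sum H (fun v u => y v * ((L u - L u *
        max 0 (1 - y u / y v)) ^ 2 / (2 * L u))), ← Finset.sum_add_distrib]
      refine Finset.sum_congr rfl fun u _ => ?_
      rw [← Finset.sum_add_distrib, hΦ, Finset.mul_sum]
      exact Finset.sum_congr rfl fun v _ => phi_edge (hy u) (hy v) (hL0 u)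
    rw [h1]
    have h2 : ∑ u, L u * Φ u ≤ S ^ 2 := by
      calc ∑ u, L u * Φ u ≤ ∑ u, L u * c u := Finset.sum_le_sum fun u _ =>
            mul_le_mul_of_nonneg_left (by simp only [hc]; linarith) (hL0 u).le
        _ = ∑ u, S * Real.sqrt (c u) := by
            refine Finset.sum_congr rfl fun u _ => ?_
            simp only [hL]
            have := Real.mul_self_sqrt (hc0 u).le
            have h3 := (hsq u).ne'
            field_simp
            nlinarith [this]
        _ = S ^ 2 := by rw [← Finset.mul_sum, ← hS, sq]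
    have h3 : S ^ 2 ≤ (∑ u, c u / y u) * ∑ u, y u := by
      have := Finset.sum_sq_le_sum_mul_sum_of_sq_le_mul (s := (Finset.univ : Finset V))
        (r := fun u => Real.sqrt (c u)) (f := fun u => c u / y u) (g := y)
        (fun u _ => (div_pos (hc0 u) (hy u)).le) (fun u _ => (hy u).le)
        (fun u _ => by rw [Real.sq_sqrt (hc0 u).le, div_mul_cancel₀ _ (hy u).ne'])
      simpa [hS] using this
    have h4 : ∑ u, c u / y u = η * m + H.edgeFinset.card := by
      have e1 : ∀ u, c u / y u = κ * (1 / y u) +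
          ∑ v ∈ H.neighborFinset u, phi (y u) (y v) / y u := by
        intro u
        simp only [hc, hΦ]
        rw [← Finset.sum_div]
        ring
      simp_rw [e1]
      rw [Finset.sum_add_distrib, ← Finset.mul_sum]
      have e2 : κ * ∑ v, 1 / y v = η * m := by
        rw [hκ, div_mul_cancel₀ _ hs.ne']
      rw [e2]
      congr 1
      have e3 : ∑ u, ∑ v ∈ H.neighborFinset u, phi (y u) (y v) / y u +
          ∑ u, ∑ v ∈ H.neighborFinset u, phi (y u) (y v) / y u = 2 * H.edgeFinset.card := by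
        nth_rewrite 2 [swap_sum H (fun u v => phi (y u) (y v) / y u)]
        rw [← Finset.sum_add_distrib]
        have : ∀ u, (∑ v ∈ H.neighborFinset u, phi (y u) (y v) / y u +
            ∑ v ∈ H.neighborFinset u, phi (y v) (y u) / y v) = (H.degree u : ℝ) := by
          intro u
          rw [← Finset.sum_add_distrib]
          rw [Finset.sum_congr rfl fun v _ => phi_sum (hy u) (hy v)]
          simp
        simp_rw [this]
        exact_mod_cast H.sum_degrees_eq_twice_card_edges
      linarith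
    have h5 : 0 < ∑ u, y u := Finset.sum_pos (fun v _ => hy v) Finset.univ_nonempty
    calc ∑ u, L u * Φ u ≤ (∑ u, c u / y u) * ∑ u, y u := h2.trans h3
      _ ≤ (1 + η) * m * ∑ u, y u := by
          refine mul_le_mul_of_nonneg_right ?_ h5.le
          rw [h4]; linarith

end Dual

open Pool.Agent.Lib.MP_1f2a9f_co.Dual in
theorem duality {V : Type} [Fintype V] [DecidableEq V] (H : SimpleGraph V) [DecidableRel H.Adj]
    (m : ℝ) (hm : 0 < m) (he : (H.edgeFinset.card : ℝ) ≤ m) (ε : ℝ) (hε : 0 < ε) :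
    ∃ (L : V → ℝ) (k : V → V → ℝ), (∀ v, 0 < L v) ∧ (∀ u v, 0 ≤ k u v ∧ k u v ≤ L u) ∧
      ∑ v, 1 / L v ≤ 1 ∧
      ∀ v, ∑ u ∈ H.neighborFinset v, (k v u + (L u - k u v) ^ 2 / (2 * L u)) ≤ (1 + ε) * m := by
  classical
  rcases isEmpty_or_nonempty V with hV | hV
  · refine ⟨fun _ => 1, fun _ _ => 0, fun v => (IsEmpty.false v).elim, fun v => (IsEmpty.false v).elim,
      by simp, fun v => (IsEmpty.false v).elim⟩
  by_cases hz : (fun _ => (1 + ε) * m : V → ℝ) ∈ C H
  · obtain ⟨L, k, ⟨h1, h2, h3⟩, h4⟩ := hz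
    exact ⟨L, k, h1, h2, h3, fun v => (h4 v).le⟩
  exfalso
  obtain ⟨f, hf⟩ := geometric_hahn_banach_open_point (convex_C H) (isOpen_C H) hz
  set y : V → ℝ := fun v => - f (Pi.single v 1) with hy
  have hfy : ∀ z : V → ℝ, f z = - ∑ v, y v * z v := by
    intro z
    have hz : z = ∑ v, z v • (Pi.single v (1 : ℝ) : V → ℝ) := by
      conv_lhs => rw [← Finset.univ_sum_single z]
      refine Finset.sum_congr rfl fun v _ => ?_
      rw [← Pi.single_smul, smul_eq_mul, mul_one]
    conv_lhs => rw [hz]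
    rw [map_sum, ← Finset.sum_neg_distrib]
    refine Finset.sum_congr rfl fun v _ => ?_
    rw [map_smul, smul_eq_mul]
    simp only [hy]
    ring
  obtain ⟨L₀, k₀, hf₀, -⟩ := test_point H m hm he (fun _ => 1) (fun _ => one_pos) 1 one_pos
  have hmem : ∀ (L : V → ℝ) (k : V → V → ℝ), Feas L k → ∀ (w : V → ℝ), (∀ v, 0 < w v) →
      (fun v => load H L k v + w v) ∈ C H := by
    intro L k hF w hw
    exact ⟨L, k, hF, fun v => by have := hw v; linarith⟩
  have hlt : ∀ (L : V → ℝ) (k : V → V → ℝ), Feas L k → ∀ (w : V → ℝ), (∀ v, 0 < w v) →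
      (1 + ε) * m * ∑ v, y v < ∑ v, y v * load H L k v + ∑ v, y v * w v := by
    intro L k hF w hw
    have := hf _ (hmem L k hF w hw)
    rw [hfy, hfy] at this
    have e1 : ∑ v, y v * (load H L k v + w v) = ∑ v, y v * load H L k v + ∑ v, y v * w v := by
      rw [← Finset.sum_add_distrib]; exact Finset.sum_congr rfl fun _ _ => by ring
    have e2 : ∑ v, y v * ((1 + ε) * m) = (1 + ε) * m * ∑ v, y v := by
      rw [← Finset.sum_mul]; ring
    simp only [e1, e2] at this
    linarith
  have hy0 : ∀ v, 0 ≤ y v := by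
    intro v
    by_contra hneg
    push Not at hneg
    set A := ∑ v, y v * load H L₀ k₀ v + ∑ v, y v with hA
    have h1 := hlt L₀ k₀ hf₀ (fun u => 1 + if u = v then (|A - (1 + ε) * m * ∑ v, y v| + 1) /
      (- y v) else 0) (fun u => by
        have : 0 ≤ (if u = v then (|A - (1 + ε) * m * ∑ v, y v| + 1) / (- y v) else 0) := by
          split_ifs
          · exact div_nonneg (by positivity) (by linarith)
          · exact le_rfl
        linarith)
    have e1 : ∑ u, y u * (1 + if u = v then (|A - (1 + ε) * m * ∑ v, y v| + 1) /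
        (- y v) else 0) = ∑ u, y u - (|A - (1 + ε) * m * ∑ v, y v| + 1) := by
      have : ∀ u, y u * (1 + if u = v then (|A - (1 + ε) * m * ∑ v, y v| + 1) /
        (- y v) else 0) = y u + (if u = v then y u * ((|A - (1 + ε) * m * ∑ v, y v| + 1) /
        (- y v)) else 0) := by
        intro u
        split_ifs <;> ring
      simp_rw [this]
      rw [Finset.sum_add_distrib, Finset.sum_ite_eq' Finset.univ v]
      simp only [Finset.mem_univ, if_true]
      have h3 : y v ≠ 0 := hneg.ne
      field_simp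
      ring
    rw [e1] at h1
    have h2 := le_abs_self (A - (1 + ε) * m * ∑ v, y v)
    rw [hA] at h2
    linarith [h1, h2]
  have hsum0 : 0 ≤ ∑ v, y v := Finset.sum_nonneg fun v _ => hy0 v
  have hge : ∀ (L : V → ℝ) (k : V → V → ℝ), Feas L k →
      (1 + ε) * m * ∑ v, y v ≤ ∑ v, y v * load H L k v := by
    intro L k hF
    refine le_of_forall_pos_le_add fun δ hδ => ?_
    have h1 := hlt L k hF (fun _ => δ / (∑ v, y v + 1)) (fun v => by positivity)
    rw [← Finset.sum_mul] at h1
    have h2 : (∑ v, y v) * (δ / (∑ v, y v + 1)) ≤ δ := by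
      rw [mul_div_assoc', div_le_iff₀ (by positivity)]
      nlinarith
    linarith
  have hsum : 0 < ∑ v, y v := by
    rcases hsum0.eq_or_lt with h | h
    · exfalso
      have hall : ∀ v, y v = 0 := by
        intro v
        exact (Finset.sum_eq_zero_iff_of_nonneg (fun v _ => hy0 v)).mp h.symm v (Finset.mem_univ v)
      have := hlt L₀ k₀ hf₀ (fun _ => 1) (fun _ => one_pos)
      simp [hall] at this
    · exact h
  set η : ℝ := ε / (4 * (1 + ε)) with hη
  have hη0 : 0 < η := by positivity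
  have hη1 : η ≤ 1 / 4 := by
    rw [hη, div_le_div_iff₀ (by positivity) (by norm_num)]
    nlinarith
  have hη2 : η ≤ ε / 4 := by
    rw [hη]
    apply div_le_div_of_nonneg_left hε.le (by norm_num)
    linarith
  have hcard : (0 : ℝ) < Fintype.card V := by exact_mod_cast Fintype.card_pos
  set κ : ℝ := η * (∑ v, y v) / Fintype.card V with hκ
  have hκ0 : 0 < κ := by positivity
  obtain ⟨L, k, hF, hle⟩ := test_point H m hm he (fun v => y v + κ)
    (fun v => by have := hy0 v; linarith) η hη0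
  have h1 := hge L k hF
  have h2 : ∑ v, y v * load H L k v ≤ ∑ v, (y v + κ) * load H L k v := by
    refine Finset.sum_le_sum fun v _ => mul_le_mul_of_nonneg_right (by linarith) ?_
    refine Finset.sum_nonneg fun u _ => ?_
    have := (hF.2.1 v u).1
    have := hF.1 u
    positivity
  have h3 : ∑ v, (y v + κ) = (1 + η) * ∑ v, y v := by
    rw [Finset.sum_add_distrib, Finset.sum_const, Finset.card_univ, nsmul_eq_mul, hκ]
    field_simp
  rw [h3] at hle
  have h4 : (1 + ε) * m * ∑ v, y v ≤ (1 + η) * m * ((1 + η) * ∑ v, y v) := h1.trans (h2.trans hle)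
  have h5 : (1 + η) * (1 + η) < 1 + ε := by nlinarith
  have h6 : (1 + η) * m * ((1 + η) * ∑ v, y v) = (1 + η) * (1 + η) * (m * ∑ v, y v) := by ring
  have h7 : (1 + ε) * m * ∑ v, y v = (1 + ε) * (m * ∑ v, y v) := by ring
  rw [h6, h7] at h4
  have h8 : 0 < m * ∑ v, y v := by positivity
  have := mul_lt_mul_of_pos_right h5 h8
  linarith

end Pool.Agent.Lib.MP_1f2a9f_co
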