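import Pool.Agent.Lib.MP_1f2a9f_co.EmbedCore

/-!
# MP_1f2a9f_co, module E3: labels and fine digits for all vertices which are not universal
-/

namespace Pool.Agent.Lib.MP_1f2a9f_co

open Finset

theorem embed {ε η χ Dc ε₁ : ℝ} {B K J r : ℕ} (hc : Consts ε η χ Dc ε₁ B K J r) (m : ℕ)
    (h1 : 1 < Real.log m) (hbp : 0 < pb ε m) (hq : 0 < pq m) (hbg : 0 < pbg ε J m)
    (hg0 : 0 < pgam ε m) (hg1 : pgam ε m ≤ 1 / 2) (hgg0 : 0 < pgamg ε J m)
    (hgg1 : pgamg ε J m ≤ 1 / 2) (htau : 1 ≤ ptau ε m)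
    (hcells : ∀ l : Lev B (pI η m), 0 < cells ε J m l ∧
        cells ε J m l ≤ ε * cap ε χ Dc ε₁ m l)
    (hover : overNum ε η χ Dc B J m ≤ m / (Real.log m) ^ 3)
    (S : Lev B (pI η m) → ℕ → Lev B (pI η m) × Fin (pb ε m) → Bool)
    (hS : GoodRel (pb ε m) (tS ε m) (rhoS ε m) (pD m) (pgam ε m) (ptau ε m) S)
    (R : ((Fin B × Fin (pq m)) × Fin J) × Fin (pbg ε J m) →
      ((Fin B × Fin (pq m)) × Fin J) × Fin (pbg ε J m) → Bool)
    (g0 : Pre ε J m)
    (n : ℕ) (H : SimpleGraph (Fin n)) (hn : (n : ℝ) ≤ 2 * m)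
    (A : Finset (Fin n)) (lev : Fin n → Lev B (pI η m)) (pre : Fin n → Pre ε J m)
    (P : Fin n → Finset (Fin n))
    (hA : (A.card : ℝ) ≤ m / (Real.log m) ^ 3)
    (hpre : ∀ v, v ∉ A → pre v ∈ GamF g0 (lev v))
    (hcap : ∀ l, (((univ \ A).filter (fun v => lev v = l)).card : ℝ) ≤ cap ε χ Dc ε₁ m l)
    (hself : ∀ v, v ∉ P v) (hPD : ∀ v, (P v).card ≤ pD m)
    (hrev : ∀ u, (univ.filter (fun v => u ∈ P v)).card ≤ pD m)
    (hcost : ∀ v, ptau ε m ≤ tS ε m (lev v) * ∏ u ∈ P v, rhoS ε m (lev v) (lev u))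
    (hcover : ∀ u v, u ∉ A → v ∉ A → H.Adj u v → v ∈ P u ∨ u ∈ P v ∨
        QQ K R (lev u, pre u) (lev v, pre v))
    (hcoll : (∑ x : Fin B, (((((univ \ A) ×ˢ (univ \ A)).filter
        (fun p => lev p.1 = .inr (.inl x) ∧
          lev p.2 = .inr (.inl x) ∧ pre p.1 = pre p.2)).card : ℝ))) ≤
        sig2 ε Dc J m * (((∑ x : Fin B,
            (((univ \ A).filter (fun v => lev v = .inr (.inl x))).card : ℝ) ^ 2) / (pq m : ℝ) +
              2 * (ε * χ * (m / Real.log m)) +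
              4 * (ε * χ * (m / Real.log m) * (pDel Dc m : ℝ) / pq m) ^ 2) /
              (pbg ε J m : ℝ) ^ J) +
          ε * χ * (m / Real.log m) * ((pDel Dc m : ℝ) + 1) ^ 2) :
    ∃ (e : Fin n → Fin (pb ε m)) (f : Fin n → ℕ) (W : Lev B (pI η m) → ℝ),
      (∀ v, v ∉ A → f v < tS ε m (lev v)) ∧
      (∀ u v, u ∉ A → v ∉ A → H.Adj u v →
          S (lev u) (f u) (lev v, e v) = true ∨ S (lev v) (f v) (lev u, e u) = true ∨
            QQ K R (lev u, pre u) (lev v, pre v)) ∧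
      (∀ l, 0 ≤ W l) ∧
      (∀ l, 1 ≤ W l * (TT ε χ Dc ε₁ J m l -
          ((univ \ A).filter (fun v => lev v = l)).card /
            ((GamF g0 l).card * pb ε m * tS ε m l : ℝ))) ∧
      (A.card : ℝ) + (∑ p ∈ ((univ \ A) ×ˢ (univ \ A)).filter (fun p => lev p.1 = lev p.2 ∧
            pre p.1 = pre p.2 ∧ e p.1 = e p.2 ∧ f p.1 = f p.2), W (lev p.1)) -
          (∑ l, W l * (((univ \ A).filter (fun v => lev v = l)).card : ℝ) ^ 2 /
            ((GamF g0 l).card * pb ε m * tS ε m l : ℝ)) ≤ pa m := by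
  have hε := hc.hε
  have hε1 := hc.hε1
  have hlog : 0 < Real.log m := by linarith
  have hηpos : 0 < η := by rw [hc.hη]; positivity
  have hχ : 0 < χ := by rw [hc.hχ]; positivity
  have hmpos : (0 : ℝ) < m := by
    have : m ≠ 0 := by
      rintro rfl
      simp at hlog
    exact_mod_cast Nat.pos_of_ne_zero this
  have hgam : ∀ l : Lev B (pI η m), ((GamF g0 l).card : ℝ) = gamC ε J m l := by
    rintro (_ | _ | _) <;> simp [GamF, gamC]
  have hcell : ∀ l : Lev B (pI η m),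
      ((GamF g0 l).card * pb ε m * tS ε m l : ℝ) = cells ε J m l := by
    intro l
    rw [hgam]
    rfl
  have hcap0 : ∀ l : Lev B (pI η m), 0 < cap ε χ Dc ε₁ m l := by
    intro l
    have h := hcells l
    have h2 : 0 < ε * cap ε χ Dc ε₁ m l := h.1.trans_le h.2
    exact (mul_pos_iff_of_pos_left hε).1 h2
  have hqi0 : ∀ i, 0 ≤ qi ε m i := fun i => (Real.exp_pos _).le
  have hqi1 : ∀ i, qi ε m i ≤ 1 := by
    intro i
    rw [qi, Real.exp_le_one_iff, neg_nonpos]
    exact le_min (by positivity) (by positivity)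
  have hρ0 : ∀ l l' : Lev B (pI η m), 0 ≤ rhoS ε m l l' := by
    rintro (_ | _ | _) (_ | _ | _) <;> simp only [rhoS] <;>
      first | exact zero_le_one | exact le_refl _ | exact hqi0 _ | (split_ifs <;> first | exact hqi0 _ | exact le_refl _)
  have hρ1 : ∀ l l' : Lev B (pI η m), rhoS ε m l l' ≤ 1 := by
    rintro (_ | _ | _) (_ | _ | _) <;> simp only [rhoS] <;>
      first | exact le_refl _ | exact zero_le_one | exact hqi1 _ | (split_ifs <;> first | exact hqi1 _ | exact zero_le_one)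
  let W : Lev B (pI η m) → ℝ := fun l => cells ε J m l / (ε * cap ε χ Dc ε₁ m l)
  have hW0 : ∀ l, 0 ≤ W l := fun l =>
    div_nonneg (hcells l).1.le (mul_pos hε (hcap0 l)).le
  obtain ⟨e, f, hf, hSS, hsum⟩ := exists_labels (pb ε m) hbp (tS ε m) (rhoS ε m) hρ0 hρ1 (pD m)
    (pD m) (pgam ε m) (ptau ε m) hg0 hg1 htau S hS lev pre P hself hPD hrev hcost (univ \ A) W hW0
  refine ⟨e, f, W, fun v _ => hf v, ?_, hW0, ?_, ?_⟩
  · intro u v hu hv huv
    rcases hcover u v hu hv huv with h | h | h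
    · exact Or.inl (hSS u v h)
    · exact Or.inr (Or.inl (hSS v u h))
    · exact Or.inr (Or.inr h)
  · intro l
    rw [hcell]
    have hcl := (hcells l).1
    have hcp := hcap0 l
    have hT : (1 + ε) * cap ε χ Dc ε₁ m l / cells ε J m l ≤ (TT ε χ Dc ε₁ J m l : ℝ) :=
      Nat.le_ceil _
    have hN : (((univ \ A).filter (fun v => lev v = l)).card : ℝ) / cells ε J m l ≤
        cap ε χ Dc ε₁ m l / cells ε J m l := div_le_div_of_nonneg_right (hcap l) hcl.le
    have h2 : ε * cap ε χ Dc ε₁ m l / cells ε J m l ≤ (TT ε χ Dc ε₁ J m l : ℝ) -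
        (((univ \ A).filter (fun v => lev v = l)).card : ℝ) / cells ε J m l := by
      have h3 : (1 + ε) * cap ε χ Dc ε₁ m l / cells ε J m l =
          ε * cap ε χ Dc ε₁ m l / cells ε J m l + cap ε χ Dc ε₁ m l / cells ε J m l := by ring
      linarith
    refine le_trans ?_ (mul_le_mul_of_nonneg_left h2 (hW0 l))
    have h4 : W l * (ε * cap ε χ Dc ε₁ m l / cells ε J m l) = 1 := by
      simp only [W]
      field_simp
    rw [h4]
  · -- the overflow
    have hsig1 : (1 + pgam ε m) ^ (2 * pD m) / (1 - pgam ε m) ^ 2 = sig1 ε m := rfl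
    rw [hsig1] at hsum
    have hS1 := Emb.sum_level (univ \ A) lev (fun p => pre p.1 = pre p.2)
      (fun l => W l / ((pb ε m : ℝ) * tS ε m l))
    have hS2 := Emb.sum_lev (univ \ A) lev W
    rw [hS1, hS2] at hsum
    have hσ₁ : 1 ≤ sig1 ε m := by
      rw [sig1, le_div_iff₀ (by nlinarith), one_mul]
      have h5 : (1 - pgam ε m) ^ 2 ≤ 1 := by nlinarith
      exact h5.trans (one_le_pow₀ (by linarith))
    have hσ₂ : 1 ≤ sig2 ε Dc J m := by
      rw [sig2]
      refine one_le_pow₀ ?_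
      rw [le_div_iff₀ (by linarith)]
      linarith
    have hsumN : ∑ l, (((univ \ A).filter (fun v => lev v = l)).card : ℝ) ≤ 2 * m := by
      have h6 := Emb.sum_lev (univ \ A) lev (fun _ => 1)
      simp only [Finset.sum_const, nsmul_eq_mul, mul_one] at h6
      rw [← h6]
      refine le_trans ?_ hn
      have h7 : (univ \ A).card ≤ (univ : Finset (Fin n)).card := Finset.card_le_card (Finset.sdiff_subset)
      rw [Finset.card_univ, Fintype.card_fin] at h7
      exact_mod_cast h7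
    have hcl : ∀ l : Lev B (pI η m), cells ε J m l = gamC ε J m l * pb ε m * tS ε m l :=
      fun l => rfl
    have hcZ : cells ε J m (.inl () : Lev B (pI η m)) =
        (pb ε m : ℝ) * (tS ε m (.inl () : Lev B (pI η m)) : ℝ) := by
      rw [hcl]; simp only [gamC]; push_cast; ring
    have hcT : ∀ i, cells ε J m (.inr (.inr i) : Lev B (pI η m)) =
        (pb ε m : ℝ) * (tS ε m (.inr (.inr i) : Lev B (pI η m)) : ℝ) := by
      intro i
      rw [hcl]; simp only [gamC]; push_cast; ring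
    have hcX : ∀ x, cells ε J m (.inr (.inl x) : Lev B (pI η m)) =
        (pq m : ℝ) * ((pbg ε J m : ℝ) ^ J) * pb ε m * pb ε m := by
      intro x
      rw [hcl]; simp only [gamC, tS]; push_cast; ring
    obtain ⟨E, hEdef⟩ : ∃ E : Lev B (pI η m) → ℝ, E = fun l => ((((univ \ A) ×ˢ (univ \ A)).filter
        (fun p => lev p.1 = l ∧ lev p.2 = l ∧ pre p.1 = pre p.2)).card : ℝ) := ⟨_, rfl⟩
    obtain ⟨N, hNdef⟩ : ∃ N : Lev B (pI η m) → ℝ, N = fun l =>
        (((univ \ A).filter (fun v => lev v = l)).card : ℝ) := ⟨_, rfl⟩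
    obtain ⟨c, hcdef⟩ : ∃ c : Lev B (pI η m) → ℝ, c = fun l => cells ε J m l := ⟨_, rfl⟩
    obtain ⟨cp, hcpdef⟩ : ∃ cp : Lev B (pI η m) → ℝ, cp = fun l => cap ε χ Dc ε₁ m l := ⟨_, rfl⟩
    obtain ⟨t, htdef⟩ : ∃ t : Lev B (pI η m) → ℝ, t = fun l => (tS ε m l : ℝ) := ⟨_, rfl⟩
    have hE1 : ∀ l, E l ≤ N l ^ 2 := by
      intro l
      rw [hEdef, hNdef]
      exact Emb.card_level _ _ _ _
    have hE2 : ∑ x : Fin B, E (.inr (.inl x)) ≤
        sig2 ε Dc J m * (((∑ x : Fin B, N (.inr (.inl x)) ^ 2) / (pq m : ℝ) +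
              2 * (ε * χ * (m / Real.log m)) +
              4 * (ε * χ * (m / Real.log m) * (pDel Dc m : ℝ) / pq m) ^ 2) /
              (pbg ε J m : ℝ) ^ J) +
          ε * χ * (m / Real.log m) * ((pDel Dc m : ℝ) + 1) ^ 2 := by
      rw [hEdef, hNdef]
      exact hcoll
    have hsumN' : ∑ l, N l ≤ 2 * m := by rw [hNdef]; exact hsumN
    have hN0 : ∀ l, 0 ≤ N l := by intro l; rw [hNdef]; positivity
    have hNcap : ∀ l, N l ≤ cp l := by intro l; rw [hNdef, hcpdef]; exact hcap l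
    have hc0 : ∀ l, 0 < c l := by intro l; rw [hcdef]; exact (hcells l).1
    have hcp0 : ∀ l, 0 < cp l := by intro l; rw [hcpdef]; exact hcap0 l
    have hWW : ∀ l, W l = c l / (ε * cp l) := by intro l; rw [hcdef, hcpdef]
    have hcX' : ∀ x : Fin B, c (.inr (.inl x)) = (pq m : ℝ) * ((pbg ε J m : ℝ) ^ J) * pb ε m * pb ε m := by
      intro x; rw [hcdef]; exact hcX x
    have hcpX' : ∀ x : Fin B, cp (.inr (.inl x)) = (1 + 3 * ε) * (χ / B) * (m / Real.log m) := by
      intro x; rw [hcpdef]; rfl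
    have htX' : ∀ x : Fin B, t (.inr (.inl x)) = pb ε m := by intro x; rw [htdef]; rfl
    have hcZ' : c (.inl ()) = (pb ε m : ℝ) * t (.inl ()) := by rw [hcdef, htdef]; exact hcZ
    have hcT' : ∀ i, c (.inr (.inr i)) = (pb ε m : ℝ) * t (.inr (.inr i)) := by
      intro i; rw [hcdef, htdef]; exact hcT i
    have hcore := Emb.core hc.hB (sig1 ε m) (sig2 ε Dc J m) ε χ (ε * χ * (m / Real.log m))
      (m / Real.log m) (pq m) ((pbg ε J m : ℝ) ^ J) (pDel Dc m) (pD m) (pb ε m) m E N c cp t W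
      hσ₁ hσ₂ hε hε1 hχ (by positivity) rfl (by exact_mod_cast hq) (by positivity) (by positivity)
      (by exact_mod_cast hbp) hsumN' hN0 hNcap hc0 hcp0 hWW hE1 hcX' hcpX' htX' hcZ' hcT' hE2
    have hs1 : ∑ l, E l * (W l / (pb ε m * t l)) =
        ∑ l, ((((univ \ A) ×ˢ (univ \ A)).filter (fun p => lev p.1 = l ∧ lev p.2 = l ∧
          pre p.1 = pre p.2)).card : ℝ) * (W l / (pb ε m * tS ε m l)) := by
      rw [hEdef, htdef]
    have hs2 : ∑ l, N l * W l =
        ∑ l, (((univ \ A).filter (fun v => lev v = l)).card : ℝ) * W l := by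
      rw [hNdef]
    have hs3 : ∑ l, W l * N l ^ 2 / c l =
        ∑ l, W l * (((univ \ A).filter (fun v => lev v = l)).card : ℝ) ^ 2 / cells ε J m l := by
      rw [hNdef, hcdef]
    have hs4 : ∑ l, c l = ∑ l : Lev B (pI η m), cells ε J m l := by rw [hcdef]
    rw [hs1, hs2, hs3, hs4] at hcore
    simp only [hcell]
    have hpa : 2 * ((m : ℝ) / (Real.log m) ^ 3) ≤ (pa m : ℝ) := by
      rw [pa]
      push_cast
      exact mul_le_mul_of_nonneg_left (Nat.le_ceil _) (by norm_num)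
    have hov : (sig1 ε m - 1) * (2 * m) / ε +
        (sig1 ε m * sig2 ε Dc J m - 1) * (2 * χ / ε) * (m / Real.log m) +
        sig1 ε m * sig2 ε Dc J m * (2 * pq m * B +
          4 * (ε * χ * (m / Real.log m)) * (pDel Dc m : ℝ) ^ 2 * B / pq m) +
        sig1 ε m * pq m * (pbg ε J m : ℝ) ^ J * B * ((pDel Dc m : ℝ) + 1) ^ 2 +
        ((pD m : ℝ) + 1) ^ 2 / ε * ∑ l : Lev B (pI η m), cells ε J m l =
          overNum ε η χ Dc B J m := rfl
    rw [hov] at hcore
    have hD2 : (((pD m : ℝ) + 1) * ((pD m : ℝ) + 1)) = ((pD m : ℝ) + 1) ^ 2 := by ring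
    rw [hD2] at hsum
    linarith

end Pool.Agent.Lib.MP_1f2a9f_co
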