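import Pool.Agent.Lib.MP_1f2a9f_co.Defs

/-!
# Parameters of the final assembly of the upper bound (all explicit functions of `m`)
-/

namespace Pool.Agent.Lib.MP_1f2a9f_co

open Finset

/-- The constants (independent of `m`). -/
structure Consts (ε η χ Dc ε₁ : ℝ) (B K J r : ℕ) : Prop where
  hε : 0 < ε
  hε1 : ε ≤ 1 / 1000
  hη : η = ε ^ 2 / 2000
  hχ : χ = 2 / (η * ε)
  hDc : Dc = 4 * χ / ε
  hε₁ : ε₁ = ε / (12 * χ)
  hB : 0 < B
  hBD : Dc * (χ / B) ≤ ε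
  hK : 0 < K
  hKD : χ * Dc ≤ K * ε
  hr : ε * χ ≤ ε₁ * (1 + ε) ^ r
  hJ : 2 * ((K : ℝ) + 1) ≤ ε * J

/-- number of label values `e`, and number of `f` values of `X`-levels -/
noncomputable def pb (ε : ℝ) (m : ℕ) : ℕ := ⌊(m : ℝ) ^ (ε / 4)⌋₊
/-- number of `f` values of the levels `Z` and `T` -/
noncomputable def pt (ε : ℝ) (m : ℕ) : ℕ := ⌊(m : ℝ) ^ (1 - ε / 2)⌋₊
/-- number of colours -/
noncomputable def pq (m : ℕ) : ℕ := ⌈(Real.log m) ^ 5⌉₊
/-- number of values of one digit -/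
noncomputable def pbg (ε : ℝ) (J m : ℕ) : ℕ := ⌊(m : ℝ) ^ ((1 - 2 * ε) / J)⌋₊
/-- degree bound outside of the universal vertices -/
noncomputable def pD (m : ℕ) : ℕ := ⌈2 * (Real.log m) ^ 3⌉₊
/-- degree bound of the middle vertices -/
noncomputable def pDel (Dc : ℝ) (m : ℕ) : ℕ := ⌈Dc * Real.log m⌉₊
noncomputable def pDg (Dc : ℝ) (K m : ℕ) : ℕ := 2 * K * (pDel Dc m + 1)
noncomputable def pgam (ε : ℝ) (m : ℕ) : ℝ := (m : ℝ) ^ (-(ε / 64))
noncomputable def ptau (ε : ℝ) (m : ℕ) : ℝ := (m : ℝ) ^ (ε / 16)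
noncomputable def pgamg (ε : ℝ) (J m : ℕ) : ℝ := (m : ℝ) ^ (-(ε / (16 * J)))
noncomputable def ptaug (ε : ℝ) (J m : ℕ) : ℝ := (m : ℝ) ^ (ε / (2 * J))
/-- number of classes of small degree; `i < pI η m ↔ 2 ^ i < η log m` -/
noncomputable def pI (η : ℝ) (m : ℕ) : ℕ := ⌈Real.logb 2 (η * Real.log m)⌉₊
/-- density for the class `i` of small degrees -/
noncomputable def qi (ε : ℝ) (m i : ℕ) : ℝ :=
  Real.exp (-(min (Real.log m / 2 ^ (i + 2)) (ε * Real.log m / 16)))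
/-- number of universal vertices -/
noncomputable def pa (m : ℕ) : ℕ := 2 * ⌈(m : ℝ) / (Real.log m) ^ 3⌉₊

/-- Levels: `Z`, `X`-blocks, classes of small degree. -/
abbrev Lev (B I : ℕ) : Type := Unit ⊕ (Fin B ⊕ Fin I)

/-- densities of the relation `S` -/
noncomputable def rhoS (ε : ℝ) (m : ℕ) {B I : ℕ} : Lev B I → Lev B I → ℝ
  | .inl _, .inl _ => 1
  | .inl _, .inr (.inl _) => 1
  | .inl _, .inr (.inr _) => 0
  | .inr (.inl _), _ => 0
  | .inr (.inr i), .inl _ => qi ε m i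
  | .inr (.inr i), .inr (.inl _) => qi ε m i
  | .inr (.inr i), .inr (.inr i') => if i ≤ i' then qi ε m i else 0

/-- number of `f` values -/
noncomputable def tS (ε : ℝ) (m : ℕ) {B I : ℕ} : Lev B I → ℕ
  | .inl _ => pt ε m
  | .inr (.inl _) => pb ε m
  | .inr (.inr _) => pt ε m

/-- number of values of the prefix -/
noncomputable def gamC (ε : ℝ) (J m : ℕ) {B I : ℕ} : Lev B I → ℕ
  | .inl _ => 1
  | .inr (.inl _) => pq m * pbg ε J m ^ J
  | .inr (.inr _) => 1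

/-- capacity -/
noncomputable def cap (ε χ Dc ε₁ : ℝ) (m : ℕ) {B I : ℕ} : Lev B I → ℝ
  | .inl _ => (2 / Dc + 3 * ε₁) * (m / Real.log m)
  | .inr (.inl _) => (1 + 3 * ε) * (χ / B) * (m / Real.log m)
  | .inr (.inr i) => 2 * m / 2 ^ (i : ℕ)

/-- number of cells of a level -/
noncomputable def cells (ε : ℝ) (J m : ℕ) {B I : ℕ} (l : Lev B I) : ℝ :=
  (gamC ε J m l : ℝ) * pb ε m * tS ε m l

/-- number of positions in one cell -/
noncomputable def TT (ε χ Dc ε₁ : ℝ) (J m : ℕ) {B I : ℕ} (l : Lev B I) : ℕ :=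
  ⌈(1 + ε) * cap ε χ Dc ε₁ m l / cells ε J m l⌉₊

/-- densities between classes of digits -/
noncomputable def rhoG (ε χ : ℝ) (K J : ℕ) {B q : ℕ} (x y : Fin B × Fin q) : ℝ :=
  Real.exp (-((1 - 12 * ε) * ((x.1 : ℝ) + (y.1 : ℝ) + 2) * (χ / B) / kap K J))

/-- densities of the relation `Q` -/
noncomputable def rhoQ (ε χ : ℝ) (J m : ℕ) {B I : ℕ} : Lev B I → Lev B I → ℝ
  | .inr (.inl x), .inr (.inl y) => (1 + pgamg ε J m) ^ J *
      Real.exp (-((1 - 12 * ε) * ((x : ℝ) + (y : ℝ) + 2) * (χ / B)))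
  | _, _ => 0

/-- prefixes: colour and digits -/
abbrev Pre (ε : ℝ) (J m : ℕ) : Type := Fin (pq m) × (Fin J → Fin (pbg ε J m))

/-- the prefixes used in a level -/
noncomputable def GamF {ε : ℝ} {J m : ℕ} (g0 : Pre ε J m) {B I : ℕ} : Lev B I → Finset (Pre ε J m)
  | .inr (.inl _) => univ
  | _ => {g0}

/-- the relation `Q` between prefixes of `X`-levels -/
def QQ {ε : ℝ} {J m B I : ℕ} (K : ℕ)
    (R : ((Fin B × Fin (pq m)) × Fin J) × Fin (pbg ε J m) →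
      ((Fin B × Fin (pq m)) × Fin J) × Fin (pbg ε J m) → Bool) :
    Lev B I × Pre ε J m → Lev B I × Pre ε J m → Prop
  | (.inr (.inl x), a), (.inr (.inl y), c) => ∀ j j' : Fin J, Linked K j j' →
      R (((x, a.1), j), a.2 j) (((y, c.1), j'), c.2 j') = true
  | _, _ => False

noncomputable def sig1 (ε : ℝ) (m : ℕ) : ℝ := (1 + pgam ε m) ^ (2 * pD m) / (1 - pgam ε m) ^ 2
noncomputable def sig2 (ε Dc : ℝ) (J m : ℕ) : ℝ :=
  ((1 + pgamg ε J m) / (1 - pgamg ε J m)) ^ (2 * J * (pDel Dc m + 1))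

/-- the conclusion of the module MID for given `m` and `R`, for subsets of `Fin n` -/
def MidProp (ε χ Dc ε₁ : ℝ) (B K J m : ℕ)
    (R : ((Fin B × Fin (pq m)) × Fin J) × Fin (pbg ε J m) →
      ((Fin B × Fin (pq m)) × Fin J) × Fin (pbg ε J m) → Bool) : Prop :=
  ∀ (n : ℕ) (H : SimpleGraph (Fin n)) [DecidableRel H.Adj] (M : Finset (Fin n)),
    (H.edgeFinset.card : ℝ) ≤ m → (∀ v ∈ M, (H.degree v : ℝ) ≤ Dc * Real.log m) →
    (M.card : ℝ) ≤ ε * χ * (m / Real.log m) →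
    ∃ (Bad : Finset (Fin n)) (X : Fin n → Fin B) (c : Fin n → Fin (pq m))
      (g : Fin n → Fin J → Fin (pbg ε J m)), Bad ⊆ M ∧
      (Bad.card : ℝ) ≤ 2 * ε₁ * (m / Real.log m) + 2 * M.card * (pDel Dc m : ℝ) ^ 2 / pq m ∧
      (∀ i, ((M.filter (fun v => X v = i)).card : ℝ) ≤
          (1 + 3 * ε) * (χ / B) * (m / Real.log m)) ∧
      (∀ u v, u ∈ M \ Bad → v ∈ M \ Bad → H.Adj u v → ∀ j j' : Fin J, Linked K j j' →
          R (((X u, c u), j), g u j) (((X v, c v), j'), g v j') = true) ∧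
      ((((M \ Bad) ×ˢ (M \ Bad)).filter
          (fun p => X p.1 = X p.2 ∧ c p.1 = c p.2 ∧ g p.1 = g p.2)).card : ℝ) ≤
        sig2 ε Dc J m * (((((M \ Bad) ×ˢ (M \ Bad)).filter (fun p => X p.1 = X p.2)).card /
            (pq m : ℝ) + 2 * M.card + 4 * (M.card * (pDel Dc m : ℝ) / pq m) ^ 2) /
              (pbg ε J m : ℝ) ^ J) +
          M.card * ((pDel Dc m : ℝ) + 1) ^ 2

/-- the sum of all error terms of the overflow -/
noncomputable def overNum (ε η χ Dc : ℝ) (B J m : ℕ) : ℝ :=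
  (sig1 ε m - 1) * (2 * m) / ε + (sig1 ε m * sig2 ε Dc J m - 1) * (2 * χ / ε) * (m / Real.log m) +
    sig1 ε m * sig2 ε Dc J m * (2 * pq m * B +
      4 * (ε * χ * (m / Real.log m)) * (pDel Dc m : ℝ) ^ 2 * B / pq m) +
    sig1 ε m * pq m * (pbg ε J m : ℝ) ^ J * B * ((pDel Dc m : ℝ) + 1) ^ 2 +
    ((pD m : ℝ) + 1) ^ 2 / ε * ∑ l : Lev B (pI η m), cells ε J m l

end Pool.Agent.Lib.MP_1f2a9f_co
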