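import Pool.Agent.Lib.MP_1f2a9f_co.Labels
import Pool.Agent.Lib.MP_1f2a9f_co.TopDefs

/-!
# MP_1f2a9f_co, module E3: labels and fine digits for all vertices which are not universal
-/

namespace Pool.Agent.Lib.MP_1f2a9f_co

open Finset

namespace Emb

/-- Sorting the pairs by level. -/
lemma sum_level {n : ℕ} {Λ : Type} [Fintype Λ] [DecidableEq Λ] (U : Finset (Fin n))
    (lev : Fin n → Λ) (Q : Fin n × Fin n → Prop) [DecidablePred Q] (g : Λ → ℝ) :
    ∑ p ∈ (U ×ˢ U).filter (fun p => lev p.1 = lev p.2 ∧ Q p), g (lev p.1) =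
      ∑ l, (((U ×ˢ U).filter (fun p => lev p.1 = l ∧ lev p.2 = l ∧ Q p)).card : ℝ) * g l := by
  rw [← Finset.sum_fiberwise _ (fun p : Fin n × Fin n => lev p.1)]
  refine Finset.sum_congr rfl fun l _ => ?_
  rw [Finset.filter_filter]
  have h1 : ∀ p ∈ (U ×ˢ U).filter (fun p => (lev p.1 = lev p.2 ∧ Q p) ∧ lev p.1 = l),
      g (lev p.1) = g l := by
    intro p hp
    rw [(Finset.mem_filter.1 hp).2.2]
  rw [Finset.sum_congr rfl h1, Finset.sum_const, nsmul_eq_mul]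
  congr 2
  congr 1
  refine Finset.filter_congr fun p _ => ?_
  constructor
  · rintro ⟨⟨h2, h3⟩, h4⟩
    exact ⟨h4, by rw [← h2, h4], h3⟩
  · rintro ⟨h2, h3, h4⟩
    exact ⟨⟨by rw [h2, h3], h4⟩, h2⟩

/-- Few pairs of one level. -/
lemma card_level {n : ℕ} {Λ : Type} [Fintype Λ] [DecidableEq Λ] (U : Finset (Fin n))
    (lev : Fin n → Λ) (Q : Fin n × Fin n → Prop) [DecidablePred Q] (l : Λ) :
    (((U ×ˢ U).filter (fun p => lev p.1 = l ∧ lev p.2 = l ∧ Q p)).card : ℝ) ≤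
      ((U.filter (fun v => lev v = l)).card : ℝ) ^ 2 := by
  have : ((U ×ˢ U).filter (fun p => lev p.1 = l ∧ lev p.2 = l ∧ Q p)) ⊆
      (U.filter (fun v => lev v = l)) ×ˢ (U.filter (fun v => lev v = l)) := by
    intro p hp
    rw [Finset.mem_filter, Finset.mem_product] at hp
    rw [Finset.mem_product, Finset.mem_filter, Finset.mem_filter]
    exact ⟨⟨hp.1.1, hp.2.1⟩, hp.1.2, hp.2.2.1⟩
  have h := Finset.card_le_card this
  rw [Finset.card_product] at h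
  rw [sq]
  exact_mod_cast h

lemma sum_lev {n : ℕ} {Λ : Type} [Fintype Λ] [DecidableEq Λ] (U : Finset (Fin n))
    (lev : Fin n → Λ) (g : Λ → ℝ) :
    ∑ v ∈ U, g (lev v) = ∑ l, ((U.filter (fun v => lev v = l)).card : ℝ) * g l := by
  rw [← Finset.sum_fiberwise _ (fun v : Fin n => lev v)]
  refine Finset.sum_congr rfl fun l _ => ?_
  have h1 : ∀ v ∈ U.filter (fun v => lev v = l), g (lev v) = g l := by
    intro v hv
    rw [(Finset.mem_filter.1 hv).2]
  rw [Finset.sum_congr rfl h1, Finset.sum_const, nsmul_eq_mul]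

/-- The numerical core. -/
lemma core {I B : ℕ} (hB : 0 < B) (σ₁ σ₂ ε χ M0 μ q gJ Δ D b m : ℝ) (E N c cp t W : Unit ⊕ (Fin B ⊕ Fin I) → ℝ)
    (hσ₁ : 1 ≤ σ₁) (hσ₂ : 1 ≤ σ₂) (hε : 0 < ε) (hε1 : ε ≤ 1 / 1000) (hχ : 0 < χ) (hμ : 0 < μ)
    (hM0 : M0 = ε * χ * μ) (hq : 0 < q) (hgJ : 0 < gJ) (_hΔ : 0 ≤ Δ) (hb : 0 < b)
    (hm : ∑ l, N l ≤ 2 * m) (hN0 : ∀ l, 0 ≤ N l) (hNcap : ∀ l, N l ≤ cp l) (hc : ∀ l, 0 < c l)
    (hcp : ∀ l, 0 < cp l) (hW : ∀ l, W l = c l / (ε * cp l))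
    (hEn : ∀ l, E l ≤ N l ^ 2)
    (hcX : ∀ x : Fin B, c (.inr (.inl x)) = q * gJ * b * b)
    (hcpX : ∀ x : Fin B, cp (.inr (.inl x)) = (1 + 3 * ε) * (χ / B) * μ)
    (htX : ∀ x : Fin B, t (.inr (.inl x)) = b)
    (hcZ : c (.inl ()) = b * t (.inl ())) (hcT : ∀ i, c (.inr (.inr i)) = b * t (.inr (.inr i)))
    (hE : ∑ x : Fin B, E (.inr (.inl x)) ≤
      σ₂ * (((∑ x : Fin B, N (.inr (.inl x)) ^ 2) / q + 2 * M0 + 4 * (M0 * Δ / q) ^ 2) / gJ) +
        M0 * (Δ + 1) ^ 2) :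
    σ₁ * (∑ l, E l * (W l / (b * t l))) + (∑ l, N l * W l) * (D + 1) ^ 2 -
        ∑ l, W l * N l ^ 2 / c l ≤
      (σ₁ - 1) * (2 * m) / ε + (σ₁ * σ₂ - 1) * (2 * χ / ε) * μ +
        σ₁ * σ₂ * (2 * q * B + 4 * M0 * Δ ^ 2 * B / q) +
        σ₁ * q * gJ * B * (Δ + 1) ^ 2 + (D + 1) ^ 2 / ε * ∑ l, c l := by
  have hBr : (0 : ℝ) < B := by exact_mod_cast hB
  have hBr1 : (1 : ℝ) ≤ B := by exact_mod_cast hB
  -- `W N² / c = N² / (ε cp) ≤ N / ε`
  have hWc : ∀ l, W l * N l ^ 2 / c l = N l ^ 2 / (ε * cp l) := by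
    intro l
    rw [hW]
    have := (hc l).ne'
    have := (hcp l).ne'
    field_simp
  have hNN : ∀ l, N l ^ 2 / (ε * cp l) ≤ N l / ε := by
    intro l
    have h1 := hcp l
    rw [div_le_div_iff₀ (by positivity) hε]
    have := mul_le_mul_of_nonneg_left (hNcap l) (mul_nonneg (hN0 l) hε.le)
    nlinarith [this]
  have hNW : ∀ l, N l * W l ≤ c l / ε := by
    intro l
    rw [hW, ← mul_div_assoc, div_le_div_iff₀ (mul_pos hε (hcp l)) hε]
    have := mul_le_mul_of_nonneg_left (hNcap l) (mul_nonneg (hc l).le hε.le)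
    nlinarith [this]
  have hlast : (∑ l, N l * W l) * (D + 1) ^ 2 ≤ (D + 1) ^ 2 / ε * ∑ l, c l := by
    have h1 : ∑ l, N l * W l ≤ ∑ l, c l / ε := Finset.sum_le_sum fun l _ => hNW l
    rw [← Finset.sum_div] at h1
    calc (∑ l, N l * W l) * (D + 1) ^ 2 ≤ ((∑ l, c l) / ε) * (D + 1) ^ 2 :=
          mul_le_mul_of_nonneg_right h1 (sq_nonneg _)
      _ = (D + 1) ^ 2 / ε * ∑ l, c l := by ring
  -- split the sums
  set w : ℝ := 1 / (ε * ((1 + 3 * ε) * (χ / B) * μ)) with hw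
  have hw0 : 0 < w := by rw [hw]; positivity
  have hwM : w * M0 ≤ B := by
    rw [hw, hM0]
    have : 1 / (ε * ((1 + 3 * ε) * (χ / B) * μ)) * (ε * χ * μ) = B / (1 + 3 * ε) := by
      field_simp
    rw [this]
    exact div_le_self hBr.le (by linarith)
  have hWX : ∀ x : Fin B, W (.inr (.inl x)) / (b * t (.inr (.inl x))) = q * gJ * w := by
    intro x
    rw [hW, hcX, hcpX, htX, hw]
    field_simp
  have hWZ : W (.inl ()) / (b * t (.inl ())) = 1 / (ε * cp (.inl ())) := by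
    have h1 := (hc (.inl ())).ne'
    have h2 := (hcp (.inl ())).ne'
    rw [hW, ← hcZ]
    field_simp
  have hWT : ∀ i, W (.inr (.inr i)) / (b * t (.inr (.inr i))) = 1 / (ε * cp (.inr (.inr i))) := by
    intro i
    have h1 := (hc (.inr (.inr i))).ne'
    have h2 := (hcp (.inr (.inr i))).ne'
    rw [hW, ← hcT]
    field_simp
  set FZ : ℝ := N (.inl ()) ^ 2 / (ε * cp (.inl ())) with hFZ
  set FX : ℝ := ∑ x : Fin B, N (.inr (.inl x)) ^ 2 with hFX
  set FT : ℝ := ∑ i : Fin I, N (.inr (.inr i)) ^ 2 / (ε * cp (.inr (.inr i))) with hFT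
  have hFX0 : 0 ≤ FX := Finset.sum_nonneg fun x _ => sq_nonneg _
  have hB2 : ∑ l, W l * N l ^ 2 / c l = FZ + (w * FX + FT) := by
    rw [Fintype.sum_sum_type, Fintype.sum_sum_type]
    simp only [hWc, Finset.univ_unique, Finset.sum_singleton, PUnit.default_eq_unit]
    rw [hFX, Finset.mul_sum]
    congr 2
    refine Finset.sum_congr rfl fun x _ => ?_
    rw [hcpX, hw]
    ring
  have hB1 : ∑ l, E l * (W l / (b * t l)) ≤
      FZ + (w * σ₂ * FX + σ₂ * (2 * q * B + 4 * M0 * Δ ^ 2 * B / q) +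
        q * gJ * B * (Δ + 1) ^ 2 + FT) := by
    rw [Fintype.sum_sum_type, Fintype.sum_sum_type]
    simp only [Finset.univ_unique, Finset.sum_singleton, PUnit.default_eq_unit]
    refine add_le_add ?_ (add_le_add ?_ ?_)
    · rw [hWZ, hFZ, mul_one_div]
      exact div_le_div_of_nonneg_right (hEn _) (mul_pos hε (hcp _)).le
    · simp only [hWX]
      rw [← Finset.sum_mul]
      have hpos : 0 ≤ q * gJ * w := by positivity
      refine (mul_le_mul_of_nonneg_right hE hpos).trans ?_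
      have hM00 : 0 ≤ M0 := by rw [hM0]; positivity
      have e1 : (σ₂ * ((FX / q + 2 * M0 + 4 * (M0 * Δ / q) ^ 2) / gJ) + M0 * (Δ + 1) ^ 2) *
          (q * gJ * w) = w * σ₂ * FX + σ₂ * (2 * q * (w * M0) + 4 * M0 * Δ ^ 2 * (w * M0) / q) +
            q * gJ * (w * M0) * (Δ + 1) ^ 2 := by
        field_simp
        ring
      rw [e1]
      have h1 : 2 * q * (w * M0) ≤ 2 * q * B := mul_le_mul_of_nonneg_left hwM (by positivity)
      have h2 : 4 * M0 * Δ ^ 2 * (w * M0) / q ≤ 4 * M0 * Δ ^ 2 * B / q :=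
        div_le_div_of_nonneg_right (mul_le_mul_of_nonneg_left hwM (by positivity)) hq.le
      have h3 : q * gJ * (w * M0) * (Δ + 1) ^ 2 ≤ q * gJ * B * (Δ + 1) ^ 2 :=
        mul_le_mul_of_nonneg_right (mul_le_mul_of_nonneg_left hwM (by positivity)) (sq_nonneg _)
      have h4 : σ₂ * (2 * q * (w * M0) + 4 * M0 * Δ ^ 2 * (w * M0) / q) ≤
          σ₂ * (2 * q * B + 4 * M0 * Δ ^ 2 * B / q) :=
        mul_le_mul_of_nonneg_left (add_le_add h1 h2) (by linarith)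
      linarith
    · rw [hFT]
      refine Finset.sum_le_sum fun i _ => ?_
      rw [hWT, mul_one_div]
      exact div_le_div_of_nonneg_right (hEn _) (mul_pos hε (hcp _)).le
  -- the leading terms
  have hsplitN : ∑ l, N l = N (.inl ()) + ((∑ x : Fin B, N (.inr (.inl x))) +
      ∑ i : Fin I, N (.inr (.inr i))) := by
    rw [Fintype.sum_sum_type, Fintype.sum_sum_type]
    simp
  have hZT : FZ + FT ≤ 2 * m / ε := by
    have h1 : FZ ≤ N (.inl ()) / ε := hNN _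
    have h2 : FT ≤ (∑ i : Fin I, N (.inr (.inr i))) / ε := by
      rw [hFT, Finset.sum_div]
      exact Finset.sum_le_sum fun i _ => hNN _
    have h3 : 0 ≤ ∑ x : Fin B, N (.inr (.inl x)) := Finset.sum_nonneg fun x _ => hN0 _
    calc FZ + FT ≤ N (.inl ()) / ε + (∑ i : Fin I, N (.inr (.inr i))) / ε := add_le_add h1 h2
      _ = (N (.inl ()) + ∑ i : Fin I, N (.inr (.inr i))) / ε := by ring
      _ ≤ 2 * m / ε := div_le_div_of_nonneg_right (by linarith) hε.le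
  have hwX : w * FX ≤ 2 * χ / ε * μ := by
    rw [hFX, Finset.mul_sum]
    have h1 : ∀ x ∈ (univ : Finset (Fin B)), w * N (.inr (.inl x)) ^ 2 ≤
        (1 + 3 * ε) * (χ / B) * μ / ε := by
      intro x _
      have h2 := hNN (.inr (.inl x))
      rw [hcpX] at h2
      have h3 := hNcap (.inr (.inl x))
      rw [hcpX] at h3
      have h4 : w * N (.inr (.inl x)) ^ 2 =
          N (.inr (.inl x)) ^ 2 / (ε * ((1 + 3 * ε) * (χ / B) * μ)) := by rw [hw]; ring
      rw [h4]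
      exact h2.trans (div_le_div_of_nonneg_right h3 hε.le)
    refine (Finset.sum_le_sum h1).trans ?_
    rw [Finset.sum_const, Finset.card_univ, Fintype.card_fin, nsmul_eq_mul]
    have h5 : (B : ℝ) * ((1 + 3 * ε) * (χ / B) * μ / ε) = (1 + 3 * ε) * (χ * μ / ε) := by
      field_simp
    rw [h5]
    have h6 : 2 * χ / ε * μ = 2 * (χ * μ / ε) := by ring
    rw [h6]
    exact mul_le_mul_of_nonneg_right (by linarith) (by positivity)
  have hFZT0 : 0 ≤ FZ + FT := by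
    have : 0 ≤ FZ := by rw [hFZ]; have := hcp (.inl ()); positivity
    have : 0 ≤ FT := by
      rw [hFT]
      exact Finset.sum_nonneg fun i _ => by have := hcp (.inr (.inr i)); positivity
    linarith
  have hσσ : 0 ≤ σ₁ * σ₂ - 1 := by nlinarith
  have hA1 : (σ₁ - 1) * (FZ + FT) ≤ (σ₁ - 1) * (2 * m) / ε := by
    rw [mul_div_assoc]
    exact mul_le_mul_of_nonneg_left hZT (by linarith)
  have hA2 : (σ₁ * σ₂ - 1) * (w * FX) ≤ (σ₁ * σ₂ - 1) * (2 * χ / ε) * μ := by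
    rw [mul_assoc (σ₁ * σ₂ - 1) (2 * χ / ε) μ]
    exact mul_le_mul_of_nonneg_left hwX hσσ
  have hA3 := mul_le_mul_of_nonneg_left hB1 (by linarith : (0 : ℝ) ≤ σ₁)
  rw [hB2]
  nlinarith [hA1, hA2, hA3, hlast]

end Emb

end Pool.Agent.Lib.MP_1f2a9f_co
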