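import Pool.Agent.Lib.MP_1f2a9f_co.Defs

/-!
# MP_1f2a9f_co, module HOST: the host graph and its universality
-/

namespace Pool.Agent.Lib.MP_1f2a9f_co

open Finset

namespace Host

/-! ### Counting edges through ordered pairs -/

lemma fromRel_ncard {V : Type} [Fintype V] (r : V → V → Prop) :
    (SimpleGraph.fromRel r).edgeSet.ncard ≤ {p : V × V | r p.1 p.2}.ncard := by
  classical
  have h : (SimpleGraph.fromRel r).edgeSet ⊆
      (fun p : V × V => s(p.1, p.2)) '' {p : V × V | r p.1 p.2} := by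
    intro e
    induction e using Sym2.ind with
    | _ x y =>
      intro he
      rw [SimpleGraph.mem_edgeSet, SimpleGraph.fromRel_adj] at he
      rcases he.2 with h | h
      · exact ⟨(x, y), h, rfl⟩
      · exact ⟨(y, x), h, Sym2.eq_swap⟩
  exact (Set.ncard_le_ncard h (Set.toFinite _)).trans (Set.ncard_image_le (Set.toFinite _))

lemma fromRel_ncard_symm {V : Type} [Fintype V] (r : V → V → Prop)
    (hr : ∀ x y, r x y → r y x) :
    2 * (SimpleGraph.fromRel r).edgeSet.ncard ≤ {p : V × V | r p.1 p.2}.ncard := by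
  classical
  set G := SimpleGraph.fromRel r with hG
  have h1 : G.edgeSet.ncard = G.edgeFinset.card := by
    rw [← SimpleGraph.coe_edgeFinset, Set.ncard_coe_finset]
  rw [h1, ← SimpleGraph.dart_card_eq_twice_card_edges]
  have h2 : Function.Injective (fun d : G.Dart => d.toProd) := SimpleGraph.Dart.toProd_injective
  have h3 : Set.range (fun d : G.Dart => d.toProd) ⊆ {p : V × V | r p.1 p.2} := by
    rintro p ⟨d, rfl⟩
    have := (SimpleGraph.fromRel_adj r _ _).1 d.adj
    rcases this.2 with h | h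
    · exact h
    · exact hr _ _ h
  calc Fintype.card G.Dart = (Set.range (fun d : G.Dart => d.toProd)).ncard := by
        rw [← Set.image_univ, Set.ncard_image_of_injective _ h2, Set.ncard_univ,
          Nat.card_eq_fintype_card]
    _ ≤ _ := Set.ncard_le_ncard h3 (Set.toFinite _)

/-! ### The positions -/

/-- The positions of the host graph (without the universal vertices). -/
abbrev Pos {Λ Γ : Type} (b : ℕ) (t T : Λ → ℕ) (Gam : Λ → Finset Γ) : Type :=
  Σ l : Λ, {g // g ∈ Gam l} × Fin b × Fin (t l) × Fin (T l)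

/-- number of positions of level `l` -/
def M {Λ Γ : Type} (b : ℕ) (t T : Λ → ℕ) (Gam : Λ → Finset Γ) (l : Λ) : ℝ :=
  ((Gam l).card * b * t l * T l : ℝ)

lemma sum_second {α : Type} [Fintype α] (b t T : ℕ) (F : Fin b → ℝ) :
    ∑ a : α × Fin b × Fin t × Fin T, F a.2.1 =
      Fintype.card α * ((∑ e, F e) * (t * T)) := by
  rw [Fintype.sum_prod_type]
  simp only [Finset.sum_const, Finset.card_univ, nsmul_eq_mul]
  congr 1
  rw [Fintype.sum_prod_type]
  simp only [Finset.sum_const, Finset.card_univ, Fintype.card_prod, Fintype.card_fin,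
    nsmul_eq_mul]
  rw [← Finset.mul_sum]
  push_cast
  ring

lemma sum_first {α : Type} [Fintype α] (b t T : ℕ) (F : α → ℝ) :
    ∑ a : α × Fin b × Fin t × Fin T, F a.1 = (b * t * T) * ∑ g, F g := by
  rw [Fintype.sum_prod_type]
  simp only [Finset.sum_const, Finset.card_univ, Fintype.card_prod, Fintype.card_fin,
    nsmul_eq_mul]
  rw [← Finset.mul_sum]
  push_cast
  ring

section
variable {Λ Γ : Type} [Fintype Λ] (b : ℕ) (t T : Λ → ℕ) (Gam : Λ → Finset Γ)

lemma card_pos : (Fintype.card (Pos b t T Gam) : ℝ) = ∑ l, M b t T Gam l := by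
  simp only [Pos, Fintype.card_sigma, Fintype.card_prod, Fintype.card_coe, Fintype.card_fin, M]
  push_cast
  refine Finset.sum_congr rfl fun l _ => ?_
  ring

omit [Fintype Λ] in
lemma M_nonneg (l : Λ) : 0 ≤ M b t T Gam l := by
  unfold M; positivity

/-- ordered pairs of positions in the relation `S` -/
lemma count_S [DecidableEq Λ] (ρ : Λ → Λ → ℝ) (D : ℕ) (γ τ : ℝ)
    (S : Λ → ℕ → Λ × Fin b → Bool) (hS : GoodRel b t ρ D γ τ S) :
    (({p : Pos b t T Gam × Pos b t T Gam |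
        S p.1.1 p.1.2.2.2.1 (p.2.1, p.2.2.2.1) = true}.ncard : ℕ) : ℝ) ≤
      ∑ l, ∑ l', (1 + γ) * ρ l l' * M b t T Gam l * M b t T Gam l' := by
  classical
  rw [Set.ncard_eq_toFinset_card', Set.toFinset_ofPred, Finset.card_filter]
  push_cast
  rw [Fintype.sum_prod_type, Fintype.sum_sigma]
  refine Finset.sum_le_sum fun l _ => ?_
  have key : ∀ a : {g // g ∈ Gam l} × Fin b × Fin (t l) × Fin (T l),
      (∑ y : Pos b t T Gam, if S l a.2.2.1 (y.1, y.2.2.1) = true then (1 : ℝ) else 0) ≤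
        ∑ l', (1 + γ) * ρ l l' * M b t T Gam l' := by
    intro a
    rw [Fintype.sum_sigma]
    refine Finset.sum_le_sum fun l' _ => ?_
    have h1 := hS.row l a.2.2.1 a.2.2.1.2 l'
    have h2 : (∑ a' : {g // g ∈ Gam l'} × Fin b × Fin (t l') × Fin (T l'),
        if S l a.2.2.1 (l', a'.2.1) = true then (1 : ℝ) else 0) =
        (Gam l').card * (((univ.filter (fun e : Fin b => S l a.2.2.1 (l', e) = true)).card : ℝ) *
          (t l' * T l')) := by
      rw [sum_second (α := {g // g ∈ Gam l'}) b (t l') (T l')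
        (fun e => if S l a.2.2.1 (l', e) = true then (1 : ℝ) else 0), Fintype.card_coe,
        Finset.sum_boole]
    rw [h2]
    calc ((Gam l').card : ℝ) *
          (((univ.filter (fun e : Fin b => S l a.2.2.1 (l', e) = true)).card : ℝ) *
          (t l' * T l')) ≤ (Gam l').card * (((1 + γ) * ρ l l' * b) * (t l' * T l')) := by
          gcongr
      _ = _ := by unfold M; ring
  calc (∑ a : {g // g ∈ Gam l} × Fin b × Fin (t l) × Fin (T l),
        ∑ y : Pos b t T Gam, if S l a.2.2.1 (y.1, y.2.2.1) = true then (1 : ℝ) else 0)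
      ≤ ∑ a : {g // g ∈ Gam l} × Fin b × Fin (t l) × Fin (T l),
          ∑ l', (1 + γ) * ρ l l' * M b t T Gam l' := Finset.sum_le_sum fun a _ => key a
    _ = M b t T Gam l * ∑ l', (1 + γ) * ρ l l' * M b t T Gam l' := by
        rw [Finset.sum_const, Finset.card_univ, nsmul_eq_mul]
        congr 1
        simp only [Fintype.card_prod, Fintype.card_coe, Fintype.card_fin, M]
        push_cast
        ring
    _ = _ := by
        rw [Finset.mul_sum]
        refine Finset.sum_congr rfl fun l' _ => ?_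
        ring

/-- ordered pairs of positions in the relation `Q` -/
lemma count_Q (Q : Λ × Γ → Λ × Γ → Prop) (ρQ : Λ → Λ → ℝ)
    (hQ : ∀ l l', ({p : Γ × Γ | p.1 ∈ Gam l ∧ p.2 ∈ Gam l' ∧ Q (l, p.1) (l', p.2)}.ncard : ℝ) ≤
      ρQ l l' * (Gam l).card * (Gam l').card) :
    (({p : Pos b t T Gam × Pos b t T Gam |
        Q (p.1.1, p.1.2.1) (p.2.1, p.2.2.1)}.ncard : ℕ) : ℝ) ≤
      ∑ l, ∑ l', ρQ l l' * M b t T Gam l * M b t T Gam l' := by
  classical
  rw [Set.ncard_eq_toFinset_card', Set.toFinset_ofPred, Finset.card_filter]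
  push_cast
  rw [Fintype.sum_prod_type, Fintype.sum_sigma]
  refine Finset.sum_le_sum fun l _ => ?_
  simp only [Fintype.sum_sigma]
  rw [Finset.sum_comm]
  refine Finset.sum_le_sum fun l' _ => ?_
  have h1 : (∑ a : {g // g ∈ Gam l} × Fin b × Fin (t l) × Fin (T l),
      ∑ a' : {g // g ∈ Gam l'} × Fin b × Fin (t l') × Fin (T l'),
        if Q (l, a.1) (l', a'.1) then (1 : ℝ) else 0) =
      ((b : ℝ) * t l * T l) * ((b : ℝ) * t l' * T l') *
        ({p : Γ × Γ | p.1 ∈ Gam l ∧ p.2 ∈ Gam l' ∧ Q (l, p.1) (l', p.2)}.ncard : ℝ) := by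
    have h2 : ∀ g : Γ, (∑ a' : {g // g ∈ Gam l'} × Fin b × Fin (t l') × Fin (T l'),
        if Q (l, g) (l', a'.1) then (1 : ℝ) else 0) =
        ((b : ℝ) * t l' * T l') * ∑ g' ∈ Gam l', if Q (l, g) (l', g') then (1 : ℝ) else 0 := by
      intro g
      rw [sum_first (α := {g // g ∈ Gam l'}) b (t l') (T l')
        (fun g' => if Q (l, g) (l', g') then (1 : ℝ) else 0),
        Finset.sum_coe_sort (Gam l') (fun g' => if Q (l, g) (l', g') then (1 : ℝ) else 0)]
    simp only [h2]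
    rw [sum_first (α := {g // g ∈ Gam l}) b (t l) (T l)
        (fun g => ((b : ℝ) * t l' * T l') *
          ∑ g' ∈ Gam l', if Q (l, g) (l', g') then (1 : ℝ) else 0),
        Finset.sum_coe_sort (Gam l) (fun g => ((b : ℝ) * t l' * T l') *
          ∑ g' ∈ Gam l', if Q (l, g) (l', g') then (1 : ℝ) else 0), ← Finset.mul_sum]
    have h3 : ({p : Γ × Γ | p.1 ∈ Gam l ∧ p.2 ∈ Gam l' ∧ Q (l, p.1) (l', p.2)}.ncard : ℝ) =
        ∑ g ∈ Gam l, ∑ g' ∈ Gam l', if Q (l, g) (l', g') then (1 : ℝ) else 0 := by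
      rw [← Finset.sum_product', Finset.sum_boole]
      norm_cast
      rw [← Set.ncard_coe_finset]
      congr 1
      ext p
      simp [and_assoc]
    rw [h3]
    ring
  rw [h1]
  have hnn : (0 : ℝ) ≤ ((b : ℝ) * t l * T l) * ((b : ℝ) * t l' * T l') := by positivity
  calc ((b : ℝ) * t l * T l) * ((b : ℝ) * t l' * T l') *
        ({p : Γ × Γ | p.1 ∈ Gam l ∧ p.2 ∈ Gam l' ∧ Q (l, p.1) (l', p.2)}.ncard : ℝ)
      ≤ ((b : ℝ) * t l * T l) * ((b : ℝ) * t l' * T l') *
        (ρQ l l' * (Gam l).card * (Gam l').card) := mul_le_mul_of_nonneg_left (hQ l l') hnn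
    _ = _ := by unfold M; ring

end

/-! ### The host graph -/

section
variable {Λ Γ : Type} [Fintype Λ] (b : ℕ) (t T : Λ → ℕ) (Gam : Λ → Finset Γ) (aN : ℕ)

/-- relation of the universal vertices -/
def rel1 (x _y : Fin aN ⊕ Pos b t T Gam) : Prop := x.isLeft = true

/-- relation `S` on positions -/
def rel2 (S : Λ → ℕ → Λ × Fin b → Bool) : Fin aN ⊕ Pos b t T Gam → Fin aN ⊕ Pos b t T Gam → Prop
  | Sum.inr p, Sum.inr q => S p.1 p.2.2.2.1 (q.1, q.2.2.1) = true
  | _, _ => False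

/-- relation `Q` on positions -/
def rel3 (Q : Λ × Γ → Λ × Γ → Prop) : Fin aN ⊕ Pos b t T Gam → Fin aN ⊕ Pos b t T Gam → Prop
  | Sum.inr p, Sum.inr q => Q (p.1, p.2.1) (q.1, q.2.1)
  | _, _ => False

/-- the host graph -/
def host (S : Λ → ℕ → Λ × Fin b → Bool) (Q : Λ × Γ → Λ × Γ → Prop) :
    SimpleGraph (Fin aN ⊕ Pos b t T Gam) :=
  (SimpleGraph.fromRel (rel1 b t T Gam aN) ⊔ SimpleGraph.fromRel (rel2 b t T Gam aN S)) ⊔
    SimpleGraph.fromRel (rel3 b t T Gam aN Q)

lemma count_rel1 : (({p : (Fin aN ⊕ Pos b t T Gam) × (Fin aN ⊕ Pos b t T Gam) |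
      rel1 b t T Gam aN p.1 p.2}.ncard : ℕ) : ℝ) = aN * (aN + ∑ l, M b t T Gam l) := by
  classical
  have h : {p : (Fin aN ⊕ Pos b t T Gam) × (Fin aN ⊕ Pos b t T Gam) |
      rel1 b t T Gam aN p.1 p.2} =
      Set.range (fun q : Fin aN × (Fin aN ⊕ Pos b t T Gam) =>
        ((Sum.inl q.1 : Fin aN ⊕ Pos b t T Gam), q.2)) := by
    ext ⟨x, y⟩
    constructor
    · intro hx
      rcases x with x | x
      · exact ⟨(x, y), rfl⟩
      · exact absurd hx (by simp [rel1])
    · rintro ⟨⟨a, c⟩, h⟩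
      simp only [Prod.mk.injEq] at h
      rcases h with ⟨rfl, rfl⟩
      simp [rel1]
  rw [h, ← Set.image_univ, Set.ncard_image_of_injective, Set.ncard_univ,
    Nat.card_eq_fintype_card, Fintype.card_prod, Fintype.card_sum, Fintype.card_fin]
  · push_cast
    rw [card_pos]
  · rintro ⟨a, c⟩ ⟨a', c'⟩ h
    simp only [Prod.mk.injEq, Sum.inl.injEq] at h
    rw [h.1, h.2]

lemma count_lift (r : (Fin aN ⊕ Pos b t T Gam) → (Fin aN ⊕ Pos b t T Gam) → Prop)
    (hr : ∀ x y, r x y → ∃ p q, x = Sum.inr p ∧ y = Sum.inr q) :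
    {p : (Fin aN ⊕ Pos b t T Gam) × (Fin aN ⊕ Pos b t T Gam) | r p.1 p.2}.ncard ≤
      {p : Pos b t T Gam × Pos b t T Gam | r (Sum.inr p.1) (Sum.inr p.2)}.ncard := by
  have h : {p : (Fin aN ⊕ Pos b t T Gam) × (Fin aN ⊕ Pos b t T Gam) | r p.1 p.2} ⊆
      (fun q : Pos b t T Gam × Pos b t T Gam =>
        ((Sum.inr q.1 : Fin aN ⊕ Pos b t T Gam), (Sum.inr q.2 : Fin aN ⊕ Pos b t T Gam))) ''
        {p : Pos b t T Gam × Pos b t T Gam | r (Sum.inr p.1) (Sum.inr p.2)} := by
    rintro ⟨x, y⟩ hxy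
    obtain ⟨p, q, rfl, rfl⟩ := hr x y hxy
    exact ⟨(p, q), hxy, rfl⟩
  exact (Set.ncard_le_ncard h (Set.toFinite _)).trans (Set.ncard_image_le (Set.toFinite _))

lemma host_edges [DecidableEq Λ] (ρ : Λ → Λ → ℝ) (D : ℕ) (γ τ : ℝ)
    (S : Λ → ℕ → Λ × Fin b → Bool) (hS : GoodRel b t ρ D γ τ S)
    (Q : Λ × Γ → Λ × Γ → Prop) (hQs : ∀ x y, Q x y → Q y x) (ρQ : Λ → Λ → ℝ)
    (hQ : ∀ l l', ({p : Γ × Γ | p.1 ∈ Gam l ∧ p.2 ∈ Gam l' ∧ Q (l, p.1) (l', p.2)}.ncard : ℝ) ≤
      ρQ l l' * (Gam l).card * (Gam l').card) :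
    ((host b t T Gam aN S Q).edgeSet.ncard : ℝ) ≤
      aN * (aN + ∑ l, M b t T Gam l) +
      (∑ l, ∑ l', (1 + γ) * ρ l l' * M b t T Gam l * M b t T Gam l') +
      1 / 2 * (∑ l, ∑ l', ρQ l l' * M b t T Gam l * M b t T Gam l') := by
  classical
  have h1 : ((SimpleGraph.fromRel (rel1 b t T Gam aN)).edgeSet.ncard : ℝ) ≤
      aN * (aN + ∑ l, M b t T Gam l) := by
    rw [← count_rel1]
    exact_mod_cast fromRel_ncard _
  have h2 : ((SimpleGraph.fromRel (rel2 b t T Gam aN S)).edgeSet.ncard : ℝ) ≤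
      ∑ l, ∑ l', (1 + γ) * ρ l l' * M b t T Gam l * M b t T Gam l' := by
    refine le_trans ?_ (count_S b t T Gam ρ D γ τ S hS)
    have h := (fromRel_ncard (rel2 b t T Gam aN S)).trans
      (count_lift b t T Gam aN (rel2 b t T Gam aN S) (by
        intro x y hxy
        rcases x with x | x <;> rcases y with y | y <;> simp only [rel2] at hxy
        exact ⟨x, y, rfl, rfl⟩))
    exact_mod_cast h
  have h3 : 2 * ((SimpleGraph.fromRel (rel3 b t T Gam aN Q)).edgeSet.ncard : ℝ) ≤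
      ∑ l, ∑ l', ρQ l l' * M b t T Gam l * M b t T Gam l' := by
    refine le_trans ?_ (count_Q b t T Gam Q ρQ hQ)
    have h := (fromRel_ncard_symm (rel3 b t T Gam aN Q) (by
        intro x y hxy
        rcases x with x | x <;> rcases y with y | y <;> simp only [rel3] at hxy
        exact hQs _ _ hxy)).trans
      (count_lift b t T Gam aN (rel3 b t T Gam aN Q) (by
        intro x y hxy
        rcases x with x | x <;> rcases y with y | y <;> simp only [rel3] at hxy
        exact ⟨x, y, rfl, rfl⟩))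
    exact_mod_cast h
  have h4 : (host b t T Gam aN S Q).edgeSet.ncard ≤
      (SimpleGraph.fromRel (rel1 b t T Gam aN)).edgeSet.ncard +
      (SimpleGraph.fromRel (rel2 b t T Gam aN S)).edgeSet.ncard +
      (SimpleGraph.fromRel (rel3 b t T Gam aN Q)).edgeSet.ncard := by
    unfold host
    rw [SimpleGraph.edgeSet_sup, SimpleGraph.edgeSet_sup]
    refine (Set.ncard_union_le _ _).trans ?_
    gcongr
    exact Set.ncard_union_le _ _
  have h5 : ((host b t T Gam aN S Q).edgeSet.ncard : ℝ) ≤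
      (SimpleGraph.fromRel (rel1 b t T Gam aN)).edgeSet.ncard +
      (SimpleGraph.fromRel (rel2 b t T Gam aN S)).edgeSet.ncard +
      (SimpleGraph.fromRel (rel3 b t T Gam aN Q)).edgeSet.ncard := by exact_mod_cast h4
  linarith

end

/-! ### Overflow of the cells -/

section
variable {n : ℕ} {C : Type} [DecidableEq C] (B : Finset (Fin n)) (cell : Fin n → C)

/-- rank of a vertex inside its cell -/
def rk (v : Fin n) : ℕ := (B.filter (fun u => cell u = cell v ∧ u < v)).card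

lemma rk_lt_rk {u v : Fin n} (hu : u ∈ B) (h : cell u = cell v) (huv : u < v) :
    rk B cell u < rk B cell v := by
  apply Finset.card_lt_card
  rw [Finset.ssubset_iff_of_subset]
  · exact ⟨u, by simp [hu, h, huv], by simp⟩
  · intro w hw
    simp only [Finset.mem_filter] at hw ⊢
    exact ⟨hw.1, hw.2.1.trans h, hw.2.2.trans huv⟩

lemma rk_inj {u v : Fin n} (hu : u ∈ B) (hv : v ∈ B) (h : cell u = cell v)
    (hr : rk B cell u = rk B cell v) : u = v := by
  rcases lt_trichotomy u v with h1 | h1 | h1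
  · exact absurd hr (rk_lt_rk B cell hu h h1).ne
  · exact h1
  · exact absurd hr (rk_lt_rk B cell hv h.symm h1).ne'

lemma rk_lt_card {v : Fin n} (hv : v ∈ B) :
    rk B cell v < (B.filter (fun u => cell u = cell v)).card := by
  apply Finset.card_lt_card
  rw [Finset.ssubset_iff_of_subset]
  · exact ⟨v, by simp [hv], by simp⟩
  · intro w hw
    simp only [Finset.mem_filter] at hw ⊢
    exact ⟨hw.1, hw.2.1⟩

lemma overflow_cell (T : ℕ) (c : C) :
    (B.filter (fun v => cell v = c ∧ T ≤ rk B cell v)).card ≤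
      (B.filter (fun u => cell u = c)).card - T := by
  have h : Set.MapsTo (rk B cell) (B.filter (fun v => cell v = c ∧ T ≤ rk B cell v))
      (Finset.Ico T (B.filter (fun u => cell u = c)).card) := by
    intro v hv
    simp only [Finset.coe_filter, Set.mem_ofPred_eq, Finset.coe_Ico, Set.mem_Ico] at hv ⊢
    refine ⟨hv.2.2, ?_⟩
    have := rk_lt_card B cell hv.1
    rwa [hv.2.1] at this
  have h2 := Finset.card_le_card_of_injOn _ h (by
    intro u hu v hv huv
    simp only [Finset.coe_filter, Set.mem_ofPred_eq] at hu hv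
    exact rk_inj B cell hu.1 hv.1 (hu.2.1.trans hv.2.1.symm) huv)
  simpa using h2

end

/-- the real inequality for one cell -/
lemma cell_ineq (N T : ℕ) (W a : ℝ) (hW : 0 ≤ W) (h1 : 1 ≤ W * (T - a)) :
    ((N - T : ℕ) : ℝ) ≤ W * ((N : ℝ) - a) ^ 2 := by
  rcases le_or_gt N T with h | h
  · rw [Nat.sub_eq_zero_of_le h]
    push_cast
    positivity
  · rw [Nat.cast_sub h.le]
    have hWpos : 0 < W := by
      rcases hW.lt_or_eq with h | h
      · exact h
      · rw [← h] at h1; norm_num at h1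
    have hTa : 0 < (T : ℝ) - a := by
      by_contra hcon
      push Not at hcon
      have := mul_nonpos_of_nonneg_of_nonpos hW hcon
      linarith
    have hNT : (0 : ℝ) < (N : ℝ) - T := by
      have : (T : ℝ) < N := by exact_mod_cast h
      linarith
    have h2 : ((N : ℝ) - T) * 1 ≤ ((N : ℝ) - T) * (W * (T - a)) :=
      mul_le_mul_of_nonneg_left h1 hNT.le
    have h3 : ((N : ℝ) - T) * ((T : ℝ) - a) ≤ ((N : ℝ) - a) ^ 2 := by nlinarith
    have h4 := mul_le_mul_of_nonneg_left h3 hW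
    nlinarith

section
variable {n : ℕ} {Λ C : Type} [Fintype Λ] [DecidableEq Λ] [DecidableEq C] (B : Finset (Fin n))
  (lev : Fin n → Λ) (c : Fin n → C) (Cs : Λ → Finset C)

/-- number of vertices of a cell -/
def num (l : Λ) (x : C) : ℕ := (B.filter (fun v => (lev v, c v) = (l, x))).card

omit [Fintype Λ] in
lemma sum_num (hc : ∀ v ∈ B, c v ∈ Cs (lev v)) (l : Λ) :
    ∑ x ∈ Cs l, num B lev c l x = (B.filter (fun v => lev v = l)).card := by
  rw [Finset.card_eq_sum_card_fiberwise (f := c) (t := Cs l)]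
  · refine Finset.sum_congr rfl fun x _ => ?_
    unfold num
    congr 1
    ext v
    simp only [Finset.mem_filter, Prod.mk.injEq]
    tauto
  · intro v hv
    simp only [Finset.coe_filter, Set.mem_ofPred_eq] at hv
    rw [← hv.2]
    exact hc v hv.1

omit [Fintype Λ] in
lemma sum_num_sq (hc : ∀ v ∈ B, c v ∈ Cs (lev v)) (l : Λ) :
    ∑ x ∈ Cs l, num B lev c l x ^ 2 =
      ((B ×ˢ B).filter (fun p => (lev p.1 = lev p.2 ∧ c p.1 = c p.2) ∧ lev p.1 = l)).card := by
  rw [Finset.card_eq_sum_card_fiberwise (f := fun p => c p.1) (t := Cs l)]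
  · refine Finset.sum_congr rfl fun x _ => ?_
    unfold num
    rw [sq, ← Finset.card_product]
    congr 1
    ext p
    simp only [Finset.mem_filter, Finset.mem_product, Prod.mk.injEq]
    constructor
    · rintro ⟨⟨h1, h2, h3⟩, h4, h5, h6⟩
      exact ⟨⟨⟨h1, h4⟩, ⟨by rw [h2, h5], by rw [h3, h6]⟩, h2⟩, h3⟩
    · rintro ⟨⟨⟨h1, h4⟩, ⟨h5, h6⟩, h2⟩, h3⟩
      exact ⟨⟨h1, h2, h3⟩, h4, by rw [← h5, h2], by rw [← h6, h3]⟩
  · intro p hp
    simp only [Finset.coe_filter, Set.mem_ofPred_eq, Finset.mem_product] at hp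
    change c p.1 ∈ (Cs l : Set C)
    rw [← hp.2.2]
    exact hc _ hp.1.1

omit [Fintype Λ] in
lemma level_overflow (hc : ∀ v ∈ B, c v ∈ Cs (lev v)) (T : ℕ) (l : Λ) :
    (B.filter (fun v => lev v = l ∧ T ≤ rk B (fun v => (lev v, c v)) v)).card ≤
      ∑ x ∈ Cs l, (num B lev c l x - T) := by
  rw [Finset.card_eq_sum_card_fiberwise (f := c) (t := Cs l)]
  · refine Finset.sum_le_sum fun x _ => ?_
    refine le_trans (le_of_eq ?_) (overflow_cell B (fun v => (lev v, c v)) T (l, x))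
    congr 1
    ext v
    simp only [Finset.mem_filter, Prod.mk.injEq]
    tauto
  · intro v hv
    simp only [Finset.coe_filter, Set.mem_ofPred_eq] at hv
    rw [← hv.2.1]
    exact hc v hv.1

lemma overflow_total (hc : ∀ v ∈ B, c v ∈ Cs (lev v)) (T : Λ → ℕ) (W : Λ → ℝ)
    (hW : ∀ l, 0 ≤ W l)
    (h1 : ∀ l, 1 ≤ W l * (T l - (B.filter (fun v => lev v = l)).card / ((Cs l).card : ℝ))) :
    ((B.filter (fun v => T (lev v) ≤ rk B (fun v => (lev v, c v)) v)).card : ℝ) ≤
      (∑ p ∈ (B ×ˢ B).filter (fun p => lev p.1 = lev p.2 ∧ c p.1 = c p.2), W (lev p.1)) -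
      ∑ l, W l * ((B.filter (fun v => lev v = l)).card : ℝ) ^ 2 / ((Cs l).card : ℝ) := by
  classical
  have hA : ((B.filter (fun v => T (lev v) ≤ rk B (fun v => (lev v, c v)) v)).card : ℝ) =
      ∑ l, ((B.filter (fun v => lev v = l ∧
        T l ≤ rk B (fun v => (lev v, c v)) v)).card : ℝ) := by
    rw [Finset.card_eq_sum_card_fiberwise (f := lev) (t := univ)
      (by intro v _; exact Finset.mem_coe.2 (Finset.mem_univ _))]
    push_cast
    refine Finset.sum_congr rfl fun l _ => ?_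
    congr 2
    ext v
    simp only [Finset.mem_filter]
    constructor
    · rintro ⟨⟨h1, h2⟩, h3⟩
      exact ⟨h1, h3, h3 ▸ h2⟩
    · rintro ⟨h1, h3, h2⟩
      exact ⟨⟨h1, by rw [h3]; exact h2⟩, h3⟩
  have hB : (∑ p ∈ (B ×ˢ B).filter (fun p => lev p.1 = lev p.2 ∧ c p.1 = c p.2), W (lev p.1)) =
      ∑ l, W l * (∑ x ∈ Cs l, (num B lev c l x : ℝ) ^ 2) := by
    rw [← Finset.sum_fiberwise_of_maps_to (g := fun p => lev p.1) (t := univ)
      (fun _ _ => Finset.mem_univ _)]
    refine Finset.sum_congr rfl fun l _ => ?_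
    have h2 := sum_num_sq B lev c Cs hc l
    have h3 : (∑ x ∈ Cs l, (num B lev c l x : ℝ) ^ 2) =
        (((B ×ˢ B).filter (fun p => (lev p.1 = lev p.2 ∧ c p.1 = c p.2) ∧ lev p.1 = l)).card : ℝ)
        := by exact_mod_cast h2
    rw [h3, Finset.filter_filter]
    rw [Finset.sum_congr rfl (g := fun _ => W l)
      (fun p hp => by
        simp only [Finset.mem_filter] at hp
        rw [hp.2.2])]
    rw [Finset.sum_const, nsmul_eq_mul, mul_comm]
  rw [hA, hB, ← Finset.sum_sub_distrib]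
  refine Finset.sum_le_sum fun l _ => ?_
  set a : ℝ := (B.filter (fun v => lev v = l)).card / ((Cs l).card : ℝ) with ha
  have hlevel : ((B.filter (fun v => lev v = l ∧
        T l ≤ rk B (fun v => (lev v, c v)) v)).card : ℝ) ≤
      ∑ x ∈ Cs l, W l * ((num B lev c l x : ℝ) - a) ^ 2 := by
    calc ((B.filter (fun v => lev v = l ∧
        T l ≤ rk B (fun v => (lev v, c v)) v)).card : ℝ) ≤
        ((∑ x ∈ Cs l, (num B lev c l x - T l) : ℕ) : ℝ) := by
          exact_mod_cast level_overflow B lev c Cs hc (T l) l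
      _ = ∑ x ∈ Cs l, ((num B lev c l x - T l : ℕ) : ℝ) := by push_cast; rfl
      _ ≤ _ := Finset.sum_le_sum fun x _ => cell_ineq _ _ _ _ (hW l) (h1 l)
  refine hlevel.trans (le_of_eq ?_)
  rw [← Finset.mul_sum]
  have hsum : (∑ x ∈ Cs l, (num B lev c l x : ℝ)) = (B.filter (fun v => lev v = l)).card := by
    exact_mod_cast sum_num B lev c Cs hc l
  have hexp : ∑ x ∈ Cs l, ((num B lev c l x : ℝ) - a) ^ 2 =
      (∑ x ∈ Cs l, (num B lev c l x : ℝ) ^ 2) -
        2 * a * (B.filter (fun v => lev v = l)).card + (Cs l).card * a ^ 2 := by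
    rw [← hsum, Finset.mul_sum, ← Finset.sum_sub_distrib, ← nsmul_eq_mul, ← Finset.sum_const,
      ← Finset.sum_add_distrib]
    refine Finset.sum_congr rfl fun x _ => ?_
    ring
  rw [hexp]
  rcases Nat.eq_zero_or_pos (Cs l).card with h0 | h0
  · have hempty : Cs l = ∅ := Finset.card_eq_zero.1 h0
    have hz : ((B.filter (fun v => lev v = l)).card : ℝ) = 0 := by
      rw [← hsum, hempty]; simp
    rw [hz, h0]
    simp
  · have hpos : (0 : ℝ) < (Cs l).card := by exact_mod_cast h0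
    rw [ha]
    field_simp
    ring

end

/-! ### The embedding -/

section
variable {Λ Γ : Type} [Fintype Λ] [DecidableEq Λ] [DecidableEq Γ]
  (b : ℕ) (t T : Λ → ℕ) (Gam : Λ → Finset Γ) (aN : ℕ)

lemma embed (S : Λ → ℕ → Λ × Fin b → Bool) (Q : Λ × Γ → Λ × Γ → Prop)
    (hQs : ∀ x y, Q x y → Q y x)
    (n : ℕ) (H : SimpleGraph (Fin n)) (A : Finset (Fin n)) (lev : Fin n → Λ)
    (pre : Fin n → Γ) (e : Fin n → Fin b) (f : Fin n → ℕ)
    (hpre : ∀ v, v ∉ A → pre v ∈ Gam (lev v)) (hf : ∀ v, v ∉ A → f v < t (lev v))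
    (hadj : ∀ u v, u ∉ A → v ∉ A → H.Adj u v →
      S (lev u) (f u) (lev v, e v) = true ∨ S (lev v) (f v) (lev u, e u) = true ∨
        Q (lev u, pre u) (lev v, pre v))
    (hcard : A.card + ((univ \ A).filter (fun v => T (lev v) ≤
      rk (univ \ A) (fun v => (lev v, pre v, e v, f v)) v)).card ≤ aN) :
    H.IsContained (host b t T Gam aN S Q) := by
  classical
  set cell : Fin n → Λ × Γ × Fin b × ℕ := fun v => (lev v, pre v, e v, f v) with hcell
  set O := (univ \ A).filter (fun v => T (lev v) ≤ rk (univ \ A) cell v) with hO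
  have hAO : (A ∪ O).card ≤ aN := (Finset.card_union_le _ _).trans hcard
  -- an injection of `A ∪ O` into the universal vertices
  obtain ⟨ι⟩ : Nonempty ({v // v ∈ A ∪ O} ↪ Fin aN) := by
    apply Function.Embedding.nonempty_of_card_le
    rw [Fintype.card_coe, Fintype.card_fin]
    exact hAO
  have hgood : ∀ v, v ∉ A ∪ O → v ∉ A ∧ rk (univ \ A) cell v < T (lev v) := by
    intro v hv
    rw [Finset.mem_union, not_or] at hv
    refine ⟨hv.1, ?_⟩
    by_contra hcon
    push Not at hcon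
    exact hv.2 (by simp [hO, hv.1, hcon])
  let φ : Fin n → Fin aN ⊕ Pos b t T Gam := fun v =>
    if h : v ∈ A ∪ O then Sum.inl (ι ⟨v, h⟩)
    else Sum.inr ⟨lev v, ⟨pre v, hpre v (hgood v h).1⟩, e v, ⟨f v, hf v (hgood v h).1⟩,
      ⟨rk (univ \ A) cell v, (hgood v h).2⟩⟩
  have hφ1 : ∀ v (h : v ∈ A ∪ O), φ v = Sum.inl (ι ⟨v, h⟩) := fun v h => dif_pos h
  have hφ2 : ∀ v (h : v ∉ A ∪ O), φ v = Sum.inr ⟨lev v, ⟨pre v, hpre v (hgood v h).1⟩, e v,
      ⟨f v, hf v (hgood v h).1⟩, ⟨rk (univ \ A) cell v, (hgood v h).2⟩⟩ := fun v h => dif_neg h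
  have hinj : Function.Injective φ := by
    intro u v huv
    by_cases hu : u ∈ A ∪ O <;> by_cases hv : v ∈ A ∪ O
    · rw [hφ1 u hu, hφ1 v hv] at huv
      have := ι.injective (Sum.inl.inj huv)
      exact congrArg Subtype.val this
    · rw [hφ1 u hu, hφ2 v hv] at huv
      exact absurd huv (by simp)
    · rw [hφ2 u hu, hφ1 v hv] at huv
      exact absurd huv (by simp)
    · rw [hφ2 u hu, hφ2 v hv] at huv
      have h := Sum.inr.inj huv
      -- project the components
      have key : ∀ x : Pos b t T Gam, ∀ y : Pos b t T Gam, x = y →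
          (x.1, (x.2.1 : Γ), x.2.2.1, (x.2.2.2.1 : ℕ)) = (y.1, (y.2.1 : Γ), y.2.2.1,
            (y.2.2.2.1 : ℕ)) ∧ (x.2.2.2.2 : ℕ) = (y.2.2.2.2 : ℕ) := by
        rintro x _ rfl
        exact ⟨rfl, rfl⟩
      obtain ⟨h1, h2⟩ := key _ _ h
      exact rk_inj (univ \ A) cell (by simp [(hgood u hu).1]) (by simp [(hgood v hv).1]) h1 h2
  refine ⟨⟨⟨φ, ?_⟩, hinj⟩⟩
  intro u v huv
  have hne : φ u ≠ φ v := fun h => huv.ne (hinj h)
  by_cases hu : u ∈ A ∪ O
  · left; left
    rw [SimpleGraph.fromRel_adj]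
    exact ⟨hne, Or.inl (by rw [hφ1 u hu]; rfl)⟩
  · by_cases hv : v ∈ A ∪ O
    · left; left
      rw [SimpleGraph.fromRel_adj]
      exact ⟨hne, Or.inr (by rw [hφ1 v hv]; rfl)⟩
    · rcases hadj u v (hgood u hu).1 (hgood v hv).1 huv with h | h | h
      · left; right
        rw [SimpleGraph.fromRel_adj]
        exact ⟨hne, Or.inl (by rw [hφ2 u hu, hφ2 v hv]; exact h)⟩
      · left; right
        rw [SimpleGraph.fromRel_adj]
        exact ⟨hne, Or.inr (by rw [hφ2 u hu, hφ2 v hv]; exact h)⟩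
      · right
        rw [SimpleGraph.fromRel_adj]
        exact ⟨hne, Or.inl (by rw [hφ2 u hu, hφ2 v hv]; exact h)⟩

end

end Host

/-- The host graph and its universality, from the data of the embedding. -/
theorem exists_host {Λ Γ : Type} [Fintype Λ] [DecidableEq Λ] [Fintype Γ] [DecidableEq Γ]
    (b : ℕ) (t T : Λ → ℕ) (ρ : Λ → Λ → ℝ) (D : ℕ) (γ τ : ℝ)
    (S : Λ → ℕ → Λ × Fin b → Bool) (hS : GoodRel b t ρ D γ τ S) (Gam : Λ → Finset Γ)
    (Q : Λ × Γ → Λ × Γ → Prop) (hQs : ∀ x y, Q x y → Q y x) (ρQ : Λ → Λ → ℝ)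
    (hQ : ∀ l l', ({p : Γ × Γ | p.1 ∈ Gam l ∧ p.2 ∈ Gam l' ∧ Q (l, p.1) (l', p.2)}.ncard : ℝ) ≤
      ρQ l l' * (Gam l).card * (Gam l').card) (aN : ℕ) :
    ∃ (N : ℕ) (G : SimpleGraph (Fin N)),
      (G.edgeSet.ncard : ℝ) ≤
        aN * (aN + ∑ l, ((Gam l).card * b * t l * T l : ℝ)) +
        (∑ l, ∑ l', (1 + γ) * ρ l l' * ((Gam l).card * b * t l * T l : ℝ) *
          ((Gam l').card * b * t l' * T l' : ℝ)) +
        1 / 2 * (∑ l, ∑ l', ρQ l l' * ((Gam l).card * b * t l * T l : ℝ) *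
          ((Gam l').card * b * t l' * T l' : ℝ)) ∧
      ∀ (n : ℕ) (H : SimpleGraph (Fin n)) (A : Finset (Fin n)) (lev : Fin n → Λ)
        (pre : Fin n → Γ) (e : Fin n → Fin b) (f : Fin n → ℕ) (W : Λ → ℝ),
        (∀ v, v ∉ A → pre v ∈ Gam (lev v)) → (∀ v, v ∉ A → f v < t (lev v)) →
        (∀ u v, u ∉ A → v ∉ A → H.Adj u v →
          S (lev u) (f u) (lev v, e v) = true ∨ S (lev v) (f v) (lev u, e u) = true ∨
            Q (lev u, pre u) (lev v, pre v)) →
        (∀ l, 0 ≤ W l) →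
        (∀ l, 1 ≤ W l * (T l -
          ((univ \ A).filter (fun v => lev v = l)).card / ((Gam l).card * b * t l : ℝ))) →
        (A.card : ℝ) + (∑ p ∈ ((univ \ A) ×ˢ (univ \ A)).filter (fun p => lev p.1 = lev p.2 ∧
            pre p.1 = pre p.2 ∧ e p.1 = e p.2 ∧ f p.1 = f p.2), W (lev p.1)) -
          (∑ l, W l * (((univ \ A).filter (fun v => lev v = l)).card : ℝ) ^ 2 /
            ((Gam l).card * b * t l : ℝ)) ≤ aN →
        H.IsContained G := by
  classical
  set G0 := Host.host b t T Gam aN S Q with hG0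
  let V := Fin aN ⊕ Host.Pos b t T Gam
  let eqv : V ≃ Fin (Fintype.card V) := Fintype.equivFin V
  let iso := SimpleGraph.Iso.map eqv G0
  refine ⟨Fintype.card V, G0.map eqv.toEmbedding, ?_, ?_⟩
  · have h1 : (G0.map eqv.toEmbedding).edgeSet.ncard = G0.edgeSet.ncard :=
      (Nat.card_congr iso.mapEdgeSet).symm
    rw [h1]
    exact Host.host_edges b t T Gam aN ρ D γ τ S hS Q hQs ρQ hQ
  · intro n H A lev pre e f W hpre hf hadj hW h1 hle
    have hemb : H.IsContained G0 := by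
      refine Host.embed b t T Gam aN S Q hQs n H A lev pre e f hpre hf hadj ?_
      have hcs : ∀ l, ((Gam l ×ˢ ((univ : Finset (Fin b)) ×ˢ Finset.range (t l))).card : ℝ) =
          (Gam l).card * b * t l := by
        intro l
        rw [Finset.card_product, Finset.card_product, Finset.card_univ, Fintype.card_fin,
          Finset.card_range]
        push_cast
        ring
      have h2 := Host.overflow_total (univ \ A) lev (fun v => (pre v, e v, f v))
        (fun l => Gam l ×ˢ ((univ : Finset (Fin b)) ×ˢ Finset.range (t l)))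
        (by
          intro v hv
          simp only [Finset.mem_sdiff, Finset.mem_univ, true_and] at hv
          simp [hpre v hv, hf v hv]) T W hW
        (by
          intro l
          rw [hcs l]
          exact h1 l)
      simp only [hcs, Prod.mk.injEq] at h2
      have h3 : (A.card : ℝ) + (((univ \ A).filter (fun v => T (lev v) ≤
          Host.rk (univ \ A) (fun v => (lev v, pre v, e v, f v)) v)).card : ℝ) ≤ aN := by
        linarith
      exact_mod_cast h3
    exact hemb.trans ⟨iso.toCopy⟩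

end Pool.Agent.Lib.MP_1f2a9f_co
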