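import Pool.Agent.Lib.MP_1f2a9f_co.Defs
import Pool.Agent.Lib.MP_1f2a9f_co.Dual

namespace Pool.Agent.Lib.MP_1f2a9f_co

open Finset

namespace Pos

theorem sum_prod_form {V : Type} [Fintype V] [DecidableEq V] (R : ℕ) (f : V → Fin R → ℝ) :
    ∑ ω : V → Fin R, ∏ w, f w (ω w) = ∏ w, ∑ a, f w a := by
  rw [Finset.prod_univ_sum]
  simp

theorem sum_single {V : Type} [Fintype V] [DecidableEq V] (R : ℕ) (v : V) (h : Fin R → ℝ) :
    (R : ℝ) * ∑ ω : V → Fin R, h (ω v) = (R : ℝ) ^ Fintype.card V * ∑ a, h a := by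
  have h1 := sum_prod_form R (fun w a => if w = v then h a else 1)
  have h2 : ∀ ω : V → Fin R, ∏ w, (if w = v then h (ω w) else 1) = h (ω v) := by
    intro ω
    rw [Finset.prod_ite_eq' univ v (fun w => h (ω w))]
    simp
  have h3 : (R : ℝ) * ∏ w : V, ∑ a : Fin R, (if w = v then h a else 1) =
      (R : ℝ) ^ Fintype.card V * ∑ a, h a := by
    rw [← Finset.mul_prod_erase univ _ (Finset.mem_univ v)]
    have h4 : ∏ w ∈ univ.erase v, ∑ a : Fin R, (if w = v then h a else 1) =
        (R : ℝ) ^ (Fintype.card V - 1) := by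
      have : ∀ w ∈ univ.erase v, ∑ a : Fin R, (if w = v then h a else 1) = (R : ℝ) := by
        intro w hw
        rw [Finset.mem_erase] at hw
        simp [hw.1]
      rw [Finset.prod_congr rfl this]
      rw [Finset.prod_const, Finset.card_erase_of_mem (Finset.mem_univ v), Finset.card_univ]
    rw [h4]
    have hc : 0 < Fintype.card V := Fintype.card_pos_iff.mpr ⟨v⟩
    have h5 : (R : ℝ) ^ Fintype.card V = R * (R : ℝ) ^ (Fintype.card V - 1) := by
      rw [← pow_succ']
      congr 1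
      omega
    rw [h5]
    simp
    ring
  rw [← h3, ← h1]
  congr 1
  refine Finset.sum_congr rfl ?_
  intro ω _
  rw [h2]

theorem sum_pair {V : Type} [Fintype V] [DecidableEq V] (R : ℕ) (v v' : V) (hv : v ≠ v')
    (g h : Fin R → ℝ) (hg : ∑ a, g a = 0) :
    ∑ ω : V → Fin R, g (ω v) * h (ω v') = 0 := by
  have h1 := sum_prod_form R (fun w a => (if w = v then g a else 1) * (if w = v' then h a else 1))
  have h2 : ∀ ω : V → Fin R, ∏ w, ((if w = v then g (ω w) else 1) *
      (if w = v' then h (ω w) else 1)) = g (ω v) * h (ω v') := by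
    intro ω
    rw [Finset.prod_mul_distrib, Finset.prod_ite_eq' univ v (fun w => g (ω w)),
      Finset.prod_ite_eq' univ v' (fun w => h (ω w))]
    simp
  have h3 : ∏ w : V, ∑ a : Fin R, ((if w = v then g a else 1) * (if w = v' then h a else 1)) =
      0 := by
    apply Finset.prod_eq_zero (Finset.mem_univ v)
    simp [hv, hg]
  rw [← h3, ← h1]
  refine Finset.sum_congr rfl ?_
  intro ω _
  rw [h2]

theorem sum_sq {V : Type} [Fintype V] [DecidableEq V] (R : ℕ) (T : Finset V)
    (g : V → Fin R → ℝ) (hg : ∀ v, ∑ a, g v a = 0) :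
    (R : ℝ) * ∑ ω : V → Fin R, (∑ v ∈ T, g v (ω v)) ^ 2 =
      (R : ℝ) ^ Fintype.card V * ∑ v ∈ T, ∑ a, (g v a) ^ 2 := by
  have h1 : ∀ ω : V → Fin R, (∑ v ∈ T, g v (ω v)) ^ 2 =
      ∑ v ∈ T, ∑ v' ∈ T, g v (ω v) * g v' (ω v') := by
    intro ω
    rw [sq, Finset.sum_mul_sum]
  simp_rw [h1]
  rw [Finset.sum_comm, Finset.mul_sum, Finset.mul_sum]
  refine Finset.sum_congr rfl ?_
  intro v hv
  rw [Finset.sum_comm]
  have h2 : ∑ y ∈ T, ∑ x : V → Fin R, g v (x v) * g y (x y) =
      ∑ x : V → Fin R, (g v (x v)) ^ 2 := by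
    rw [← Finset.sum_erase_add T _ hv]
    have : ∑ y ∈ T.erase v, ∑ x : V → Fin R, g v (x v) * g y (x y) = 0 := by
      apply Finset.sum_eq_zero
      intro y hy
      rw [Finset.mem_erase] at hy
      exact sum_pair R v y (Ne.symm hy.1) (g v) (g y) (hg v)
    rw [this, zero_add]
    refine Finset.sum_congr rfl ?_
    intro x _
    ring
  rw [h2]
  exact sum_single R v (fun a => (g v a) ^ 2)

theorem cheb {V : Type} [Fintype V] [DecidableEq V] (R : ℕ) (hR : 0 < R) (T : Finset V)
    (G : V → Fin R → ℝ) (c t : ℝ) (hG : ∀ v a, 0 ≤ G v a ∧ G v a ≤ c) (ht : 0 < t) (M : ℝ)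
    (hM : ∑ v ∈ T, (∑ a, G v a) / R ≤ M) :
    ((univ.filter (fun ω : V → Fin R => M + t < ∑ v ∈ T, G v (ω v))).card : ℝ) * t ^ 2 ≤
      (R : ℝ) ^ Fintype.card V * (T.card * c ^ 2) := by
  have hR' : (0 : ℝ) < R := by exact_mod_cast hR
  set μ : V → ℝ := fun v => (∑ a, G v a) / R with hμ
  have hg : ∀ v, ∑ a, (G v a - μ v) = 0 := by
    intro v
    rw [Finset.sum_sub_distrib]
    simp [hμ]
    field_simp
    ring
  have hμ0 : ∀ v, 0 ≤ μ v ∧ μ v ≤ c := by
    intro v
    constructor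
    · apply div_nonneg _ hR'.le
      exact Finset.sum_nonneg (fun a _ => (hG v a).1)
    · rw [hμ]
      simp only
      rw [div_le_iff₀ hR']
      calc ∑ a, G v a ≤ ∑ _a : Fin R, c := Finset.sum_le_sum (fun a _ => (hG v a).2)
        _ = c * R := by simp [mul_comm]
  have h1 := sum_sq R T (fun v a => G v a - μ v) hg
  have h2 : ∑ v ∈ T, ∑ a, (G v a - μ v) ^ 2 ≤ R * (T.card * c ^ 2) := by
    calc ∑ v ∈ T, ∑ a, (G v a - μ v) ^ 2 ≤ ∑ v ∈ T, ∑ _a : Fin R, c ^ 2 := by
          refine Finset.sum_le_sum (fun v _ => Finset.sum_le_sum (fun a _ => ?_))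
          have a1 := hG v a
          have a2 := hμ0 v
          apply sq_le_sq'
          · linarith [a1.1, a2.2]
          · linarith [a1.2, a2.1]
      _ = R * (T.card * c ^ 2) := by simp; ring
  have h3 : ∑ ω : V → Fin R, (∑ v ∈ T, (G v (ω v) - μ v)) ^ 2 ≤
      (R : ℝ) ^ Fintype.card V * (T.card * c ^ 2) := by
    have h4 : (R : ℝ) * ∑ ω : V → Fin R, (∑ v ∈ T, (G v (ω v) - μ v)) ^ 2 ≤
        R * ((R : ℝ) ^ Fintype.card V * (T.card * c ^ 2)) := by
      rw [h1]
      calc (R : ℝ) ^ Fintype.card V * ∑ v ∈ T, ∑ a, (G v a - μ v) ^ 2 ≤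
            (R : ℝ) ^ Fintype.card V * (R * (T.card * c ^ 2)) := by
            apply mul_le_mul_of_nonneg_left h2 (by positivity)
        _ = _ := by ring
    exact le_of_mul_le_mul_left h4 hR'
  refine le_trans ?_ h3
  calc ((univ.filter (fun ω : V → Fin R => M + t < ∑ v ∈ T, G v (ω v))).card : ℝ) * t ^ 2 =
        ∑ _ω ∈ univ.filter (fun ω : V → Fin R => M + t < ∑ v ∈ T, G v (ω v)), t ^ 2 := by
        simp
    _ ≤ ∑ ω ∈ univ.filter (fun ω : V → Fin R => M + t < ∑ v ∈ T, G v (ω v)),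
        (∑ v ∈ T, (G v (ω v) - μ v)) ^ 2 := by
        refine Finset.sum_le_sum (fun ω hω => ?_)
        rw [Finset.mem_filter] at hω
        have h5 : t < ∑ v ∈ T, (G v (ω v) - μ v) := by
          rw [Finset.sum_sub_distrib]
          have := hω.2
          have h6 : ∑ v ∈ T, μ v ≤ M := hM
          linarith
        nlinarith
    _ ≤ ∑ ω : V → Fin R, (∑ v ∈ T, (G v (ω v) - μ v)) ^ 2 := by
        apply Finset.sum_le_sum_of_subset_of_nonneg (Finset.filter_subset _ _)
        intro i _ _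
        positivity

/-- right Riemann sums of `max 0 (y-k)` -/
theorem riemann (R : ℕ) (hR : 0 < R) (L k : ℝ) (hL : 0 < L) (hk : 0 ≤ k) (hkL : k ≤ L) :
    (∑ a : Fin R, max 0 (L * ((a : ℕ) + 1) / R - k)) / R ≤ (L - k) ^ 2 / (2 * L) + 2 * L / R := by
  have hR' : (0 : ℝ) < R := by exact_mod_cast hR
  have hR1 : (1 : ℝ) ≤ R := by exact_mod_cast hR
  rw [Fin.sum_univ_eq_sum_range (fun a : ℕ => max 0 (L * ((a : ℝ) + 1) / R - k)) R]
  have key : ∀ a : ℕ, max 0 (L * ((a : ℝ) + 1) / R - k) * (2 * (L / R)) ≤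
      (max 0 (L * (((a + 1 : ℕ) : ℝ) + 1) / R - k)) ^ 2 - (max 0 (L * ((a : ℝ) + 1) / R - k)) ^ 2 := by
    intro a
    have e1 : L * (((a + 1 : ℕ) : ℝ) + 1) / R - k = (L * ((a : ℝ) + 1) / R - k) + L / R := by
      push_cast
      ring
    have hpos : 0 < L / R := by positivity
    rw [e1]
    set y := L * ((a : ℝ) + 1) / R - k
    rcases le_total y 0 with hy | hy
    · rw [max_eq_left hy]
      have : 0 ≤ (max 0 (y + L / R)) ^ 2 := by positivity
      nlinarith
    · rw [max_eq_right hy, max_eq_right (by linarith)]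
      nlinarith
  have hsum : (∑ a ∈ range R, max 0 (L * ((a : ℝ) + 1) / R - k)) * (2 * (L / R)) ≤
      (max 0 (L * ((R : ℝ) + 1) / R - k)) ^ 2 := by
    rw [Finset.sum_mul]
    calc ∑ a ∈ range R, max 0 (L * ((a : ℝ) + 1) / R - k) * (2 * (L / R)) ≤
        ∑ a ∈ range R, ((max 0 (L * (((a + 1 : ℕ) : ℝ) + 1) / R - k)) ^ 2 -
          (max 0 (L * ((a : ℝ) + 1) / R - k)) ^ 2) := Finset.sum_le_sum (fun a _ => key a)
      _ = (max 0 (L * ((R : ℝ) + 1) / R - k)) ^ 2 - (max 0 (L * (((0 : ℕ) : ℝ) + 1) / R - k)) ^ 2 :=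
        Finset.sum_range_sub (fun a : ℕ => (max 0 (L * ((a : ℝ) + 1) / R - k)) ^ 2) R
      _ ≤ _ := by
        have : 0 ≤ (max 0 (L * (((0 : ℕ) : ℝ) + 1) / R - k)) ^ 2 := by positivity
        linarith
  have hlast : (max 0 (L * ((R : ℝ) + 1) / R - k)) ^ 2 ≤ (L - k) ^ 2 + 4 * L ^ 2 / R := by
    have e2 : L * ((R : ℝ) + 1) / R - k = (L - k) + L / R := by
      field_simp
      ring
    rw [e2, max_eq_right (by have : 0 < L / R := by positivity
                             linarith)]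
    have e3 : L / R ≤ L := by
      rw [div_le_iff₀ hR']
      nlinarith
    have e4 : (0 : ℝ) < L / R := by positivity
    have e5 : 4 * L ^ 2 / R = 4 * L * (L / R) := by ring
    rw [e5]
    nlinarith
  set Sg := ∑ a ∈ range R, max 0 (L * ((a : ℝ) + 1) / R - k)
  have h7 : Sg / R = (Sg * (2 * (L / R))) / (2 * L) := by
    field_simp
  rw [h7]
  have h8 : (L - k) ^ 2 / (2 * L) + 2 * L / R = ((L - k) ^ 2 + 4 * L ^ 2 / R) / (2 * L) := by
    field_simp
    ring
  rw [h8]
  apply div_le_div_of_nonneg_right _ (by positivity)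
  linarith

/-- counting of the integers in a half open interval -/
theorem count_interval (R : ℕ) (q : ℝ) (hq : 0 < q) (i : ℕ) :
    ((univ.filter (fun a : Fin R => ⌈(((a : ℕ) : ℝ) + 1) / q⌉₊ = i + 1)).card : ℝ) ≤ q + 1 := by
  have h1 : (univ.filter (fun a : Fin R => ⌈(((a : ℕ) : ℝ) + 1) / q⌉₊ = i + 1)).card ≤
      (Finset.Ioc ⌊(i : ℝ) * q⌋₊ ⌊((i : ℝ) + 1) * q⌋₊).card := by
    apply Finset.card_le_card_of_injOn (fun a : Fin R => (a : ℕ) + 1)
    · intro a ha
      simp only [coe_filter, mem_univ, true_and, Set.mem_ofPred_eq] at ha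
      have h2 : ((a : ℕ) : ℝ) + 1 ≤ ((i : ℝ) + 1) * q := by
        have := Nat.le_ceil ((((a : ℕ) : ℝ) + 1) / q)
        rw [ha] at this
        rw [div_le_iff₀ hq] at this
        push_cast at this
        exact this
      have h3 : (i : ℝ) * q < ((a : ℕ) : ℝ) + 1 := by
        have h4 : i < ⌈(((a : ℕ) : ℝ) + 1) / q⌉₊ := by omega
        rw [Nat.lt_ceil, lt_div_iff₀ hq] at h4
        exact h4
      simp only [coe_Ioc, Set.mem_Ioc]
      constructor
      · rw [Nat.floor_lt (by positivity)]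
        push_cast
        exact h3
      · rw [Nat.le_floor_iff (by positivity)]
        push_cast
        exact h2
    · intro a _ b _ hab
      simp only at hab
      ext
      omega
  have h5 : ((Finset.Ioc ⌊(i : ℝ) * q⌋₊ ⌊((i : ℝ) + 1) * q⌋₊).card : ℝ) ≤ q + 1 := by
    rw [Nat.card_Ioc]
    have h6 : ⌊(i : ℝ) * q⌋₊ ≤ ⌊((i : ℝ) + 1) * q⌋₊ := by
      apply Nat.floor_le_floor
      nlinarith
    rw [Nat.cast_sub h6]
    have h7 := Nat.floor_le (show (0 : ℝ) ≤ ((i : ℝ) + 1) * q by positivity)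
    have h8 := Nat.lt_floor_add_one ((i : ℝ) * q)
    linarith
  calc _ ≤ _ := by exact_mod_cast h1
    _ ≤ _ := h5

theorem asym (C1 C2 : ℝ) (hC2 : 0 < C2) :
    ∃ m0 : ℕ, ∀ m : ℕ, m0 ≤ m → C1 < Real.log m ∧ C2 * Real.log m < m := by
  have h1 : ∀ᶠ m : ℕ in Filter.atTop, C1 < Real.log m :=
    (Real.tendsto_log_atTop.comp tendsto_natCast_atTop_atTop).eventually_gt_atTop C1
  have h2 : ∀ᶠ m : ℕ in Filter.atTop, C2 * Real.log m < m := by
    have h3 := (Real.isLittleO_log_id_atTop.bound (show (0 : ℝ) < 1 / (2 * C2) by positivity))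
    have h4 := tendsto_natCast_atTop_atTop (R := ℝ).eventually h3
    filter_upwards [h4, Filter.eventually_gt_atTop 0] with m hm hm0
    have hm1 : (0 : ℝ) < m := by exact_mod_cast hm0
    simp only [id, Real.norm_eq_abs, abs_of_pos hm1] at hm
    have h5 : Real.log m ≤ 1 / (2 * C2) * m := le_trans (le_abs_self _) hm
    calc C2 * Real.log m ≤ C2 * (1 / (2 * C2) * m) := mul_le_mul_of_nonneg_left h5 hC2.le
      _ = m / 2 := by field_simp
      _ < m := by linarith
  obtain ⟨m0, hm0⟩ := Filter.eventually_atTop.mp (h1.and h2)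
  exact ⟨m0, hm0⟩

/-- The choice of the random positions. -/
theorem choice {V : Type} [Fintype V] [DecidableEq V] (R : ℕ) (hR : 0 < R)
    (T : V → Finset V) (L' : V → ℝ) (k' : V → V → ℝ) (c t Δ ε ε₁ s W' : ℝ) (B : ℕ)
    (hLc : ∀ v, L' v ≤ c) (hL0 : ∀ v, 0 < L' v) (hk0 : ∀ u v, 0 ≤ k' u v)
    (hkL : ∀ u v, k' u v ≤ L' u) (ht : 0 < t) (hΔ : 0 < Δ) (hε : 0 < ε) (hs : 0 < ε₁ * s)
    (hsum : ∑ v, 1 / L' v ≤ 1 + ε) (hVR : (Fintype.card V : ℝ) ≤ ε * Δ * R)
    (hW' : ∀ v, ((T v).card : ℝ) * c ^ 2 ≤ W' * t ^ 2)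
    (h1 : (Fintype.card V : ℝ) * W' ≤ (ε₁ * s) / 4)
    (h2 : B * (Fintype.card V : ℝ) ≤ (ε * Δ) ^ 2 / 4) :
    ∃ ω : V → Fin R,
      ((univ.filter (fun v => (∑ u ∈ T v, ((L' u - k' u v) ^ 2 / (2 * L' u) + 2 * L' u / R)) + t <
        ∑ u ∈ T v, max 0 (L' u * (((ω u : ℕ) : ℝ) + 1) / R - k' u v))).card : ℝ) ≤ ε₁ * s ∧
      ∀ i : Fin B, ((univ.filter (fun v => ⌈(((ω v : ℕ) : ℝ) + 1) / (R * Δ / L' v)⌉₊ =
        (i : ℕ) + 1)).card : ℝ) ≤ (1 + 3 * ε) * Δ := by
  classical
  have hR' : (0 : ℝ) < R := by exact_mod_cast hR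
  set W : ℝ := (R : ℝ) ^ Fintype.card V with hWdef
  have hW : 0 < W := by positivity
  have hcard : ((univ : Finset (V → Fin R)).card : ℝ) = W := by
    rw [Finset.card_univ, Fintype.card_fun, Fintype.card_fin]
    push_cast
    rfl
  -- first bad event
  set bad : V → (V → Fin R) → Prop := fun v ω =>
    (∑ u ∈ T v, ((L' u - k' u v) ^ 2 / (2 * L' u) + 2 * L' u / R)) + t <
        ∑ u ∈ T v, max 0 (L' u * (((ω u : ℕ) : ℝ) + 1) / R - k' u v) with hbad
  have hb1 : ∀ v, ((univ.filter (fun ω => bad v ω)).card : ℝ) ≤ W * W' := by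
    intro v
    have h3 := cheb R hR (T v) (fun u a => max 0 (L' u * (((a : ℕ) : ℝ) + 1) / R - k' u v)) c t
      (by
        intro u a
        refine ⟨le_max_left _ _, ?_⟩
        have ha : (((a : ℕ) : ℝ) + 1) ≤ R := by
          have := a.2
          exact_mod_cast this
        have h4 : L' u * (((a : ℕ) : ℝ) + 1) / R ≤ L' u := by
          rw [div_le_iff₀ hR']
          exact mul_le_mul_of_nonneg_left ha (hL0 u).le
        apply max_le
        · linarith [hLc u, hL0 u]
        · linarith [hLc u, hk0 u v]) ht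
      (∑ u ∈ T v, ((L' u - k' u v) ^ 2 / (2 * L' u) + 2 * L' u / R))
      (Finset.sum_le_sum (fun u _ => riemann R hR (L' u) (k' u v) (hL0 u) (hk0 u v) (hkL u v)))
    have h5 : ((univ.filter (fun ω => bad v ω)).card : ℝ) * t ^ 2 ≤ (W * W') * t ^ 2 := by
      calc ((univ.filter (fun ω => bad v ω)).card : ℝ) * t ^ 2 ≤ W * ((T v).card * c ^ 2) := h3
        _ ≤ W * (W' * t ^ 2) := mul_le_mul_of_nonneg_left (hW' v) hW.le
        _ = _ := by ring
    exact le_of_mul_le_mul_right h5 (by positivity)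
  set E1 := univ.filter (fun ω : V → Fin R =>
    ε₁ * s < ((univ.filter (fun v => bad v ω)).card : ℝ)) with hE1
  have hE1c : (E1.card : ℝ) ≤ W / 4 := by
    have h3 : (E1.card : ℝ) * (ε₁ * s) ≤ ∑ ω : V → Fin R,
        ((univ.filter (fun v => bad v ω)).card : ℝ) := by
      calc (E1.card : ℝ) * (ε₁ * s) = ∑ _ω ∈ E1, (ε₁ * s) := by simp
        _ ≤ ∑ ω ∈ E1, ((univ.filter (fun v => bad v ω)).card : ℝ) := by
            refine Finset.sum_le_sum (fun ω hω => ?_)
            rw [hE1, Finset.mem_filter] at hω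
            exact hω.2.le
        _ ≤ _ := by
            apply Finset.sum_le_sum_of_subset_of_nonneg (Finset.subset_univ _)
            intro i _ _
            positivity
    have h4 : ∑ ω : V → Fin R, ((univ.filter (fun v => bad v ω)).card : ℝ) =
        ∑ v, ((univ.filter (fun ω => bad v ω)).card : ℝ) := by
      simp only [Finset.card_filter]
      push_cast
      rw [Finset.sum_comm]
    have h5 : ∑ v, ((univ.filter (fun ω => bad v ω)).card : ℝ) ≤ Fintype.card V * (W * W') := by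
      calc ∑ v, ((univ.filter (fun ω => bad v ω)).card : ℝ) ≤ ∑ _v : V, W * W' :=
            Finset.sum_le_sum (fun v _ => hb1 v)
        _ = _ := by simp
    have h6 : (E1.card : ℝ) * (ε₁ * s) ≤ (W / 4) * (ε₁ * s) := by
      calc (E1.card : ℝ) * (ε₁ * s) ≤ Fintype.card V * (W * W') := by linarith
        _ = W * (Fintype.card V * W') := by ring
        _ ≤ W * ((ε₁ * s) / 4) := mul_le_mul_of_nonneg_left h1 hW.le
        _ = _ := by ring
    exact le_of_mul_le_mul_right h6 hs
  -- second bad events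
  set E2 : Fin B → Finset (V → Fin R) := fun i => univ.filter (fun ω : V → Fin R =>
    (1 + 2 * ε) * Δ + ε * Δ < ∑ v, (if ⌈(((ω v : ℕ) : ℝ) + 1) / (R * Δ / L' v)⌉₊ =
        (i : ℕ) + 1 then (1 : ℝ) else 0)) with hE2
  have hE2c : ∀ i, ((E2 i).card : ℝ) * (ε * Δ) ^ 2 ≤ W * Fintype.card V := by
    intro i
    have h3 := cheb R hR univ (fun v a => if ⌈(((a : ℕ) : ℝ) + 1) / (R * Δ / L' v)⌉₊ =
        (i : ℕ) + 1 then (1 : ℝ) else 0) 1 (ε * Δ)
      (by
        intro v a
        split_ifs <;> norm_num) (by positivity)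
      ((1 + 2 * ε) * Δ)
      (by
        have h4 : ∀ v ∈ (univ : Finset V), (∑ a : Fin R, (if ⌈(((a : ℕ) : ℝ) + 1) /
            (R * Δ / L' v)⌉₊ = (i : ℕ) + 1 then (1 : ℝ) else 0)) / R ≤
            Δ * (1 / L' v) + 1 / R := by
          intro v _
          have h5 := count_interval R (R * Δ / L' v) (by have := hL0 v; positivity) (i : ℕ)
          rw [Finset.sum_boole]
          rw [div_le_iff₀ hR']
          refine le_trans h5 (le_of_eq ?_)
          have := (hL0 v).ne'
          field_simp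
        refine le_trans (Finset.sum_le_sum h4) ?_
        rw [Finset.sum_add_distrib, ← Finset.mul_sum]
        have h6 : ∑ _v : V, 1 / (R : ℝ) ≤ ε * Δ := by
          simp only [Finset.sum_const, Finset.card_univ, nsmul_eq_mul]
          rw [mul_one_div, div_le_iff₀ hR']
          exact hVR
        have h7 : Δ * ∑ v, 1 / L' v ≤ Δ * (1 + ε) := mul_le_mul_of_nonneg_left hsum hΔ.le
        nlinarith)
    rw [Finset.card_univ, one_pow, mul_one] at h3
    exact h3
  have hunion : ((E1 ∪ univ.biUnion E2).card : ℝ) < (univ : Finset (V → Fin R)).card := by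
    rw [hcard]
    have h3 : ((E1 ∪ univ.biUnion E2).card : ℝ) ≤ E1.card + ∑ i, ((E2 i).card : ℝ) := by
      have h4 := Finset.card_union_le E1 (univ.biUnion E2)
      have h5 := Finset.card_biUnion_le (s := (univ : Finset (Fin B))) (t := E2)
      have h6 : (E1 ∪ univ.biUnion E2).card ≤ E1.card + ∑ i, (E2 i).card := by omega
      exact_mod_cast h6
    have h7 : (∑ i, ((E2 i).card : ℝ)) * (ε * Δ) ^ 2 ≤ (W / 4) * (ε * Δ) ^ 2 := by
      rw [Finset.sum_mul]
      calc ∑ i, ((E2 i).card : ℝ) * (ε * Δ) ^ 2 ≤ ∑ _i : Fin B, W * (Fintype.card V : ℝ) :=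
            Finset.sum_le_sum (fun i _ => hE2c i)
        _ = W * (B * (Fintype.card V : ℝ)) := by simp; ring
        _ ≤ W * ((ε * Δ) ^ 2 / 4) := mul_le_mul_of_nonneg_left h2 hW.le
        _ = _ := by ring
    have h8 : ∑ i, ((E2 i).card : ℝ) ≤ W / 4 := le_of_mul_le_mul_right h7 (by positivity)
    linarith
  have hex : ∃ ω : V → Fin R, ω ∉ E1 ∪ univ.biUnion E2 := by
    by_contra hcon
    push Not at hcon
    have : E1 ∪ univ.biUnion E2 = univ := Finset.eq_univ_of_forall hcon
    rw [this] at hunion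
    exact lt_irrefl _ hunion
  obtain ⟨ω, hω⟩ := hex
  rw [Finset.mem_union, not_or] at hω
  refine ⟨ω, ?_, ?_⟩
  · have h3 := hω.1
    rw [hE1, Finset.mem_filter, not_and] at h3
    exact not_lt.mp (h3 (Finset.mem_univ _))
  · intro i
    have h3 := hω.2
    rw [Finset.mem_biUnion] at h3
    push Not at h3
    have h4 := h3 i (Finset.mem_univ _)
    rw [hE2, Finset.mem_filter, not_and] at h4
    have h5 := not_lt.mp (h4 (Finset.mem_univ _))
    rw [Finset.sum_boole] at h5
    refine le_trans h5 (le_of_eq ?_)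
    ring

theorem cap_cost (L k c : ℝ) (hL : 0 < L) (hk : 0 ≤ k) (hkL : k ≤ L) (hc : 0 < c) :
    (min L c - min k (min L c)) ^ 2 / (2 * min L c) ≤ (L - k) ^ 2 / (2 * L) := by
  rcases le_total L c with h | h
  · rw [min_eq_left h, min_eq_left hkL]
  · rw [min_eq_right h]
    rcases le_total k c with h2 | h2
    · rw [min_eq_left h2, div_le_div_iff₀ (by positivity) (by positivity)]
      have h3 : 0 ≤ (L - c) * (L * c - k ^ 2) := by
        apply mul_nonneg (by linarith)
        nlinarith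
      nlinarith
    · rw [min_eq_right h2]
      simp
      positivity

end Pos

theorem positions (ε χ D ε₁ : ℝ) (B : ℕ) (hε : 0 < ε) (hε1 : ε ≤ 1 / 10) (hχ : 0 < χ)
    (hD : 0 < D) (hε₁ : 0 < ε₁) (hB : 0 < B) (hBD : D * (χ / B) ≤ ε) :
    ∃ m0 : ℕ, ∀ m : ℕ, m0 ≤ m → ∀ (V : Type) [Fintype V] [DecidableEq V] (H : SimpleGraph V)
      [DecidableRel H.Adj],
      (H.edgeFinset.card : ℝ) ≤ m → (∀ v, (H.degree v : ℝ) ≤ D * Real.log m) →
      (Fintype.card V : ℝ) ≤ ε * χ * (m / Real.log m) →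
      ∃ (X : V → Fin B) (Bad : Finset V),
        (Bad.card : ℝ) ≤ ε₁ * (m / Real.log m) ∧
        (∀ i, ((univ.filter (fun v => X v = i)).card : ℝ) ≤
          (1 + 3 * ε) * (χ / B) * (m / Real.log m)) ∧
        ∀ U : Finset V, Disjoint U Bad →
          ∑ u ∈ U, ∑ _v ∈ U.filter (fun v => H.Adj u v), ((X u : ℝ) + 1) * (χ / B) ≤
            (1 + 5 * ε) * Real.log m * U.card := by
  have hB' : (0 : ℝ) < B := by exact_mod_cast hB
  set R : ℕ := B + ⌈2 * D * χ / ε⌉₊ with hRdef
  have hR : 0 < R := by omega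
  have hR' : (0 : ℝ) < R := by exact_mod_cast hR
  have hRB : (B : ℝ) ≤ R := by rw [hRdef]; push_cast; linarith [Nat.cast_nonneg (α := ℝ) ⌈2 * D * χ / ε⌉₊]
  have hRD : 2 * D * χ / ε ≤ R := by
    rw [hRdef]; push_cast; linarith [Nat.le_ceil (2 * D * χ / ε)]
  obtain ⟨m0, hm0⟩ := Pos.asym (max 0 (4 * χ ^ 3 * D / (ε * ε₁))) (4 * B ^ 3 / (ε * χ))
    (by positivity)
  refine ⟨m0, ?_⟩
  intro m hm V _ _ H _ hHe hHd hHV
  obtain ⟨hl1, hl2⟩ := hm0 m hm
  have hl : 0 < Real.log m := lt_of_le_of_lt (le_max_left _ _) hl1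
  have hl3 : 4 * χ ^ 3 * D / (ε * ε₁) < Real.log m := lt_of_le_of_lt (le_max_right _ _) hl1
  have hmpos : (0 : ℝ) < m := by
    rcases Nat.eq_zero_or_pos m with h | h
    · rw [h] at hl
      simp at hl
    · exact_mod_cast h
  set l := Real.log m with hldef
  set s : ℝ := m / l with hs
  have hspos : 0 < s := by positivity
  have hml : (m : ℝ) = l * s := by rw [hs]; field_simp
  have hs1 : 4 * (B : ℝ) ^ 3 / (ε * χ) < s := by
    rw [hs, lt_div_iff₀ hl]
    exact hl2
  obtain ⟨L, k, hL0, hk, hsumL, hload⟩ := duality H m hmpos hHe ε hε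
  set Δ : ℝ := χ / B * s with hΔ
  have hΔpos : 0 < Δ := by positivity
  set L' : V → ℝ := fun v => min (L v) (χ * s) with hL'
  set k' : V → V → ℝ := fun u v => min (k u v) (L' u) with hk'
  have hχs : 0 < χ * s := by positivity
  have hL'0 : ∀ v, 0 < L' v := fun v => lt_min (hL0 v) hχs
  have hL'c : ∀ v, L' v ≤ χ * s := fun v => min_le_right _ _
  have hk'0 : ∀ u v, 0 ≤ k' u v := fun u v => le_min (hk u v).1 (hL'0 u).le
  have hk'L : ∀ u v, k' u v ≤ L' u := fun u v => min_le_right _ _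
  have hk'k : ∀ u v, k' u v ≤ k u v := fun u v => min_le_left _ _
  have hcost : ∀ u v, (L' u - k' u v) ^ 2 / (2 * L' u) ≤ (L u - k u v) ^ 2 / (2 * L u) :=
    fun u v => Pos.cap_cost (L u) (k u v) (χ * s) (hL0 u) (hk u v).1 (hk u v).2 hχs
  have hsum' : ∑ v, 1 / L' v ≤ 1 + ε := by
    have h1 : ∀ v ∈ (univ : Finset V), 1 / L' v ≤ 1 / L v + 1 / (χ * s) := by
      intro v _
      have p1 : 0 < 1 / L v := by have := hL0 v; positivity
      have p2 : 0 < 1 / (χ * s) := by positivity
      rcases le_total (L v) (χ * s) with h | h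
      · rw [hL']; simp only; rw [min_eq_left h]; linarith
      · rw [hL']; simp only; rw [min_eq_right h]; linarith
    refine le_trans (Finset.sum_le_sum h1) ?_
    rw [Finset.sum_add_distrib]
    have h2 : ∑ _v : V, 1 / (χ * s) ≤ ε := by
      simp only [Finset.sum_const, Finset.card_univ, nsmul_eq_mul]
      rw [mul_one_div, div_le_iff₀ hχs]
      linarith
    linarith
  have hdegl : ∀ v, ((H.neighborFinset v).card : ℝ) ≤ D * l := by
    intro v
    rw [H.card_neighborFinset_eq_degree]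
    exact hHd v
  obtain ⟨ω, hω1, hω2⟩ := Pos.choice R hR (fun v => H.neighborFinset v) L' k' (χ * s) (ε * m)
    Δ ε ε₁ s (D * χ ^ 2 / (ε ^ 2 * l)) B hL'c hL'0 hk'0 hk'L (by positivity) hΔpos hε
    (by positivity) hsum'
    (by
      calc (Fintype.card V : ℝ) ≤ ε * χ * s := hHV
        _ = ε * Δ * B := by rw [hΔ]; field_simp
        _ ≤ ε * Δ * R := mul_le_mul_of_nonneg_left hRB (by positivity))
    (by
      intro v
      calc ((H.neighborFinset v).card : ℝ) * (χ * s) ^ 2 ≤ (D * l) * (χ * s) ^ 2 :=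
            mul_le_mul_of_nonneg_right (hdegl v) (by positivity)
        _ = D * χ ^ 2 / (ε ^ 2 * l) * (ε * m) ^ 2 := by
            rw [hml]; field_simp)
    (by
      calc (Fintype.card V : ℝ) * (D * χ ^ 2 / (ε ^ 2 * l)) ≤
            (ε * χ * s) * (D * χ ^ 2 / (ε ^ 2 * l)) :=
            mul_le_mul_of_nonneg_right hHV (by positivity)
        _ = (D * χ ^ 3 / (ε * l)) * s := by field_simp
        _ ≤ (ε₁ / 4) * s := by
            apply mul_le_mul_of_nonneg_right _ hspos.le
            rw [div_le_iff₀ (by positivity)]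
            rw [div_lt_iff₀ (by positivity)] at hl3
            nlinarith
        _ = _ := by ring)
    (by
      rw [div_lt_iff₀ (by positivity)] at hs1
      calc (B : ℝ) * Fintype.card V ≤ B * (ε * χ * s) :=
            mul_le_mul_of_nonneg_left hHV hB'.le
        _ = (4 * B ^ 3) * (ε * χ * s) / (4 * B ^ 2) := by field_simp
        _ ≤ (s * (ε * χ)) * (ε * χ * s) / (4 * B ^ 2) := by
            apply div_le_div_of_nonneg_right _ (by positivity)
            exact mul_le_mul_of_nonneg_right hs1.le (by positivity)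
        _ = (ε * Δ) ^ 2 / 4 := by rw [hΔ]; field_simp)
  -- the positions
  set x : V → ℝ := fun v => L' v * (((ω v : ℕ) : ℝ) + 1) / R with hx
  have hx0 : ∀ v, 0 < x v := by
    intro v
    have := hL'0 v
    rw [hx]
    positivity
  have hxL : ∀ v, x v ≤ L' v := by
    intro v
    have ha : (((ω v : ℕ) : ℝ) + 1) ≤ R := by
      have := (ω v).2
      exact_mod_cast this
    rw [hx]
    simp only
    rw [div_le_iff₀ hR']
    exact mul_le_mul_of_nonneg_left ha (hL'0 v).le
  have hq : ∀ v, (((ω v : ℕ) : ℝ) + 1) / (R * Δ / L' v) = x v / Δ := by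
    intro v
    have := (hL'0 v).ne'
    rw [hx]
    field_simp
  have hxB : ∀ v, x v / Δ ≤ B := by
    intro v
    rw [div_le_iff₀ hΔpos]
    calc x v ≤ χ * s := le_trans (hxL v) (hL'c v)
      _ = B * Δ := by rw [hΔ]; field_simp
  have hce : ∀ v, ⌈x v / Δ⌉₊ ≤ B := by
    intro v
    rw [Nat.ceil_le]
    exact hxB v
  have hce0 : ∀ v, 0 < ⌈x v / Δ⌉₊ := by
    intro v
    rw [Nat.ceil_pos]
    have := hx0 v
    positivity
  set X : V → Fin B := fun v => ⟨⌈x v / Δ⌉₊ - 1, by have := hce v; have := hce0 v; omega⟩ with hX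
  set Bad : Finset V := univ.filter (fun v => (∑ u ∈ H.neighborFinset v,
    ((L' u - k' u v) ^ 2 / (2 * L' u) + 2 * L' u / R)) + ε * m <
        ∑ u ∈ H.neighborFinset v, max 0 (L' u * (((ω u : ℕ) : ℝ) + 1) / R - k' u v)) with hBad
  refine ⟨X, Bad, hω1, ?_, ?_⟩
  · intro i
    have h1 := hω2 i
    have h2 : (univ.filter (fun v => X v = i)) = (univ.filter (fun v =>
        ⌈(((ω v : ℕ) : ℝ) + 1) / (R * Δ / L' v)⌉₊ = (i : ℕ) + 1)) := by
      ext v
      simp only [Finset.mem_filter, Finset.mem_univ, true_and]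
      rw [hq v, hX, Fin.ext_iff]
      simp only
      have := hce0 v
      omega
    rw [h2]
    refine le_trans h1 (le_of_eq ?_)
    rw [hΔ]
    ring
  · intro U hU
    -- pointwise bound for the good vertices
    have hgood : ∀ v ∈ U, ∑ u ∈ H.neighborFinset v, (k' v u + max 0 (x u - k' u v)) ≤
        (1 + 3 * ε) * m := by
      intro v hv
      have hvB : v ∉ Bad := Finset.disjoint_left.mp hU hv
      rw [hBad, Finset.mem_filter, not_and] at hvB
      have h1 := not_lt.mp (hvB (Finset.mem_univ _))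
      rw [Finset.sum_add_distrib] at h1
      rw [Finset.sum_add_distrib]
      have h2 : ∑ u ∈ H.neighborFinset v, 2 * L' u / R ≤ ε * m := by
        calc ∑ u ∈ H.neighborFinset v, 2 * L' u / R ≤
            ∑ _u ∈ H.neighborFinset v, 2 * (χ * s) / R := by
              refine Finset.sum_le_sum (fun u _ => ?_)
              apply div_le_div_of_nonneg_right _ hR'.le
              linarith [hL'c u]
          _ = (H.neighborFinset v).card * (2 * (χ * s) / R) := by simp
          _ ≤ (D * l) * (2 * (χ * s) / R) :=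
              mul_le_mul_of_nonneg_right (hdegl v) (by positivity)
          _ = (2 * D * χ) * (l * s) / R := by ring
          _ ≤ (R * ε) * (l * s) / R := by
              apply div_le_div_of_nonneg_right _ hR'.le
              apply mul_le_mul_of_nonneg_right _ (by positivity)
              rw [div_le_iff₀ hε] at hRD
              exact hRD
          _ = ε * m := by rw [hml]; field_simp
      have h3 : ∑ u ∈ H.neighborFinset v, k' v u +
          ∑ u ∈ H.neighborFinset v, (L' u - k' u v) ^ 2 / (2 * L' u) ≤ (1 + ε) * m := by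
        rw [← Finset.sum_add_distrib]
        refine le_trans (Finset.sum_le_sum (fun u _ => ?_)) (hload v)
        exact add_le_add (hk'k v u) (hcost u v)
      have h4 : ∑ u ∈ H.neighborFinset v, max 0 (x u - k' u v) =
        ∑ u ∈ H.neighborFinset v, max 0 (L' u * (((ω u : ℕ) : ℝ) + 1) / R - k' u v) := rfl
      rw [h4]
      linarith
    -- the sum over the edges inside `U`
    have hsub : ∀ v, U.filter (fun u => H.Adj v u) ⊆ H.neighborFinset v := by
      intro v u hu
      rw [Finset.mem_filter] at hu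
      rw [SimpleGraph.mem_neighborFinset]
      exact hu.2
    have hcardU : ∀ v, ((U.filter (fun u => H.Adj v u)).card : ℝ) ≤ D * l := by
      intro v
      refine le_trans ?_ (hdegl v)
      exact_mod_cast Finset.card_le_card (hsub v)
    have hswap : ∀ f : V → V → ℝ, ∑ u ∈ U, ∑ v ∈ U.filter (fun v => H.Adj u v), f u v =
        ∑ v ∈ U, ∑ u ∈ U.filter (fun u => H.Adj v u), f u v := by
      intro f
      simp only [Finset.sum_filter]
      rw [Finset.sum_comm]
      refine Finset.sum_congr rfl (fun v _ => Finset.sum_congr rfl (fun u _ => ?_))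
      simp only [H.adj_comm u v]
    have hmain : ∑ u ∈ U, ∑ _v ∈ U.filter (fun v => H.Adj u v), x u ≤
        U.card * ((1 + 3 * ε) * m) := by
      calc ∑ u ∈ U, ∑ _v ∈ U.filter (fun v => H.Adj u v), x u ≤
          ∑ u ∈ U, ∑ v ∈ U.filter (fun v => H.Adj u v), (k' u v + max 0 (x u - k' u v)) := by
            refine Finset.sum_le_sum (fun u _ => Finset.sum_le_sum (fun v _ => ?_))
            linarith [le_max_right 0 (x u - k' u v)]
        _ = ∑ u ∈ U, ∑ v ∈ U.filter (fun v => H.Adj u v), k' u v +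
            ∑ u ∈ U, ∑ v ∈ U.filter (fun v => H.Adj u v), max 0 (x u - k' u v) := by
            simp only [Finset.sum_add_distrib]
        _ = ∑ v ∈ U, ∑ u ∈ U.filter (fun u => H.Adj v u), k' v u +
            ∑ v ∈ U, ∑ u ∈ U.filter (fun u => H.Adj v u), max 0 (x u - k' u v) := by
            rw [hswap (fun u v => max 0 (x u - k' u v))]
        _ = ∑ v ∈ U, ∑ u ∈ U.filter (fun u => H.Adj v u),
            (k' v u + max 0 (x u - k' u v)) := by
            simp only [Finset.sum_add_distrib]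
        _ ≤ ∑ v ∈ U, ∑ u ∈ H.neighborFinset v, (k' v u + max 0 (x u - k' u v)) := by
            refine Finset.sum_le_sum (fun v _ => ?_)
            apply Finset.sum_le_sum_of_subset_of_nonneg (hsub v)
            intro u _ _
            have := hk'0 v u
            have := le_max_left 0 (x u - k' u v)
            linarith
        _ ≤ ∑ _v ∈ U, (1 + 3 * ε) * m := Finset.sum_le_sum hgood
        _ = _ := by simp
    have hXx : ∀ u, ((X u : ℕ) + 1 : ℝ) * (χ / B) ≤ x u / s + χ / B := by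
      intro u
      have h1 : ((X u : ℕ) + 1 : ℝ) = (⌈x u / Δ⌉₊ : ℝ) := by
        have h2 : (X u : ℕ) + 1 = ⌈x u / Δ⌉₊ := by
          rw [hX]
          simp only
          have := hce0 u
          omega
        exact_mod_cast h2
      rw [h1]
      have h3 : (⌈x u / Δ⌉₊ : ℝ) < x u / Δ + 1 := Nat.ceil_lt_add_one (by have := hx0 u; positivity)
      calc (⌈x u / Δ⌉₊ : ℝ) * (χ / B) ≤ (x u / Δ + 1) * (χ / B) :=
            mul_le_mul_of_nonneg_right h3.le (by positivity)
        _ = x u / s + χ / B := by rw [hΔ]; field_simp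
    calc ∑ u ∈ U, ∑ _v ∈ U.filter (fun v => H.Adj u v), ((X u : ℝ) + 1) * (χ / B) ≤
        ∑ u ∈ U, ∑ _v ∈ U.filter (fun v => H.Adj u v), (x u / s + χ / B) :=
          Finset.sum_le_sum (fun u _ => Finset.sum_le_sum (fun v _ => hXx u))
      _ = (∑ u ∈ U, ∑ _v ∈ U.filter (fun v => H.Adj u v), x u) / s +
          ∑ u ∈ U, ((U.filter (fun v => H.Adj u v)).card : ℝ) * (χ / B) := by
          rw [Finset.sum_div, ← Finset.sum_add_distrib]
          refine Finset.sum_congr rfl (fun u _ => ?_)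
          rw [Finset.sum_div, Finset.sum_add_distrib]
          simp
      _ ≤ (U.card * ((1 + 3 * ε) * m)) / s + ∑ _u ∈ U, ε * l := by
          apply add_le_add
          · exact div_le_div_of_nonneg_right hmain hspos.le
          · refine Finset.sum_le_sum (fun u _ => ?_)
            calc ((U.filter (fun v => H.Adj u v)).card : ℝ) * (χ / B) ≤ (D * l) * (χ / B) :=
                  mul_le_mul_of_nonneg_right (hcardU u) (by positivity)
              _ = (D * (χ / B)) * l := by ring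
              _ ≤ ε * l := mul_le_mul_of_nonneg_right hBD hl.le
      _ = (1 + 4 * ε) * l * U.card := by
          rw [Finset.sum_const, nsmul_eq_mul, hml]
          have h9 : (U.card : ℝ) * ((1 + 3 * ε) * (l * s)) / s = U.card * ((1 + 3 * ε) * l) := by
            rw [div_eq_iff hspos.ne']
            ring
          rw [h9]
          ring
      _ ≤ (1 + 5 * ε) * l * U.card := by
          apply mul_le_mul_of_nonneg_right _ (Nat.cast_nonneg _)
          apply mul_le_mul_of_nonneg_right _ hl.le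
          linarith

end Pool.Agent.Lib.MP_1f2a9f_co
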