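import Pool.Agent.Lib.MP_1f2a9f_co.Defs

/-!
# MP_1f2a9f_co, module L1: a universal graph hosts every out-degree-`D` pattern
-/

namespace Pool.Agent.Lib.MP_1f2a9f_co.Low1

open Finset

/-- The pattern graph: `i` is joined to all `b i d` and to `i + 1`. -/
def pat {n D : ℕ} (b : Fin n → Fin D → Fin n) : SimpleGraph (Fin n) :=
  SimpleGraph.fromRel (fun i j => (∃ d, b i d = j) ∨ i.val + 1 = j.val)

theorem pat_edges {n D : ℕ} (b : Fin n → Fin D → Fin n) :
    (pat b).edgeSet.ncard ≤ n * D + (n - 1) := by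
  classical
  let f : Fin n × Fin D → Sym2 (Fin n) := fun p => s(p.1, b p.1 p.2)
  let g : Fin (n - 1) → Sym2 (Fin n) := fun i =>
    s(⟨i.val, by omega⟩, ⟨i.val + 1, by omega⟩)
  have hsub : (pat b).edgeSet ⊆ Set.range f ∪ Set.range g := by
    intro e he
    induction e using Sym2.ind with
    | _ x y =>
      rw [SimpleGraph.mem_edgeSet] at he
      rw [pat, SimpleGraph.fromRel_adj] at he
      obtain ⟨hne, h⟩ := he
      rcases h with (⟨d, hd⟩ | h) | (⟨d, hd⟩ | h)
      · left; exact ⟨(x, d), by simp [f, hd]⟩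
      · right
        refine ⟨⟨x.val, by have := y.isLt; omega⟩, ?_⟩
        simp only [g]
        rw [show (⟨x.val + 1, _⟩ : Fin n) = y from Fin.ext h]
      · left; exact ⟨(y, d), by simp [f, hd, Sym2.eq_swap]⟩
      · right
        refine ⟨⟨y.val, by have := x.isLt; omega⟩, ?_⟩
        simp only [g]
        rw [Sym2.eq_swap, show (⟨y.val + 1, _⟩ : Fin n) = x from Fin.ext h]
  calc (pat b).edgeSet.ncard ≤ (Set.range f ∪ Set.range g).ncard :=
        Set.ncard_le_ncard hsub (Set.toFinite _)
    _ ≤ (Set.range f).ncard + (Set.range g).ncard := Set.ncard_union_le _ _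
    _ ≤ n * D + (n - 1) := by
        apply Nat.add_le_add
        · rw [← Set.image_univ]
          refine (Set.ncard_image_le (Set.toFinite _)).trans ?_
          rw [Set.ncard_univ, Nat.card_eq_fintype_card]
          simp
        · rw [← Set.image_univ]
          refine (Set.ncard_image_le (Set.toFinite _)).trans ?_
          rw [Set.ncard_univ, Nat.card_eq_fintype_card]
          simp

/-- The pattern graph with `k` additional disjoint edges. -/
def ext {n : ℕ} (H : SimpleGraph (Fin n)) (k : ℕ) : SimpleGraph (Fin n ⊕ (Fin k ⊕ Fin k)) where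
  Adj := fun u v => match u, v with
    | Sum.inl x, Sum.inl y => H.Adj x y
    | Sum.inr (Sum.inl i), Sum.inr (Sum.inr j) => i = j
    | Sum.inr (Sum.inr i), Sum.inr (Sum.inl j) => i = j
    | _, _ => False
  symm := ⟨by
    rintro (x | x | x) (y | y | y) h <;> simp_all
    exact h.symm⟩
  loopless := ⟨by
    rintro (x | x | x) h <;> simp_all⟩

theorem ext_edges {n : ℕ} (H : SimpleGraph (Fin n)) (k : ℕ) :
    (ext H k).edgeSet.ncard = H.edgeSet.ncard + k := by
  classical
  have heq : (ext H k).edgeSet = (Sym2.map Sum.inl '' H.edgeSet) ∪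
      Set.range (fun i : Fin k => (s(Sum.inr (Sum.inl i), Sum.inr (Sum.inr i)) :
        Sym2 (Fin n ⊕ (Fin k ⊕ Fin k)))) := by
    ext e
    induction e using Sym2.ind with
    | _ x y =>
      rw [SimpleGraph.mem_edgeSet]
      constructor
      · intro h
        rcases x with x | x | x <;> rcases y with y | y | y <;> simp only [ext] at h
        · left; exact ⟨s(x, y), by simpa using h, by simp⟩
        · right; exact ⟨x, by simp [h]⟩
        · right; exact ⟨x, by simp [h, Sym2.eq_swap]⟩
      · rintro (⟨e, he, h⟩ | ⟨i, hi⟩)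
        · induction e using Sym2.ind with
          | _ a c =>
            rw [Sym2.map_mk, Sym2.eq_iff] at h
            rcases h with ⟨rfl, rfl⟩ | ⟨rfl, rfl⟩
            · simpa [ext] using he
            · simpa [ext] using he.symm
        · simp only [Sym2.eq_iff] at hi
          rcases hi with ⟨rfl, rfl⟩ | ⟨rfl, rfl⟩ <;> simp [ext]
  rw [heq, Set.ncard_union_eq ?_ (Set.toFinite _) (Set.toFinite _)]
  · rw [Set.ncard_image_of_injective _ (Sym2.map.injective Sum.inl_injective)]
    congr 1
    rw [← Set.image_univ, Set.ncard_image_of_injective, Set.ncard_univ, Nat.card_eq_fintype_card]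
    · simp
    · intro i j h
      simpa using h
  · rw [Set.disjoint_left]
    rintro e ⟨e', _, rfl⟩ ⟨i, hi⟩
    induction e' using Sym2.ind with
    | _ a c => simp at hi

end Pool.Agent.Lib.MP_1f2a9f_co.Low1

namespace Pool.Agent.Lib.MP_1f2a9f_co

open Finset Low1

theorem hosted (m n D N : ℕ) (hn : 2 ≤ n) (hnm : n * D + (n - 1) ≤ m) (G : SimpleGraph (Fin N))
    (hG : Univ m G) (b : Fin n → Fin D → Fin n) :
    ∃ φ : Fin n → Fin N, Function.Injective φ ∧
      (∀ i d, φ i = φ (b i d) ∨ G.Adj (φ i) (φ (b i d))) ∧ ∀ i, ∃ w, G.Adj (φ i) w := by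
  classical
  have he0 : (pat b).edgeSet.ncard ≤ m := (pat_edges b).trans hnm
  obtain ⟨k, hk⟩ := Nat.exists_eq_add_of_le he0
  have hpat : ∀ v, ∃ w, (pat b).Adj v w := by
    intro v
    by_cases hv : v.val + 1 < n
    · refine ⟨⟨v.val + 1, hv⟩, ?_⟩
      rw [pat, SimpleGraph.fromRel_adj]
      refine ⟨?_, Or.inl (Or.inr rfl)⟩
      intro h
      have := congrArg Fin.val h
      simp at this
    · refine ⟨⟨v.val - 1, by omega⟩, ?_⟩
      rw [pat, SimpleGraph.fromRel_adj]
      refine ⟨?_, Or.inr (Or.inr ?_)⟩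
      · intro h
        have := congrArg Fin.val h
        simp at this
        omega
      · show v.val - 1 + 1 = v.val
        omega
  set X := ext (pat b) k with hX
  let eq : (Fin n ⊕ (Fin k ⊕ Fin k)) ≃ Fin (Fintype.card (Fin n ⊕ (Fin k ⊕ Fin k))) :=
    Fintype.equivFin _
  let Y : SimpleGraph (Fin (Fintype.card (Fin n ⊕ (Fin k ⊕ Fin k)))) := X.map eq.toEmbedding
  let iso : X ≃g Y := SimpleGraph.Iso.map eq X
  have hYe : Y.edgeSet.ncard = m := by
    have h1 : Y.edgeSet.ncard = X.edgeSet.ncard := by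
      rw [Set.ncard_def, Set.ncard_def]
      exact (congrArg ENat.toNat (Set.encard_congr iso.mapEdgeSet)).symm
    rw [h1, hX, ext_edges, ← hk]
  have hXi : ∀ v, ∃ w, X.Adj v w := by
    rintro (v | v | v)
    · obtain ⟨w, hw⟩ := hpat v
      exact ⟨Sum.inl w, hw⟩
    · exact ⟨Sum.inr (Sum.inr v), by simp [hX, Low1.ext]⟩
    · exact ⟨Sum.inr (Sum.inl v), by simp [hX, Low1.ext]⟩
  have hYi : ∀ v, ∃ w, Y.Adj v w := by
    intro v
    obtain ⟨w, hw⟩ := hXi (iso.symm v)
    refine ⟨iso w, ?_⟩
    have := iso.map_adj_iff.2 hw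
    simpa using this
  obtain ⟨f⟩ := hG _ Y hYe hYi
  refine ⟨fun i => f (iso (Sum.inl i)), ?_, ?_, ?_⟩
  · intro i j h
    have h1 := f.injective h
    have h2 := iso.injective h1
    exact Sum.inl_injective h2
  · intro i d
    by_cases h : b i d = i
    · left; rw [h]
    · right
      apply f.toHom.map_adj
      apply iso.map_adj_iff.2
      show (pat b).Adj i (b i d)
      rw [pat, SimpleGraph.fromRel_adj]
      exact ⟨fun h' => h h'.symm, Or.inl (Or.inl ⟨d, rfl⟩)⟩
  · intro i
    obtain ⟨w, hw⟩ := hXi (Sum.inl i)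
    exact ⟨f (iso w), f.toHom.map_adj (iso.map_adj_iff.2 hw)⟩

end Pool.Agent.Lib.MP_1f2a9f_co
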