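import Pool.Agent.Lib.MP_1f2a9f_co.Defs

/-!
# MP_1f2a9f_co, module L2: some vertex set of size `n` hosts many `b`
-/

namespace Pool.Agent.Lib.MP_1f2a9f_co

open Finset

namespace Low2

open Classical in
/-- The number of injective maps `Fin n → Fin N` with image `S`. -/
theorem card_inj (n N : ℕ) (S : Finset (Fin N)) (hS : S.card = n) :
    ((univ : Finset (Fin n → Fin N)).filter
      (fun f => Function.Injective f ∧ image f univ = S)).card = n.factorial := by
  have e0 : Fintype.card (Fin n ≃ S) = n.factorial := by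
    rw [Fintype.card_equiv (Fintype.equivOfCardEq (by simp [hS]))]
    simp
  rw [← e0, ← Finset.card_univ]
  symm
  refine Finset.card_bij (fun (e : Fin n ≃ S) _ => fun i => (e i : Fin N)) ?_ ?_ ?_
  · intro e _
    simp only [mem_filter, mem_univ, true_and]
    constructor
    · intro i j hij
      exact e.injective (Subtype.ext hij)
    · ext x
      simp only [mem_image, mem_univ, true_and]
      constructor
      · rintro ⟨i, rfl⟩; exact (e i).2
      · intro hx
        exact ⟨e.symm ⟨x, hx⟩, by simp⟩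
  · intro e _ e' _ h
    ext i
    exact congrFun h i ▸ rfl
  · intro f hf
    simp only [mem_filter, mem_univ, true_and] at hf
    obtain ⟨hinj, him⟩ := hf
    have hmem : ∀ i, f i ∈ S := fun i => by rw [← him]; exact mem_image_of_mem _ (mem_univ _)
    let g : Fin n → S := fun i => ⟨f i, hmem i⟩
    have hg : Function.Bijective g := by
      rw [Fintype.bijective_iff_injective_and_card]
      refine ⟨fun i j h => hinj (congrArg Subtype.val h), by simp [hS]⟩
    exact ⟨Equiv.ofBijective g hg, mem_univ _, rfl⟩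

open Classical in
theorem prod_inj {n N : ℕ} (f : Fin n → Fin N) (hf : Function.Injective f) (g : Fin N → ℝ) :
    ∏ i, g (f i) = ∏ v ∈ image f univ, g v := by
  rw [Finset.prod_image]
  intro i _ j _ h
  exact hf h

open Classical in
/-- `n! ∑_{|S|=n} ∏_{v ∈ S} g v ≤ (∑ g)^n`. -/
theorem esymm_le (n N : ℕ) (g : Fin N → ℝ) (hg : ∀ v, 0 ≤ g v) :
    (n.factorial : ℝ) * ∑ S ∈ powersetCard n (univ : Finset (Fin N)), ∏ v ∈ S, g v ≤
      (∑ v, g v) ^ n := by
  have h1 : (∑ v, g v) ^ n = ∑ f : Fin n → Fin N, ∏ i, g (f i) := by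
    rw [Fintype.sum_pow]
  rw [h1]
  have h2 : ∑ f ∈ (univ : Finset (Fin n → Fin N)).filter (fun f => Function.Injective f),
      ∏ i, g (f i) ≤ ∑ f : Fin n → Fin N, ∏ i, g (f i) :=
    Finset.sum_le_sum_of_subset_of_nonneg (filter_subset _ _)
      (fun f _ _ => Finset.prod_nonneg fun i _ => hg _)
  refine le_trans (le_of_eq ?_) h2
  rw [← Finset.sum_fiberwise_of_maps_to (s := (univ : Finset (Fin n → Fin N)).filter
    (fun f => Function.Injective f)) (t := powersetCard n (univ : Finset (Fin N)))
    (g := fun f => image f univ)]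
  · rw [Finset.mul_sum]
    refine Finset.sum_congr rfl fun S hS => ?_
    have hS' : S.card = n := (mem_powersetCard.mp hS).2
    rw [filter_filter]
    have : ∀ f ∈ (univ : Finset (Fin n → Fin N)).filter
        (fun f => Function.Injective f ∧ image f univ = S), ∏ i, g (f i) = ∏ v ∈ S, g v := by
      intro f hf
      simp only [mem_filter, mem_univ, true_and] at hf
      rw [prod_inj f hf.1, hf.2]
    rw [Finset.sum_congr rfl this, Finset.sum_const, card_inj n N S hS', nsmul_eq_mul]
  · intro f hf
    simp only [mem_filter, mem_univ, true_and] at hf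
    rw [mem_powersetCard]
    exact ⟨subset_univ _, by rw [Finset.card_image_of_injective _ hf, card_univ, Fintype.card_fin]⟩

open Classical in
/-- The weight of a vertex. -/
noncomputable def gw {N : ℕ} (n : ℕ) (G : SimpleGraph (Fin N)) (v : Fin N) : ℝ :=
  min 1 (2 * (G.degree v : ℝ) / n)

theorem gw_nonneg {N : ℕ} (n : ℕ) (G : SimpleGraph (Fin N)) (v : Fin N) : 0 ≤ gw n G v := by
  unfold gw
  exact le_min zero_le_one (by positivity)

theorem sum_gw {N : ℕ} (n E : ℕ) (hn : 1 ≤ n) (G : SimpleGraph (Fin N))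
    (hE : G.edgeSet.ncard ≤ E) : ∑ v, gw n G v ≤ 4 * (E : ℝ) / n := by
  classical
  have h1 : ∑ v, gw n G v ≤ ∑ v, 2 * (G.degree v : ℝ) / n :=
    Finset.sum_le_sum fun v _ => min_le_right _ _
  refine h1.trans ?_
  have h2 : ∑ v, 2 * (G.degree v : ℝ) / n = 2 * (∑ v, (G.degree v : ℝ)) / n := by
    rw [Finset.mul_sum, Finset.sum_div]
  rw [h2]
  have h3 : (∑ v, (G.degree v : ℝ)) = 2 * (G.edgeFinset.card : ℝ) := by
    have := G.sum_degrees_eq_twice_card_edges
    exact_mod_cast this
  rw [h3]
  have h4 : G.edgeFinset.card = G.edgeSet.ncard := by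
    rw [Set.ncard_eq_toFinset_card']
    rfl
  have hnpos : (0 : ℝ) < n := by exact_mod_cast hn
  have h5 : (G.edgeFinset.card : ℝ) ≤ E := by rw [h4]; exact_mod_cast hE
  apply div_le_div_of_nonneg_right _ hnpos.le
  linarith

open Classical in
/-- Number of `b` hosted by a fixed injection. -/
theorem card_hosted {n D N : ℕ} (hn : 1 ≤ n) (G : SimpleGraph (Fin N)) (φ : Fin n → Fin N)
    (hφ : Function.Injective φ) (hiso : ∀ i, ∃ w, G.Adj (φ i) w) :
    (((univ : Finset (Fin n → Fin D → Fin n)).filter
      (fun b => ∀ i d, φ i = φ (b i d) ∨ G.Adj (φ i) (φ (b i d)))).card : ℝ) ≤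
      (n : ℝ) ^ (n * D) * (∏ v ∈ image φ univ, gw n G v) ^ D := by
  have hnpos : (0 : ℝ) < n := by exact_mod_cast hn
  have h1 : ((univ : Finset (Fin n → Fin D → Fin n)).filter
      (fun b => ∀ i d, φ i = φ (b i d) ∨ G.Adj (φ i) (φ (b i d)))) =
      Fintype.piFinset (fun i : Fin n => Fintype.piFinset (fun _ : Fin D =>
        (univ : Finset (Fin n)).filter (fun j => φ i = φ j ∨ G.Adj (φ i) (φ j)))) := by
    ext b
    simp only [mem_filter, mem_univ, true_and, Fintype.mem_piFinset]
  rw [h1, Fintype.card_piFinset]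
  simp only [Fintype.card_piFinset, Finset.prod_const, card_univ, Fintype.card_fin]
  push_cast
  have h2 : ∀ i : Fin n, (((univ : Finset (Fin n)).filter
      (fun j => φ i = φ j ∨ G.Adj (φ i) (φ j))).card : ℝ) ≤ n * gw n G (φ i) := by
    intro i
    unfold gw
    rw [mul_min_of_nonneg _ _ hnpos.le]
    apply le_min
    · rw [mul_one]
      have := Finset.card_filter_le (univ : Finset (Fin n)) (fun j => φ i = φ j ∨ G.Adj (φ i) (φ j))
      rw [card_univ, Fintype.card_fin] at this
      exact_mod_cast this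
    · have hdeg : 1 ≤ G.degree (φ i) := by
        obtain ⟨w, hw⟩ := hiso i
        rw [Nat.succ_le_iff, SimpleGraph.degree_pos_iff_exists_adj]
        exact ⟨w, hw⟩
      have hcard : ((univ : Finset (Fin n)).filter
          (fun j => φ i = φ j ∨ G.Adj (φ i) (φ j))).card ≤ G.degree (φ i) + 1 := by
        have : ((univ : Finset (Fin n)).filter
          (fun j => φ i = φ j ∨ G.Adj (φ i) (φ j))).card =
          (image φ ((univ : Finset (Fin n)).filter
          (fun j => φ i = φ j ∨ G.Adj (φ i) (φ j)))).card := by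
          rw [Finset.card_image_of_injective _ hφ]
        rw [this]
        refine le_trans (Finset.card_le_card (t := insert (φ i) (G.neighborFinset (φ i))) ?_) ?_
        · intro v hv
          rw [mem_image] at hv
          obtain ⟨j, hj, rfl⟩ := hv
          simp only [mem_filter, mem_univ, true_and] at hj
          rw [mem_insert, SimpleGraph.mem_neighborFinset]
          rcases hj with h | h
          · exact Or.inl h.symm
          · exact Or.inr h
        · refine le_trans (Finset.card_insert_le _ _) ?_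
          rw [SimpleGraph.card_neighborFinset_eq_degree]
      have h3 : (((univ : Finset (Fin n)).filter
          (fun j => φ i = φ j ∨ G.Adj (φ i) (φ j))).card : ℝ) ≤ 2 * G.degree (φ i) := by
        have : ((univ : Finset (Fin n)).filter
          (fun j => φ i = φ j ∨ G.Adj (φ i) (φ j))).card ≤ 2 * G.degree (φ i) := by omega
        exact_mod_cast this
      calc _ ≤ 2 * (G.degree (φ i) : ℝ) := h3
        _ = n * (2 * (G.degree (φ i) : ℝ) / n) := by field_simp
  calc ∏ i : Fin n, (((univ : Finset (Fin n)).filter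
        (fun j => φ i = φ j ∨ G.Adj (φ i) (φ j))).card : ℝ) ^ D
      ≤ ∏ i : Fin n, (n * gw n G (φ i)) ^ D := by
        apply Finset.prod_le_prod
        · intro i _; positivity
        · intro i _; exact pow_le_pow_left₀ (by positivity) (h2 i) D
    _ = (n : ℝ) ^ (n * D) * (∏ v ∈ image φ univ, gw n G v) ^ D := by
        rw [← prod_inj φ hφ (gw n G), Finset.prod_pow, Finset.prod_mul_distrib, Finset.prod_const,
          card_univ, Fintype.card_fin, mul_pow, ← pow_mul]

end Low2

theorem exists_image (n D N E : ℕ) (hn : 1 ≤ n) (hD : 2 ≤ D) (G : SimpleGraph (Fin N))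
    (hE : G.edgeSet.ncard ≤ E) (hE0 : 0 < E)
    (hG : ∀ b : Fin n → Fin D → Fin n, ∃ φ : Fin n → Fin N, Function.Injective φ ∧
      (∀ i d, φ i = φ (b i d) ∨ G.Adj (φ i) (φ (b i d))) ∧ ∀ i, ∃ w, G.Adj (φ i) w)
    (κ : ℝ) (hκ : 0 < κ)
    (hnum : (4 * (E : ℝ) / n) ^ n * Real.exp (-(κ * n * (D - 1))) ≤ 1 / 2) :
    ∃ S : Finset (Fin N), S.card = n ∧
      (n : ℝ) ^ (n * D) * (1 / 2 * Real.exp (-(κ * n)) * (n.factorial / (4 * (E : ℝ) / n) ^ n)) ≤
      ({b : Fin n → Fin D → Fin n | ∃ φ : Fin n → Fin N, Function.Injective φ ∧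
        Finset.image φ univ = S ∧ ∀ i d, φ i = φ (b i d) ∨ G.Adj (φ i) (φ (b i d))}.ncard : ℝ) := by
  classical
  have hnpos : (0 : ℝ) < n := by exact_mod_cast hn
  have hEpos : (0 : ℝ) < E := by exact_mod_cast hE0
  set X : ℝ := 4 * (E : ℝ) / n with hX
  have hXpos : 0 < X := by positivity
  have hfpos : (0 : ℝ) < n.factorial := by exact_mod_cast n.factorial_pos
  set T : ℝ := (n : ℝ) ^ (n * D) with hT
  have hTpos : 0 < T := by positivity
  choose Φ hΦ1 hΦ2 hΦ3 using hG
  -- the fibres
  let F : Finset (Fin N) → Finset (Fin n → Fin D → Fin n) := fun S =>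
    (univ : Finset (Fin n → Fin D → Fin n)).filter (fun b => image (Φ b) univ = S)
  let c : Finset (Fin N) → ℝ := fun S => ((F S).card : ℝ)
  let P : Finset (Fin N) → ℝ := fun S => ∏ v ∈ S, Low2.gw n G v
  have hP0 : ∀ S, 0 ≤ P S := fun S => Finset.prod_nonneg fun v _ => Low2.gw_nonneg n G v
  let A : Finset (Finset (Fin N)) := powersetCard n (univ : Finset (Fin N))
  have hA : ∀ S ∈ A, S.card = n := fun S hS => (mem_powersetCard.mp hS).2
  -- total mass
  have htot : ∑ S ∈ A, c S = T := by
    have h1 : (univ : Finset (Fin n → Fin D → Fin n)).card = ∑ S ∈ A, (F S).card := by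
      apply Finset.card_eq_sum_card_fiberwise
      intro b _
      have : (image (Φ b) univ).card = n := by
        rw [Finset.card_image_of_injective _ (hΦ1 b), card_univ, Fintype.card_fin]
      exact mem_coe.mpr (mem_powersetCard.mpr ⟨subset_univ _, this⟩)
    have h2 : (univ : Finset (Fin n → Fin D → Fin n)).card = n ^ (n * D) := by
      rw [card_univ, Fintype.card_fun, Fintype.card_fun, Fintype.card_fin, Fintype.card_fin,
        ← pow_mul, mul_comm]
    rw [h2] at h1
    have h3 : (∑ S ∈ A, c S) = ((n ^ (n * D) : ℕ) : ℝ) := by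
      rw [h1]; push_cast; rfl
    rw [h3, hT]; push_cast; rfl
  -- weight of the product
  have hPsum : ∑ S ∈ A, P S ≤ X ^ n / n.factorial := by
    have h1 := Low2.esymm_le n N (Low2.gw n G) (Low2.gw_nonneg n G)
    have h2 : (∑ v, Low2.gw n G v) ^ n ≤ X ^ n :=
      pow_le_pow_left₀ (Finset.sum_nonneg fun v _ => Low2.gw_nonneg n G v)
        (Low2.sum_gw n E hn G hE) n
    rw [le_div_iff₀ hfpos, mul_comm]
    exact h1.trans h2
  -- the fibre bound
  have hfib : ∀ S ∈ A, c S ≤ n.factorial * (T * P S ^ D) := by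
    intro S hS
    have hsub : F S ⊆ ((univ : Finset (Fin n → Fin N)).filter
        (fun f => Function.Injective f ∧ image f univ = S)).biUnion (fun f =>
          if (∀ i, ∃ w, G.Adj (f i) w) then
            (univ : Finset (Fin n → Fin D → Fin n)).filter
              (fun b => ∀ i d, f i = f (b i d) ∨ G.Adj (f i) (f (b i d))) else ∅) := by
      intro b hb
      simp only [F, mem_filter, mem_univ, true_and] at hb
      rw [mem_biUnion]
      refine ⟨Φ b, by simp [hb, hΦ1 b], ?_⟩
      rw [if_pos (hΦ3 b)]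
      simp only [mem_filter, mem_univ, true_and]
      exact hΦ2 b
    have h1 : c S ≤ ∑ f ∈ (univ : Finset (Fin n → Fin N)).filter
        (fun f => Function.Injective f ∧ image f univ = S), T * P S ^ D := by
      have h2 : ((F S).card : ℝ) ≤ ∑ f ∈ (univ : Finset (Fin n → Fin N)).filter
        (fun f => Function.Injective f ∧ image f univ = S), ((if (∀ i, ∃ w, G.Adj (f i) w) then
            (univ : Finset (Fin n → Fin D → Fin n)).filter
              (fun b => ∀ i d, f i = f (b i d) ∨ G.Adj (f i) (f (b i d))) else ∅).card : ℝ) := by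
        have := (Finset.card_le_card hsub).trans Finset.card_biUnion_le
        exact_mod_cast this
      refine h2.trans (Finset.sum_le_sum ?_)
      intro f hf
      simp only [mem_filter, mem_univ, true_and] at hf
      by_cases hi : ∀ i, ∃ w, G.Adj (f i) w
      · rw [if_pos hi]
        have := Low2.card_hosted (D := D) hn G f hf.1 hi
        rw [hf.2] at this
        exact this
      · rw [if_neg hi]
        simp only [card_empty, Nat.cast_zero]
        have := hP0 S
        positivity
    rw [Finset.sum_const, Low2.card_inj n N S (hA S hS), nsmul_eq_mul] at h1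
    exact h1
  -- heavy and light sets
  set q : ℝ := Real.exp (-(κ * n)) with hq
  have hqpos : 0 < q := Real.exp_pos _
  let Hv := A.filter (fun S => q ≤ P S)
  have hlight : ∑ S ∈ A.filter (fun S => ¬ q ≤ P S), c S ≤ T / 2 := by
    have h1 : ∀ S ∈ A.filter (fun S => ¬ q ≤ P S),
        c S ≤ n.factorial * T * q ^ (D - 1) * P S := by
      intro S hS
      rw [mem_filter, not_le] at hS
      refine (hfib S hS.1).trans ?_
      have h2 : P S ^ D = P S ^ (D - 1) * P S := by
        rw [← pow_succ]; congr 1; omega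
      rw [h2]
      have h3 : P S ^ (D - 1) ≤ q ^ (D - 1) := pow_le_pow_left₀ (hP0 S) hS.2.le _
      have h4 : P S ^ (D - 1) * P S ≤ q ^ (D - 1) * P S :=
        mul_le_mul_of_nonneg_right h3 (hP0 S)
      calc (n.factorial : ℝ) * (T * (P S ^ (D - 1) * P S))
          ≤ n.factorial * (T * (q ^ (D - 1) * P S)) := by gcongr
        _ = n.factorial * T * q ^ (D - 1) * P S := by ring
    refine (Finset.sum_le_sum h1).trans ?_
    rw [← Finset.mul_sum]
    have h5 : ∑ S ∈ A.filter (fun S => ¬ q ≤ P S), P S ≤ X ^ n / n.factorial :=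
      (Finset.sum_le_sum_of_subset_of_nonneg (filter_subset _ _) (fun S _ _ => hP0 S)).trans hPsum
    have h6 : q ^ (D - 1) = Real.exp (-(κ * n * (D - 1))) := by
      rw [hq, ← Real.exp_nat_mul]
      congr 1
      rw [Nat.cast_sub (by omega)]
      push_cast
      ring
    calc (n.factorial : ℝ) * T * q ^ (D - 1) * ∑ S ∈ A.filter (fun S => ¬ q ≤ P S), P S
        ≤ n.factorial * T * q ^ (D - 1) * (X ^ n / n.factorial) := by gcongr
      _ = T * (X ^ n * q ^ (D - 1)) := by field_simp
      _ ≤ T * (1 / 2) := by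
          rw [h6]
          exact mul_le_mul_of_nonneg_left hnum hTpos.le
      _ = T / 2 := by ring
  have hheavy : T / 2 ≤ ∑ S ∈ Hv, c S := by
    have := Finset.sum_filter_add_sum_filter_not A (fun S => q ≤ P S) c
    rw [htot] at this
    have h2 : ∑ S ∈ Hv, c S = T - ∑ S ∈ A.filter (fun S => ¬ q ≤ P S), c S := by
      rw [← this]; ring
    rw [h2]; linarith
  have hcardHv : (Hv.card : ℝ) * q ≤ X ^ n / n.factorial := by
    have h1 : (Hv.card : ℝ) * q ≤ ∑ S ∈ Hv, P S := by
      rw [← nsmul_eq_mul]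
      apply Finset.card_nsmul_le_sum
      intro S hS
      exact (mem_filter.mp hS).2
    exact h1.trans ((Finset.sum_le_sum_of_subset_of_nonneg (filter_subset _ _)
      (fun S _ _ => hP0 S)).trans hPsum)
  -- pigeonhole
  set M : ℝ := T * (1 / 2 * q * (n.factorial / X ^ n)) with hM
  have hex : ∃ S ∈ Hv, M ≤ c S := by
    by_contra hcon
    push Not at hcon
    have hne : Hv.Nonempty := by
      by_contra h
      rw [Finset.not_nonempty_iff_eq_empty] at h
      rw [h] at hheavy
      simp at hheavy
      linarith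
    have h1 : ∑ S ∈ Hv, c S < ∑ S ∈ Hv, M := Finset.sum_lt_sum_of_nonempty hne hcon
    rw [Finset.sum_const, nsmul_eq_mul] at h1
    have h2 : (Hv.card : ℝ) * M = T / 2 * ((Hv.card : ℝ) * q * (n.factorial / X ^ n)) := by
      rw [hM]; ring
    have h3 : (Hv.card : ℝ) * q * (n.factorial / X ^ n) ≤ 1 := by
      calc (Hv.card : ℝ) * q * (n.factorial / X ^ n)
          ≤ (X ^ n / n.factorial) * (n.factorial / X ^ n) := by gcongr
        _ = 1 := by field_simp
    have h4 : (Hv.card : ℝ) * M ≤ T / 2 := by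
      rw [h2]
      nlinarith
    linarith
  obtain ⟨S, hS, hMS⟩ := hex
  refine ⟨S, hA S (mem_filter.mp hS).1, hMS.trans ?_⟩
  have hsub : (↑(F S) : Set (Fin n → Fin D → Fin n)) ⊆
      {b : Fin n → Fin D → Fin n | ∃ φ : Fin n → Fin N, Function.Injective φ ∧
        Finset.image φ univ = S ∧ ∀ i d, φ i = φ (b i d) ∨ G.Adj (φ i) (φ (b i d))} := by
    intro b hb
    simp only [F, coe_filter, mem_univ, true_and, Set.mem_ofPred_eq] at hb
    exact ⟨Φ b, hΦ1 b, hb, hΦ2 b⟩
  have h1 := Set.ncard_le_ncard hsub (Set.toFinite _)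
  rw [Set.ncard_coe_finset] at h1
  change ((F S).card : ℝ) ≤ _
  exact_mod_cast h1

end Pool.Agent.Lib.MP_1f2a9f_co
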