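import Pool.Agent.Lib.MP_1f2a9f_co.Defs

/-! MP_1f2a9f_co, module POT (helper9): minimal valid potentials. -/

namespace Pool.Agent.Lib.MP_1f2a9f_co

open Finset

namespace Pot

theorem bet_add (K a c : ℕ) : bet K a c + bet K c a = 2 * K := by
  unfold bet; omega

theorem bet_anti (K a : ℕ) {c c' : ℕ} (h : c' ≤ c) : bet K a c ≤ bet K a c' := by
  unfold bet; omega

theorem bet_step (K a c : ℕ) : bet K a c ≤ bet K (a - 1) c + 1 := by
  unfold bet; omega

theorem bet_pos {K a c : ℕ} (h : bet K a c ≠ 0) : c < K + a := by
  unfold bet at h; omega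

/-- symmetrisation of a double sum -/
theorem symm_sum {V : Type} [DecidableEq V] (H : SimpleGraph V) [DecidableRel H.Adj]
    (U : Finset V) (g : V → V → ℝ) :
    ∑ v ∈ U, ∑ u ∈ U.filter (fun u => H.Adj v u), g v u =
      ∑ v ∈ U, ∑ u ∈ U.filter (fun u => H.Adj v u), g u v := by
  simp_rw [Finset.sum_filter]
  rw [Finset.sum_comm]
  refine Finset.sum_congr rfl fun v _ => Finset.sum_congr rfl fun u _ => ?_
  simp only [H.adj_comm]

end Pot

open Pot in
theorem potentials {V : Type} [Fintype V] [DecidableEq V] (H : SimpleGraph V)
    [DecidableRel H.Adj] (w : V → V → ℝ) (hw : ∀ u v, w u v = w v u) (hw0 : ∀ u v, 0 ≤ w u v)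
    (L : ℝ) (hL : 0 < L) (ε : ℝ) (hε : 0 < ε) (K : ℕ) (hK : 0 < K) (r : ℕ)
    (hdeg : ∀ v, ∑ u ∈ H.neighborFinset v, w v u ≤ 2 * K * ε * L)
    (hdens : ∀ U : Finset V, ∑ u ∈ U, ∑ v ∈ U.filter (fun v => H.Adj u v), w u v ≤
      2 * L * U.card) :
    ∃ (y : V → ℕ) (Bad : Finset V),
      (∀ v, y v ≤ r * K) ∧
      (∀ v, v ∉ Bad → ∑ u ∈ H.neighborFinset v, (bet K (y v) (y u) : ℝ) / (2 * K) * w v u ≤
        (1 + 2 * ε) * L) ∧
      (Bad.card : ℝ) * (1 + ε) ^ r ≤ Fintype.card V := by
  classical
  have hK' : (0 : ℝ) < K := by exact_mod_cast hK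
  set load : (V → ℕ) → V → ℝ := fun y v =>
    ∑ u ∈ H.neighborFinset v, (bet K (y v) (y u) : ℝ) / (2 * K) * w v u with hload
  set valid : (V → ℕ) → Prop := fun y => ∀ v, y v ≤ r * K ∧ (y v < r * K → (1 + ε) * L ≤ load y v)
    with hvalid
  have hex : ∃ n : ℕ, ∃ y, valid y ∧ ∑ v, y v = n :=
    ⟨_, fun _ => r * K, fun v => ⟨le_rfl, fun h => absurd h (lt_irrefl _)⟩, rfl⟩
  obtain ⟨y, hy, hsum⟩ := Nat.find_spec hex
  have hmin : ∀ y', valid y' → ∑ v, y v ≤ ∑ v, y' v := by
    intro y' hy'
    rw [hsum]
    exact Nat.find_min' hex ⟨y', hy', rfl⟩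
  refine ⟨y, univ.filter (fun v => y v = 0), fun v => (hy v).1, ?_, ?_⟩
  · intro v hv
    have hv0 : y v ≠ 0 := by simpa using hv
    by_contra hcon
    push Not at hcon
    have hcon' : (1 + 2 * ε) * L < load y v := hcon
    set y' : V → ℕ := Function.update y v (y v - 1) with hy'
    have hle : ∀ u, y' u ≤ y u := by
      intro u
      by_cases h : u = v
      · subst h; simp [hy']
      · simp [hy', h]
    have hval : valid y' := by
      intro u
      refine ⟨(hle u).trans (hy u).1, fun hu => ?_⟩
      by_cases h : u = v
      · subst h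
        have h1 : load y u - ε * L ≤ load y' u := by
          have h2 : load y u ≤ load y' u + (∑ x ∈ H.neighborFinset u, w u x) / (2 * K) := by
            simp only [hload]
            rw [Finset.sum_div, ← Finset.sum_add_distrib]
            refine Finset.sum_le_sum fun x hx => ?_
            have hxu : x ≠ u := by
              rintro rfl
              simp at hx
            have e1 : y' u = y u - 1 := by simp [hy']
            have e2 : y' x = y x := by simp [hy', hxu]
            rw [e1, e2]
            have h3 : (bet K (y u) (y x) : ℝ) ≤ bet K (y u - 1) (y x) + 1 := by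
              exact_mod_cast bet_step K (y u) (y x)
            have h4 : (bet K (y u) (y x) : ℝ) / (2 * K) * w u x ≤
                (bet K (y u - 1) (y x) + 1 : ℝ) / (2 * K) * w u x :=
              mul_le_mul_of_nonneg_right (div_le_div_of_nonneg_right h3 (by positivity)) (hw0 u x)
            calc _ ≤ _ := h4
              _ = _ := by ring
          have h3 : (∑ x ∈ H.neighborFinset u, w u x) / (2 * K) ≤ ε * L := by
            rw [div_le_iff₀ (by positivity)]
            calc _ ≤ _ := hdeg u
              _ = _ := by ring
          linarith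
        nlinarith
      · have e1 : y' u = y u := by simp [hy', h]
        have h1 : load y u ≤ load y' u := by
          simp only [hload]
          refine Finset.sum_le_sum fun x _ => ?_
          rw [e1]
          have : (bet K (y u) (y x) : ℝ) ≤ bet K (y u) (y' x) := by
            exact_mod_cast bet_anti K (y u) (hle x)
          exact mul_le_mul_of_nonneg_right (div_le_div_of_nonneg_right this (by positivity))
            (hw0 u x)
        exact ((hy u).2 (by rw [← e1]; exact hu)).trans h1
    have hlt : ∑ u, y' u < ∑ u, y u :=
      Finset.sum_lt_sum (fun u _ => hle u) ⟨v, Finset.mem_univ v, by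
        simp only [hy', Function.update_self]; omega⟩
    exact absurd (hmin y' hval) (not_le.mpr hlt)
  · set U : ℕ → Finset V := fun i => univ.filter (fun v => y v ≤ i * K) with hU
    have hstep : ∀ i, i < r → (1 + ε) * ((U i).card : ℝ) ≤ (U (i + 1)).card := by
      intro i hi
      have hsub : U i ⊆ U (i + 1) := by
        intro v hv
        simp only [hU, mem_filter, mem_univ, true_and] at hv ⊢
        exact hv.trans (Nat.mul_le_mul_right K (Nat.le_succ i))
      set g : V → V → ℝ := fun v u => (bet K (y v) (y u) : ℝ) / (2 * K) * w v u with hg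
      have hg0 : ∀ v u, 0 ≤ g v u := fun v u => mul_nonneg (by positivity) (hw0 v u)
      have h1 : (1 + ε) * L * (U i).card ≤ ∑ v ∈ U i, load y v := by
        have : ∑ _v ∈ U i, (1 + ε) * L ≤ ∑ v ∈ U i, load y v := by
          refine Finset.sum_le_sum fun v hv => (hy v).2 ?_
          simp only [hU, mem_filter, mem_univ, true_and] at hv
          exact hv.trans_lt (Nat.mul_lt_mul_of_pos_right hi hK)
        rw [Finset.sum_const, nsmul_eq_mul] at this
        linarith
      have h2 : ∑ v ∈ U i, load y v ≤
          ∑ v ∈ U (i + 1), ∑ u ∈ (U (i + 1)).filter (fun u => H.Adj v u), g v u := by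
        calc ∑ v ∈ U i, load y v ≤
            ∑ v ∈ U i, ∑ u ∈ (U (i + 1)).filter (fun u => H.Adj v u), g v u := by
              refine Finset.sum_le_sum fun v hv => ?_
              refine le_of_eq ?_
              symm
              refine Finset.sum_subset ?_ ?_
              · intro u hu
                simpa using (mem_filter.mp hu).2
              · intro u hu hu2
                have hadj : H.Adj v u := by simpa using hu
                have hnot : ¬ y u ≤ (i + 1) * K := by
                  intro h
                  exact hu2 (mem_filter.mpr ⟨by simpa [hU] using h, hadj⟩)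
                have hv' : y v ≤ i * K := by simpa [hU] using hv
                have : bet K (y v) (y u) = 0 := by
                  by_contra h
                  have := bet_pos h
                  have e : (i + 1) * K = i * K + K := by ring
                  omega
                simp [hg, this]
          _ ≤ _ := Finset.sum_le_sum_of_subset_of_nonneg hsub
              fun v _ _ => Finset.sum_nonneg fun u _ => hg0 v u
      have h3 : ∑ v ∈ U (i + 1), ∑ u ∈ (U (i + 1)).filter (fun u => H.Adj v u), g v u =
          1 / 2 * ∑ v ∈ U (i + 1), ∑ u ∈ (U (i + 1)).filter (fun u => H.Adj v u), w v u := by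
        have h4 : ∑ v ∈ U (i + 1), ∑ u ∈ (U (i + 1)).filter (fun u => H.Adj v u), g v u +
            ∑ v ∈ U (i + 1), ∑ u ∈ (U (i + 1)).filter (fun u => H.Adj v u), g v u =
            ∑ v ∈ U (i + 1), ∑ u ∈ (U (i + 1)).filter (fun u => H.Adj v u), w v u := by
          nth_rewrite 2 [symm_sum H (U (i + 1)) g]
          rw [← Finset.sum_add_distrib]
          refine Finset.sum_congr rfl fun v _ => ?_
          rw [← Finset.sum_add_distrib]
          refine Finset.sum_congr rfl fun u _ => ?_
          simp only [hg]
          rw [hw u v]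
          have : (bet K (y v) (y u) : ℝ) + bet K (y u) (y v) = 2 * K := by
            exact_mod_cast bet_add K (y v) (y u)
          have h5 : (bet K (y v) (y u) : ℝ) / (2 * K) * w v u +
              (bet K (y u) (y v) : ℝ) / (2 * K) * w v u =
              (bet K (y v) (y u) + bet K (y u) (y v) : ℝ) / (2 * K) * w v u := by ring
          rw [h5, this, div_self (by positivity), one_mul]
        linarith
      have h4 := hdens (U (i + 1))
      have h5 : (1 + ε) * L * (U i).card ≤ L * (U (i + 1)).card := by
        calc _ ≤ _ := h1.trans (h2.trans h3.le)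
          _ ≤ 1 / 2 * (2 * L * (U (i + 1)).card) := by
              refine mul_le_mul_of_nonneg_left h4 (by norm_num)
          _ = _ := by ring
      have h6 : L * ((1 + ε) * ((U i).card : ℝ)) ≤ L * (U (i + 1)).card := by
        calc _ = _ := by ring
          _ ≤ _ := h5
      exact le_of_mul_le_mul_left h6 hL
    have hall : ∀ i, i ≤ r → ((U 0).card : ℝ) * (1 + ε) ^ i ≤ (U i).card := by
      intro i
      induction i with
      | zero => intro _; simp
      | succ i ih =>
        intro hi
        have := ih (by omega)
        calc ((U 0).card : ℝ) * (1 + ε) ^ (i + 1) = (1 + ε) * (((U 0).card : ℝ) * (1 + ε) ^ i) := by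
              ring
          _ ≤ (1 + ε) * (U i).card := mul_le_mul_of_nonneg_left this (by linarith)
          _ ≤ _ := hstep i (by omega)
    have h0 : univ.filter (fun v => y v = 0) = U 0 := by
      simp [hU]
    rw [h0]
    refine (hall r le_rfl).trans ?_
    exact_mod_cast Finset.card_le_univ _

end Pool.Agent.Lib.MP_1f2a9f_co
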