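import Pool.Agent.Lib.MP_1f2a9f_co.TopDefs
import Mathlib.Analysis.SpecialFunctions.Pow.Asymptotics

/-!
# NA: basic facts about the parameters for large `m`
-/

namespace Pool.Agent.Lib.MP_1f2a9f_co

open Finset

theorem num_basic {ε η χ Dc ε₁ : ℝ} {B K J r : ℕ} (hc : Consts ε η χ Dc ε₁ B K J r) :
    ∃ m0 : ℕ, ∀ m ≥ m0, 3 ≤ m ∧ 1 < Real.log m ∧ 0 < pb ε m ∧ 0 < pt ε m ∧ 0 < pq m ∧
      0 < pbg ε J m ∧ 0 < pgam ε m ∧ pgam ε m ≤ 1 / 2 ∧ 1 ≤ ptau ε m ∧ 0 < pgamg ε J m ∧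
      pgamg ε J m ≤ 1 / 2 ∧ 0 < ptaug ε J m ∧ Dc ≤ 2 * (Real.log m) ^ 2 ∧
      2 * (ε * χ) * (pDel Dc m : ℝ) ^ 2 / pq m ≤ ε₁ ∧
      (∀ i : ℕ, i < pI η m ↔ (2 : ℝ) ^ i < η * Real.log m) := by
  have hε := hc.hε
  have hε1 := hc.hε1
  have hη : 0 < η := by rw [hc.hη]; positivity
  have hχ : 0 < χ := by rw [hc.hχ]; positivity
  have hDc : 0 < Dc := by rw [hc.hDc]; positivity
  have hε₁ : 0 < ε₁ := by rw [hc.hε₁]; positivity
  have hJ : 0 < (J : ℝ) := by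
    have h1 := hc.hJ
    have h2 : 0 < 2 * ((K : ℝ) + 1) := by positivity
    have h3 : 0 < ε * (J : ℝ) := lt_of_lt_of_le h2 h1
    exact (pos_iff_pos_of_mul_pos h3).mp hε
  have hlog : Filter.Tendsto (fun m : ℕ => Real.log (m : ℝ)) Filter.atTop Filter.atTop :=
    Real.tendsto_log_atTop.comp tendsto_natCast_atTop_atTop
  have hz : ∀ c : ℝ, 0 < c →
      Filter.Tendsto (fun m : ℕ => (m : ℝ) ^ (-c)) Filter.atTop (nhds 0) := fun c h =>
    (tendsto_rpow_neg_atTop h).comp tendsto_natCast_atTop_atTop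
  have e1 : ∀ᶠ m : ℕ in Filter.atTop, pgam ε m ≤ 1 / 2 :=
    (hz (ε / 64) (by positivity)).eventually_le_const (by norm_num)
  have e2 : ∀ᶠ m : ℕ in Filter.atTop, pgamg ε J m ≤ 1 / 2 :=
    (hz (ε / (16 * J)) (by positivity)).eventually_le_const (by norm_num)
  have e3 : ∀ᶠ m : ℕ in Filter.atTop, max (max 1 Dc) (max (1 / η)
      (2 * (ε * χ) * (Dc + 1) ^ 2 / ε₁)) < Real.log m := hlog.eventually_gt_atTop _
  have e4 : ∀ᶠ m : ℕ in Filter.atTop, 3 ≤ m := Filter.eventually_ge_atTop 3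
  obtain ⟨m0, hm0⟩ := Filter.eventually_atTop.mp (e1.and (e2.and (e3.and e4)))
  refine ⟨m0, fun m hm => ?_⟩
  obtain ⟨h1, h2, h3, h4⟩ := hm0 m hm
  have hL1 : 1 < Real.log m := lt_of_le_of_lt ((le_max_left _ _).trans (le_max_left _ _)) h3
  have hLD : Dc < Real.log m := lt_of_le_of_lt ((le_max_right _ _).trans (le_max_left _ _)) h3
  have hLη : 1 / η < Real.log m := lt_of_le_of_lt ((le_max_left _ _).trans (le_max_right _ _)) h3
  have hLε : 2 * (ε * χ) * (Dc + 1) ^ 2 / ε₁ < Real.log m :=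
    lt_of_le_of_lt ((le_max_right _ _).trans (le_max_right _ _)) h3
  have hm1 : (1 : ℝ) ≤ m := by exact_mod_cast (by omega : 1 ≤ m)
  have hm0' : (0 : ℝ) < m := by linarith
  have hL0 : 0 < Real.log m := by linarith
  refine ⟨h4, hL1, ?_, ?_, ?_, ?_, ?_, h1, ?_, ?_, h2, ?_, ?_, ?_, ?_⟩
  · exact Nat.floor_pos.mpr (Real.one_le_rpow hm1 (by positivity))
  · exact Nat.floor_pos.mpr (Real.one_le_rpow hm1 (by linarith))
  · exact Nat.ceil_pos.mpr (by positivity)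
  · exact Nat.floor_pos.mpr (Real.one_le_rpow hm1 (div_nonneg (by linarith) hJ.le))
  · exact Real.rpow_pos_of_pos hm0' _
  · exact Real.one_le_rpow hm1 (by positivity)
  · exact Real.rpow_pos_of_pos hm0' _
  · exact Real.rpow_pos_of_pos hm0' _
  · nlinarith
  · have hq : (Real.log m) ^ 5 ≤ (pq m : ℝ) := Nat.le_ceil _
    have hq0 : 0 < (pq m : ℝ) := lt_of_lt_of_le (by positivity) hq
    have hd : (pDel Dc m : ℝ) ≤ (Dc + 1) * Real.log m := by
      have := (Nat.ceil_lt_add_one (show 0 ≤ Dc * Real.log m by positivity)).le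
      calc (pDel Dc m : ℝ) ≤ Dc * Real.log m + 1 := this
        _ ≤ (Dc + 1) * Real.log m := by linarith
    rw [div_le_iff₀ hq0]
    have h5 : 2 * (ε * χ) * (Dc + 1) ^ 2 ≤ Real.log m * ε₁ := by
      rw [div_lt_iff₀ hε₁] at hLε
      exact hLε.le
    have h6 : (pDel Dc m : ℝ) ^ 2 ≤ ((Dc + 1) * Real.log m) ^ 2 :=
      pow_le_pow_left₀ (Nat.cast_nonneg _) hd 2
    have h7 : (1 : ℝ) ≤ (Real.log m) ^ 2 := one_le_pow₀ hL1.le
    calc 2 * (ε * χ) * (pDel Dc m : ℝ) ^ 2 ≤ 2 * (ε * χ) * ((Dc + 1) * Real.log m) ^ 2 :=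
          mul_le_mul_of_nonneg_left h6 (by positivity)
      _ = (2 * (ε * χ) * (Dc + 1) ^ 2) * (Real.log m) ^ 2 := by ring
      _ ≤ (Real.log m * ε₁) * (Real.log m) ^ 2 :=
          mul_le_mul_of_nonneg_right h5 (by positivity)
      _ = ε₁ * ((Real.log m) ^ 3 * 1) := by ring
      _ ≤ ε₁ * ((Real.log m) ^ 3 * (Real.log m) ^ 2) := by
          apply mul_le_mul_of_nonneg_left _ hε₁.le
          exact mul_le_mul_of_nonneg_left h7 (by positivity)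
      _ = ε₁ * (Real.log m) ^ 5 := by ring
      _ ≤ ε₁ * (pq m : ℝ) := mul_le_mul_of_nonneg_left hq hε₁.le
  · intro i
    have hy : 0 < η * Real.log m := by positivity
    unfold pI
    rw [Nat.lt_ceil, Real.lt_logb_iff_rpow_lt (by norm_num) hy, Real.rpow_natCast]

end Pool.Agent.Lib.MP_1f2a9f_co
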