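import Pool.Agent.Lib.MP_1f2a9f_co.Defs

/-!
# MP_1f2a9f_co, module QCOUNT: counting pairs of related digit vectors, and the number of linked
digit pairs
-/

namespace Pool.Agent.Lib.MP_1f2a9f_co

open Finset

namespace QCount

/-- The digits linked to `j`. -/
def lk (K J : ℕ) (j : Fin J) : Finset (Fin J) := univ.filter (fun j' : Fin J => Linked K j j')

theorem mem_lk (K J : ℕ) (j j' : Fin J) : j' ∈ lk K J j ↔ Linked K j j' := by
  simp [lk]

theorem lk_map (K J : ℕ) (j : Fin J) :
    (lk K J j).map Fin.valEmbedding =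
      Ico ((j : ℕ) - K) j ∪ Ico ((j : ℕ) + 1) (min ((j : ℕ) + K + 1) J) := by
  ext i
  simp only [Finset.mem_map, mem_lk, Fin.valEmbedding_apply, Finset.mem_union, Finset.mem_Ico]
  unfold Linked
  constructor
  · rintro ⟨a, ⟨h1, h2, h3⟩, rfl⟩
    have := a.2
    rcases lt_or_ge (a : ℕ) j with h | h
    · left; omega
    · right; omega
  · intro h
    have hj := j.2
    have hi : i < J := by omega
    refine ⟨⟨i, hi⟩, ?_, rfl⟩
    show (j : ℕ) ≠ i ∧ (j : ℕ) ≤ i + K ∧ i ≤ (j : ℕ) + K
    omega

theorem lk_card (K J : ℕ) (j : Fin J) :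
    (lk K J j).card = min K j + min K (J - 1 - j) := by
  have h := congrArg Finset.card (lk_map K J j)
  rw [Finset.card_map, Finset.card_union_of_disjoint] at h
  · rw [h, Nat.card_Ico, Nat.card_Ico]
    have := j.2
    omega
  · rw [Finset.disjoint_left]
    intro a ha hb
    rw [Finset.mem_Ico] at ha hb
    omega

theorem lk_card_le (K J : ℕ) (j : Fin J) : (lk K J j).card ≤ 2 * K := by
  rw [lk_card]; omega

theorem kap_eq (K J : ℕ) : kap K J = ∑ j : Fin J, (lk K J j).card := by
  unfold kap lk
  simp only [Finset.card_filter]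
  rw [← Finset.univ_product_univ, Finset.sum_product]

theorem sum_min (K J : ℕ) : 2 * K * J ≤ 2 * (∑ j ∈ range J, min K j) + K * (K + 1) := by
  induction J with
  | zero => simp
  | succ J ih =>
    rw [Finset.sum_range_succ]
    rcases le_or_gt K J with h | h
    · rw [min_eq_left h]; nlinarith
    · -- `J < K`: compute the sum
      have hs : 2 * (∑ j ∈ range J, min K j) + J = J * J := by
        have : ∀ L, L ≤ K → 2 * (∑ j ∈ range L, min K j) + L = L * L := by
          intro L
          induction L with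
          | zero => simp
          | succ L ihL =>
            intro hL
            have := ihL (by omega)
            rw [Finset.sum_range_succ, min_eq_right (by omega)]
            nlinarith
        exact this J h.le
      rw [min_eq_right h.le]
      obtain ⟨d, rfl⟩ : ∃ d, K = J + 1 + d := ⟨K - (J + 1), by omega⟩
      nlinarith [Nat.zero_le d, Nat.zero_le (d * d)]

end QCount

open QCount in
theorem kap_lower (K J : ℕ) (h : K < J) : 2 * K * J ≤ kap K J + K * (K + 1) := by
  rw [kap_eq, Finset.sum_congr rfl fun j _ => lk_card K J j, Finset.sum_add_distrib]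
  have h1 : ∑ j : Fin J, min K (j : ℕ) = ∑ j ∈ range J, min K j :=
    Fin.sum_univ_eq_sum_range (fun j => min K j) J
  have h2 : ∑ j : Fin J, min K (J - 1 - (j : ℕ)) = ∑ j ∈ range J, min K j := by
    rw [Fin.sum_univ_eq_sum_range (fun j => min K (J - 1 - j)) J]
    exact Finset.sum_range_reflect (fun j => min K j) J
  rw [h1, h2]
  have := sum_min K J
  omega

open QCount in
theorem kap_upper (K J : ℕ) : kap K J ≤ 2 * K * J := by
  rw [kap_eq]
  calc ∑ j : Fin J, (lk K J j).card ≤ ∑ _j : Fin J, 2 * K :=
        Finset.sum_le_sum fun j _ => lk_card_le K J j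
    _ = 2 * K * J := by simp [mul_comm]

open QCount in
theorem pair_count {Ξ : Type} [Fintype Ξ] [DecidableEq Ξ] (J K b : ℕ)
    (ρ : Ξ → Ξ → ℝ) (hρ0 : ∀ x y, 0 < ρ x y) (hρ1 : ∀ x y, ρ x y ≤ 1)
    (D : ℕ) (hD : 2 * K ≤ D) (γ τ : ℝ) (hγ : 0 < γ)
    (R : (Ξ × Fin J) × Fin b → (Ξ × Fin J) × Fin b → Bool)
    (hR : GoodRel2 b (fun κ κ' => ρ κ.1 κ'.1) D γ τ R) (x x' : Ξ)
    (hτ : τ ≤ b * ρ x x' ^ (2 * K)) :
    ((univ.filter (fun p : (Fin J → Fin b) × (Fin J → Fin b) => ∀ j j' : Fin J, Linked K j j' →
      R ((x, j), p.1 j) ((x', j'), p.2 j') = true)).card : ℝ) ≤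
      (1 + γ) ^ J * ((b : ℝ) ^ J) ^ 2 * ρ x x' ^ kap K J := by
  classical
  -- the set of constraints for the digit `j`
  set A : (Fin J → Fin b) → Fin J → Finset ((Ξ × Fin J) × Fin b) :=
    fun q j => (lk K J j).image (fun j' => ((x', j'), q j')) with hA
  have hAcard : ∀ q j, (A q j).card = (lk K J j).card := by
    intro q j
    apply Finset.card_image_of_injective
    intro a c hac
    simp only [Prod.mk.injEq] at hac
    exact hac.1.2
  have hAprod : ∀ q j, ∏ a ∈ A q j, (fun κ κ' : Ξ × Fin J => ρ κ.1 κ'.1) (x, j) a.1 =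
      ρ x x' ^ (lk K J j).card := by
    intro q j
    rw [hA]
    simp only
    rw [Finset.prod_image]
    · simp
    · intro a _ c _ hac
      simp only [Prod.mk.injEq] at hac
      exact hac.1.2
  have hdig : ∀ q j,
      ((univ.filter (fun g : Fin b => ∀ a ∈ A q j, R ((x, j), g) a = true)).card : ℝ) ≤
        (1 + γ) * b * ρ x x' ^ (lk K J j).card := by
    intro q j
    have h := hR.count (x, j) (A q j) (by rw [hAcard]; exact (lk_card_le K J j).trans hD)
      (by
        intro a ha
        simp only [hA, Finset.mem_image, lk, Finset.mem_filter, Finset.mem_univ, true_and] at ha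
        obtain ⟨j', hj', rfl⟩ := ha
        intro hc
        simp only [Prod.mk.injEq] at hc
        exact hj'.1 (by rw [hc.2]))
      (by
        rw [hAprod]
        refine hτ.trans ?_
        refine mul_le_mul_of_nonneg_left ?_ (Nat.cast_nonneg b)
        exact pow_le_pow_of_le_one (hρ0 x x').le (hρ1 x x') (lk_card_le K J j))
    rw [hAprod] at h
    have := (abs_le.mp h).2
    linarith
  have hfib : ∀ q : Fin J → Fin b,
      ((univ.filter (fun p : Fin J → Fin b => ∀ j j' : Fin J, Linked K j j' →
        R ((x, j), p j) ((x', j'), q j') = true)).card : ℝ) ≤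
      ∏ j : Fin J, ((1 + γ) * b * ρ x x' ^ (lk K J j).card) := by
    intro q
    have hset : (univ.filter (fun p : Fin J → Fin b => ∀ j j' : Fin J, Linked K j j' →
        R ((x, j), p j) ((x', j'), q j') = true)) =
        Fintype.piFinset (fun j => univ.filter (fun g : Fin b => ∀ a ∈ A q j,
          R ((x, j), g) a = true)) := by
      ext p
      simp only [Finset.mem_filter, Finset.mem_univ, true_and, Fintype.mem_piFinset, hA,
        Finset.mem_image, lk]
      constructor
      · rintro h j a ⟨j', hj', rfl⟩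
        exact h j j' hj'
      · intro h j j' hj'
        exact h j _ ⟨j', hj', rfl⟩
    rw [hset, Fintype.card_piFinset, Nat.cast_prod]
    exact Finset.prod_le_prod (fun j _ => Nat.cast_nonneg _) fun j _ => hdig q j
  have hprod : ∏ j : Fin J, ((1 + γ) * b * ρ x x' ^ (lk K J j).card) =
      (1 + γ) ^ J * (b : ℝ) ^ J * ρ x x' ^ kap K J := by
    rw [Finset.prod_mul_distrib, Finset.prod_const, Finset.prod_pow_eq_pow_sum, ← kap_eq,
      Finset.card_univ, Fintype.card_fin, mul_pow]
  have hcard : ((univ.filter (fun p : (Fin J → Fin b) × (Fin J → Fin b) =>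
      ∀ j j' : Fin J, Linked K j j' → R ((x, j), p.1 j) ((x', j'), p.2 j') = true)).card : ℝ) =
      ∑ q : Fin J → Fin b, ((univ.filter (fun p : Fin J → Fin b => ∀ j j' : Fin J,
        Linked K j j' → R ((x, j), p j) ((x', j'), q j') = true)).card : ℝ) := by
    simp only [Finset.card_filter, Nat.cast_sum]
    rw [← Finset.univ_product_univ, Finset.sum_product, Finset.sum_comm]
  rw [hcard]
  calc _ ≤ ∑ _q : Fin J → Fin b, (1 + γ) ^ J * (b : ℝ) ^ J * ρ x x' ^ kap K J :=
        Finset.sum_le_sum fun q _ => (hfib q).trans hprod.le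
    _ = _ := by
        simp only [Finset.sum_const, Finset.card_univ, Fintype.card_pi, Fintype.card_fin,
          Finset.prod_const, nsmul_eq_mul, Nat.cast_pow]
        ring

end Pool.Agent.Lib.MP_1f2a9f_co
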