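import Pool.Agent.Lib.MP_1f2a9f_co.TopDefs
import Pool.Agent.Lib.MP_1f2a9f_co.QCount

/-!
# NC : numerical estimates for the relation `Q`
-/

namespace Pool.Agent.Lib.MP_1f2a9f_co.NumC

open Finset Filter

theorem exists_of_eventually {P : ℝ → Prop} (h : ∀ᶠ l in atTop, P l) :
    ∃ m0 : ℕ, ∀ m : ℕ, m ≥ m0 → P (Real.log m) := by
  have : ∀ᶠ m : ℕ in atTop, P (Real.log m) :=
    (Real.tendsto_log_atTop.comp tendsto_natCast_atTop_atTop).eventually h
  exact (eventually_atTop.1 this)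

theorem ev_mul_pow_le_exp (C : ℝ) (k : ℕ) {c : ℝ} (hc : 0 < c) :
    ∀ᶠ l : ℝ in atTop, C * l ^ k ≤ Real.exp (c * l) := by
  have h := (isLittleO_pow_exp_pos_mul_atTop (k := k) hc)
  have hd : (0 : ℝ) < 1 / (|C| + 1) := by positivity
  have h2 := h.bound hd
  filter_upwards [h2, eventually_ge_atTop 0] with l h3 hl
  have h4 : |l ^ k| = l ^ k := abs_of_nonneg (by positivity)
  rw [Real.norm_eq_abs, Real.norm_eq_abs, h4, Real.abs_exp] at h3
  have h5 : 0 ≤ l ^ k := by positivity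
  calc C * l ^ k ≤ |C| * l ^ k := mul_le_mul_of_nonneg_right (le_abs_self C) h5
    _ ≤ (|C| + 1) * l ^ k := by nlinarith
    _ ≤ (|C| + 1) * (1 / (|C| + 1) * Real.exp (c * l)) :=
        mul_le_mul_of_nonneg_left h3 (by positivity)
    _ = Real.exp (c * l) := by
        field_simp

theorem mpow {m : ℕ} (hm : 0 < m) (a : ℝ) : (m : ℝ) ^ a = Real.exp (a * Real.log m) := by
  rw [Real.rpow_def_of_pos (by exact_mod_cast hm), mul_comm]

theorem m_pos_of_log {m : ℕ} (h : 1 < Real.log m) : 0 < m := by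
  rcases Nat.eq_zero_or_pos m with rfl | h0
  · simp at h; linarith
  · exact h0

theorem pq_le {m : ℕ} (h : 1 < Real.log m) : (pq m : ℝ) ≤ (Real.log m) ^ 5 + 1 :=
  (Nat.ceil_lt_add_one (by positivity)).le

theorem pDg_le {Dc : ℝ} (hD : 0 ≤ Dc) (K : ℕ) {m : ℕ} (h : 1 < Real.log m) :
    (pDg Dc K m : ℝ) ≤ 2 * K * (Dc * Real.log m + 2) := by
  have h1 : (pDel Dc m : ℝ) ≤ Dc * Real.log m + 1 :=
    (Nat.ceil_lt_add_one (by positivity)).le
  have h2 : (pDg Dc K m : ℝ) = 2 * K * ((pDel Dc m : ℝ) + 1) := by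
    unfold pDg; push_cast; ring
  rw [h2]
  have : (0 : ℝ) ≤ 2 * K := by positivity
  exact mul_le_mul_of_nonneg_left (by linarith) this

theorem pbg_le {ε : ℝ} {J : ℕ} (hε1 : ε ≤ 1 / 1000) (hε : 0 < ε) (hJ : 1 ≤ J) {m : ℕ}
    (h : 1 < Real.log m) : (pbg ε J m : ℝ) ≤ Real.exp (Real.log m) := by
  have hm := m_pos_of_log h
  have h1 : (pbg ε J m : ℝ) ≤ (m : ℝ) ^ ((1 - 2 * ε) / J) := Nat.floor_le (by positivity)
  refine h1.trans ?_
  rw [mpow hm]
  refine Real.exp_le_exp.2 ?_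
  have hJ' : (1 : ℝ) ≤ J := by exact_mod_cast hJ
  have : (1 - 2 * ε) / J ≤ 1 := by
    rw [div_le_one (by linarith)]
    linarith
  nlinarith

theorem part1 {ε η χ Dc ε₁ : ℝ} {B K J r : ℕ} (hc : Consts ε η χ Dc ε₁ B K J r) :
    ∃ m0 : ℕ, ∀ m ≥ m0,
      (Fintype.card ((Fin B × Fin (pq m)) × Fin J) : ℝ) *
        ((Fintype.card ((Fin B × Fin (pq m)) × Fin J) : ℝ) * pbg ε J m + 1) ^ (pDg Dc K m) * 2 *
        Real.exp (-((pgamg ε J m) ^ 2 * ptaug ε J m / 8)) < 1 := by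
  have hε := hc.hε
  have hε1 := hc.hε1
  have hK : (1 : ℝ) ≤ K := by exact_mod_cast hc.hK
  have hJ0 : (0 : ℝ) < J := by
    have := hc.hJ
    by_contra hcon
    push Not at hcon
    nlinarith
  have hJ1 : 1 ≤ J := by exact_mod_cast hJ0
  have hη : 0 < η := by rw [hc.hη]; positivity
  have hχ : 0 < χ := by rw [hc.hχ]; positivity
  have hDc : 0 < Dc := by rw [hc.hDc]; positivity
  set c : ℝ := 3 * ε / (8 * J) with hcdef
  have hcpos : 0 < c := by positivity
  have e1 := ev_mul_pow_le_exp (2 * (B * J)) 5 (c := 1) one_pos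
  have e2 := ev_mul_pow_le_exp 100 3 hcpos
  have e3 : ∀ᶠ l : ℝ in atTop, 2 * K * (Dc + 2) ≤ l := eventually_ge_atTop _
  have e4 : ∀ᶠ l : ℝ in atTop, 2 ≤ l := eventually_ge_atTop _
  obtain ⟨m0, h0⟩ := exists_of_eventually ((e1.and e2).and (e3.and e4))
  refine ⟨m0, fun m hm => ?_⟩
  obtain ⟨⟨h1, h2⟩, h3, h4⟩ := h0 m hm
  set l := Real.log m with hl
  have hl1 : 1 < Real.log m := by rw [← hl]; linarith
  have hmp := m_pos_of_log hl1
  rw [one_mul] at h1
  have hl5 : 1 ≤ l ^ 5 := one_le_pow₀ (by linarith)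
  have hcard : (Fintype.card ((Fin B × Fin (pq m)) × Fin J) : ℝ) ≤ Real.exp l := by
    have : (Fintype.card ((Fin B × Fin (pq m)) × Fin J) : ℝ) = B * pq m * J := by
      simp [Fintype.card_prod]
    rw [this]
    have h5 := pq_le hl1
    rw [← hl] at h5
    calc (B : ℝ) * pq m * J = (B * J) * pq m := by ring
      _ ≤ (B * J) * (l ^ 5 + 1) := mul_le_mul_of_nonneg_left h5 (by positivity)
      _ ≤ (B * J) * (2 * l ^ 5) := mul_le_mul_of_nonneg_left (by linarith) (by positivity)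
      _ = 2 * (B * J) * l ^ 5 := by ring
      _ ≤ _ := h1
  set N : ℝ := (Fintype.card ((Fin B × Fin (pq m)) × Fin J) : ℝ) with hN
  have hN0 : 0 ≤ N := by positivity
  have hbase : N * pbg ε J m + 1 ≤ Real.exp (3 * l) := by
    have h5 := pbg_le hε1 hε hJ1 hl1
    rw [← hl] at h5
    have h6 : N * pbg ε J m ≤ Real.exp l * Real.exp l :=
      mul_le_mul hcard h5 (by positivity) (Real.exp_pos _).le
    have h7 : Real.exp (3 * l) = Real.exp l * Real.exp l * Real.exp l := by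
      rw [← Real.exp_add, ← Real.exp_add]; congr 1; ring
    have h8 : 2 ≤ Real.exp l := by
      have := Real.add_one_le_exp l
      linarith
    rw [h7]
    nlinarith [mul_pos (Real.exp_pos l) (Real.exp_pos l)]
  have hpow : (N * pbg ε J m + 1) ^ (pDg Dc K m) ≤ Real.exp (3 * l ^ 3) := by
    calc (N * pbg ε J m + 1) ^ (pDg Dc K m) ≤ (Real.exp (3 * l)) ^ (pDg Dc K m) :=
          pow_le_pow_left₀ (by positivity) hbase _
      _ = Real.exp ((pDg Dc K m : ℝ) * (3 * l)) := by rw [← Real.exp_nat_mul]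
      _ ≤ Real.exp (3 * l ^ 3) := by
          refine Real.exp_le_exp.2 ?_
          have h5 := pDg_le hDc.le K hl1
          rw [← hl] at h5
          have h6 : 2 * (K : ℝ) * (Dc * l + 2) ≤ l ^ 2 := by
            have h7 : 2 * (K : ℝ) * (Dc * l + 2) ≤ 2 * (K : ℝ) * (Dc * l + 2 * l) :=
              mul_le_mul_of_nonneg_left (by linarith) (by positivity)
            have h8 : 2 * (K : ℝ) * (Dc * l + 2 * l) = (2 * K * (Dc + 2)) * l := by ring
            nlinarith
          have h7 : (pDg Dc K m : ℝ) ≤ l ^ 2 := h5.trans h6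
          have h8 : 0 ≤ 3 * l := by linarith
          calc (pDg Dc K m : ℝ) * (3 * l) ≤ l ^ 2 * (3 * l) := mul_le_mul_of_nonneg_right h7 h8
            _ = 3 * l ^ 3 := by ring
  have hg : (pgamg ε J m) ^ 2 * ptaug ε J m = Real.exp (c * l) := by
    unfold pgamg ptaug
    rw [mpow hmp, mpow hmp, ← Real.exp_nat_mul, ← Real.exp_add]
    congr 1
    rw [hcdef, ← hl]
    push_cast
    field_simp
    ring
  rw [hg]
  have h9 : Real.exp (-(Real.exp (c * l) / 8)) ≤ Real.exp (-(12 * l ^ 3)) := by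
    refine Real.exp_le_exp.2 ?_
    have : 0 ≤ l ^ 3 := pow_nonneg (by linarith) 3
    linarith
  have hpownn : 0 ≤ (N * pbg ε J m + 1) ^ (pDg Dc K m) := by positivity
  calc N * (N * pbg ε J m + 1) ^ (pDg Dc K m) * 2 * Real.exp (-(Real.exp (c * l) / 8))
      ≤ Real.exp l * Real.exp (3 * l ^ 3) * Real.exp 1 * Real.exp (-(12 * l ^ 3)) := by
        have h10 : (2 : ℝ) ≤ Real.exp 1 := by
          have := Real.add_one_le_exp 1
          linarith
        have h11 : N * (N * pbg ε J m + 1) ^ (pDg Dc K m) ≤ Real.exp l * Real.exp (3 * l ^ 3) :=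
          mul_le_mul hcard hpow hpownn (Real.exp_pos _).le
        have h12 : N * (N * pbg ε J m + 1) ^ (pDg Dc K m) * 2 ≤
            Real.exp l * Real.exp (3 * l ^ 3) * Real.exp 1 :=
          mul_le_mul h11 h10 (by norm_num) (by positivity)
        exact mul_le_mul h12 h9 (Real.exp_pos _).le (by positivity)
    _ = Real.exp (l + 3 * l ^ 3 + 1 - 12 * l ^ 3) := by
        rw [← Real.exp_add, ← Real.exp_add, ← Real.exp_add]; congr 1
    _ < 1 := by
        rw [Real.exp_lt_one_iff]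
        have : l ≤ l ^ 3 := by nlinarith [sq_nonneg (l - 1), sq_nonneg l]
        nlinarith

theorem kap_bound {ε η χ Dc ε₁ : ℝ} {B K J r : ℕ} (hc : Consts ε η χ Dc ε₁ B K J r) :
    2 * (K : ℝ) * J * (1 - ε / 4) ≤ kap K J := by
  have hε := hc.hε
  have hε1 := hc.hε1
  have hK : (1 : ℝ) ≤ K := by exact_mod_cast hc.hK
  have hJ := hc.hJ
  have hJ0 : (0 : ℝ) < J := by
    by_contra hcon
    push Not at hcon
    nlinarith
  have hKJ : K < J := by
    have : (K : ℝ) < J := by nlinarith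
    exact_mod_cast this
  have h := kap_lower K J hKJ
  have h' : (2 : ℝ) * K * J ≤ kap K J + K * (K + 1) := by exact_mod_cast h
  nlinarith

theorem part2 {ε η χ Dc ε₁ : ℝ} {B K J r : ℕ} (hc : Consts ε η χ Dc ε₁ B K J r) :
    ∃ m0 : ℕ, ∀ m ≥ m0,
      ptaug ε J m ≤ Real.exp (-(2 * χ / kap K J)) ^ (2 * K) * (pbg ε J m *
        Real.exp (-((1 - 12 * ε) * (2 * K / kap K J) *
          ((1 + 2 * ε) * ((1 + 5 * ε) * Real.log m))))) := by
  have hε := hc.hε
  have hε1 := hc.hε1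
  have hK : (1 : ℝ) ≤ K := by exact_mod_cast hc.hK
  have hJ0 : (0 : ℝ) < J := by
    have := hc.hJ
    by_contra hcon
    push Not at hcon
    nlinarith
  have hkb := kap_bound hc
  have hkap0 : (0 : ℝ) < kap K J := by
    refine lt_of_lt_of_le ?_ hkb
    have : 0 < 1 - ε / 4 := by linarith
    positivity
  set κ : ℝ := (kap K J : ℝ) with hκ
  set a : ℝ := (1 - 2 * ε) / J with ha
  have ha0 : 0 < a := by
    have : 0 < 1 - 2 * ε := by linarith
    positivity
  have e1 : ∀ᶠ l : ℝ in atTop, 1 / a ≤ l := eventually_ge_atTop _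
  have e2 : ∀ᶠ l : ℝ in atTop, (4 * K * χ / κ + 1) * (J / ε) ≤ l := eventually_ge_atTop _
  have e3 : ∀ᶠ l : ℝ in atTop, 2 ≤ l := eventually_ge_atTop _
  obtain ⟨m0, h0⟩ := exists_of_eventually ((e1.and e2).and e3)
  refine ⟨m0, fun m hm => ?_⟩
  obtain ⟨⟨h1, h2⟩, h3⟩ := h0 m hm
  set l := Real.log m with hl
  have hl1 : 1 < Real.log m := by rw [← hl]; linarith
  have hmp := m_pos_of_log hl1
  have h4 : 1 ≤ a * l := by
    rw [div_le_iff₀ ha0] at h1
    linarith
  have hexp2 : 2 ≤ Real.exp (a * l) := by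
    have := Real.add_one_le_exp (a * l)
    linarith
  have hpbg : Real.exp (a * l - 1) ≤ pbg ε J m := by
    have h5 : (m : ℝ) ^ ((1 - 2 * ε) / J) - 1 < (pbg ε J m : ℝ) := by
      unfold pbg
      exact Nat.sub_one_lt_floor _
    rw [mpow hmp, ← ha, ← hl] at h5
    have h6 : Real.exp (a * l - 1) = Real.exp (a * l) * Real.exp (-1) := by
      rw [← Real.exp_add]; congr 1
    have h7 : Real.exp (-1) ≤ 1 / 2 := by
      rw [Real.exp_neg, ← one_div]
      refine one_div_le_one_div_of_le (by norm_num) ?_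
      have := Real.add_one_le_exp 1
      linarith
    rw [h6]
    nlinarith [Real.exp_pos (a * l)]
  have htau : ptaug ε J m = Real.exp (ε / (2 * J) * l) := by
    unfold ptaug
    rw [mpow hmp, ← hl]
  rw [htau, ← Real.exp_nat_mul]
  have hx : 2 * (K : ℝ) / κ ≤ 1 / (J * (1 - ε / 4)) := by
    have h14 : 0 < 1 - ε / 4 := by linarith
    rw [div_le_div_iff₀ hkap0 (by positivity)]
    nlinarith
  have hmain : ε / (2 * J) * l ≤ ((2 * K : ℕ) : ℝ) * (-(2 * χ / κ)) + ((a * l - 1) +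
      (-((1 - 12 * ε) * (2 * K / κ) * ((1 + 2 * ε) * ((1 + 5 * ε) * l))))) := by
    have hA : (4 * K * χ / κ + 1) ≤ ε / J * l := by
      have h5 : (4 * K * χ / κ + 1) * (J / ε) * (ε / J) ≤ l * (ε / J) :=
        mul_le_mul_of_nonneg_right h2 (by positivity)
      have h6 : (4 * K * χ / κ + 1) * (J / ε) * (ε / J) = 4 * K * χ / κ + 1 := by
        field_simp
      linarith
    have hB : (1 - 12 * ε) * (2 * K / κ) * ((1 + 2 * ε) * ((1 + 5 * ε) * l)) ≤
        (1 - 4 * ε) / J * l := by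
      have hpos : 0 ≤ (1 - 12 * ε) * ((1 + 2 * ε) * ((1 + 5 * ε) * l)) := by
        have : 0 ≤ 1 - 12 * ε := by linarith
        have : 0 ≤ l := by linarith
        positivity
      calc (1 - 12 * ε) * (2 * K / κ) * ((1 + 2 * ε) * ((1 + 5 * ε) * l))
          = (2 * K / κ) * ((1 - 12 * ε) * ((1 + 2 * ε) * ((1 + 5 * ε) * l))) := by ring
        _ ≤ (1 / (J * (1 - ε / 4))) * ((1 - 12 * ε) * ((1 + 2 * ε) * ((1 + 5 * ε) * l))) :=
            mul_le_mul_of_nonneg_right hx hpos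
        _ = ((1 - 12 * ε) * ((1 + 2 * ε) * (1 + 5 * ε))) / (1 - ε / 4) * (l / J) := by
            have : (1 : ℝ) - ε / 4 ≠ 0 := by linarith
            field_simp
        _ ≤ (1 - 4 * ε) * (l / J) := by
            refine mul_le_mul_of_nonneg_right ?_ (by
              have : 0 ≤ l := by linarith
              positivity)
            rw [div_le_iff₀ (by linarith)]
            nlinarith [sq_nonneg ε, mul_pos hε hε, mul_pos (mul_pos hε hε) hε]
        _ = (1 - 4 * ε) / J * l := by ring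
    have h7 : ((2 * K : ℕ) : ℝ) * (-(2 * χ / κ)) = -(4 * K * χ / κ) := by
      push_cast; ring
    rw [h7]
    have h8 : a * l = (1 - 4 * ε) / J * l + 2 * (ε / J * l) := by
      rw [ha]; ring
    have h9 : ε / (2 * J) * l = (ε / J * l) / 2 := by
      field_simp
    have h10 : 0 ≤ ε / J * l := by
      have : 0 ≤ l := by linarith
      positivity
    rw [h8, h9]
    linarith
  calc Real.exp (ε / (2 * J) * l) ≤ Real.exp (((2 * K : ℕ) : ℝ) * (-(2 * χ / κ)) + ((a * l - 1) +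
      (-((1 - 12 * ε) * (2 * K / κ) * ((1 + 2 * ε) * ((1 + 5 * ε) * l)))))) :=
        Real.exp_le_exp.2 hmain
    _ = Real.exp (((2 * K : ℕ) : ℝ) * (-(2 * χ / κ))) * (Real.exp (a * l - 1) *
        Real.exp (-((1 - 12 * ε) * (2 * K / κ) * ((1 + 2 * ε) * ((1 + 5 * ε) * l))))) := by
        rw [Real.exp_add, Real.exp_add]
    _ ≤ _ := by
        refine mul_le_mul_of_nonneg_left ?_ (Real.exp_pos _).le
        exact mul_le_mul_of_nonneg_right hpbg (Real.exp_pos _).le

end Pool.Agent.Lib.MP_1f2a9f_co.NumC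

namespace Pool.Agent.Lib.MP_1f2a9f_co

theorem num_relq {ε η χ Dc ε₁ : ℝ} {B K J r : ℕ} (hc : Consts ε η χ Dc ε₁ B K J r) :
    ∃ m0 : ℕ, ∀ m ≥ m0,
      (Fintype.card ((Fin B × Fin (pq m)) × Fin J) : ℝ) *
        ((Fintype.card ((Fin B × Fin (pq m)) × Fin J) : ℝ) * pbg ε J m + 1) ^ (pDg Dc K m) * 2 *
        Real.exp (-((pgamg ε J m) ^ 2 * ptaug ε J m / 8)) < 1 ∧
      ptaug ε J m ≤ Real.exp (-(2 * χ / kap K J)) ^ (2 * K) * (pbg ε J m *
        Real.exp (-((1 - 12 * ε) * (2 * K / kap K J) *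
          ((1 + 2 * ε) * ((1 + 5 * ε) * Real.log m))))) := by
  obtain ⟨m1, h1⟩ := NumC.part1 hc
  obtain ⟨m2, h2⟩ := NumC.part2 hc
  exact ⟨max m1 m2, fun m hm => ⟨h1 m (le_of_max_le_left hm), h2 m (le_of_max_le_right hm)⟩⟩

end Pool.Agent.Lib.MP_1f2a9f_co
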