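import Pool.Agent.Lib.MP_1f2a9f_co.TopDefs
import Pool.Agent.Lib.MP_1f2a9f_co.Mid
import Pool.Agent.Lib.MP_1f2a9f_co.NumA
import Pool.Agent.Lib.MP_1f2a9f_co.NumC

namespace Pool.Agent.Lib.MP_1f2a9f_co

open Finset

namespace MidW

/-- cardinality of a filtered finset through the subtype -/
theorem card_sub {n : ℕ} (M : Finset (Fin n)) (P : Fin n → Prop) [DecidablePred P]
    (P' : {v // v ∈ M} → Prop) [DecidablePred P'] (h : ∀ v : {v // v ∈ M}, P v.1 ↔ P' v) :
    (M.filter P).card = (univ.filter P').card := by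
  classical
  have : M.filter P = (univ.filter P').map (Function.Embedding.subtype _) := by
    ext v
    simp only [Finset.mem_filter, Finset.mem_map, Finset.mem_univ, true_and,
      Function.Embedding.coe_subtype, Subtype.exists, exists_and_right, exists_eq_right]
    constructor
    · rintro ⟨h1, h2⟩
      exact ⟨h1, (h ⟨v, h1⟩).1 h2⟩
    · rintro ⟨h1, h2⟩
      exact ⟨h1, (h ⟨v, h1⟩).2 h2⟩
  rw [this, Finset.card_map]

theorem card_sub2 {n : ℕ} (M : Finset (Fin n)) (Bad' : Finset {v // v ∈ M})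
    (P : Fin n × Fin n → Prop) [DecidablePred P]
    (P' : {v // v ∈ M} × {v // v ∈ M} → Prop) [DecidablePred P']
    (h : ∀ u v : {v // v ∈ M}, P (u.1, v.1) ↔ P' (u, v)) :
    (((M \ Bad'.map (Function.Embedding.subtype _)) ×ˢ
      (M \ Bad'.map (Function.Embedding.subtype _))).filter P).card =
      ((Bad'ᶜ ×ˢ Bad'ᶜ).filter P').card := by
  classical
  have : ((M \ Bad'.map (Function.Embedding.subtype _)) ×ˢ
      (M \ Bad'.map (Function.Embedding.subtype _))).filter P =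
      ((Bad'ᶜ ×ˢ Bad'ᶜ).filter P').map
        ((Function.Embedding.subtype _).prodMap (Function.Embedding.subtype _)) := by
    ext ⟨u, v⟩
    rw [Finset.mem_filter, Finset.mem_product, Finset.mem_map, Finset.mem_sdiff, Finset.mem_sdiff]
    constructor
    · rintro ⟨⟨⟨h1, h2⟩, h3, h4⟩, h5⟩
      refine ⟨(⟨u, h1⟩, ⟨v, h3⟩), ?_, rfl⟩
      rw [Finset.mem_filter, Finset.mem_product, Finset.mem_compl, Finset.mem_compl]
      refine ⟨⟨fun hb => h2 ?_, fun hb => h4 ?_⟩, (h ⟨u, h1⟩ ⟨v, h3⟩).1 h5⟩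
      · exact Finset.mem_map.2 ⟨_, hb, rfl⟩
      · exact Finset.mem_map.2 ⟨_, hb, rfl⟩
    · rintro ⟨⟨a, b⟩, hab, he⟩
      rw [Finset.mem_filter, Finset.mem_product, Finset.mem_compl, Finset.mem_compl] at hab
      obtain ⟨⟨ha, hb⟩, hP⟩ := hab
      have e1 : a.1 = u := congrArg Prod.fst he
      have e2 : b.1 = v := congrArg Prod.snd he
      subst e1
      subst e2
      refine ⟨⟨⟨a.2, fun hc => ha ?_⟩, b.2, fun hc => hb ?_⟩, (h a b).2 hP⟩
      · obtain ⟨w, hw, hw2⟩ := Finset.mem_map.1 hc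
        have : w = a := Subtype.ext hw2
        rwa [this] at hw
      · obtain ⟨w, hw, hw2⟩ := Finset.mem_map.1 hc
        have : w = b := Subtype.ext hw2
        rwa [this] at hw
  rw [this, Finset.card_map]

end MidW

theorem middle_on {ε η χ Dc ε₁ : ℝ} {B K J r : ℕ} (hc : Consts ε η χ Dc ε₁ B K J r) :
    ∃ m0 : ℕ, ∀ m ≥ m0, ∀ (R : ((Fin B × Fin (pq m)) × Fin J) × Fin (pbg ε J m) →
      ((Fin B × Fin (pq m)) × Fin J) × Fin (pbg ε J m) → Bool),
      GoodRel2 (pbg ε J m) (fun κ κ' => rhoG ε χ K J κ.1 κ'.1) (pDg Dc K m) (pgamg ε J m)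
        (ptaug ε J m) R →
      MidProp ε χ Dc ε₁ B K J m R := by
  have hε := hc.hε
  have hη : 0 < η := by rw [hc.hη]; positivity
  have hχ : 0 < χ := by rw [hc.hχ]; positivity
  have hDc : 0 < Dc := by rw [hc.hDc]; positivity
  have hε₁ : 0 < ε₁ := by rw [hc.hε₁]; positivity
  have hKJ : K < J := by
    have h1 := hc.hJ
    have h2 := hc.hε1
    have h3 : (0 : ℝ) ≤ J := Nat.cast_nonneg _
    have h4 : (K : ℝ) < J := by nlinarith
    exact_mod_cast h4
  obtain ⟨m1, hm1⟩ := middle ε χ Dc ε₁ B K J r hε (by linarith [hc.hε1]) hχ hDc hε₁ hc.hB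
    hc.hBD hc.hK hc.hKD hc.hr hKJ
  obtain ⟨m2, hm2⟩ := num_basic hc
  obtain ⟨m3, hm3⟩ := num_relq hc
  refine ⟨max m1 (max m2 m3), ?_⟩
  intro m hm R hR
  have hmm1 : m1 ≤ m := le_trans (le_max_left _ _) hm
  have hmm2 : m2 ≤ m := le_trans (le_trans (le_max_left _ _) (le_max_right _ _)) hm
  have hmm3 : m3 ≤ m := le_trans (le_trans (le_max_right _ _) (le_max_right _ _)) hm
  obtain ⟨_, _, _, _, hq, hbg, _, _, _, hgg, hgg1, htg, _, _, _⟩ := hm2 m hmm2
  obtain ⟨_, hcost⟩ := hm3 m hmm3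
  have hmid := hm1 m hmm1 (pbg ε J m) (pq m) (pDel Dc m) (pDg Dc K m) (rhoG ε χ K J)
    (pgamg ε J m) (ptaug ε J m) R hbg hq hgg hgg1 htg (Nat.le_ceil _) le_rfl
    (fun x y => rfl) hR hcost
  intro n H _ M hHe hHd hM
  classical
  let V := {v // v ∈ M}
  have hcardV : Fintype.card V = M.card := Fintype.card_coe M
  have he : ((H.comap (Subtype.val : V → Fin n)).edgeFinset.card : ℝ) ≤ m := by
    refine le_trans ?_ hHe
    have : (H.comap (Subtype.val : V → Fin n)).edgeFinset.card ≤ H.edgeFinset.card := by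
      apply Finset.card_le_card_of_injOn (Sym2.map (Subtype.val : V → Fin n))
      · intro e he
        induction e with
        | _ a b =>
          simp only [Finset.mem_coe, SimpleGraph.mem_edgeFinset, SimpleGraph.mem_edgeSet,
            SimpleGraph.comap_adj] at he
          simp only [Sym2.map_mk, Finset.mem_coe, SimpleGraph.mem_edgeFinset,
            SimpleGraph.mem_edgeSet]
          exact he
      · intro a _ b _ hab
        exact Sym2.map.injective Subtype.val_injective hab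
    exact_mod_cast this
  have hd : ∀ v : V, ((H.comap (Subtype.val : V → Fin n)).degree v : ℝ) ≤ Dc * Real.log m := by
    intro v
    refine le_trans ?_ (hHd v.1 v.2)
    have : (H.comap (Subtype.val : V → Fin n)).degree v ≤ H.degree v.1 := by
      rw [← SimpleGraph.card_neighborFinset_eq_degree, ← SimpleGraph.card_neighborFinset_eq_degree]
      apply Finset.card_le_card_of_injOn (Subtype.val : V → Fin n)
      · intro a ha
        simpa using ha
      · intro a _ b _ hab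
        exact Subtype.ext hab
    exact_mod_cast this
  obtain ⟨Bad', X', c', g', hB1, hB2, hB3, hB4⟩ := hmid V (H.comap (Subtype.val : V → Fin n))
    he hd (by rw [hcardV]; exact hM)
  rw [hcardV] at hB1 hB4
  set X : Fin n → Fin B := fun v => if h : v ∈ M then X' ⟨v, h⟩ else ⟨0, hc.hB⟩ with hX
  set c : Fin n → Fin (pq m) := fun v => if h : v ∈ M then c' ⟨v, h⟩ else ⟨0, hq⟩ with hcc
  set g : Fin n → Fin J → Fin (pbg ε J m) := fun v => if h : v ∈ M then g' ⟨v, h⟩ else
    fun _ => ⟨0, hbg⟩ with hg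
  have hXv : ∀ v : V, X v.1 = X' v := by
    intro v
    rw [hX]
    simp
  have hcv : ∀ v : V, c v.1 = c' v := by
    intro v
    rw [hcc]
    simp
  have hgv : ∀ v : V, g v.1 = g' v := by
    intro v
    rw [hg]
    simp
  refine ⟨Bad'.map (Function.Embedding.subtype _), X, c, g, ?_, ?_, ?_, ?_, ?_⟩
  · intro v hv
    rw [Finset.mem_map] at hv
    obtain ⟨w, _, rfl⟩ := hv
    exact w.2
  · rw [Finset.card_map]
    exact hB1
  · intro i
    rw [MidW.card_sub M (fun v => X v = i) (fun v => X' v = i) (fun v => by rw [hXv])]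
    exact hB2 i
  · intro u v hu hv huv
    rw [Finset.mem_sdiff] at hu hv
    have hu' : (⟨u, hu.1⟩ : V) ∉ Bad' := by
      intro h
      exact hu.2 (Finset.mem_map.2 ⟨_, h, rfl⟩)
    have hv' : (⟨v, hv.1⟩ : V) ∉ Bad' := by
      intro h
      exact hv.2 (Finset.mem_map.2 ⟨_, h, rfl⟩)
    have h1 := hB3 ⟨u, hu.1⟩ ⟨v, hv.1⟩ hu' hv' huv
    have e1 := hXv ⟨u, hu.1⟩
    have e2 := hXv ⟨v, hv.1⟩
    have e3 := hcv ⟨u, hu.1⟩
    have e4 := hcv ⟨v, hv.1⟩
    have e5 := hgv ⟨u, hu.1⟩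
    have e6 := hgv ⟨v, hv.1⟩
    simp only at e1 e2 e3 e4 e5 e6
    rw [e1, e2, e3, e4, e5, e6]
    exact h1
  · rw [MidW.card_sub2 M Bad' (fun p => X p.1 = X p.2 ∧ c p.1 = c p.2 ∧ g p.1 = g p.2)
      (fun p => X' p.1 = X' p.2 ∧ c' p.1 = c' p.2 ∧ g' p.1 = g' p.2)
      (fun u v => by simp only [hXv, hcv, hgv]),
      MidW.card_sub2 M Bad' (fun p => X p.1 = X p.2) (fun p => X' p.1 = X' p.2)
      (fun u v => by simp only [hXv])]
    exact hB4

end Pool.Agent.Lib.MP_1f2a9f_co
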