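import Pool.Agent.Lib.MP_1f2a9f_co.NumAux

/-!
# Module NB: numerical conditions of the relation `S`
-/

namespace Pool.Agent.Lib.MP_1f2a9f_co

open Finset Filter NumAux

theorem num_rel {ε η χ Dc ε₁ : ℝ} {B K J r : ℕ} (hc : Consts ε η χ Dc ε₁ B K J r) :
    ∃ m0 : ℕ, ∀ m ≥ m0,
      (∀ l l' : Lev B (pI η m), rhoS ε m l l' = 0 ∨ ptau ε m ≤ rhoS ε m l l' * pb ε m) ∧
      (∀ l l' : Lev B (pI η m), rhoS ε m l l' = 0 ∨ ptau ε m ≤ rhoS ε m l l' * tS ε m l) ∧
      ((Fintype.card (Lev B (pI η m)) : ℝ) *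
          ((Fintype.card (Lev B (pI η m)) : ℝ) * pb ε m + 1) ^ (pD m) +
        (Fintype.card (Lev B (pI η m)) : ℝ) * ((∑ l : Lev B (pI η m), (tS ε m l : ℝ)) +
          (Fintype.card (Lev B (pI η m)) : ℝ) * pb ε m)) *
        Real.exp (-((pgam ε m) ^ 2 * ptau ε m / 8)) < 1 := by
  have hε := hc.hε
  have hε1 := hc.hε1
  have hη0 : 0 < η := by rw [hc.hη]; positivity
  have hη1 : η ≤ 1 := by rw [hc.hη]; nlinarith
  rw [← eventually_atTop]
  filter_upwards [ev_rpow_ge 2 (ε / 8) (by positivity), ev_log_ge 3,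
    ev_log_pow_le 4 96 (ε / 32) (by positivity), ev_log_pow_le_self 1 2,
    eventually_ge_atTop 3, eventually_ge_atTop (2 * (1 + B))] with m h2 hl hlog4 hlogm hm3 hmB
  have hm : 0 < m := by omega
  have hm1 : (1 : ℝ) ≤ m := by exact_mod_cast hm
  have hm0 : (0 : ℝ) < m := Nat.cast_pos.2 hm
  set l := Real.log m with hldef
  have hb1 : (1 : ℝ) ≤ (m : ℝ) ^ (ε / 4) := Real.one_le_rpow hm1 (by positivity)
  have hbge : (m : ℝ) ^ (ε / 4) / 2 ≤ pb ε m := half_le_floor hb1
  have hbt : (pb ε m : ℝ) ≤ pt ε m := by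
    have : pb ε m ≤ pt ε m :=
      Nat.floor_mono (Real.rpow_le_rpow_of_exponent_le hm1 (by linarith))
    exact_mod_cast this
  have hpos : ∀ a : ℝ, 0 < (m : ℝ) ^ a := fun a => Real.rpow_pos_of_pos hm0 a
  have hpb0 : (0 : ℝ) ≤ pb ε m := Nat.cast_nonneg _
  -- the basic inequality
  have hA : ∀ i : ℕ, ptau ε m ≤ qi ε m i * pb ε m := by
    intro i
    have h1 := qi_ge (ε := ε) hm i
    calc ptau ε m = (m : ℝ) ^ (ε / 16) := rfl
      _ ≤ (m : ℝ) ^ (ε / 16) * ((m : ℝ) ^ (ε / 8) / 2) := by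
          nlinarith [hpos (ε / 16)]
      _ = (m : ℝ) ^ (-(ε / 16)) * ((m : ℝ) ^ (ε / 4) / 2) := by
          rw [← mul_div_assoc, ← mul_div_assoc, ← Real.rpow_add hm0, ← Real.rpow_add hm0]
          congr 2
          ring
      _ ≤ qi ε m i * pb ε m :=
          mul_le_mul h1 hbge (by positivity) (qi_pos ε m i).le
  have hA1 : ptau ε m ≤ pb ε m := by
    refine (hA 0).trans ?_
    have := qi_le_one (ε := ε) hε.le (m := m) 0
    nlinarith
  have hlarge : ∀ l l' : Lev B (pI η m), rhoS ε m l l' = 0 ∨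
      (0 ≤ rhoS ε m l l' ∧ ptau ε m ≤ rhoS ε m l l' * pb ε m) := by
    have hone : ∀ x : ℝ, x = 1 → x = 0 ∨ (0 ≤ x ∧ ptau ε m ≤ x * pb ε m) := by
      rintro x rfl
      right
      refine ⟨zero_le_one, ?_⟩
      rw [one_mul]
      exact hA1
    have hqi : ∀ (x : ℝ) (i : ℕ), x = qi ε m i → x = 0 ∨ (0 ≤ x ∧ ptau ε m ≤ x * pb ε m) := by
      rintro x i rfl
      exact Or.inr ⟨(qi_pos ε m i).le, hA i⟩
    rintro (l | l | l) (l' | l' | l')
    · exact hone _ rfl
    · exact hone _ rfl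
    · exact Or.inl rfl
    · exact Or.inl rfl
    · exact Or.inl rfl
    · exact Or.inl rfl
    · exact hqi _ l rfl
    · exact hqi _ l rfl
    · by_cases hll : l ≤ l'
      · refine hqi _ l ?_
        simp [rhoS, hll]
      · left
        simp [rhoS, hll]
  have htS : ∀ l : Lev B (pI η m), (pb ε m : ℝ) ≤ tS ε m l := by
    rintro (l | l | l)
    · exact hbt
    · exact le_refl _
    · exact hbt
  refine ⟨fun l l' => ?_, fun l l' => ?_, ?_⟩
  · rcases hlarge l l' with h | h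
    · exact Or.inl h
    · exact Or.inr h.2
  · rcases hlarge l l' with h | h
    · exact Or.inl h
    · exact Or.inr (h.2.trans (mul_le_mul_of_nonneg_left (htS l) h.1))
  · -- the union bound
    have hI := pI_le hη0 hη1 hl
    rw [← hldef] at hI
    have hlm : 2 * l ≤ m := by simpa using hlogm
    have hN : (Fintype.card (Lev B (pI η m)) : ℝ) ≤ m := by
      rw [card_lev]
      push_cast
      have : (2 : ℝ) * (1 + B) ≤ m := by exact_mod_cast hmB
      linarith
    set N : ℝ := (Fintype.card (Lev B (pI η m)) : ℝ) with hNdef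
    have hN0 : 0 ≤ N := Nat.cast_nonneg _
    have hfl : ∀ a : ℝ, a ≤ 1 → (⌊(m : ℝ) ^ a⌋₊ : ℝ) ≤ m := by
      intro a ha
      refine (Nat.floor_le (hpos a).le).trans ?_
      calc (m : ℝ) ^ a ≤ (m : ℝ) ^ (1 : ℝ) := Real.rpow_le_rpow_of_exponent_le hm1 ha
        _ = m := Real.rpow_one _
    have hpb : (pb ε m : ℝ) ≤ m := hfl _ (by linarith)
    have hpt : (pt ε m : ℝ) ≤ m := hfl _ (by linarith)
    have hts : ∀ l : Lev B (pI η m), (tS ε m l : ℝ) ≤ m := by
      rintro (l | l | l)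
      · exact hpt
      · exact hpb
      · exact hpt
    have hsum : (∑ l : Lev B (pI η m), (tS ε m l : ℝ)) ≤ m * m := by
      calc (∑ l : Lev B (pI η m), (tS ε m l : ℝ)) ≤ ∑ _l : Lev B (pI η m), (m : ℝ) :=
            Finset.sum_le_sum fun l _ => hts l
        _ = N * m := by rw [Finset.sum_const, Finset.card_univ, nsmul_eq_mul]
        _ ≤ m * m := mul_le_mul_of_nonneg_right hN hm0.le
    have hNb : N * pb ε m ≤ m * m := mul_le_mul hN hpb hpb0 hm0.le
    have hl1 : 1 ≤ l := by linarith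
    have hm3' : (3 : ℝ) ≤ m := by exact_mod_cast hm3
    have hexp : Real.exp l = m := Real.exp_log hm0
    have hpD : (pD m : ℝ) ≤ 3 * l ^ 3 := by
      have h1 : (pD m : ℝ) < 2 * l ^ 3 + 1 := Nat.ceil_lt_add_one (by positivity)
      have h3 : 1 ≤ l ^ 3 := one_le_pow₀ hl1
      linarith
    have hbase : N * pb ε m + 1 ≤ (m : ℝ) ^ 3 := by nlinarith
    have hpow : (N * pb ε m + 1) ^ (pD m) ≤ Real.exp (9 * l ^ 4) := by
      calc (N * pb ε m + 1) ^ (pD m) ≤ ((m : ℝ) ^ 3) ^ (pD m) :=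
            pow_le_pow_left₀ (by positivity) hbase _
        _ = Real.exp ((pD m : ℝ) * (3 * l)) := by
            rw [Real.exp_nat_mul]
            congr 1
            rw [show (3 : ℝ) * l = ((3 : ℕ) : ℝ) * l by norm_num, Real.exp_nat_mul, hexp]
        _ ≤ Real.exp (9 * l ^ 4) := by
            rw [Real.exp_le_exp]
            nlinarith
    have hl4 : l ≤ l ^ 4 := le_self_pow₀ hl1 (by norm_num)
    have h14 : 1 ≤ l ^ 4 := one_le_pow₀ hl1
    have hT1 : N * (N * pb ε m + 1) ^ (pD m) ≤ Real.exp (10 * l ^ 4) := by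
      calc N * (N * pb ε m + 1) ^ (pD m) ≤ m * Real.exp (9 * l ^ 4) :=
            mul_le_mul hN hpow (by positivity) hm0.le
        _ = Real.exp (l + 9 * l ^ 4) := by rw [Real.exp_add, hexp]
        _ ≤ Real.exp (10 * l ^ 4) := by rw [Real.exp_le_exp]; linarith
    have hT2 : N * ((∑ l : Lev B (pI η m), (tS ε m l : ℝ)) + N * pb ε m) ≤
        Real.exp (10 * l ^ 4) := by
      calc N * ((∑ l : Lev B (pI η m), (tS ε m l : ℝ)) + N * pb ε m) ≤ m * (m * m + m * m) :=
            mul_le_mul hN (add_le_add hsum hNb) (by positivity) hm0.le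
        _ = (m : ℝ) ^ 3 * 2 := by ring
        _ ≤ (m : ℝ) ^ 3 * m := mul_le_mul_of_nonneg_left (by linarith) (by positivity)
        _ = (m : ℝ) ^ 4 := by ring
        _ = Real.exp (((4 : ℕ) : ℝ) * l) := by rw [Real.exp_nat_mul, hexp]
        _ ≤ Real.exp (10 * l ^ 4) := by
            rw [Real.exp_le_exp]; push_cast; linarith
    have hexponent : 12 * l ^ 4 ≤ (pgam ε m) ^ 2 * ptau ε m / 8 := by
      have h1 : (pgam ε m) ^ 2 * ptau ε m = (m : ℝ) ^ (ε / 32) := by
        unfold pgam ptau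
        rw [← Real.rpow_natCast, ← Real.rpow_mul hm0.le, ← Real.rpow_add hm0]
        congr 1
        push_cast
        ring
      rw [h1]
      linarith
    have htot : (N * (N * pb ε m + 1) ^ (pD m) +
        N * ((∑ l : Lev B (pI η m), (tS ε m l : ℝ)) + N * pb ε m)) ≤
        2 * Real.exp (10 * l ^ 4) := by linarith
    calc (N * (N * pb ε m + 1) ^ (pD m) +
        N * ((∑ l : Lev B (pI η m), (tS ε m l : ℝ)) + N * pb ε m)) *
          Real.exp (-((pgam ε m) ^ 2 * ptau ε m / 8))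
        ≤ 2 * Real.exp (10 * l ^ 4) * Real.exp (-(12 * l ^ 4)) := by
          refine mul_le_mul htot ?_ (Real.exp_pos _).le (by positivity)
          rw [Real.exp_le_exp]; linarith
      _ = 2 * Real.exp (-(2 * l ^ 4)) := by
          rw [mul_assoc, ← Real.exp_add]; congr 2; ring
      _ < 1 := by
          have h1 : Real.exp (-(2 * l ^ 4)) ≤ Real.exp (-1) := by
            rw [Real.exp_le_exp]; linarith
          have h2 : Real.exp (-1) < 1 / 2 := by
            have := Real.exp_neg_one_lt_d9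
            norm_num at this ⊢
            linarith
          linarith

end Pool.Agent.Lib.MP_1f2a9f_co
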