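import Pool.Agent.Lib.MP_1f2a9f_co.NumAux

/-!
# Module ND: numerical conditions of the labels
-/

namespace Pool.Agent.Lib.MP_1f2a9f_co

open Finset Filter NumAux

theorem num_lab {ε η χ Dc ε₁ : ℝ} {B K J r : ℕ} (hc : Consts ε η χ Dc ε₁ B K J r) :
    ∃ m0 : ℕ, ∀ m ≥ m0,
      (∀ i < pI η m, ptau ε m ≤ pt ε m * qi ε m i ^ (2 ^ (i + 1))) ∧
      ptau ε m ≤ pb ε m ∧ ptau ε m ≤ pt ε m ∧
      (∀ l : Lev B (pI η m), 0 < cells ε J m l ∧
        cells ε J m l ≤ ε * cap ε χ Dc ε₁ m l) := by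
  have hε := hc.hε
  have hε1 := hc.hε1
  have hη0 : 0 < η := by rw [hc.hη]; positivity
  have hχ0 : 0 < χ := by rw [hc.hχ]; positivity
  have hDc0 : 0 < Dc := by rw [hc.hDc]; positivity
  have hε₁0 : 0 < ε₁ := by rw [hc.hε₁]; positivity
  have hB0 : (0 : ℝ) < B := by exact_mod_cast hc.hB
  have hJ0 : (0 : ℝ) < J := by
    have h1 := hc.hJ
    have h2 : (0 : ℝ) < ε * J := lt_of_lt_of_le (by positivity) h1
    exact (pos_iff_pos_of_mul_pos h2).1 hε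
  have hJn : J ≠ 0 := by
    rintro rfl
    simp at hJ0
  rw [← eventually_atTop]
  filter_upwards [ev_rpow_ge 2 (ε / 8) (by positivity), ev_log_ge 1,
    ev_rpow_ge 2 (1 / 2 - 9 * ε / 16) (by linarith),
    ev_log_pow_le 1 (1 / (ε * (2 / Dc + 3 * ε₁))) (ε / 4) (by positivity),
    ev_log_pow_le 1 (η / (2 * ε)) (ε / 4) (by positivity),
    ev_log_pow_le 6 (2 / (ε * ((1 + 3 * ε) * (χ / B)))) (3 * ε / 2) (by positivity),
    eventually_ge_atTop 3] with m h2 hl h2' hZ hT hX hm3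
  have hm : 0 < m := by omega
  have hm1 : (1 : ℝ) ≤ m := by exact_mod_cast hm
  have hm0 : (0 : ℝ) < m := Nat.cast_pos.2 hm
  set l := Real.log m with hldef
  have hl0 : 0 < l := by linarith
  have hpos : ∀ a : ℝ, 0 < (m : ℝ) ^ a := fun a => Real.rpow_pos_of_pos hm0 a
  have hb1 : (1 : ℝ) ≤ (m : ℝ) ^ (ε / 4) := Real.one_le_rpow hm1 (by positivity)
  have ht1 : (1 : ℝ) ≤ (m : ℝ) ^ (1 - ε / 2) := Real.one_le_rpow hm1 (by linarith)
  have hg1 : (1 : ℝ) ≤ (m : ℝ) ^ ((1 - 2 * ε) / J) :=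
    Real.one_le_rpow hm1 (div_nonneg (by linarith) hJ0.le)
  have hbge : (m : ℝ) ^ (ε / 4) / 2 ≤ pb ε m := half_le_floor hb1
  have htge : (m : ℝ) ^ (1 - ε / 2) / 2 ≤ pt ε m := half_le_floor ht1
  have hgge : (m : ℝ) ^ ((1 - 2 * ε) / J) / 2 ≤ pbg ε J m := half_le_floor hg1
  have hble : (pb ε m : ℝ) ≤ (m : ℝ) ^ (ε / 4) := Nat.floor_le (hpos _).le
  have htle : (pt ε m : ℝ) ≤ (m : ℝ) ^ (1 - ε / 2) := Nat.floor_le (hpos _).le
  have hgle : (pbg ε J m : ℝ) ≤ (m : ℝ) ^ ((1 - 2 * ε) / J) := Nat.floor_le (hpos _).le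
  have hbpos : (0 : ℝ) < pb ε m := lt_of_lt_of_le (by have := hpos (ε / 4); positivity) hbge
  have htpos : (0 : ℝ) < pt ε m := lt_of_lt_of_le (by have := hpos (1 - ε / 2); positivity) htge
  have hgpos : (0 : ℝ) < pbg ε J m :=
    lt_of_lt_of_le (by have := hpos ((1 - 2 * ε) / J); positivity) hgge
  have htb : ptau ε m ≤ pb ε m := by
    calc ptau ε m = (m : ℝ) ^ (ε / 16) := rfl
      _ ≤ (m : ℝ) ^ (ε / 8) := Real.rpow_le_rpow_of_exponent_le hm1 (by linarith)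
      _ ≤ (m : ℝ) ^ (ε / 8) * ((m : ℝ) ^ (ε / 8) / 2) := by nlinarith [hpos (ε / 8)]
      _ = (m : ℝ) ^ (ε / 4) / 2 := by
          rw [← mul_div_assoc, ← Real.rpow_add hm0]; congr 2; ring
      _ ≤ pb ε m := hbge
  have hbt : (pb ε m : ℝ) ≤ pt ε m := by
    have : pb ε m ≤ pt ε m :=
      Nat.floor_mono (Real.rpow_le_rpow_of_exponent_le hm1 (by linarith))
    exact_mod_cast this
  refine ⟨?_, htb, htb.trans hbt, ?_⟩
  · intro i hi
    have h3 : (m : ℝ) ^ (-(1 / 2) : ℝ) ≤ qi ε m i ^ (2 ^ (i + 1)) := by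
      unfold qi
      rw [← Real.exp_nat_mul, exp_log_mul hm, Real.exp_le_exp, ← hldef]
      have h4 := min_le_left (l / 2 ^ (i + 2)) (ε * l / 16)
      have h5 : ((2 ^ (i + 1) : ℕ) : ℝ) * (l / 2 ^ (i + 2)) = l / 2 := by
        push_cast
        rw [pow_succ (2 : ℝ) (i + 1)]
        field_simp
      have h6 : (0 : ℝ) ≤ ((2 ^ (i + 1) : ℕ) : ℝ) := Nat.cast_nonneg _
      nlinarith
    calc ptau ε m = (m : ℝ) ^ (ε / 16) := rfl
      _ ≤ (m : ℝ) ^ (ε / 16) * ((m : ℝ) ^ (1 / 2 - 9 * ε / 16) / 2) := by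
          nlinarith [hpos (ε / 16)]
      _ = (m : ℝ) ^ (1 - ε / 2) / 2 * (m : ℝ) ^ (-(1 / 2) : ℝ) := by
          rw [← mul_div_assoc, ← Real.rpow_add hm0, div_mul_eq_mul_div, ← Real.rpow_add hm0]
          congr 2
          ring
      _ ≤ pt ε m * qi ε m i ^ (2 ^ (i + 1)) :=
          mul_le_mul htge h3 (hpos _).le (Nat.cast_nonneg _)
  · have hbtm : (pb ε m : ℝ) * pt ε m ≤ (m : ℝ) ^ (1 - ε / 4) := by
      calc (pb ε m : ℝ) * pt ε m ≤ (m : ℝ) ^ (ε / 4) * (m : ℝ) ^ (1 - ε / 2) :=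
            mul_le_mul hble htle htpos.le (hpos _).le
        _ = (m : ℝ) ^ (1 - ε / 4) := by rw [← Real.rpow_add hm0]; congr 1; ring
    have hmm : (m : ℝ) ^ (1 - ε / 4) * (m : ℝ) ^ (ε / 4) = m := by
      rw [← Real.rpow_add hm0, show (1 - ε / 4 + ε / 4 : ℝ) = 1 by ring, Real.rpow_one]
    rintro (z | x | i)
    · have hcell : cells ε J m (B := B) (I := pI η m) (.inl z) = pb ε m * pt ε m := by
        simp [cells, gamC, tS]
      have hcap : cap ε χ Dc ε₁ m (B := B) (I := pI η m) (.inl z) =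
          (2 / Dc + 3 * ε₁) * (m / l) := rfl
      rw [hcell, hcap]
      refine ⟨by positivity, hbtm.trans ?_⟩
      have hc0 : 0 < ε * (2 / Dc + 3 * ε₁) := by positivity
      rw [pow_one, div_mul_eq_mul_div, one_mul, div_le_iff₀ hc0] at hZ
      rw [← mul_assoc, ← mul_div_assoc, le_div_iff₀ hl0]
      calc (m : ℝ) ^ (1 - ε / 4) * l ≤
            (m : ℝ) ^ (1 - ε / 4) * ((m : ℝ) ^ (ε / 4) * (ε * (2 / Dc + 3 * ε₁))) :=
            mul_le_mul_of_nonneg_left hZ (hpos _).le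
        _ = ε * (2 / Dc + 3 * ε₁) * m := by rw [← mul_assoc, hmm]; ring
    · have hcell : cells ε J m (B := B) (I := pI η m) (.inr (.inl x)) =
          (pq m : ℝ) * (pbg ε J m : ℝ) ^ J * pb ε m * pb ε m := by
        simp [cells, gamC, tS]
      have hcap : cap ε χ Dc ε₁ m (B := B) (I := pI η m) (.inr (.inl x)) =
          (1 + 3 * ε) * (χ / B) * (m / l) := rfl
      rw [hcell, hcap]
      have hq : (pq m : ℝ) ≤ 2 * l ^ 5 := by
        have h1 : (pq m : ℝ) < l ^ 5 + 1 := Nat.ceil_lt_add_one (by positivity)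
        have h3 : 1 ≤ l ^ 5 := one_le_pow₀ hl
        linarith
      have hq0 : (0 : ℝ) < pq m := by
        have : 0 < pq m := Nat.ceil_pos.2 (by rw [← hldef]; positivity)
        exact_mod_cast this
      have hgJ : (pbg ε J m : ℝ) ^ J ≤ (m : ℝ) ^ (1 - 2 * ε) := by
        calc (pbg ε J m : ℝ) ^ J ≤ ((m : ℝ) ^ ((1 - 2 * ε) / J)) ^ J :=
              pow_le_pow_left₀ hgpos.le hgle J
          _ = (m : ℝ) ^ (1 - 2 * ε) := by
              rw [← Real.rpow_natCast, ← Real.rpow_mul hm0.le]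
              congr 1
              field_simp
      refine ⟨by positivity, ?_⟩
      have hc0 : 0 < ε * ((1 + 3 * ε) * (χ / B)) := by positivity
      have h7 : (pq m : ℝ) * (pbg ε J m : ℝ) ^ J * pb ε m * pb ε m ≤
          2 * l ^ 5 * (m : ℝ) ^ (1 - 2 * ε) * (m : ℝ) ^ (ε / 4) * (m : ℝ) ^ (ε / 4) := by
        have p1 := hpos (1 - 2 * ε)
        have p2 := hpos (ε / 4)
        gcongr
      refine h7.trans ?_
      rw [div_mul_eq_mul_div, div_le_iff₀ hc0] at hX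
      rw [← mul_assoc, ← mul_div_assoc, le_div_iff₀ hl0]
      have h8 : (m : ℝ) ^ (1 - 2 * ε) * (m : ℝ) ^ (ε / 4) * (m : ℝ) ^ (ε / 4) =
          (m : ℝ) ^ (1 - 3 * ε / 2) := by
        rw [← Real.rpow_add hm0, ← Real.rpow_add hm0]; congr 1; ring
      have h9 : (m : ℝ) ^ (1 - 3 * ε / 2) * (m : ℝ) ^ (3 * ε / 2) = m := by
        rw [← Real.rpow_add hm0, show (1 - 3 * ε / 2 + 3 * ε / 2 : ℝ) = 1 by ring, Real.rpow_one]
      calc 2 * l ^ 5 * (m : ℝ) ^ (1 - 2 * ε) * (m : ℝ) ^ (ε / 4) * (m : ℝ) ^ (ε / 4) * l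
          = ((m : ℝ) ^ (1 - 2 * ε) * (m : ℝ) ^ (ε / 4) * (m : ℝ) ^ (ε / 4)) * (2 * l ^ 6) := by
            ring
        _ = (m : ℝ) ^ (1 - 3 * ε / 2) * (2 * l ^ 6) := by rw [h8]
        _ ≤ (m : ℝ) ^ (1 - 3 * ε / 2) *
            ((m : ℝ) ^ (3 * ε / 2) * (ε * ((1 + 3 * ε) * (χ / B)))) :=
            mul_le_mul_of_nonneg_left hX (hpos _).le
        _ = ε * ((1 + 3 * ε) * (χ / B)) * m := by rw [← mul_assoc, h9]; ring
    · have hcell : cells ε J m (B := B) (I := pI η m) (.inr (.inr i)) = pb ε m * pt ε m := by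
        simp [cells, gamC, tS]
      have hcap : cap ε χ Dc ε₁ m (B := B) (I := pI η m) (.inr (.inr i)) =
          2 * m / 2 ^ (i : ℕ) := rfl
      rw [hcell, hcap]
      refine ⟨by positivity, hbtm.trans ?_⟩
      have hi := i.2
      rw [lt_pI hη0 hl0, ← hldef] at hi
      have h2i : (0 : ℝ) < 2 ^ (i : ℕ) := by positivity
      rw [← mul_div_assoc, le_div_iff₀ h2i]
      rw [pow_one, div_mul_eq_mul_div, div_le_iff₀ (by positivity)] at hT
      calc (m : ℝ) ^ (1 - ε / 4) * 2 ^ (i : ℕ) ≤ (m : ℝ) ^ (1 - ε / 4) * (η * l) :=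
            mul_le_mul_of_nonneg_left hi.le (hpos _).le
        _ ≤ (m : ℝ) ^ (1 - ε / 4) * ((m : ℝ) ^ (ε / 4) * (2 * ε)) :=
            mul_le_mul_of_nonneg_left hT (hpos _).le
        _ = ε * (2 * m) := by rw [← mul_assoc, hmm]; ring

end Pool.Agent.Lib.MP_1f2a9f_co
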