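import Pool.Agent.Lib.MP_1f2a9f_co.TopDefs

/-!
# MP_1f2a9f_co : module NE, the error terms of the overflow
-/

namespace Pool.Agent.Lib.MP_1f2a9f_co

open Finset

namespace NumE

theorem ev_pow (k : ℕ) (b c : ℝ) (hb : 0 < b) (hc : 0 < c) :
    ∀ᶠ m : ℕ in Filter.atTop, (Real.log m) ^ k ≤ c * Real.exp (b * Real.log m) := by
  have h1 : Filter.Tendsto (fun m : ℕ => Real.log (m : ℝ)) Filter.atTop Filter.atTop :=
    Real.tendsto_log_atTop.comp tendsto_natCast_atTop_atTop
  have h2 := (isLittleO_pow_exp_pos_mul_atTop (k := k) hb).def hc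
  have h3 := h1.eventually h2
  filter_upwards [h3] with m hm
  rw [Real.norm_eq_abs, Real.norm_eq_abs, abs_of_pos (Real.exp_pos _)] at hm
  exact (le_abs_self _).trans hm

theorem ev_ge (c : ℝ) : ∀ᶠ m : ℕ in Filter.atTop, c ≤ Real.log m :=
  (Real.tendsto_log_atTop.comp tendsto_natCast_atTop_atTop).eventually_ge_atTop c

theorem inv_le (g : ℝ) (h0 : 0 ≤ g) (h1 : g ≤ 1 / 2) : 1 / (1 - g) ≤ Real.exp (2 * g) := by
  have h2 : (0 : ℝ) < 1 - g := by linarith
  rw [div_le_iff₀ h2]
  have h3 := Real.add_one_le_exp (2 * g)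
  nlinarith

theorem one_add_le (g : ℝ) : 1 + g ≤ Real.exp g := by
  have := Real.add_one_le_exp g
  linarith

theorem exp_le (y : ℝ) (h0 : 0 ≤ y) (h1 : y ≤ 1) : Real.exp y ≤ 1 + 2 * y := by
  have h2 := Real.abs_exp_sub_one_le (x := y) (by rw [abs_of_nonneg h0]; exact h1)
  rw [abs_of_nonneg h0] at h2
  have := (abs_le.mp h2).2
  linarith

theorem sig1_le (g : ℝ) (h0 : 0 ≤ g) (h1 : g ≤ 1 / 2) (n : ℕ) :
    (1 + g) ^ (2 * n) / (1 - g) ^ 2 ≤ Real.exp (g * (2 * n + 4)) := by
  have h2 : (0 : ℝ) < 1 - g := by linarith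
  have h3 : (1 + g) ^ (2 * n) ≤ Real.exp g ^ (2 * n) :=
    pow_le_pow_left₀ (by linarith) (one_add_le g) _
  have h4 : (1 / (1 - g)) ^ 2 ≤ Real.exp (2 * g) ^ 2 :=
    pow_le_pow_left₀ (by positivity) (inv_le g h0 h1) _
  calc (1 + g) ^ (2 * n) / (1 - g) ^ 2 = (1 + g) ^ (2 * n) * (1 / (1 - g)) ^ 2 := by
        rw [one_div, inv_pow, div_eq_mul_inv]
    _ ≤ Real.exp g ^ (2 * n) * Real.exp (2 * g) ^ 2 :=
        mul_le_mul h3 h4 (by positivity) (by positivity)
    _ = Real.exp (g * (2 * n + 4)) := by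
        rw [← Real.exp_nat_mul, ← Real.exp_nat_mul, ← Real.exp_add]
        congr 1
        push_cast
        ring

theorem sig2_le (g : ℝ) (h0 : 0 ≤ g) (h1 : g ≤ 1 / 2) (n : ℕ) :
    ((1 + g) / (1 - g)) ^ n ≤ Real.exp (3 * g * n) := by
  have h2 : (0 : ℝ) < 1 - g := by linarith
  have h3 : (1 + g) / (1 - g) ≤ Real.exp (3 * g) := by
    calc (1 + g) / (1 - g) = (1 + g) * (1 / (1 - g)) := by rw [mul_one_div]
      _ ≤ Real.exp g * Real.exp (2 * g) :=
          mul_le_mul (one_add_le g) (inv_le g h0 h1) (by positivity) (by positivity)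
      _ = Real.exp (3 * g) := by rw [← Real.exp_add]; congr 1; ring
  calc ((1 + g) / (1 - g)) ^ n ≤ Real.exp (3 * g) ^ n :=
        pow_le_pow_left₀ (by positivity) h3 _
    _ = Real.exp (3 * g * n) := by rw [← Real.exp_nat_mul]; congr 1; ring

end NumE

open NumE in
theorem num_over {ε η χ Dc ε₁ : ℝ} {B K J r : ℕ} (hc : Consts ε η χ Dc ε₁ B K J r) :
    ∃ m0 : ℕ, ∀ m ≥ m0, overNum ε η χ Dc B J m ≤ m / (Real.log m) ^ 3 := by
  have hε := hc.hε
  have hε1 := hc.hε1
  have hη0 : 0 < η := by rw [hc.hη]; positivity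
  have hη1 : η ≤ 1 := by rw [hc.hη]; nlinarith
  have hχ0 : 0 < χ := by rw [hc.hχ]; positivity
  have hDc0 : 0 < Dc := by rw [hc.hDc]; positivity
  have hB0 : (0 : ℝ) < B := by exact_mod_cast hc.hB
  have hJ0 : (0 : ℝ) < J := by
    have h1 := hc.hJ
    have h2 : (0 : ℝ) ≤ K := Nat.cast_nonneg K
    by_contra h3
    have h4 : (J : ℝ) ≤ 0 := not_lt.mp h3
    nlinarith
  obtain ⟨c2, hc2⟩ : ∃ c2, c2 = Dc + 2 := ⟨_, rfl⟩
  have hc20 : 0 < c2 := by rw [hc2]; linarith
  obtain ⟨q1, hq1⟩ : ∃ q1, q1 = 4 / ε + 4 * χ / ε + 1 := ⟨_, rfl⟩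
  have hq10 : 0 < q1 := by rw [hq1]; positivity
  have hq1a : 4 / ε ≤ q1 := by rw [hq1]; have : 0 ≤ 4 * χ / ε := by positivity
                               linarith
  have hq1b : 4 * χ / ε ≤ q1 := by rw [hq1]; have : 0 ≤ 4 / ε := by positivity
                                   linarith
  have hq1c : 1 ≤ q1 := by rw [hq1]; have : 0 ≤ 4 / ε + 4 * χ / ε := by positivity
                           linarith
  have hev : ∀ᶠ m : ℕ in Filter.atTop, overNum ε η χ Dc B J m ≤ m / (Real.log m) ^ 3 := by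
    filter_upwards [ev_ge 1, ev_pow 6 (ε / 64) (1 / (100 * q1)) (by positivity) (by positivity),
      ev_pow 4 (ε / (16 * J)) (1 / (10 * (6 * J * c2) * q1)) (by positivity) (by positivity),
      ev_pow 8 1 (1 / (80 * B)) (by norm_num) (by positivity),
      ev_ge (80 * ε * χ * c2 ^ 2 * B),
      ev_pow 10 (2 * ε) (1 / (40 * B * c2 ^ 2)) (by positivity) (by positivity),
      ev_pow 10 (ε / 4) (ε / 640) (by positivity) (by positivity),
      ev_pow 14 (3 * ε / 2) (ε / (320 * B)) (by positivity) (by positivity),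
      Filter.eventually_ge_atTop 1] with m hL hA hBB hC hD hE hF hG hm1
    have hM0 : (0 : ℝ) < m := by exact_mod_cast hm1
    obtain ⟨L, hLdef⟩ : ∃ L, L = Real.log m := ⟨_, rfl⟩
    have hMexp : (m : ℝ) = Real.exp L := by rw [hLdef, Real.exp_log hM0]
    rw [← hLdef] at hL hA hBB hC hD hE hF hG ⊢
    have hL0 : 0 < L := by linarith
    have hpow1 : ∀ k : ℕ, 1 ≤ L ^ k := fun k => one_le_pow₀ hL
    have hrpow : ∀ a : ℝ, (m : ℝ) ^ a = Real.exp (a * L) := by
      intro a
      rw [Real.rpow_def_of_pos hM0, ← hLdef, mul_comm]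
    -- bounds for the parameters
    have hpD : (pD m : ℝ) ≤ 2 * L ^ 3 + 1 := by
      unfold pD
      rw [← hLdef]
      exact (Nat.ceil_lt_add_one (by positivity)).le
    have hpDel : (pDel Dc m : ℝ) + 1 ≤ c2 * L := by
      unfold pDel
      rw [← hLdef]
      have := (Nat.ceil_lt_add_one (a := Dc * L) (by positivity)).le
      rw [hc2]
      nlinarith
    have hpq : (pq m : ℝ) ≤ 2 * L ^ 5 := by
      unfold pq
      rw [← hLdef]
      have := (Nat.ceil_lt_add_one (a := L ^ 5) (by positivity)).le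
      have := hpow1 5
      linarith
    have hpq' : L ^ 5 ≤ (pq m : ℝ) := by
      unfold pq
      rw [← hLdef]
      exact Nat.le_ceil _
    have hpbg : (pbg ε J m : ℝ) ^ J ≤ Real.exp ((1 - 2 * ε) * L) := by
      have h1 : (pbg ε J m : ℝ) ≤ (m : ℝ) ^ ((1 - 2 * ε) / J) := by
        unfold pbg
        exact Nat.floor_le (by positivity)
      calc (pbg ε J m : ℝ) ^ J ≤ ((m : ℝ) ^ ((1 - 2 * ε) / J)) ^ J :=
            pow_le_pow_left₀ (Nat.cast_nonneg _) h1 _
        _ = Real.exp ((1 - 2 * ε) * L) := by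
            rw [hrpow, ← Real.exp_nat_mul]
            congr 1
            field_simp
    have hpb : (pb ε m : ℝ) ≤ Real.exp (ε / 4 * L) := by
      rw [← hrpow]
      unfold pb
      exact Nat.floor_le (by positivity)
    have hpt : (pt ε m : ℝ) ≤ Real.exp ((1 - ε / 2) * L) := by
      rw [← hrpow]
      unfold pt
      exact Nat.floor_le (by positivity)
    have hpI : (pI η m : ℝ) ≤ 3 * L := by
      unfold pI
      rw [← hLdef]
      rcases le_or_gt (Real.logb 2 (η * L)) 0 with h | h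
      · rw [Nat.ceil_eq_zero.mpr h]
        simp
        exact hL0.le
      · have h1 := (Nat.ceil_lt_add_one (a := Real.logb 2 (η * L)) h.le).le
        have h2 : Real.logb 2 (η * L) ≤ 2 * L := by
          have hηL : 0 < η * L := by positivity
          rw [Real.logb, div_le_iff₀ (Real.log_pos (by norm_num))]
          have h3 := Real.log_le_sub_one_of_pos hηL
          have h4 : η * L ≤ L := by nlinarith
          have h5 : (0.6931471803 : ℝ) < Real.log 2 := Real.log_two_gt_d9
          nlinarith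
        linarith
    obtain ⟨g, hg⟩ : ∃ g, g = pgam ε m := ⟨_, rfl⟩
    have hgexp : g = Real.exp (-(ε / 64) * L) := by rw [hg]; unfold pgam; rw [hrpow]
    have hg0 : 0 < g := by rw [hgexp]; exact Real.exp_pos _
    have hgL : g * L ^ 6 ≤ 1 / (100 * q1) := by
      rw [hgexp]
      calc Real.exp (-(ε / 64) * L) * L ^ 6 ≤
            Real.exp (-(ε / 64) * L) * (1 / (100 * q1) * Real.exp (ε / 64 * L)) :=
            mul_le_mul_of_nonneg_left hA (Real.exp_pos _).le
        _ = 1 / (100 * q1) * (Real.exp (-(ε / 64) * L) * Real.exp (ε / 64 * L)) := by ring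
        _ = 1 / (100 * q1) := by
            rw [← Real.exp_add]
            have : -(ε / 64) * L + ε / 64 * L = 0 := by ring
            rw [this, Real.exp_zero, mul_one]
    have h100 : 1 / (100 * q1) ≤ 1 / 100 := by
      apply one_div_le_one_div_of_le (by norm_num)
      nlinarith
    have hg12 : g ≤ 1 / 2 := by
      have h1 : g ≤ g * L ^ 6 := le_mul_of_one_le_right hg0.le (hpow1 6)
      linarith
    obtain ⟨gg, hgg⟩ : ∃ gg, gg = pgamg ε J m := ⟨_, rfl⟩
    have hggexp : gg = Real.exp (-(ε / (16 * J)) * L) := by rw [hgg]; unfold pgamg; rw [hrpow]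
    have hgg0 : 0 < gg := by rw [hggexp]; exact Real.exp_pos _
    have hggL : gg * L ^ 4 ≤ 1 / (10 * (6 * J * c2) * q1) := by
      rw [hggexp]
      calc Real.exp (-(ε / (16 * J)) * L) * L ^ 4 ≤
            Real.exp (-(ε / (16 * J)) * L) * (1 / (10 * (6 * J * c2) * q1) *
              Real.exp (ε / (16 * J) * L)) :=
            mul_le_mul_of_nonneg_left hBB (Real.exp_pos _).le
        _ = 1 / (10 * (6 * J * c2) * q1) *
            (Real.exp (-(ε / (16 * J)) * L) * Real.exp (ε / (16 * J) * L)) := by ring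
        _ = 1 / (10 * (6 * J * c2) * q1) := by
            rw [← Real.exp_add]
            have : -(ε / (16 * J)) * L + ε / (16 * J) * L = 0 := by ring
            rw [this, Real.exp_zero, mul_one]
    have hJ1 : (1 : ℝ) ≤ J := by
      have : 0 < J := by exact_mod_cast hJ0
      exact_mod_cast this
    have hgg12 : gg ≤ 1 / 2 := by
      have h1 : gg ≤ gg * L ^ 4 := le_mul_of_one_le_right hgg0.le (hpow1 4)
      have h2 : 1 / (10 * (6 * J * c2) * q1) ≤ 1 / 2 := by
        apply one_div_le_one_div_of_le (by norm_num)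
        have h3 : 2 ≤ c2 := by rw [hc2]; linarith
        have h4 : 2 ≤ J * c2 := by nlinarith
        calc (2 : ℝ) ≤ 10 * (6 * 2) * 1 := by norm_num
          _ ≤ 10 * (6 * (J * c2)) * q1 := by gcongr
          _ = 10 * (6 * J * c2) * q1 := by ring
      linarith
    -- Y1, Y2
    obtain ⟨Y1, hY1⟩ : ∃ Y1, Y1 = g * (2 * pD m + 4) := ⟨_, rfl⟩
    obtain ⟨Y2, hY2⟩ : ∃ Y2, Y2 = 6 * J * gg * (pDel Dc m + 1) := ⟨_, rfl⟩
    have hY10 : 0 ≤ Y1 := by rw [hY1]; positivity
    have hY20 : 0 ≤ Y2 := by rw [hY2]; positivity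
    have hY1L : Y1 * L ^ 3 * q1 ≤ 1 / 10 := by
      have h1 : (2 * (pD m : ℝ) + 4) ≤ 10 * L ^ 3 := by
        have := hpow1 3
        linarith
      have h2 : Y1 ≤ g * (10 * L ^ 3) := by
        rw [hY1]; exact mul_le_mul_of_nonneg_left h1 hg0.le
      calc Y1 * L ^ 3 * q1 ≤ g * (10 * L ^ 3) * L ^ 3 * q1 := by gcongr
        _ = 10 * (g * L ^ 6) * q1 := by ring
        _ ≤ 10 * (1 / (100 * q1)) * q1 := by gcongr
        _ = 1 / 10 := by field_simp; norm_num
    have hY2L : Y2 * L ^ 3 * q1 ≤ 1 / 10 := by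
      have h2 : Y2 ≤ 6 * J * gg * (c2 * L) := by
        rw [hY2]; exact mul_le_mul_of_nonneg_left hpDel (by positivity)
      calc Y2 * L ^ 3 * q1 ≤ 6 * J * gg * (c2 * L) * L ^ 3 * q1 := by gcongr
        _ = (6 * J * c2) * (gg * L ^ 4) * q1 := by ring
        _ ≤ (6 * J * c2) * (1 / (10 * (6 * J * c2) * q1)) * q1 := by gcongr
        _ = 1 / 10 := by field_simp
    have hY1s : Y1 ≤ 1 / 10 := by
      have h1 : Y1 * 1 * 1 ≤ Y1 * L ^ 3 * q1 := by
        gcongr
        exact hpow1 3
      linarith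
    have hY2s : Y2 ≤ 1 / 10 := by
      have h1 : Y2 * 1 * 1 ≤ Y2 * L ^ 3 * q1 := by
        gcongr
        exact hpow1 3
      linarith
    have hs1 : sig1 ε m ≤ Real.exp Y1 := by
      rw [hY1]
      unfold sig1
      rw [← hg]
      exact sig1_le g hg0.le hg12 (pD m)
    have hs2 : sig2 ε Dc J m ≤ Real.exp Y2 := by
      unfold sig2
      rw [← hgg]
      refine (sig2_le gg hgg0.le hgg12 _).trans (le_of_eq ?_)
      rw [hY2]
      congr 1
      push_cast
      ring
    have hs10 : 0 ≤ sig1 ε m := by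
      unfold sig1
      rw [← hg]
      have : 0 < 1 - g := by linarith
      positivity
    have hs20 : 0 ≤ sig2 ε Dc J m := by
      unfold sig2
      rw [← hgg]
      have : 0 < 1 - gg := by linarith
      positivity
    have hs1a : sig1 ε m ≤ 1 + 2 * Y1 := hs1.trans (exp_le Y1 hY10 (by linarith))
    have hs12 : sig1 ε m * sig2 ε Dc J m ≤ 1 + 2 * (Y1 + Y2) := by
      calc sig1 ε m * sig2 ε Dc J m ≤ Real.exp Y1 * Real.exp Y2 :=
            mul_le_mul hs1 hs2 hs20 (Real.exp_pos _).le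
        _ = Real.exp (Y1 + Y2) := (Real.exp_add _ _).symm
        _ ≤ 1 + 2 * (Y1 + Y2) := exp_le _ (by linarith) (by linarith)
    have hs12' : sig1 ε m * sig2 ε Dc J m ≤ 2 := by linarith
    have hs1' : sig1 ε m ≤ 2 := by linarith
    have hs12n : 0 ≤ sig1 ε m * sig2 ε Dc J m := mul_nonneg hs10 hs20
    -- the unit
    obtain ⟨u, hu⟩ : ∃ u, u = (m : ℝ) / L ^ 3 := ⟨_, rfl⟩
    have hu0 : 0 < u := by rw [hu]; positivity
    have hmu : (m : ℝ) = u * L ^ 3 := by rw [hu]; field_simp
    rw [← hu]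
    -- T1
    have hT1 : (sig1 ε m - 1) * (2 * m) / ε ≤ u / 10 := by
      calc (sig1 ε m - 1) * (2 * m) / ε ≤ (2 * Y1) * (2 * m) / ε := by
            gcongr
            linarith
        _ = u * (Y1 * L ^ 3 * (4 / ε)) := by rw [hmu]; ring
        _ ≤ u * (Y1 * L ^ 3 * q1) := by gcongr
        _ ≤ u * (1 / 10) := by gcongr
        _ = u / 10 := by ring
    -- T2
    have hT2 : (sig1 ε m * sig2 ε Dc J m - 1) * (2 * χ / ε) * (m / L) ≤ u / 5 := by
      have hmL : (m : ℝ) / L ≤ m := div_le_self hM0.le hL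
      calc (sig1 ε m * sig2 ε Dc J m - 1) * (2 * χ / ε) * (m / L)
          ≤ (2 * (Y1 + Y2)) * (2 * χ / ε) * m := by
            have h1 : (sig1 ε m * sig2 ε Dc J m - 1) ≤ 2 * (Y1 + Y2) := by linarith
            have h2 : (sig1 ε m * sig2 ε Dc J m - 1) * (2 * χ / ε) ≤
              (2 * (Y1 + Y2)) * (2 * χ / ε) := mul_le_mul_of_nonneg_right h1 (by positivity)
            calc (sig1 ε m * sig2 ε Dc J m - 1) * (2 * χ / ε) * (m / L) ≤
                (2 * (Y1 + Y2)) * (2 * χ / ε) * (m / L) :=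
                  mul_le_mul_of_nonneg_right h2 (by positivity)
              _ ≤ (2 * (Y1 + Y2)) * (2 * χ / ε) * m :=
                  mul_le_mul_of_nonneg_left hmL (by positivity)
        _ = u * (Y1 * L ^ 3 * (4 * χ / ε)) + u * (Y2 * L ^ 3 * (4 * χ / ε)) := by
            rw [hmu]; ring
        _ ≤ u * (Y1 * L ^ 3 * q1) + u * (Y2 * L ^ 3 * q1) := by gcongr
        _ ≤ u * (1 / 10) + u * (1 / 10) := by gcongr
        _ = u / 5 := by ring
    -- T3
    have hT3 : sig1 ε m * sig2 ε Dc J m * (2 * pq m * B +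
        4 * (ε * χ * (m / L)) * (pDel Dc m : ℝ) ^ 2 * B / pq m) ≤ u / 5 := by
      have hpDel' : (pDel Dc m : ℝ) ≤ c2 * L := by linarith
      have ha : 2 * (pq m : ℝ) * B ≤ u / 20 := by
        have h1 : L ^ 8 ≤ 1 / (80 * B) * (m : ℝ) := by
          have := hC
          rw [one_mul, ← hMexp] at this
          exact this
        have h2 : 80 * B * L ^ 5 ≤ u := by
          rw [hu, le_div_iff₀ (by positivity)]
          calc 80 * B * L ^ 5 * L ^ 3 = 80 * B * L ^ 8 := by ring
            _ ≤ 80 * B * (1 / (80 * B) * (m : ℝ)) := by gcongr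
            _ = m := by field_simp
        calc 2 * (pq m : ℝ) * B ≤ 2 * (2 * L ^ 5) * B := by gcongr
          _ = (80 * B * L ^ 5) / 20 := by ring
          _ ≤ u / 20 := by gcongr
      have hb : 4 * (ε * χ * (m / L)) * (pDel Dc m : ℝ) ^ 2 * B / pq m ≤ u / 20 := by
        calc 4 * (ε * χ * (m / L)) * (pDel Dc m : ℝ) ^ 2 * B / pq m ≤
              4 * (ε * χ * (m / L)) * (c2 * L) ^ 2 * B / L ^ 5 := by gcongr
          _ = (80 * ε * χ * c2 ^ 2 * B) * (u / L) / 20 := by
              rw [hu]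
              field_simp
              ring
          _ ≤ L * (u / L) / 20 := by gcongr
          _ = u / 20 := by field_simp
      calc sig1 ε m * sig2 ε Dc J m * (2 * pq m * B +
            4 * (ε * χ * (m / L)) * (pDel Dc m : ℝ) ^ 2 * B / pq m) ≤
            2 * (u / 20 + u / 20) := by
            apply mul_le_mul hs12' (by linarith) (by positivity) (by norm_num)
        _ = u / 5 := by ring
    -- T4
    have hT4 : sig1 ε m * pq m * (pbg ε J m : ℝ) ^ J * B * ((pDel Dc m : ℝ) + 1) ^ 2 ≤ u / 10 := by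
      calc sig1 ε m * pq m * (pbg ε J m : ℝ) ^ J * B * ((pDel Dc m : ℝ) + 1) ^ 2 ≤
            2 * (2 * L ^ 5) * Real.exp ((1 - 2 * ε) * L) * B * (c2 * L) ^ 2 := by gcongr
        _ = (4 * B * c2 ^ 2) * L ^ 10 * Real.exp ((1 - 2 * ε) * L) / L ^ 3 := by
            field_simp
            norm_num
        _ ≤ (4 * B * c2 ^ 2) * (1 / (40 * B * c2 ^ 2) * Real.exp (2 * ε * L)) *
            Real.exp ((1 - 2 * ε) * L) / L ^ 3 := by gcongr
        _ = (Real.exp (2 * ε * L) * Real.exp ((1 - 2 * ε) * L)) / L ^ 3 / 10 := by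
            field_simp
            norm_num
        _ = u / 10 := by
            rw [← Real.exp_add]
            have : 2 * ε * L + (1 - 2 * ε) * L = L := by ring
            rw [this, ← hMexp, hu]
    -- T5
    have hcells : ∑ l : Lev B (pI η m), cells ε J m l ≤
        (1 + 3 * L) * Real.exp ((1 - ε / 4) * L) +
        B * (2 * L ^ 5 * Real.exp ((1 - 3 * ε / 2) * L)) := by
      have hbt : (pb ε m : ℝ) * pt ε m ≤ Real.exp ((1 - ε / 4) * L) := by
        calc (pb ε m : ℝ) * pt ε m ≤ Real.exp (ε / 4 * L) * Real.exp ((1 - ε / 2) * L) := by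
              gcongr
          _ = Real.exp ((1 - ε / 4) * L) := by rw [← Real.exp_add]; congr 1; ring
      have hx : (pq m : ℝ) * (pbg ε J m : ℝ) ^ J * pb ε m * pb ε m ≤
          2 * L ^ 5 * Real.exp ((1 - 3 * ε / 2) * L) := by
        calc (pq m : ℝ) * (pbg ε J m : ℝ) ^ J * pb ε m * pb ε m ≤
              2 * L ^ 5 * Real.exp ((1 - 2 * ε) * L) * Real.exp (ε / 4 * L) *
                Real.exp (ε / 4 * L) := by gcongr
          _ = 2 * L ^ 5 * (Real.exp ((1 - 2 * ε) * L) * Real.exp (ε / 4 * L) *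
                Real.exp (ε / 4 * L)) := by ring
          _ = 2 * L ^ 5 * Real.exp ((1 - 3 * ε / 2) * L) := by
              rw [← Real.exp_add, ← Real.exp_add]
              congr 2
              ring
      rw [Fintype.sum_sum_type, Fintype.sum_sum_type]
      simp only [cells, gamC, tS, Finset.sum_const, Finset.card_univ, Fintype.card_fin,
        Fintype.card_unit, nsmul_eq_mul]
      push_cast
      have h1 : (pI η m : ℝ) * (1 * (pb ε m) * pt ε m) ≤
          3 * L * Real.exp ((1 - ε / 4) * L) := by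
        rw [one_mul]
        gcongr
      have h2 : (B : ℝ) * ((pq m : ℝ) * (pbg ε J m : ℝ) ^ J * pb ε m * pb ε m) ≤
          B * (2 * L ^ 5 * Real.exp ((1 - 3 * ε / 2) * L)) := by gcongr
      nlinarith
    have hT5 : ((pD m : ℝ) + 1) ^ 2 / ε * ∑ l : Lev B (pI η m), cells ε J m l ≤ u / 5 := by
      have h16 : ((pD m : ℝ) + 1) ^ 2 ≤ 16 * L ^ 6 := by
        have h1 : (pD m : ℝ) + 1 ≤ 4 * L ^ 3 := by
          have := hpow1 3
          linarith
        calc ((pD m : ℝ) + 1) ^ 2 ≤ (4 * L ^ 3) ^ 2 := by gcongr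
          _ = 16 * L ^ 6 := by ring
      have h2 : (1 + 3 * L) * Real.exp ((1 - ε / 4) * L) ≤
          4 * L * Real.exp ((1 - ε / 4) * L) := by
        gcongr
        linarith
      have hcn : 0 ≤ ∑ l : Lev B (pI η m), cells ε J m l :=
        Finset.sum_nonneg (fun l _ => by unfold cells; positivity)
      have h3 : 16 * L ^ 6 / ε * (4 * L * Real.exp ((1 - ε / 4) * L)) ≤ u / 10 := by
        calc 16 * L ^ 6 / ε * (4 * L * Real.exp ((1 - ε / 4) * L)) =
              64 / ε * L ^ 10 * Real.exp ((1 - ε / 4) * L) / L ^ 3 := by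
              field_simp
              norm_num
          _ ≤ 64 / ε * (ε / 640 * Real.exp (ε / 4 * L)) * Real.exp ((1 - ε / 4) * L) / L ^ 3 := by
              gcongr
          _ = (Real.exp (ε / 4 * L) * Real.exp ((1 - ε / 4) * L)) / L ^ 3 / 10 := by
              field_simp
              norm_num
          _ = u / 10 := by
              rw [← Real.exp_add]
              have : ε / 4 * L + (1 - ε / 4) * L = L := by ring
              rw [this, ← hMexp, hu]
      have h4 : 16 * L ^ 6 / ε * (B * (2 * L ^ 5 * Real.exp ((1 - 3 * ε / 2) * L))) ≤ u / 10 := by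
        calc 16 * L ^ 6 / ε * (B * (2 * L ^ 5 * Real.exp ((1 - 3 * ε / 2) * L))) =
              32 * B / ε * L ^ 14 * Real.exp ((1 - 3 * ε / 2) * L) / L ^ 3 := by
              field_simp
              norm_num
          _ ≤ 32 * B / ε * (ε / (320 * B) * Real.exp (3 * ε / 2 * L)) *
                Real.exp ((1 - 3 * ε / 2) * L) / L ^ 3 := by
              gcongr
          _ = (Real.exp (3 * ε / 2 * L) * Real.exp ((1 - 3 * ε / 2) * L)) / L ^ 3 / 10 := by
              field_simp
              norm_num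
          _ = u / 10 := by
              rw [← Real.exp_add]
              have : 3 * ε / 2 * L + (1 - 3 * ε / 2) * L = L := by ring
              rw [this, ← hMexp, hu]
      calc ((pD m : ℝ) + 1) ^ 2 / ε * ∑ l : Lev B (pI η m), cells ε J m l ≤
            16 * L ^ 6 / ε * (4 * L * Real.exp ((1 - ε / 4) * L) +
              B * (2 * L ^ 5 * Real.exp ((1 - 3 * ε / 2) * L))) := by
            apply mul_le_mul _ (by linarith) hcn (by positivity)
            gcongr
        _ ≤ u / 5 := by rw [mul_add]; linarith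
    unfold overNum
    rw [← hLdef]
    linarith
  exact Filter.eventually_atTop.mp hev

end Pool.Agent.Lib.MP_1f2a9f_co
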