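import Pool.Agent.Lib.MP_1f2a9f_co.Defs

/-!
# MP_1f2a9f_co : module L3, the key inequality of the lower bound
-/

namespace Pool.Agent.Lib.MP_1f2a9f_co

open Finset

namespace Low3

/-- Factorisation of a sum over all `b : Fin n → Fin D → Fin n`. -/
theorem sum_prod_prod (n D : ℕ) (F : Fin n → Fin n → ℝ) :
    ∑ b : Fin n → Fin D → Fin n, ∏ i, ∏ d, F i (b i d) = ∏ i, (∑ j, F i j) ^ D := by
  have h1 : ∀ i, (∑ j, F i j) ^ D = ∑ c : Fin D → Fin n, ∏ d, F i (c d) := by
    intro i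
    have := Finset.prod_univ_sum (fun _ : Fin D => (univ : Finset (Fin n)))
      (fun (_ : Fin D) j => F i j)
    simpa [Fintype.piFinset_univ] using this
  rw [Finset.prod_congr rfl (fun i _ => h1 i)]
  have := Finset.prod_univ_sum (fun _ : Fin n => (univ : Finset (Fin D → Fin n)))
    (fun i c => ∏ d, F i (c d))
  simpa [Fintype.piFinset_univ] using this.symm

theorem exp_le (y : ℝ) (h : |y| ≤ 1) : Real.exp y ≤ 1 + y + y ^ 2 := by
  have h1 := Real.abs_exp_sub_one_sub_id_le h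
  have h2 := (abs_le.mp h1).2
  linarith

theorem mean_exp (n : ℕ) (hn : 1 ≤ n) (x : Fin n → ℝ) (B θ : ℝ) (hx : ∀ j, |x j| ≤ B)
    (hθ : 0 ≤ θ) (hθB : 2 * B * θ ≤ 1) :
    ∑ j, Real.exp (θ * ((∑ j, x j) / n - x j)) ≤ n * Real.exp (4 * θ ^ 2 * B ^ 2) := by
  have hn0 : (0 : ℝ) < n := by exact_mod_cast hn
  obtain ⟨μ, hμ⟩ : ∃ μ, μ = (∑ j, x j) / n := ⟨_, rfl⟩
  rw [← hμ]
  have hsum : ∑ j, x j = n * μ := by rw [hμ]; field_simp
  have hμB : |μ| ≤ B := by
    rw [hμ, abs_div, abs_of_pos hn0, div_le_iff₀ hn0]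
    calc |∑ j, x j| ≤ ∑ j, |x j| := Finset.abs_sum_le_sum_abs _ _
      _ ≤ ∑ _j : Fin n, B := Finset.sum_le_sum (fun j _ => hx j)
      _ = B * n := by simp [mul_comm]
  have hdiff : ∀ j, |μ - x j| ≤ 2 * B := by
    intro j
    calc |μ - x j| ≤ |μ| + |x j| := abs_sub _ _
      _ ≤ 2 * B := by linarith [hx j]
  have hterm : ∀ j, Real.exp (θ * (μ - x j)) ≤ 1 + θ * (μ - x j) + 4 * θ ^ 2 * B ^ 2 := by
    intro j
    have h1 : |θ * (μ - x j)| ≤ 2 * B * θ := by
      rw [abs_mul, abs_of_nonneg hθ]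
      nlinarith [hdiff j]
    have h2 := exp_le (θ * (μ - x j)) (h1.trans hθB)
    have h3 : (θ * (μ - x j)) ^ 2 ≤ (2 * B * θ) ^ 2 := by
      rw [← sq_abs (θ * (μ - x j))]
      exact pow_le_pow_left₀ (abs_nonneg _) h1 2
    nlinarith
  calc ∑ j, Real.exp (θ * (μ - x j)) ≤ ∑ j, (1 + θ * (μ - x j) + 4 * θ ^ 2 * B ^ 2) :=
        Finset.sum_le_sum (fun j _ => hterm j)
    _ = n * (1 + 4 * θ ^ 2 * B ^ 2) := by
        rw [Finset.sum_add_distrib, Finset.sum_add_distrib, ← Finset.mul_sum,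
          Finset.sum_sub_distrib, hsum]
        simp
        ring
    _ ≤ n * Real.exp (4 * θ ^ 2 * B ^ 2) := by
        apply mul_le_mul_of_nonneg_left _ hn0.le
        have := Real.add_one_le_exp (4 * θ ^ 2 * B ^ 2)
        linarith

/-- The number of `b` with an atypically small sum. -/
theorem atyp (n D : ℕ) (hn : 1 ≤ n) (x : Fin n → Fin n → ℝ) (B : ℝ) (hB : 1 ≤ B)
    (hx : ∀ i j, |x i j| ≤ B) (τ : ℝ) (hτ : 0 < τ) (hτ1 : τ ≤ 1) :
    ((univ.filter (fun b : Fin n → Fin D → Fin n => ∑ i, ∑ d, x i (b i d) <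
      n * D * ((∑ i, ∑ j, x i j) / (n : ℝ) ^ 2 - τ))).card : ℝ) ≤
      (n : ℝ) ^ (n * D) * Real.exp (-(n * D * τ ^ 2 / (16 * B ^ 2))) := by
  have hn0 : (0 : ℝ) < n := by exact_mod_cast hn
  have hB0 : 0 < B := by linarith
  obtain ⟨θ, hθ⟩ : ∃ θ, θ = τ / (8 * B ^ 2) := ⟨_, rfl⟩
  have hθ0 : 0 ≤ θ := by rw [hθ]; positivity
  have hθB : 2 * B * θ ≤ 1 := by
    rw [hθ]
    rw [mul_div_assoc', div_le_one (by positivity)]
    nlinarith
  have hmain : ∀ b : Fin n → Fin D → Fin n,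
      (∏ i, ∏ d, Real.exp (θ * ((∑ j, x i j) / n - x i (b i d)))) =
      Real.exp (θ * (n * D * ((∑ i, ∑ j, x i j) / (n : ℝ) ^ 2) - ∑ i, ∑ d, x i (b i d))) := by
    intro b
    have h1 : ∀ i, ∏ d, Real.exp (θ * ((∑ j, x i j) / n - x i (b i d))) =
        Real.exp (∑ d, (θ * ((∑ j, x i j) / n - x i (b i d)))) := fun i =>
      (Real.exp_sum _ _).symm
    rw [Finset.prod_congr rfl (fun i _ => h1 i), ← Real.exp_sum]
    congr 1
    simp only [← Finset.mul_sum, Finset.sum_sub_distrib, Finset.sum_const, Finset.card_univ,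
      Fintype.card_fin, nsmul_eq_mul]
    congr 2
    rw [← Finset.sum_div]
    field_simp
  calc ((univ.filter (fun b : Fin n → Fin D → Fin n => ∑ i, ∑ d, x i (b i d) <
      n * D * ((∑ i, ∑ j, x i j) / (n : ℝ) ^ 2 - τ))).card : ℝ)
      ≤ ∑ b : Fin n → Fin D → Fin n, Real.exp (θ * (n * D * ((∑ i, ∑ j, x i j) /
          (n : ℝ) ^ 2) - ∑ i, ∑ d, x i (b i d))) * Real.exp (-(θ * (n * D * τ))) := by
        rw [Finset.card_filter]
        push_cast
        apply Finset.sum_le_sum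
        intro b _
        split_ifs with hb
        · rw [← Real.exp_add]
          apply Real.one_le_exp
          have : 0 ≤ θ * (n * D * ((∑ i, ∑ j, x i j) / (n : ℝ) ^ 2 - τ) -
            ∑ i, ∑ d, x i (b i d)) := mul_nonneg hθ0 (by linarith)
          nlinarith
        · positivity
    _ = (∏ i, (∑ j, Real.exp (θ * ((∑ j, x i j) / n - x i j))) ^ D) *
          Real.exp (-(θ * (n * D * τ))) := by
        rw [← Finset.sum_mul, ← sum_prod_prod]
        congr 1
        exact Finset.sum_congr rfl (fun b _ => (hmain b).symm)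
    _ ≤ (∏ _i : Fin n, (n * Real.exp (4 * θ ^ 2 * B ^ 2)) ^ D) *
          Real.exp (-(θ * (n * D * τ))) := by
        apply mul_le_mul_of_nonneg_right _ (Real.exp_pos _).le
        apply Finset.prod_le_prod
        · intro i _
          exact pow_nonneg (Finset.sum_nonneg (fun j _ => (Real.exp_pos _).le)) _
        · intro i _
          apply pow_le_pow_left₀ (Finset.sum_nonneg (fun j _ => (Real.exp_pos _).le))
          exact mean_exp n hn (x i) B θ (hx i) hθ0 hθB
    _ = (n : ℝ) ^ (n * D) * Real.exp (-(n * D * τ ^ 2 / (16 * B ^ 2))) := by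
        rw [Finset.prod_const, Finset.card_univ, Fintype.card_fin, ← pow_mul, mul_pow,
          ← Real.exp_nat_mul, mul_assoc, ← Real.exp_add, mul_comm D n]
        congr 2
        rw [hθ]
        push_cast
        field_simp
        ring

/-- The number of bijections from `Fin n` to `S`. -/
theorem card_bij (n N : ℕ) (S : Finset (Fin N)) (hS : S.card = n)
    (Φ : Finset (Fin n → Fin N))
    (hΦ : ∀ φ ∈ Φ, Function.Injective φ ∧ Finset.image φ univ = S) :
    Φ.card ≤ n.factorial := by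
  classical
  have h1 : Fintype.card (Fin n ↪ S) = n.factorial := by
    rw [Fintype.card_embedding_eq, Fintype.card_coe, hS, Fintype.card_fin, Nat.descFactorial_self]
  rw [← h1, ← Finset.card_univ]
  apply Finset.card_le_card_of_injOn
    (fun φ => if h : (Function.Injective φ ∧ Finset.image φ univ = S) then
      (⟨fun i => ⟨φ i, by rw [← h.2]; exact Finset.mem_image_of_mem _ (Finset.mem_univ _)⟩,
        fun i j hij => h.1 (by simpa using hij)⟩ : Fin n ↪ S)
      else ⟨fun i => (S.equivFin.symm (Fin.cast hS.symm i)), fun i j hij => by simpa using hij⟩)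
  · intro φ _
    simp
  · intro φ hφ ψ hψ hEq
    have h2 := hΦ φ (by simpa using hφ)
    have h3 := hΦ ψ (by simpa using hψ)
    simp only [dif_pos h2, dif_pos h3] at hEq
    funext i
    exact congrArg (fun f : Fin n ↪ S => ((f i : S) : Fin N)) hEq

/-- AM-GM in logarithmic form. -/
theorem sum_log_le {ι : Type} (S : Finset ι) (hS : 0 < S.card) (Z : ι → ℝ)
    (hZ : ∀ u ∈ S, 0 < Z u) :
    ∑ u ∈ S, Real.log (Z u) ≤ S.card * Real.log ((∑ u ∈ S, Z u) / S.card) := by
  have hc : (0 : ℝ) < S.card := by exact_mod_cast hS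
  have h := (strictConcaveOn_log_Ioi.concaveOn).le_map_sum (t := S)
    (w := fun _ => (1 : ℝ) / S.card) (p := Z) (fun i _ => by positivity)
    (by rw [Finset.sum_const, nsmul_eq_mul]; field_simp) (fun i hi => hZ i hi)
  simp only [smul_eq_mul] at h
  rw [← Finset.mul_sum, ← Finset.mul_sum] at h
  have h2 : (1 / (S.card : ℝ)) * ∑ u ∈ S, Z u = (∑ u ∈ S, Z u) / S.card := by ring
  rw [h2] at h
  have h3 := mul_le_mul_of_nonneg_left h hc.le
  rw [← mul_assoc, mul_one_div_cancel hc.ne', one_mul] at h3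
  exact h3

end Low3

open Low3 in
open Classical in
theorem key_ineq (n D N : ℕ) (hn : 1 ≤ n) (hD : 1 ≤ D) (G : SimpleGraph (Fin N))
    (S : Finset (Fin N)) (hS : S.card = n) (C : ℝ) (hC : 0 ≤ C)
    (hcount : (n : ℝ) ^ (n * D) * Real.exp (-(C * n)) ≤
      ({b : Fin n → Fin D → Fin n | ∃ φ : Fin n → Fin N, Function.Injective φ ∧
        Finset.image φ univ = S ∧ ∀ i d, φ i = φ (b i d) ∨ G.Adj (φ i) (φ (b i d))}.ncard : ℝ))
    {K : Type} [Fintype K] [DecidableEq K] (cell : Fin N → K) (z : K → K → ℝ) (B : ℝ) (hB : 1 ≤ B)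
    (hz : ∀ x y, 0 < z x y) (hzB : ∀ x y, |Real.log (z x y)| ≤ B)
    (τ : ℝ) (hτ : 0 < τ) (hτ1 : τ ≤ 1)
    (hnum : C * n + n * Real.log (Fintype.card K) + Real.log 2 ≤ n * D * τ ^ 2 / (16 * B ^ 2)) :
    n * D * ((∑ u ∈ S, ∑ v ∈ S, Real.log (z (cell u) (cell v))) / (n : ℝ) ^ 2 - τ)
      - C * n - n * Real.log (Fintype.card K) - Real.log 2 ≤
    Real.log n.factorial + n * D * Real.log
      ((∑ u ∈ S, ∑ v ∈ S.filter (fun v => u = v ∨ G.Adj u v), z (cell u) (cell v)) /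
        (n : ℝ) ^ 2) := by
  have hn0 : (0 : ℝ) < n := by exact_mod_cast hn
  have hSne : S.Nonempty := by rw [← Finset.card_pos, hS]; exact hn
  obtain ⟨u0, hu0⟩ := hSne
  have hKpos : 0 < Fintype.card K := Fintype.card_pos_iff.mpr ⟨cell u0⟩
  have hK0 : (0 : ℝ) < Fintype.card K := by exact_mod_cast hKpos
  -- the hosted functions
  obtain ⟨host, hhost⟩ : ∃ host : (Fin n → Fin D → Fin n) → (Fin n → Fin N) → Prop,
      host = fun b φ => Function.Injective φ ∧ Finset.image φ univ = S ∧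
        ∀ i d, φ i = φ (b i d) ∨ G.Adj (φ i) (φ (b i d)) := ⟨_, rfl⟩
  obtain ⟨T, hT⟩ : ∃ T : Finset (Fin n → Fin D → Fin n),
      T = univ.filter (fun b => ∃ φ, host b φ) := ⟨_, rfl⟩
  have hTcard : ({b : Fin n → Fin D → Fin n | ∃ φ : Fin n → Fin N, Function.Injective φ ∧
        Finset.image φ univ = S ∧ ∀ i d, φ i = φ (b i d) ∨ G.Adj (φ i) (φ (b i d))}.ncard) =
        T.card := by
    rw [← Set.ncard_coe_finset]
    congr 1
    ext b
    rw [hT, hhost]
    simp
  rw [hTcard] at hcount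
  have hTmem : ∀ b, b ∈ T ↔ ∃ φ, host b φ := by intro b; rw [hT]; simp
  obtain ⟨φ, hφ⟩ : ∃ φ : (Fin n → Fin D → Fin n) → (Fin n → Fin N), ∀ b ∈ T, host b (φ b) := by
    have : ∀ b : Fin n → Fin D → Fin n, ∃ f : Fin n → Fin N, b ∈ T → host b f := by
      intro b
      by_cases hb : b ∈ T
      · obtain ⟨f, hf⟩ := (hTmem b).1 hb
        exact ⟨f, fun _ => hf⟩
      · exact ⟨fun _ => u0, fun h => absurd h hb⟩
    choose φ hφ using this
    exact ⟨φ, hφ⟩
  -- pigeonhole on the cell vector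
  obtain ⟨M, hM⟩ : ∃ M : ℝ, M = (n : ℝ) ^ (n * D) * Real.exp (-(C * n)) /
      (Fintype.card K : ℝ) ^ n := ⟨_, rfl⟩
  have hM0 : 0 < M := by rw [hM]; positivity
  obtain ⟨a, -, ha⟩ := Finset.exists_le_card_fiber_of_nsmul_le_card_of_maps_to
    (s := T) (t := (univ : Finset (Fin n → K))) (f := fun b i => cell (φ b i)) (b := M)
    (fun b _ => Finset.mem_univ _) ⟨fun _ => cell u0, Finset.mem_univ _⟩
    (by
      rw [Finset.card_univ, Fintype.card_fun, Fintype.card_fin, nsmul_eq_mul, hM]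
      push_cast
      rw [mul_div_cancel₀ _ (by positivity)]
      exact hcount)
  obtain ⟨Ta, hTa⟩ : ∃ Ta : Finset (Fin n → Fin D → Fin n),
      Ta = T.filter (fun b => (fun i => cell (φ b i)) = a) := ⟨_, rfl⟩
  rw [← hTa] at ha
  have hTane : Ta.Nonempty := by
    rw [← Finset.card_pos]
    exact_mod_cast hM0.trans_le ha
  have hTamem : ∀ b ∈ Ta, host b (φ b) ∧ ∀ i, cell (φ b i) = a i := by
    intro b hb
    rw [hTa, Finset.mem_filter] at hb
    exact ⟨hφ b hb.1, fun i => congrFun hb.2 i⟩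
  -- the average
  obtain ⟨x, hx⟩ : ∃ x : Fin n → Fin n → ℝ, x = fun i j => Real.log (z (a i) (a j)) := ⟨_, rfl⟩
  have havg : ∑ u ∈ S, ∑ v ∈ S, Real.log (z (cell u) (cell v)) = ∑ i, ∑ j, x i j := by
    obtain ⟨b0, hb0⟩ := hTane
    obtain ⟨h1, h2⟩ := hTamem b0 hb0
    rw [hhost] at h1
    obtain ⟨h3, h4, -⟩ := h1
    rw [← h4, Finset.sum_image (fun i _ j _ h => h3 h)]
    apply Finset.sum_congr rfl
    intro i _
    rw [Finset.sum_image (fun i _ j _ h => h3 h)]
    apply Finset.sum_congr rfl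
    intro j _
    rw [hx, h2 i, h2 j]
  -- typical ones
  have hat := atyp n D hn x B hB (by intro i j; rw [hx]; exact hzB _ _) τ hτ hτ1
  obtain ⟨bound, hbound⟩ : ∃ bound : ℝ, bound = n * D * ((∑ i, ∑ j, x i j) / (n : ℝ) ^ 2 - τ) :=
    ⟨_, rfl⟩
  rw [← hbound] at hat
  have hatM : (n : ℝ) ^ (n * D) * Real.exp (-(n * D * τ ^ 2 / (16 * B ^ 2))) ≤ M / 2 := by
    have h1 : M / 2 = (n : ℝ) ^ (n * D) * Real.exp (-(C * n + n * Real.log (Fintype.card K) +
        Real.log 2)) := by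
      rw [hM, neg_add, neg_add, Real.exp_add, Real.exp_add, Real.exp_neg (Real.log 2),
        Real.exp_log (by norm_num), Real.exp_neg (n * Real.log _), Real.exp_nat_mul,
        Real.exp_log hK0]
      field_simp
    rw [h1]
    apply mul_le_mul_of_nonneg_left _ (by positivity)
    apply Real.exp_le_exp.mpr
    linarith
  obtain ⟨Ty, hTy⟩ : ∃ Ty : Finset (Fin n → Fin D → Fin n),
      Ty = Ta.filter (fun b => bound ≤ ∑ i, ∑ d, x i (b i d)) := ⟨_, rfl⟩
  have hTycard : M / 2 ≤ (Ty.card : ℝ) := by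
    have h1 : Ta.card ≤ Ty.card + (univ.filter (fun b : Fin n → Fin D → Fin n =>
        ∑ i, ∑ d, x i (b i d) < bound)).card := by
      rw [← Finset.card_filter_add_card_filter_not (s := Ta)
        (fun b => bound ≤ ∑ i, ∑ d, x i (b i d)), ← hTy]
      apply Nat.add_le_add_left
      apply Finset.card_le_card
      intro b hb
      rw [Finset.mem_filter] at hb ⊢
      exact ⟨Finset.mem_univ _, not_le.mp hb.2⟩
    have h2 : (Ta.card : ℝ) ≤ Ty.card + ((univ.filter (fun b : Fin n → Fin D → Fin n =>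
        ∑ i, ∑ d, x i (b i d) < bound)).card : ℝ) := by exact_mod_cast h1
    linarith
  have hlow : M / 2 * Real.exp bound ≤ ∑ b ∈ Ta, Real.exp (∑ i, ∑ d, x i (b i d)) := by
    calc M / 2 * Real.exp bound ≤ Ty.card * Real.exp bound :=
          mul_le_mul_of_nonneg_right hTycard (Real.exp_pos _).le
      _ = ∑ _b ∈ Ty, Real.exp bound := by rw [Finset.sum_const, nsmul_eq_mul]
      _ ≤ ∑ b ∈ Ty, Real.exp (∑ i, ∑ d, x i (b i d)) := by
          apply Finset.sum_le_sum
          intro b hb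
          rw [hTy, Finset.mem_filter] at hb
          exact Real.exp_le_exp.mpr hb.2
      _ ≤ ∑ b ∈ Ta, Real.exp (∑ i, ∑ d, x i (b i d)) := by
          apply Finset.sum_le_sum_of_subset_of_nonneg
          · rw [hTy]; exact Finset.filter_subset _ _
          · intro b _ _; exact (Real.exp_pos _).le
  -- upper bound
  obtain ⟨Zu, hZu⟩ : ∃ Zu : Fin N → ℝ, Zu = fun u => ∑ v ∈ S.filter (fun v => u = v ∨ G.Adj u v),
      z (cell u) (cell v) := ⟨_, rfl⟩
  have hZpos : ∀ u ∈ S, 0 < Zu u := by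
    intro u hu
    rw [hZu]
    apply Finset.sum_pos (fun v _ => hz _ _)
    exact ⟨u, by rw [Finset.mem_filter]; exact ⟨hu, Or.inl rfl⟩⟩
  obtain ⟨Φ, hΦ⟩ : ∃ Φ : Finset (Fin n → Fin N), Φ = univ.filter (fun φ =>
      Function.Injective φ ∧ Finset.image φ univ = S) := ⟨_, rfl⟩
  have hΦmem : ∀ φ ∈ Φ, Function.Injective φ ∧ Finset.image φ univ = S := by
    intro φ h; rw [hΦ, Finset.mem_filter] at h; exact h.2
  have hΦcard := card_bij n N S hS Φ hΦmem
  obtain ⟨F, hF⟩ : ∃ F : (Fin n → Fin N) → Fin n → Fin n → ℝ,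
      F = fun ψ i j => if ψ i = ψ j ∨ G.Adj (ψ i) (ψ j) then z (cell (ψ i)) (cell (ψ j)) else 0 :=
    ⟨_, rfl⟩
  have hF0 : ∀ ψ i j, 0 ≤ F ψ i j := by
    intro ψ i j
    rw [hF]
    dsimp only
    split_ifs
    · exact (hz _ _).le
    · exact le_refl _
  have hup1 : ∑ b ∈ Ta, Real.exp (∑ i, ∑ d, x i (b i d)) ≤
      ∑ ψ ∈ Φ, ∑ b : Fin n → Fin D → Fin n, ∏ i, ∏ d, F ψ i (b i d) := by
    rw [Finset.sum_comm]
    have h1 : ∀ b ∈ Ta, Real.exp (∑ i, ∑ d, x i (b i d)) ≤
        ∑ ψ ∈ Φ, ∏ i, ∏ d, F ψ i (b i d) := by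
      intro b hb
      obtain ⟨h1, h2⟩ := hTamem b hb
      rw [hhost] at h1
      obtain ⟨h3, h4, h5⟩ := h1
      have hmem : φ b ∈ Φ := by
        rw [hΦ, Finset.mem_filter]
        exact ⟨Finset.mem_univ _, h3, h4⟩
      have h6 : Real.exp (∑ i, ∑ d, x i (b i d)) = ∏ i, ∏ d, F (φ b) i (b i d) := by
        rw [Real.exp_sum]
        apply Finset.prod_congr rfl
        intro i _
        rw [Real.exp_sum]
        apply Finset.prod_congr rfl
        intro d _
        rw [hF, hx]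
        dsimp only
        rw [if_pos (h5 i d), Real.exp_log (hz _ _), h2, h2]
      rw [h6]
      exact Finset.single_le_sum (f := fun ψ => ∏ i, ∏ d, F ψ i (b i d))
        (fun ψ _ => Finset.prod_nonneg (fun i _ => Finset.prod_nonneg (fun d _ => hF0 _ _ _))) hmem
    refine (Finset.sum_le_sum h1).trans ?_
    refine Finset.sum_le_sum_of_subset_of_nonneg (Finset.subset_univ Ta) ?_
    intro b _ _
    exact Finset.sum_nonneg (fun ψ _ => Finset.prod_nonneg (fun i _ =>
      Finset.prod_nonneg (fun d _ => hF0 _ _ _)))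
  have hup2 : ∀ ψ ∈ Φ, ∑ b : Fin n → Fin D → Fin n, ∏ i, ∏ d, F ψ i (b i d) =
      (∏ u ∈ S, Zu u) ^ D := by
    intro ψ hψ
    obtain ⟨h3, h4⟩ := hΦmem ψ hψ
    rw [sum_prod_prod, Finset.prod_pow]
    congr 1
    rw [← h4, Finset.prod_image (fun i _ j _ h => h3 h)]
    apply Finset.prod_congr rfl
    intro i _
    rw [hZu]
    dsimp only
    rw [Finset.sum_filter, ← h4, Finset.sum_image (fun i _ j _ h => h3 h), hF]
  have hup3 : M / 2 * Real.exp bound ≤ n.factorial * (∏ u ∈ S, Zu u) ^ D := by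
    refine (hlow.trans hup1).trans ?_
    rw [Finset.sum_congr rfl hup2, Finset.sum_const, nsmul_eq_mul]
    apply mul_le_mul_of_nonneg_right _ (pow_nonneg (Finset.prod_nonneg (fun u hu =>
      (hZpos u hu).le)) _)
    exact_mod_cast hΦcard
  -- logarithms
  have hprodpos : 0 < ∏ u ∈ S, Zu u := Finset.prod_pos hZpos
  have hlog := Real.log_le_log (by positivity) hup3
  rw [Real.log_mul (by positivity) (Real.exp_pos _).ne', Real.log_exp,
    Real.log_mul (by positivity) (by positivity), Real.log_pow,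
    Real.log_prod (fun u hu => (hZpos u hu).ne')] at hlog
  have hamgm := sum_log_le S (by rw [hS]; exact hn) Zu hZpos
  rw [hS] at hamgm
  have hZtot : 0 < ∑ u ∈ S, Zu u := Finset.sum_pos hZpos ⟨u0, hu0⟩
  have hlogM : Real.log (M / 2) = n * D * Real.log n - C * n -
      n * Real.log (Fintype.card K) - Real.log 2 := by
    rw [hM, Real.log_div (by positivity) (by norm_num), Real.log_div (by positivity) (by positivity),
      Real.log_mul (by positivity) (Real.exp_pos _).ne', Real.log_exp, Real.log_pow, Real.log_pow]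
    push_cast
    ring
  have hlogZ : Real.log ((∑ u ∈ S, Zu u) / (n : ℝ) ^ 2) = Real.log ((∑ u ∈ S, Zu u) / n) -
      Real.log n := by
    rw [Real.log_div hZtot.ne' (by positivity), Real.log_div hZtot.ne' (by positivity),
      Real.log_pow]
    push_cast
    ring
  have hgoalZ : (∑ u ∈ S, ∑ v ∈ S.filter (fun v => u = v ∨ G.Adj u v), z (cell u) (cell v)) =
      ∑ u ∈ S, Zu u := by rw [hZu]
  rw [hgoalZ, hlogZ, havg, ← hbound]
  rw [hlogM] at hlog
  have hD0 : (0 : ℝ) ≤ D := by positivity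
  have h9 := mul_le_mul_of_nonneg_left hamgm hD0
  nlinarith

end Pool.Agent.Lib.MP_1f2a9f_co
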