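import Pool.Agent.Lib.MP_1f2a9f_co.Defs

/-!
# MP_1f2a9f_co, module L4: nested sets maximise the entropy-like sum
-/

namespace Pool.Agent.Lib.MP_1f2a9f_co

open Finset

namespace Low4

/-- Increments of the convex function `t ln t` increase. -/
theorem phi_incr {p q x : ℝ} (hp : 0 ≤ p) (hpq : p ≤ q) (hx : 0 ≤ x) :
    (x + p) * Real.log (x + p) - p * Real.log p ≤ (x + q) * Real.log (x + q) - q * Real.log q := by
  rcases eq_or_lt_of_le hx with h0 | h0
  · subst h0; simp
  have hd : 0 < q + x - p := by linarith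
  have hc := Real.convexOn_mul_log
  have hmp : p ∈ Set.Ici (0 : ℝ) := hp
  have hmq : q + x ∈ Set.Ici (0 : ℝ) := by simp only [Set.mem_Ici]; linarith
  have h1 : 0 ≤ (q - p) / (q + x - p) := div_nonneg (by linarith) hd.le
  have h2 : 0 ≤ x / (q + x - p) := div_nonneg hx hd.le
  have h3 : (q - p) / (q + x - p) + x / (q + x - p) = 1 := by
    rw [← add_div, div_eq_one_iff_eq hd.ne']; ring
  have hA := hc.2 hmp hmq h1 h2 h3
  have hB := hc.2 hmp hmq h2 h1 (by rw [add_comm]; exact h3)
  simp only [smul_eq_mul] at hA hB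
  have e1 : (q - p) / (q + x - p) * p + x / (q + x - p) * (q + x) = x + p := by
    field_simp; ring
  have e2 : x / (q + x - p) * p + (q - p) / (q + x - p) * (q + x) = q := by
    field_simp; ring
  rw [e1] at hA
  rw [e2] at hB
  have e3 : (q - p) / (q + x - p) * (p * Real.log p) +
      x / (q + x - p) * ((q + x) * Real.log (q + x)) +
      (x / (q + x - p) * (p * Real.log p) +
      (q - p) / (q + x - p) * ((q + x) * Real.log (q + x))) =
      p * Real.log p + (q + x) * Real.log (q + x) := by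
    field_simp; ring
  have e4 : (x + q) = q + x := by ring
  rw [e4]
  linarith

theorem tail_bound (k : ℕ) (lam : ℕ → ℝ) (hlam : ∀ j, j < k → 0 < lam j) (p : ℕ → Prop)
    [DecidablePred p] (n : ℕ) (hn : n ≤ k) :
    0 ≤ (∑ j ∈ Ico (k - n) k, if p j then lam j else 0) ∧
    (∑ j ∈ Ico (k - n) k, if p j then lam j else 0) ≤ ∑ j ∈ Ico (k - n) k, lam j ∧
    (∑ j ∈ Ico (k - n) k, if p j then lam j else 0) *
        Real.log (∑ j ∈ Ico (k - n) k, if p j then lam j else 0) ≤
      ∑ j ∈ Ico (k - n) k, if p j then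
        ((∑ i ∈ Ico j k, lam i) * Real.log (∑ i ∈ Ico j k, lam i) -
        (∑ i ∈ Ico (j + 1) k, lam i) * Real.log (∑ i ∈ Ico (j + 1) k, lam i)) else 0 := by
  induction n with
  | zero => simp
  | succ n ih =>
    obtain ⟨ih0, ih1, ih2⟩ := ih (by omega)
    have hlt : k - (n + 1) < k := by omega
    have hs : k - (n + 1) + 1 = k - n := by omega
    have hpos := hlam _ hlt
    rw [Finset.sum_eq_sum_Ico_succ_bot hlt, Finset.sum_eq_sum_Ico_succ_bot hlt,
      Finset.sum_eq_sum_Ico_succ_bot hlt, hs]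
    by_cases hp : p (k - (n + 1))
    · simp only [hp, if_true]
      rw [Finset.sum_eq_sum_Ico_succ_bot hlt, hs]
      refine ⟨by linarith, by linarith, ?_⟩
      have := phi_incr ih0 ih1 hpos.le
      linarith
    · simp only [hp, if_false, zero_add]
      exact ⟨ih0, by linarith, ih2⟩

end Low4

/-- Nested sets maximise the entropy-like sum. `lam j` for `j < k`, tails
`Λ* j = ∑_{i ≥ j} lam i`. -/
theorem sum_sets (N k : ℕ) (S : ℕ → Finset (Fin N)) (lam : ℕ → ℝ)
    (hlam : ∀ j, j < k → 0 < lam j) :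
    ∑ u : Fin N, ∑ v : Fin N,
      (∑ j ∈ (range k).filter (fun j => u ∈ S j ∧ v ∈ S j), lam j) *
        Real.log (∑ j ∈ (range k).filter (fun j => u ∈ S j ∧ v ∈ S j), lam j) ≤
    ∑ j ∈ range k, ((S j).card : ℝ) ^ 2 *
      ((∑ i ∈ Ico j k, lam i) * Real.log (∑ i ∈ Ico j k, lam i) -
        (∑ i ∈ Ico (j + 1) k, lam i) * Real.log (∑ i ∈ Ico (j + 1) k, lam i)) := by
  set F : ℕ → ℝ := fun j => ((∑ i ∈ Ico j k, lam i) * Real.log (∑ i ∈ Ico j k, lam i) -
        (∑ i ∈ Ico (j + 1) k, lam i) * Real.log (∑ i ∈ Ico (j + 1) k, lam i)) with hF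
  have key : ∀ u v : Fin N,
      (∑ j ∈ (range k).filter (fun j => u ∈ S j ∧ v ∈ S j), lam j) *
        Real.log (∑ j ∈ (range k).filter (fun j => u ∈ S j ∧ v ∈ S j), lam j) ≤
      ∑ j ∈ range k, if (u ∈ S j ∧ v ∈ S j) then F j else 0 := by
    intro u v
    have h := (Low4.tail_bound k lam hlam (fun j => u ∈ S j ∧ v ∈ S j) k le_rfl).2.2
    rw [Nat.sub_self, ← Finset.range_eq_Ico] at h
    rw [Finset.sum_filter]
    exact h
  calc _ ≤ ∑ u : Fin N, ∑ v : Fin N, ∑ j ∈ range k, if (u ∈ S j ∧ v ∈ S j) then F j else 0 :=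
        Finset.sum_le_sum fun u _ => Finset.sum_le_sum fun v _ => key u v
    _ = ∑ j ∈ range k, ∑ u : Fin N, ∑ v : Fin N, if (u ∈ S j ∧ v ∈ S j) then F j else 0 := by
        rw [Finset.sum_congr rfl fun u _ => Finset.sum_comm, Finset.sum_comm]
    _ = _ := by
        refine Finset.sum_congr rfl fun j _ => ?_
        have : ∀ u : Fin N, (∑ v : Fin N, if (u ∈ S j ∧ v ∈ S j) then F j else 0) =
            if u ∈ S j then (S j).card * F j else 0 := by
          intro u
          by_cases hu : u ∈ S j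
          · simp [hu, Finset.sum_ite_mem]
          · simp [hu]
        rw [Finset.sum_congr rfl fun u _ => this u]
        rw [Finset.sum_ite_mem]
        simp only [Finset.univ_inter, Finset.sum_const, nsmul_eq_mul]
        ring

end Pool.Agent.Lib.MP_1f2a9f_co
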