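import Pool.Agent.Lib.MP_1f2a9f_co.Low1
import Pool.Agent.Lib.MP_1f2a9f_co.Low2
import Pool.Agent.Lib.MP_1f2a9f_co.Low3
import Pool.Agent.Lib.MP_1f2a9f_co.Low4

namespace Pool.Agent.Lib.MP_1f2a9f_co

open Finset

namespace Low5

/-- asymptotic facts for one value of alpha -/
theorem asym (α τ Q : ℝ) (hα : 0 < α) (hτ : 0 < τ) :
    ∃ m0 : ℕ, ∀ m : ℕ, m0 ≤ m → 1 < Real.log m ∧ 3 ≤ α * (m / Real.log m) ∧
      (1 - τ) * (α * (m / Real.log m)) ≤ ⌊α * (m / Real.log m)⌋₊ ∧
      Q ≤ (Real.log m) ∧ Q ≤ m / Real.log m := by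
  have h1 : Filter.Tendsto (fun m : ℕ => Real.log m) Filter.atTop Filter.atTop :=
    Real.tendsto_log_atTop.comp tendsto_natCast_atTop_atTop
  have h2 : Filter.Tendsto (fun m : ℕ => (m:ℝ) / Real.log m) Filter.atTop Filter.atTop := by
    have : Filter.Tendsto (fun x : ℝ => x / Real.log x) Filter.atTop Filter.atTop := by
      have h := Real.isLittleO_log_id_atTop
      have h3 : Filter.Tendsto (fun x : ℝ => Real.log x / x) Filter.atTop (nhds 0) :=
        h.tendsto_div_nhds_zero
      have h4 : Filter.Tendsto (fun x : ℝ => Real.log x / x) Filter.atTop (nhdsWithin 0 (Set.Ioi 0)) := by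
        refine tendsto_nhdsWithin_iff.2 ⟨h3, ?_⟩
        filter_upwards [Filter.eventually_gt_atTop 1] with x hx
        have := Real.log_pos hx
        simp only [Set.mem_Ioi]
        positivity
      have h5 := h4.inv_tendsto_nhdsGT_zero
      refine h5.congr ?_
      intro x
      simp
    exact this.comp tendsto_natCast_atTop_atTop
  have e1 := h1.eventually_gt_atTop 1
  have e2 := h2.eventually_ge_atTop (3 / α)
  have e3 := h2.eventually_ge_atTop (1 / (τ * α))
  have e4 := h1.eventually_ge_atTop Q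
  have e5 := h2.eventually_ge_atTop Q
  obtain ⟨m0, hm0⟩ := Filter.eventually_atTop.1 ((((e1.and e2).and e3).and e4).and e5)
  refine ⟨m0, fun m hm => ?_⟩
  obtain ⟨⟨⟨⟨a1, a2⟩, a3⟩, a4⟩, a5⟩ := hm0 m hm
  have hfl := Nat.lt_floor_add_one (α * (m / Real.log m))
  have b2 : 3 ≤ α * (m / Real.log m) := by
    rw [div_le_iff₀ hα] at a2; linarith
  have b3 : 1 ≤ τ * (α * (m / Real.log m)) := by
    rw [div_le_iff₀ (by positivity)] at a3; linarith
  exact ⟨a1, b2, by nlinarith, a4, a5⟩


theorem ax1 {x s : ℝ} (hs : 2 ≤ s) (h : x ≤ 1 / 2 * s ^ 2) : x + 1 ≤ s ^ 2 := by nlinarith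

theorem ax2 {l α m n s : ℝ} (hα : 0 < α) (hn0 : 0 < n) (hl0 : 0 < l) (hsl : s * l = m)
    (hnle : n ≤ α * s) : l / α ≤ m / n := by
  rw [div_le_div_iff₀ hα hn0, ← hsl]
  calc l * n ≤ l * (α * s) := by gcongr
    _ = s * l * α := by ring

theorem ax3 {E n α s : ℝ} (hα : 0 < α) (hn0 : 0 < n) (hE : E ≤ s ^ 2) (hs : 0 < s)
    (hn : α * s / 2 ≤ n) : 4 * E / n ≤ 8 * s / α := by
  rw [div_le_div_iff₀ hn0 hα]
  calc 4 * E * α ≤ 4 * s ^ 2 * α := by gcongr
    _ = 8 * s * (α * s / 2) := by ring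
    _ ≤ 8 * s * n := by gcongr

theorem ax4 {κ l α D X : ℝ} (hα : 0 < α) (hκ : κ = α + 1) (hD : l / α - 2 ≤ D)
    (hX : α * (X + 3 * κ + 1) ≤ l) : l + X - κ * (D - 1) ≤ -1 := by
  have hkκ : 0 < κ := by rw [hκ]; positivity
  have h1 : κ * (l / α - 3) ≤ κ * (D - 1) := by
    apply mul_le_mul_of_nonneg_left _ hkκ.le; linarith
  have h2 : κ * (l / α) = l + l / α := by rw [hκ]; field_simp
  have h3 : X + 3 * κ + 1 ≤ l / α := by
    rw [le_div_iff₀ hα]; linarith
  linarith

theorem ax5 {n y : ℝ} (hn : 1 ≤ n) (hy : y ≤ -1) : n * y ≤ -1 := by nlinarith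

theorem ax6 {α s n E : ℝ} (hα : 0 < α) (hs : 0 < s) (hn0 : 0 < n) (hE : E ≤ s ^ 2)
    (hn : α * s / 2 ≤ n) : α ^ 2 / 16 * (4 * E / n) ≤ n := by
  rw [← mul_div_assoc, div_le_iff₀ hn0]
  have h1 : (α * s / 2) * (α * s / 2) ≤ n * n := by gcongr
  calc α ^ 2 / 16 * (4 * E) ≤ α ^ 2 / 16 * (4 * s ^ 2) := by gcongr
    _ = (α * s / 2) * (α * s / 2) := by ring
    _ ≤ n * n := h1

theorem ax7 {C k n a c : ℝ} (hn : 1 ≤ n) (ha : a ≤ k) (hc : c ≤ 1) :
    C * n + n * a + c ≤ n * (C + k + 1) := by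
  have : n * a ≤ n * k := by gcongr
  linarith

theorem ax8 {l α τ D : ℝ} (hα : 0 < α) (hτ : 0 < τ) (hDl : l / α - 2 ≤ D)
    (h : 2 * α * (α + τ) / τ ≤ l) : l ≤ (α + τ) * D := by
  have h1 : (α + τ) * (l / α - 2) ≤ (α + τ) * D := by gcongr
  have h2 : (α + τ) * (l / α) = l + τ * (l / α) := by field_simp
  have h3 : 2 * (α + τ) ≤ τ * (l / α) := by
    rw [div_le_iff₀ hτ] at h
    have h5 : τ * (l / α) = τ * l / α := by ring
    rw [h5, le_div_iff₀ hα]
    linarith
  linarith

theorem ax9 {P B τ D : ℝ} (hP : 0 ≤ P) (hB : 1 ≤ B) (hτ : 0 < τ) (hτ1 : τ ≤ 1)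
    (h : P * (16 * B ^ 2) ≤ D * τ ^ 2) : P ≤ τ * D := by
  have hB2 : 1 ≤ B ^ 2 := one_le_pow₀ hB
  have h0 : P * τ ≤ P * (16 * B ^ 2) := by
    apply mul_le_mul_of_nonneg_left _ hP
    linarith
  have h1 : P * τ ≤ (τ * D) * τ := by
    calc P * τ ≤ D * τ ^ 2 := h0.trans h
      _ = (τ * D) * τ := by ring
  exact le_of_mul_le_mul_right h1 hτ

theorem ax10 {n D avg τ α C K c F L : ℝ}
    (h1 : C * n + n * K + c ≤ n * (τ * D)) (h2 : F ≤ n * ((α + τ) * D))
    (key : n * D * (avg - τ) - C * n - n * K - c ≤ F + n * D * L) :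
    n * D * (avg - α - 3 * τ) ≤ n * D * L := by
  nlinarith

open Classical in
theorem single (α τ B : ℝ) (k : ℕ) (hα : 0 < α) (hτ : 0 < τ) (hτ1 : τ ≤ 1) (hB : 1 ≤ B) :
    ∃ m0 : ℕ, ∀ m : ℕ, m0 ≤ m → ∀ (N : ℕ) (G : SimpleGraph (Fin N)), Univ m G →
      (G.edgeSet.ncard : ℝ) ≤ 1 / 2 * (m / Real.log m) ^ 2 →
      ∃ S : Finset (Fin N), (1 - τ) * (α * (m / Real.log m)) ≤ S.card ∧
        (S.card : ℝ) ≤ α * (m / Real.log m) ∧ 0 < S.card ∧
        ∀ (cell : Fin N → (Fin k → Bool)) (z : (Fin k → Bool) → (Fin k → Bool) → ℝ),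
          (∀ x y, 0 < z x y) → (∀ x y, |Real.log (z x y)| ≤ B) →
          1 + (∑ u ∈ S, ∑ v ∈ S, Real.log (z (cell u) (cell v))) / (S.card : ℝ) ^ 2 - α - 3 * τ ≤
            (∑ u ∈ S, ∑ v ∈ S.filter (fun v => u = v ∨ G.Adj u v), z (cell u) (cell v)) /
              (S.card : ℝ) ^ 2 := by
  set κ : ℝ := α + 1 with hκ
  set C : ℝ := κ + 2 + |Real.log (16 / α ^ 2)| with hC
  have hC0 : 0 ≤ C := by positivity
  obtain ⟨m0, hm0⟩ := asym α τ (2 + α * (|Real.log (8 / α)| + 3 * κ + 1) + 2 * α * (α + τ) / τ +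
    α * ((C + k + 1) * 16 * B ^ 2 / τ ^ 2 + 4)) hα hτ
  refine ⟨m0, fun m hm N G hG hE => ?_⟩
  obtain ⟨a1, a2, a3, a4, a5⟩ := hm0 m hm
  clear hm0
  set l : ℝ := Real.log m with hl
  set s : ℝ := m / l with hs
  set n : ℕ := ⌊α * s⌋₊ with hn
  set D : ℕ := m / n - 1 with hDdef
  have hl0 : 0 < l := by linarith
  have hkκ : 0 < κ := by positivity
  have hB2 : 0 < B ^ 2 := by positivity
  have p1 : 0 ≤ α * (|Real.log (8 / α)| + 3 * κ + 1) := by positivity
  have p2 : 0 ≤ 2 * α * (α + τ) / τ := by positivity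
  have p3 : 0 ≤ α * ((C + k + 1) * 16 * B ^ 2 / τ ^ 2 + 4) := by positivity
  have hsl : s * l = m := by rw [hs]; field_simp
  have hs2 : 2 ≤ s := by linarith
  have hs0 : 0 < s := by linarith
  have hm0 : (0:ℝ) < m := by rw [← hsl]; positivity
  have hsm : s ≤ m := div_le_self hm0.le a1.le
  have hnle : (n:ℝ) ≤ α * s := Nat.floor_le (by positivity)
  have hnge : α * s / 2 ≤ n := by
    have := Nat.lt_floor_add_one (α * s)
    linarith
  have hn2 : 2 ≤ n := by
    have := Nat.lt_floor_add_one (α * s)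
    have h : (2:ℝ) < (n:ℝ) + 1 := by linarith
    have h' : 2 < n + 1 := by exact_mod_cast h
    have h3 : (1:ℝ) < n + 0 := by linarith
    have : 1 < n := by
      have : (1:ℝ) < n := by linarith
      exact_mod_cast this
    omega
  have hn0 : (0:ℝ) < n := by positivity
  -- D
  have hαn : α * (l / α) = l := by field_simp
  have hq1 : l / α ≤ (m:ℝ) / n := ax2 hα hn0 hl0 hsl hnle
  have hq2 : (m:ℝ) / n < ((m / n : ℕ) : ℝ) + 1 := by
    rw [div_lt_iff₀ hn0]
    have := Nat.lt_div_mul_add (a := m) (b := n) (by omega)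
    have h' : m < (m / n) * n + n := this
    have h2 : (m:ℝ) < (m / n : ℕ) * n + n := by exact_mod_cast h'
    rw [add_mul, one_mul]
    exact h2
  have hla : (C + k + 1) * 16 * B ^ 2 / τ ^ 2 + 4 ≤ l / α := by
    rw [le_div_iff₀ hα]; linarith
  have hT0 : 0 ≤ (C + k + 1) * 16 * B ^ 2 / τ ^ 2 := by positivity
  have hq3 : 3 ≤ m / n := by
    have : (3:ℝ) < ((m / n : ℕ) : ℝ) + 1 + 0 := by linarith
    have h4 : ((3:ℕ):ℝ) < ((m/n + 1 : ℕ) : ℝ) := by push_cast; linarith
    have h5 : 3 < m / n + 1 := Nat.cast_lt.1 h4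
    omega
  have hDr : (D:ℝ) = ((m / n : ℕ) : ℝ) - 1 := by
    rw [hDdef, Nat.cast_sub (by omega)]; simp
  have hDl : l / α - 2 ≤ D := by rw [hDr]; linarith
  have hD2 : 2 ≤ D := by omega
  have hD0 : (0:ℝ) < D := by positivity
  have hnm : n * D + (n - 1) ≤ m := by
    have h1 : n * (m / n) ≤ m := Nat.mul_div_le m n
    have h2 : n * D + n = n * (m / n) := by
      rw [hDdef, ← Nat.mul_succ]
      congr 1
      omega
    omega
  have hhost := hosted m n D N hn2 hnm G hG
  set E : ℕ := G.edgeSet.ncard + 1 with hEdef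
  have hEs : (E:ℝ) ≤ s ^ 2 := by
    rw [hEdef]; push_cast
    exact ax1 hs2 hE
  have h4E : 4 * (E:ℝ) / n ≤ 8 * s / α := ax3 hα hn0 hEs hs0 hnge
  have h4E0 : 0 < 4 * (E:ℝ) / n := by
    have : (0:ℝ) < E := by rw [hEdef]; positivity
    positivity
  have hnum1 : (4 * (E : ℝ) / n) ^ n * Real.exp (-(κ * n * (D - 1))) ≤ 1 / 2 := by
    have e1 : (4 * (E : ℝ) / n) ^ n ≤ Real.exp (n * Real.log (8 * s / α)) := by
      have : Real.exp (n * Real.log (8 * s / α)) = (8 * s / α) ^ n := by
        rw [mul_comm, Real.exp_mul, Real.exp_log (by positivity), Real.rpow_natCast]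
      rw [this]
      exact pow_le_pow_left₀ h4E0.le h4E n
    have e2 : Real.log (8 * s / α) ≤ l + |Real.log (8 / α)| := by
      have : 8 * s / α = (8 / α) * s := by ring
      rw [this, Real.log_mul (by positivity) (by positivity)]
      have h1 : Real.log s ≤ l := Real.log_le_log (by positivity) hsm
      have h2 := le_abs_self (Real.log (8 / α))
      linarith
    have e3 : l + |Real.log (8 / α)| - κ * (D - 1) ≤ -1 := ax4 hα hκ hDl (by linarith)
    calc (4 * (E : ℝ) / n) ^ n * Real.exp (-(κ * n * (D - 1)))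
        ≤ Real.exp (n * Real.log (8 * s / α)) * Real.exp (-(κ * n * (D - 1))) := by gcongr
      _ = Real.exp (n * (Real.log (8 * s / α) - κ * (D - 1))) := by
          rw [← Real.exp_add]; congr 1; ring
      _ ≤ Real.exp (-1) := by
          apply Real.exp_le_exp.2
          have : Real.log (8 * s / α) - κ * (D - 1) ≤ -1 := by linarith
          have hn1 : (1:ℝ) ≤ n := by exact_mod_cast (by omega : 1 ≤ n)
          exact ax5 hn1 this
      _ ≤ 1 / 2 := by
          rw [Real.exp_neg]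
          have := Real.add_one_le_exp (1:ℝ)
          rw [inv_le_comm₀ (by positivity) (by norm_num)]
          linarith
  obtain ⟨S, hScard, hScount⟩ := exists_image n D N E (by omega) hD2 G (by omega) (by omega)
    hhost κ hkκ hnum1
  refine ⟨S, ?_, ?_, ?_, ?_⟩
  · rw [hScard]; exact a3
  · rw [hScard]; exact hnle
  · omega
  intro cell z hz hzB
  -- lower bound of the count
  have hcnt : (n : ℝ) ^ (n * D) * Real.exp (-(C * n)) ≤
      ({b : Fin n → Fin D → Fin n | ∃ φ : Fin n → Fin N, Function.Injective φ ∧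
        Finset.image φ univ = S ∧ ∀ i d, φ i = φ (b i d) ∨ G.Adj (φ i) (φ (b i d))}.ncard : ℝ) := by
    refine le_trans ?_ hScount
    apply mul_le_mul_of_nonneg_left _ (by positivity)
    have f1 : (n:ℝ) ^ n * Real.exp (-n) ≤ n.factorial := by
      have h := Real.pow_div_factorial_le_exp (n:ℝ) (by positivity) n
      rw [div_le_iff₀ (by positivity)] at h
      rw [Real.exp_neg, ← div_eq_mul_inv, div_le_iff₀ (by positivity)]
      linarith
    have f2 : (α ^ 2 / 16) ^ n * Real.exp (-n) ≤ n.factorial / (4 * (E : ℝ) / n) ^ n := by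
      rw [le_div_iff₀ (by positivity)]
      refine le_trans ?_ f1
      have : (α ^ 2 / 16) ^ n * Real.exp (-n) * (4 * (E : ℝ) / n) ^ n =
        (α ^ 2 / 16 * (4 * (E : ℝ) / n)) ^ n * Real.exp (-n) := by
        rw [mul_pow]; ring
      rw [this]
      gcongr
      exact ax6 hα hs0 hn0 hEs hnge
    have f3 : Real.exp (-(|Real.log (16 / α ^ 2)| * n)) ≤ (α ^ 2 / 16) ^ n := by
      have : (α ^ 2 / 16) ^ n = Real.exp (-(Real.log (16 / α ^ 2) * n)) := by
        rw [← neg_mul, Real.exp_mul, ← Real.log_inv, Real.exp_log (by positivity),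
          Real.rpow_natCast, inv_div]
      rw [this]
      apply Real.exp_le_exp.2
      have := le_abs_self (Real.log (16 / α ^ 2))
      exact neg_le_neg (mul_le_mul_of_nonneg_right this hn0.le)
    have f4 : Real.exp (-(n:ℝ)) ≤ 1 / 2 := by
      have : Real.exp (-(n:ℝ)) ≤ Real.exp (-1) := by
        apply Real.exp_le_exp.2
        have hn1 : (1:ℝ) ≤ n := by exact_mod_cast (by omega : 1 ≤ n)
        linarith
      refine this.trans ?_
      rw [Real.exp_neg]
      have := Real.add_one_le_exp (1:ℝ)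
      rw [inv_le_comm₀ (by positivity) (by norm_num)]
      linarith
    calc Real.exp (-(C * n)) = Real.exp (-(n:ℝ)) * Real.exp (-(κ * n)) *
          (Real.exp (-(|Real.log (16 / α ^ 2)| * n)) * Real.exp (-(n:ℝ))) := by
          rw [← Real.exp_add, ← Real.exp_add, ← Real.exp_add, hC]; congr 1; ring
      _ ≤ 1 / 2 * Real.exp (-(κ * n)) * ((α ^ 2 / 16) ^ n * Real.exp (-(n:ℝ))) := by gcongr
      _ ≤ _ := by gcongr
  have hcardK : (Fintype.card (Fin k → Bool) : ℝ) = 2 ^ k := by simp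
  have hlogK : Real.log (Fintype.card (Fin k → Bool)) ≤ k := by
    rw [hcardK, Real.log_pow]
    have : Real.log 2 ≤ 1 := by linarith [Real.log_two_lt_d9]
    exact mul_le_of_le_one_right (Nat.cast_nonneg (α := ℝ) k) this
  have hlogK0 : 0 ≤ Real.log (Fintype.card (Fin k → Bool)) := by
    rw [hcardK]; apply Real.log_nonneg; exact one_le_pow₀ (by norm_num)
  have hlog2 : Real.log 2 ≤ 1 := by linarith [Real.log_two_lt_d9]
  have hn1 : (1:ℝ) ≤ n := by exact_mod_cast (by omega : 1 ≤ n)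
  have hDbig : (C + k + 1) * 16 * B ^ 2 / τ ^ 2 ≤ D := by linarith
  have hDbig' : (C + k + 1) * (16 * B ^ 2) ≤ D * τ ^ 2 := by
    rw [div_le_iff₀ (by positivity)] at hDbig; linarith
  have hnum2 : C * n + n * Real.log (Fintype.card (Fin k → Bool)) + Real.log 2 ≤
      n * D * τ ^ 2 / (16 * B ^ 2) := by
    rw [le_div_iff₀ (by positivity)]
    have h1 : C * n + n * Real.log (Fintype.card (Fin k → Bool)) + Real.log 2 ≤
      n * (C + k + 1) := ax7 hn1 hlogK hlog2
    calc (C * n + n * Real.log (Fintype.card (Fin k → Bool)) + Real.log 2) * (16 * B ^ 2)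
        ≤ n * (C + k + 1) * (16 * B ^ 2) := by gcongr
      _ = n * ((C + k + 1) * (16 * B ^ 2)) := by ring
      _ ≤ n * (D * τ ^ 2) := by gcongr
      _ = n * D * τ ^ 2 := by ring
  have key := key_ineq n D N (by omega) (by omega) G S hScard C hC0 hcnt cell z B hB hz hzB τ hτ hτ1
    hnum2
  rw [hScard]
  set avg : ℝ := (∑ u ∈ S, ∑ v ∈ S, Real.log (z (cell u) (cell v))) / (n : ℝ) ^ 2 with havg
  set Z : ℝ := (∑ u ∈ S, ∑ v ∈ S.filter (fun v => u = v ∨ G.Adj u v), z (cell u) (cell v)) with hZ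
  have hZ0 : 0 < Z := by
    have hne : S.Nonempty := by rw [← Finset.card_pos]; omega
    apply Finset.sum_pos _ hne
    intro u hu
    apply Finset.sum_pos
    · intro v _; exact hz _ _
    · exact ⟨u, by simp [hu]⟩
  have hfac : Real.log n.factorial ≤ n * l := by
    have h1 : (n.factorial : ℝ) ≤ (n:ℝ) ^ n := by exact_mod_cast Nat.factorial_le_pow n
    have h2 : Real.log n.factorial ≤ n * Real.log n := by
      rw [← Real.log_pow]
      exact Real.log_le_log (by positivity) h1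
    have h3 : (n:ℝ) ≤ m := by
      have h5 : n * 1 ≤ n * D := Nat.mul_le_mul_left n (by omega)
      exact_mod_cast (by omega : n ≤ m)
    have h4 : Real.log n ≤ l := Real.log_le_log hn0 h3
    exact h2.trans (mul_le_mul_of_nonneg_left h4 hn0.le)
  -- divide by n D
  have hlD : l ≤ (α + τ) * D := ax8 hα hτ hDl (by linarith)
  have hCD : C + k + 1 ≤ τ * D := ax9 (by positivity) hB hτ hτ1 hDbig'
  have hnD : 0 < (n:ℝ) * D := by positivity
  have hmain : n * D * (avg - α - 3 * τ) ≤ n * D * Real.log (Z / (n:ℝ) ^ 2) := by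
    have h1 : C * n + n * Real.log (Fintype.card (Fin k → Bool)) + Real.log 2 ≤ n * (τ * D) := by
      have : C * n + n * Real.log (Fintype.card (Fin k → Bool)) + Real.log 2 ≤
        n * (C + k + 1) := ax7 hn1 hlogK hlog2
      exact this.trans (by gcongr)
    have h2 : Real.log n.factorial ≤ n * ((α + τ) * D) := hfac.trans (by gcongr)
    exact ax10 h1 h2 key
  have hlog : avg - α - 3 * τ ≤ Real.log (Z / (n:ℝ) ^ 2) := le_of_mul_le_mul_left hmain hnD
  have := Real.log_le_sub_one_of_pos (show 0 < Z / (n:ℝ) ^ 2 by positivity)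
  linarith


/-- tangent inequality for t log t -/
theorem tangent (t t' : ℝ) (ht : 0 < t) (ht' : 0 ≤ t') :
    t * Real.log t - t' * Real.log t' ≤ (1 + Real.log t) * (t - t') := by
  rcases ht'.eq_or_lt with h | h
  · rw [← h]; simp; nlinarith
  · have h1 := Real.log_le_sub_one_of_pos (show 0 < t / t' by positivity)
    rw [Real.log_div ht.ne' h.ne'] at h1
    have h2 : t' * (Real.log t - Real.log t') ≤ t - t' := by
      calc t' * (Real.log t - Real.log t') ≤ t' * (t / t' - 1) := by gcongr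
        _ = t - t' := by field_simp
    nlinarith

/-- the function `G(x) = e^{-3x/2} (u^3 + 2u^2 + 8/3 u + 16/9)`, `u = x - h`. -/
noncomputable def GG (h x : ℝ) : ℝ :=
  Real.exp (-(3 / 2 * x)) * ((x - h) ^ 3 + 2 * (x - h) ^ 2 + 8 / 3 * (x - h) + 16 / 9)

theorem GG_step (h a c : ℝ) (ha : h ≤ a) (hh : 0 < h) (hc : c = a + h) :
    GG h a - GG h c ≤ a ^ 3 * (Real.exp (-(3 / 2 * a)) - Real.exp (-(3 / 2 * c))) := by
  have hmono : MonotoneOn (fun x => GG h x - a ^ 3 * Real.exp (-(3 / 2 * x))) (Set.Icc a c) := by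
    have hder : ∀ x, HasDerivAt (fun x => GG h x - a ^ 3 * Real.exp (-(3 / 2 * x)))
        (3 / 2 * Real.exp (-(3 / 2 * x)) * (a ^ 3 - (x - h) ^ 3)) x := by
      intro x
      have h1 : HasDerivAt (fun x : ℝ => Real.exp (-(3 / 2 * x)))
          (Real.exp (-(3 / 2 * x)) * (-(3 / 2))) x := by
        have : HasDerivAt (fun x : ℝ => -(3 / 2 * x)) (-(3 / 2)) x := by
          have := ((hasDerivAt_id x).const_mul (3 / 2 : ℝ)).fun_neg
          simpa using this
        exact this.exp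
      have h2 : HasDerivAt (fun x : ℝ => (x - h) ^ 3 + 2 * (x - h) ^ 2 + 8 / 3 * (x - h) + 16 / 9)
          (3 * (x - h) ^ 2 + 4 * (x - h) + 8 / 3) x := by
        have h0 : HasDerivAt (fun x : ℝ => x - h) 1 x := (hasDerivAt_id x).sub_const h
        have h3 := h0.fun_pow 3
        have h4 := (h0.fun_pow 2).const_mul (2:ℝ)
        have h5 := h0.const_mul (8 / 3 : ℝ)
        have := ((h3.fun_add h4).fun_add h5).add_const (16 / 9 : ℝ)
        refine this.congr_deriv ?_
        push_cast; ring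
      have h3 := (h1.fun_mul h2).fun_sub (h1.const_mul (a ^ 3))
      refine h3.congr_deriv ?_
      ring
    apply monotoneOn_of_deriv_nonneg (convex_Icc a c)
    · exact fun x _ => (hder x).continuousAt.continuousWithinAt
    · exact fun x _ => (hder x).differentiableAt.differentiableWithinAt
    · intro x hx
      rw [interior_Icc] at hx
      rw [(hder x).deriv]
      have h1 : (x - h) ^ 3 ≤ a ^ 3 := by
        apply pow_le_pow_left₀ _ _ 3
        · linarith [hx.1]
        · linarith [hx.2]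
      have h2 := Real.exp_pos (-(3 / 2 * x))
      apply mul_nonneg (by positivity) (by linarith)
  have := hmono (Set.left_mem_Icc.2 (by linarith)) (Set.right_mem_Icc.2 (by linarith))
    (by linarith : a ≤ c)
  simp only at this
  linarith

theorem GG_sum (h : ℝ) (hh : 0 < h) (k : ℕ) :
    GG h h - GG h ((k + 1) * h) ≤ ∑ j ∈ range k, (((j:ℝ) + 1) * h) ^ 3 *
      (Real.exp (-(3 / 2 * (((j:ℝ) + 1) * h))) - Real.exp (-(3 / 2 * (((j:ℝ) + 2) * h)))) := by
  induction k with
  | zero => simp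
  | succ k ih =>
    rw [Finset.sum_range_succ]
    have := GG_step h (((k:ℝ) + 1) * h) (((k:ℝ) + 2) * h) (by nlinarith [Nat.cast_nonneg (α := ℝ) k])
      hh (by ring)
    push_cast
    have e : ((k:ℝ) + 1 + 1) = (k:ℝ) + 2 := by ring
    rw [e]
    linarith

theorem GG_tendsto (h : ℝ) (hh : 0 < h) :
    Filter.Tendsto (fun k : ℕ => GG h (((k:ℝ) + 1) * h)) Filter.atTop (nhds 0) := by
  have h0 : Filter.Tendsto (fun k : ℕ => ((k:ℝ)) * h) Filter.atTop Filter.atTop :=
    (tendsto_natCast_atTop_atTop).atTop_mul_const hh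
  have h1 : Filter.Tendsto (fun u : ℝ => Real.exp (-(3 / 2 * (u + h))) *
      (u ^ 3 + 2 * u ^ 2 + 8 / 3 * u + 16 / 9)) Filter.atTop (nhds 0) := by
    have e : ∀ n : ℕ, Filter.Tendsto (fun u : ℝ => u ^ n * Real.exp (-(3 / 2) * u)) Filter.atTop
        (nhds 0) := by
      intro n
      have := Real.tendsto_pow_mul_exp_neg_atTop_nhds_zero n
      have h2 : Filter.Tendsto (fun u : ℝ => 3 / 2 * u) Filter.atTop Filter.atTop :=
        Filter.tendsto_id.const_mul_atTop (by norm_num)
      have h3 := (this.comp h2).const_mul ((2 / 3 : ℝ) ^ n)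
      rw [mul_zero] at h3
      refine h3.congr ?_
      intro u
      simp only [Function.comp]
      rw [← mul_assoc, ← mul_pow]
      congr 2
      · ring
      · ring
    have e3 := (e 3).const_mul (Real.exp (-(3 / 2 * h)))
    have e2 := (e 2).const_mul (2 * Real.exp (-(3 / 2 * h)))
    have e1 := (e 1).const_mul (8 / 3 * Real.exp (-(3 / 2 * h)))
    have e0 := (e 0).const_mul (16 / 9 * Real.exp (-(3 / 2 * h)))
    have := ((e3.add e2).add e1).add e0
    simp only [mul_zero, add_zero] at this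
    refine this.congr ?_
    intro u
    have : Real.exp (-(3 / 2 * (u + h))) = Real.exp (-(3 / 2) * u) * Real.exp (-(3 / 2 * h)) := by
      rw [← Real.exp_add]; congr 1; ring
    rw [this]; ring
  refine (h1.comp h0).congr ?_
  intro k
  simp only [Function.comp, GG]
  have : ((k:ℝ) + 1) * h - h = k * h := by ring
  rw [this]
  congr 2
  ring_nf

/-- choice of the grid -/
theorem grid (ε : ℝ) (hε : 0 < ε) : ∃ (h : ℝ) (k : ℕ), 0 < h ∧ 0 < k ∧
    16 / 9 - ε ≤ ∑ j ∈ range k, (((j:ℝ) + 1) * h) ^ 3 *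
      (Real.exp (-(3 / 2 * (((j:ℝ) + 1) * h))) - Real.exp (-(3 / 2 * (((j:ℝ) + 2) * h)))) := by
  set h : ℝ := ε / 8 with hh
  have hh0 : 0 < h := by positivity
  obtain ⟨k, hk, hk0⟩ := (((GG_tendsto h hh0).eventually_le_const (show (0:ℝ) < ε / 2 by positivity)).and
    (Filter.eventually_gt_atTop 0)).exists
  refine ⟨h, k, hh0, hk0, ?_⟩
  refine le_trans ?_ (GG_sum h hh0 k)
  have : GG h h = 16 / 9 * Real.exp (-(3 / 2 * h)) := by
    simp [GG]; ring
  have h1 := Real.add_one_le_exp (-(3 / 2 * h))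
  rw [this]
  nlinarith


noncomputable def ee (h : ℝ) (j : ℕ) : ℝ := Real.exp (-(3 / 2 * (((j:ℝ) + 1) * h)))

noncomputable def lam (h : ℝ) (j : ℕ) : ℝ := ee h j - ee h (j + 1)

theorem lam_pos (h : ℝ) (hh : 0 < h) (j : ℕ) : 0 < lam h j := by
  unfold lam ee
  have : Real.exp (-(3 / 2 * ((((j + 1 : ℕ):ℝ) + 1) * h))) < Real.exp (-(3 / 2 * (((j:ℝ) + 1) * h))) := by
    apply Real.exp_lt_exp.2
    push_cast
    nlinarith
  linarith

theorem tail_eq (h : ℝ) (j k : ℕ) (hjk : j ≤ k) : ∑ i ∈ Ico j k, lam h i = ee h j - ee h k := by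
  unfold lam
  rw [Finset.sum_Ico_eq_sum_range]
  induction k, hjk using Nat.le_induction with
  | base => simp
  | succ k hk ih =>
    have : k + 1 - j = (k - j) + 1 := by omega
    rw [this, Finset.sum_range_succ, ih]
    have : j + (k - j) = k := by omega
    rw [this]; ring

/-- cell sums -/
noncomputable def Lam (h : ℝ) (k : ℕ) (x y : Fin k → Bool) : ℝ :=
  ∑ j : Fin k, if x j = true ∧ y j = true then lam h j else 0

theorem Lam_nonneg (h : ℝ) (hh : 0 < h) (k : ℕ) (x y : Fin k → Bool) : 0 ≤ Lam h k x y := by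
  apply Finset.sum_nonneg
  intro j _
  split_ifs
  · exact (lam_pos h hh j).le
  · exact le_rfl

theorem Lam_le_one (h : ℝ) (hh : 0 < h) (k : ℕ) (x y : Fin k → Bool) : Lam h k x y ≤ 1 := by
  have h1 : Lam h k x y ≤ ∑ j : Fin k, lam h j := by
    apply Finset.sum_le_sum
    intro j _
    split_ifs
    · exact le_rfl
    · exact (lam_pos h hh j).le
  have h2 : ∑ j : Fin k, lam h j = ∑ j ∈ range k, lam h j := (Finset.sum_range _).symm
  have h3 : ∑ j ∈ range k, lam h j = ee h 0 - ee h k := by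
    have := tail_eq h 0 k (Nat.zero_le k)
    rwa [← Finset.range_eq_Ico] at this
  have h4 : ee h 0 ≤ 1 := by
    unfold ee; apply Real.exp_le_one_iff.2; push_cast; nlinarith
  have h5 : 0 < ee h k := Real.exp_pos _
  linarith

noncomputable def lmin (h : ℝ) (k : ℕ) : ℝ := ee h k * (1 - Real.exp (-(3 / 2 * h)))

theorem lmin_pos (h : ℝ) (hh : 0 < h) (k : ℕ) : 0 < lmin h k := by
  unfold lmin
  have : Real.exp (-(3 / 2 * h)) < 1 := by
    rw [Real.exp_lt_one_iff]; linarith
  have h2 : 0 < ee h k := Real.exp_pos _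
  exact mul_pos h2 (by linarith)

theorem lmin_le (h : ℝ) (hh : 0 < h) (k j : ℕ) (hj : j < k) : lmin h k ≤ lam h j := by
  have h1 : lam h j = ee h j * (1 - Real.exp (-(3 / 2 * h))) := by
    unfold lam ee
    rw [mul_sub, ← Real.exp_add, mul_one]
    congr 2
    push_cast; ring
  rw [h1]; unfold lmin
  have : Real.exp (-(3 / 2 * h)) < 1 := by
    rw [Real.exp_lt_one_iff]; linarith
  apply mul_le_mul_of_nonneg_right _ (by linarith)
  unfold ee
  apply Real.exp_le_exp.2
  have : (j:ℝ) ≤ k := by exact_mod_cast hj.le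
  nlinarith

theorem Lam_lower (h : ℝ) (hh : 0 < h) (k : ℕ) (x y : Fin k → Bool) (hne : Lam h k x y ≠ 0) :
    lmin h k ≤ Lam h k x y := by
  have : ∃ j : Fin k, x j = true ∧ y j = true := by
    by_contra hcon
    push Not at hcon
    apply hne
    apply Finset.sum_eq_zero
    intro j _
    rw [if_neg]
    rintro ⟨a, b⟩
    exact hcon j a b
  obtain ⟨j, hj⟩ := this
  refine (lmin_le h hh k j j.2).trans ?_
  have := Finset.single_le_sum (f := fun j : Fin k => if x j = true ∧ y j = true then lam h j else 0)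
    (fun i _ => by
      show 0 ≤ if x i = true ∧ y i = true then lam h i else 0
      split_ifs
      · exact (lam_pos h hh i).le
      · exact le_rfl) (Finset.mem_univ j)
  simp only [hj, and_self, if_true] at this
  exact this

/-- the tilting function -/
noncomputable def zz (h : ℝ) (k : ℕ) (x y : Fin k → Bool) : ℝ :=
  if Lam h k x y = 0 then 1 else 1 / Lam h k x y

noncomputable def BB (h : ℝ) (k : ℕ) : ℝ := max 1 (-Real.log (lmin h k))

theorem zz_pos (h : ℝ) (hh : 0 < h) (k : ℕ) (x y : Fin k → Bool) : 0 < zz h k x y := by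
  unfold zz
  split_ifs with h1
  · norm_num
  · have := lt_of_le_of_ne (Lam_nonneg h hh k x y) (Ne.symm h1)
    positivity

theorem zz_log (h : ℝ) (hh : 0 < h) (k : ℕ) (x y : Fin k → Bool) :
    |Real.log (zz h k x y)| ≤ BB h k := by
  unfold zz
  split_ifs with h1
  · simp [BB]
  · have h2 := lt_of_le_of_ne (Lam_nonneg h hh k x y) (Ne.symm h1)
    rw [one_div, Real.log_inv, abs_neg, abs_of_nonpos (Real.log_nonpos h2.le (Lam_le_one h hh k x y))]
    have h3 := Real.log_le_log (lmin_pos h hh k) (Lam_lower h hh k x y h1)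
    have := le_max_right 1 (-Real.log (lmin h k))
    unfold BB; linarith

open Classical in
theorem finite_sum (N k : ℕ) (G : SimpleGraph (Fin N)) (S : ℕ → Finset (Fin N)) (h : ℝ)
    (hh : 0 < h) (τ : ℝ) (hS : ∀ j < k, 0 < (S j).card)
    (hkey : ∀ j < k, ∀ (cell : Fin N → (Fin k → Bool)) (z : (Fin k → Bool) → (Fin k → Bool) → ℝ),
          (∀ x y, 0 < z x y) → (∀ x y, |Real.log (z x y)| ≤ BB h k) →
          1 + (∑ u ∈ S j, ∑ v ∈ S j, Real.log (z (cell u) (cell v))) / ((S j).card : ℝ) ^ 2 -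
            ((j:ℝ) + 1) * h - 3 * τ ≤
            (∑ u ∈ S j, ∑ v ∈ (S j).filter (fun v => u = v ∨ G.Adj u v), z (cell u) (cell v)) /
              ((S j).card : ℝ) ^ 2) :
    ∑ j ∈ range k, lam h j * ((S j).card : ℝ) ^ 2 * (1 / 2 * (((j:ℝ) + 1) * h) - 3 * τ) ≤
      2 * (G.edgeSet.ncard : ℝ) + ∑ j ∈ range k, ((S j).card : ℝ) := by
  set cell : Fin N → (Fin k → Bool) := fun u j => decide (u ∈ S j) with hcell
  have hLam : ∀ u v, Lam h k (cell u) (cell v) =
      ∑ j ∈ (range k).filter (fun j => u ∈ S j ∧ v ∈ S j), lam h j := by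
    intro u v
    unfold Lam
    rw [Finset.sum_filter, Finset.sum_range]
    apply Finset.sum_congr rfl
    intro j _
    simp [hcell]
  set L : Fin N → Fin N → ℝ := fun u v => Lam h k (cell u) (cell v) with hL
  -- key inequality, multiplied
  have hk1 : ∀ j ∈ range k, lam h j * ((S j).card : ℝ) ^ 2 * (1 - ((j:ℝ) + 1) * h - 3 * τ) +
      lam h j * (∑ u ∈ S j, ∑ v ∈ S j, Real.log (zz h k (cell u) (cell v))) ≤
      lam h j * (∑ u ∈ S j, ∑ v ∈ (S j).filter (fun v => u = v ∨ G.Adj u v),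
        zz h k (cell u) (cell v)) := by
    intro j hj
    have hj' := Finset.mem_range.1 hj
    have hc : (0:ℝ) < ((S j).card : ℝ) ^ 2 := by
      have := hS j hj'
      positivity
    have := hkey j hj' cell (zz h k) (zz_pos h hh k) (zz_log h hh k)
    rw [le_div_iff₀ hc] at this
    have h2 : (1 + (∑ u ∈ S j, ∑ v ∈ S j, Real.log (zz h k (cell u) (cell v))) /
      ((S j).card : ℝ) ^ 2 - ((j:ℝ) + 1) * h - 3 * τ) * ((S j).card : ℝ) ^ 2 =
      ((S j).card : ℝ) ^ 2 * (1 - ((j:ℝ) + 1) * h - 3 * τ) +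
        (∑ u ∈ S j, ∑ v ∈ S j, Real.log (zz h k (cell u) (cell v))) := by
      have hdm := div_mul_cancel₀ (∑ u ∈ S j, ∑ v ∈ S j, Real.log (zz h k (cell u) (cell v))) hc.ne'
      linear_combination hdm
    rw [h2] at this
    have h3 := mul_le_mul_of_nonneg_left this (lam_pos h hh j).le
    linarith
  have hsum := Finset.sum_le_sum hk1
  rw [Finset.sum_add_distrib] at hsum
  -- exchange of sums
  have hex : ∀ F : Fin N → Fin N → ℝ,
      ∑ j ∈ range k, lam h j * ∑ u ∈ S j, ∑ v ∈ S j, F u v = ∑ u, ∑ v, L u v * F u v := by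
    intro F
    have h1 : ∀ j ∈ range k, lam h j * ∑ u ∈ S j, ∑ v ∈ S j, F u v =
        ∑ u, ∑ v, if u ∈ S j ∧ v ∈ S j then lam h j * F u v else 0 := by
      intro j _
      rw [Finset.mul_sum]
      rw [← Finset.sum_filter_add_sum_filter_not (s := (univ : Finset (Fin N))) (fun u => u ∈ S j)]
      have h2 : ∑ u ∈ univ.filter (fun u => ¬ u ∈ S j), ∑ v,
          (if u ∈ S j ∧ v ∈ S j then lam h j * F u v else 0) = 0 := by
        apply Finset.sum_eq_zero
        intro u hu
        apply Finset.sum_eq_zero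
        intro v _
        rw [if_neg]
        intro hc
        exact (Finset.mem_filter.1 hu).2 hc.1
      rw [h2, add_zero]
      have h3 : univ.filter (fun u => u ∈ S j) = S j := by ext; simp
      rw [h3]
      apply Finset.sum_congr rfl
      intro u hu
      rw [Finset.mul_sum]
      rw [← Finset.sum_filter_add_sum_filter_not (s := (univ : Finset (Fin N))) (fun v => v ∈ S j)]
      rw [h3]
      have h4 : ∑ v ∈ univ.filter (fun v => ¬ v ∈ S j),
          (if u ∈ S j ∧ v ∈ S j then lam h j * F u v else 0) = 0 := by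
        apply Finset.sum_eq_zero
        intro v hv
        rw [if_neg]
        intro hc
        exact (Finset.mem_filter.1 hv).2 hc.2
      rw [h4, add_zero]
      apply Finset.sum_congr rfl
      intro v hv
      rw [if_pos ⟨hu, hv⟩]
    rw [Finset.sum_congr rfl h1, Finset.sum_comm]
    apply Finset.sum_congr rfl
    intro u _
    rw [Finset.sum_comm]
    apply Finset.sum_congr rfl
    intro v _
    rw [← Finset.sum_filter, ← Finset.sum_mul, hL]
    simp only [hLam u v]
  have hlogsum : ∑ j ∈ range k, lam h j * (∑ u ∈ S j, ∑ v ∈ S j,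
      Real.log (zz h k (cell u) (cell v))) = - ∑ u, ∑ v, L u v * Real.log (L u v) := by
    rw [hex, ← Finset.sum_neg_distrib]
    apply Finset.sum_congr rfl
    intro u _
    rw [← Finset.sum_neg_distrib]
    apply Finset.sum_congr rfl
    intro v _
    simp only [hL, zz]
    split_ifs with h0
    · simp [h0]
    · rw [one_div, Real.log_inv]; ring
  have hZsum : ∑ j ∈ range k, lam h j * (∑ u ∈ S j, ∑ v ∈ (S j).filter (fun v => u = v ∨ G.Adj u v),
        zz h k (cell u) (cell v)) ≤ 2 * (G.edgeSet.ncard : ℝ) + ∑ j ∈ range k, ((S j).card : ℝ) := by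
    have h1 : ∀ j ∈ range k, lam h j * (∑ u ∈ S j, ∑ v ∈ (S j).filter (fun v => u = v ∨ G.Adj u v),
        zz h k (cell u) (cell v)) = lam h j * (∑ u ∈ S j, ∑ v ∈ S j,
          if u = v ∨ G.Adj u v then zz h k (cell u) (cell v) else 0) := by
      intro j _
      congr 1
      apply Finset.sum_congr rfl
      intro u _
      rw [Finset.sum_filter]
    rw [Finset.sum_congr rfl h1, hex]
    have h2 : ∀ u v, L u v * (if u = v ∨ G.Adj u v then zz h k (cell u) (cell v) else 0) ≤
        (if G.Adj u v then 1 else 0) + (if u = v then (if ∃ j < k, u ∈ S j then 1 else 0) else 0) := by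
      intro u v
      by_cases h0 : L u v = 0
      · rw [h0, zero_mul]; positivity
      · have hz : L u v * zz h k (cell u) (cell v) = 1 := by
          simp only [hL, zz] at h0 ⊢
          rw [if_neg h0]
          field_simp
        by_cases huv : u = v
        · subst huv
          have hex2 : ∃ j < k, u ∈ S j := by
            by_contra hcon
            push Not at hcon
            apply h0
            simp only [hL]
            rw [hLam]
            apply Finset.sum_eq_zero
            intro j hj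
            rw [Finset.mem_filter, Finset.mem_range] at hj
            exact absurd hj.2.1 (hcon j hj.1)
          rw [if_pos (Or.inl rfl), hz, if_pos rfl, if_pos hex2]
          have : (0:ℝ) ≤ if G.Adj u u then 1 else 0 := by positivity
          linarith
        · by_cases hadj : G.Adj u v
          · rw [if_pos (Or.inr hadj), hz, if_pos hadj]
            have : (0:ℝ) ≤ (if u = v then (if ∃ j < k, u ∈ S j then 1 else 0) else 0) := by positivity
            linarith
          · rw [if_neg (by tauto), mul_zero]; positivity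
    refine (Finset.sum_le_sum (fun u _ => Finset.sum_le_sum (fun v _ => h2 u v))).trans ?_
    simp only [Finset.sum_add_distrib]
    apply add_le_add
    · have h3 : ∑ u : Fin N, ∑ v : Fin N, (if G.Adj u v then (1:ℝ) else 0) =
          ∑ u, (G.degree u : ℝ) := by
        apply Finset.sum_congr rfl
        intro u _
        rw [← Finset.sum_filter, Finset.sum_const, nsmul_eq_mul, mul_one]
        congr 1
        rw [← SimpleGraph.card_neighborFinset_eq_degree]
        congr 1
        ext v; simp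
      rw [h3]
      have h4 := G.sum_degrees_eq_twice_card_edges
      have h5 : (∑ u, (G.degree u : ℝ)) = 2 * (G.edgeFinset.card : ℝ) := by exact_mod_cast h4
      rw [h5, ← Set.ncard_coe_finset, SimpleGraph.coe_edgeFinset]
    · have h3 : ∀ u : Fin N, ∑ v : Fin N, (if u = v then (if ∃ j < k, u ∈ S j then (1:ℝ) else 0) else 0) =
          if ∃ j < k, u ∈ S j then 1 else 0 := by
        intro u
        rw [Finset.sum_ite_eq]; simp
      rw [Finset.sum_congr rfl (fun u _ => h3 u)]
      have h4 : ∀ u : Fin N, (if ∃ j < k, u ∈ S j then (1:ℝ) else 0) ≤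
          ∑ j ∈ range k, if u ∈ S j then 1 else 0 := by
        intro u
        split_ifs with hx
        · obtain ⟨j, hj, hu⟩ := hx
          have := Finset.single_le_sum (f := fun j => if u ∈ S j then (1:ℝ) else 0)
            (fun i _ => by positivity) (Finset.mem_range.2 hj)
          simpa [hu] using this
        · exact Finset.sum_nonneg (fun _ _ => by positivity)
      refine (Finset.sum_le_sum (fun u _ => h4 u)).trans ?_
      rw [Finset.sum_comm]
      apply Finset.sum_le_sum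
      intro j _
      rw [← Finset.sum_filter]
      simp
  -- entropy bound
  have hent : ∑ u, ∑ v, L u v * Real.log (L u v) ≤
      ∑ j ∈ range k, lam h j * ((S j).card : ℝ) ^ 2 * (1 - 3 / 2 * (((j:ℝ) + 1) * h)) := by
    have h1 := sum_sets N k S (lam h) (fun j _ => lam_pos h hh j)
    have h2 : ∑ u, ∑ v, L u v * Real.log (L u v) = ∑ u : Fin N, ∑ v : Fin N,
      (∑ j ∈ (range k).filter (fun j => u ∈ S j ∧ v ∈ S j), lam h j) *
        Real.log (∑ j ∈ (range k).filter (fun j => u ∈ S j ∧ v ∈ S j), lam h j) := by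
      apply Finset.sum_congr rfl
      intro u _
      apply Finset.sum_congr rfl
      intro v _
      simp only [hL, hLam]
    rw [h2]
    refine h1.trans (Finset.sum_le_sum ?_)
    intro j hj
    have hj' := Finset.mem_range.1 hj
    rw [tail_eq h j k hj'.le, tail_eq h (j + 1) k hj']
    have hejk : ee h k < ee h j := by
      unfold ee; apply Real.exp_lt_exp.2
      have : (j:ℝ) < k := by exact_mod_cast hj'
      nlinarith
    have hejk' : ee h k ≤ ee h (j + 1) := by
      unfold ee; apply Real.exp_le_exp.2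
      have : ((j + 1 : ℕ):ℝ) ≤ k := by exact_mod_cast hj'
      nlinarith
    have ht := tangent (ee h j - ee h k) (ee h (j + 1) - ee h k) (by linarith) (by linarith)
    have hlog : Real.log (ee h j - ee h k) ≤ -(3 / 2 * (((j:ℝ) + 1) * h)) := by
      have : Real.log (ee h j - ee h k) ≤ Real.log (ee h j) := by
        apply Real.log_le_log (by linarith)
        have : 0 < ee h k := Real.exp_pos _
        linarith
      refine this.trans ?_
      unfold ee
      rw [Real.log_exp]
    have hd : ee h j - ee h k - (ee h (j + 1) - ee h k) = lam h j := by unfold lam; ring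
    rw [hd] at ht
    have h5 : (1 + Real.log (ee h j - ee h k)) * lam h j ≤
        (1 - 3 / 2 * (((j:ℝ) + 1) * h)) * lam h j := by
      apply mul_le_mul_of_nonneg_right _ (lam_pos h hh j).le
      linarith
    calc _ ≤ ((S j).card : ℝ) ^ 2 * ((1 - 3 / 2 * (((j:ℝ) + 1) * h)) * lam h j) := by
          apply mul_le_mul_of_nonneg_left (ht.trans h5) (by positivity)
      _ = _ := by ring
  rw [hlogsum] at hsum
  have hfin : ∑ j ∈ range k, lam h j * ((S j).card : ℝ) ^ 2 * (1 / 2 * (((j:ℝ) + 1) * h) - 3 * τ) =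
      ∑ j ∈ range k, lam h j * ((S j).card : ℝ) ^ 2 * (1 - ((j:ℝ) + 1) * h - 3 * τ) -
      ∑ j ∈ range k, lam h j * ((S j).card : ℝ) ^ 2 * (1 - 3 / 2 * (((j:ℝ) + 1) * h)) := by
    rw [← Finset.sum_sub_distrib]
    apply Finset.sum_congr rfl
    intro j _
    ring
  rw [hfin]
  linarith


theorem asym2 (Q : ℝ) : ∃ m0 : ℕ, ∀ m : ℕ, m0 ≤ m → 1 < Real.log m ∧ Q ≤ m / Real.log m := by
  obtain ⟨m0, h⟩ := asym 1 1 Q one_pos one_pos
  exact ⟨m0, fun m hm => ⟨(h m hm).1, (h m hm).2.2.2.2⟩⟩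

end Low5

open Low5

theorem lower_bound (ε : ℝ) (hε : 0 < ε) : ∃ m0 : ℕ, ∀ m ≥ m0, ∀ (N : ℕ)
    (G : SimpleGraph (Fin N)), Univ m G →
      (4 / 9 - ε) * ((m : ℝ) / Real.log m) ^ 2 ≤ (G.edgeSet.ncard : ℝ) := by
  classical
  obtain ⟨h, k, hh, hk, hgrid⟩ := grid ε hε
  have hlam : ∀ j : ℕ, Real.exp (-(3 / 2 * (((j:ℝ) + 1) * h))) -
      Real.exp (-(3 / 2 * (((j:ℝ) + 2) * h))) = lam h j := by
    intro j
    unfold lam ee
    congr 3
    push_cast; ring
  simp only [hlam] at hgrid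
  set A3 : ℝ := ∑ j ∈ range k, (((j:ℝ) + 1) * h) ^ 3 * lam h j with hA3
  set A2 : ℝ := ∑ j ∈ range k, (((j:ℝ) + 1) * h) ^ 2 * lam h j with hA2
  set A1 : ℝ := ∑ j ∈ range k, (((j:ℝ) + 1) * h) with hA1
  have hA3n : 0 ≤ A3 := Finset.sum_nonneg (fun j _ => by
    have := lam_pos h hh j
    positivity)
  have hA2n : 0 ≤ A2 := Finset.sum_nonneg (fun j _ => by
    have := lam_pos h hh j
    positivity)
  have hA1n : 0 ≤ A1 := Finset.sum_nonneg (fun j _ => by positivity)
  set τ : ℝ := min 1 (ε / (2 * (A3 + 3 * A2 + 1))) with hτdef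
  have hτ : 0 < τ := lt_min one_pos (by positivity)
  have hτ1 : τ ≤ 1 := min_le_left _ _
  have hτ2 : τ * (A3 + 3 * A2) ≤ ε / 2 := by
    have h1 : τ ≤ ε / (2 * (A3 + 3 * A2 + 1)) := min_le_right _ _
    rw [le_div_iff₀ (by positivity)] at h1
    nlinarith
  have hs := fun j : ℕ => single (((j:ℝ) + 1) * h) τ (BB h k) k (by positivity) hτ hτ1
    (le_max_left _ _)
  choose M hM using hs
  obtain ⟨m1, hm1⟩ := asym2 (2 * A1 / ε)
  refine ⟨max m1 ((range k).sup M), fun m hm N G hG => ?_⟩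
  obtain ⟨hl, hsA⟩ := hm1 m ((le_max_left _ _).trans hm)
  set s : ℝ := (m:ℝ) / Real.log m with hsdef
  have hmpos : (0:ℝ) < m := by
    rcases Nat.eq_zero_or_pos m with h0 | h0
    · rw [h0] at hl; simp at hl; linarith
    · exact_mod_cast h0
  have hs0 : 0 < s := by
    have : 0 < Real.log m := by linarith
    positivity
  by_cases hE : (G.edgeSet.ncard : ℝ) ≤ 1 / 2 * s ^ 2
  swap
  · push Not at hE
    have : 0 < s ^ 2 := by positivity
    nlinarith
  have hSj : ∀ j < k, ∃ S : Finset (Fin N), (1 - τ) * ((((j:ℝ) + 1) * h) * s) ≤ S.card ∧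
        (S.card : ℝ) ≤ (((j:ℝ) + 1) * h) * s ∧ 0 < S.card ∧
        ∀ (cell : Fin N → (Fin k → Bool)) (z : (Fin k → Bool) → (Fin k → Bool) → ℝ),
          (∀ x y, 0 < z x y) → (∀ x y, |Real.log (z x y)| ≤ BB h k) →
          1 + (∑ u ∈ S, ∑ v ∈ S, Real.log (z (cell u) (cell v))) / (S.card : ℝ) ^ 2 -
            (((j:ℝ) + 1) * h) - 3 * τ ≤
            (∑ u ∈ S, ∑ v ∈ S.filter (fun v => u = v ∨ G.Adj u v), z (cell u) (cell v)) /
              (S.card : ℝ) ^ 2 := by
    intro j hj
    have hMj : M j ≤ m := (Finset.le_sup (f := M) (Finset.mem_range.2 hj)).trans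
      ((le_max_right _ _).trans hm)
    exact hM j m hMj N G hG hE
  choose! S hS1 hS2 hS3 hS4 using hSj
  have hfin := finite_sum N k G S h hh τ hS3 (fun j hj => hS4 j hj)
  -- lower bound of the left side
  have hlow : s ^ 2 * (1 / 2 * A3 - τ * (A3 + 3 * A2)) ≤
      ∑ j ∈ range k, lam h j * ((S j).card : ℝ) ^ 2 * (1 / 2 * (((j:ℝ) + 1) * h) - 3 * τ) := by
    have e1 : s ^ 2 * (1 / 2 * A3 - τ * (A3 + 3 * A2)) = ∑ j ∈ range k,
        (s ^ 2 * (1 / 2 - τ) * ((((j:ℝ) + 1) * h) ^ 3 * lam h j) -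
          s ^ 2 * (3 * τ) * ((((j:ℝ) + 1) * h) ^ 2 * lam h j)) := by
      rw [Finset.sum_sub_distrib, ← Finset.mul_sum, ← Finset.mul_sum]
      ring
    rw [e1]
    apply Finset.sum_le_sum
    intro j hj
    have hj' := Finset.mem_range.1 hj
    have hl := lam_pos h hh j
    have hα : 0 < ((j:ℝ) + 1) * h := by positivity
    have b1 := hS1 j hj'
    have b2 := hS2 j hj'
    set α : ℝ := ((j:ℝ) + 1) * h
    have hn0 : (0:ℝ) ≤ ((S j).card : ℝ) := by positivity
    have c1 : (1 - 2 * τ) * (α * s) ^ 2 ≤ ((S j).card : ℝ) ^ 2 := by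
      have hx : 0 ≤ (1 - τ) * (α * s) := by
        apply mul_nonneg (by linarith) (by positivity)
      have : ((1 - τ) * (α * s)) ^ 2 ≤ ((S j).card : ℝ) ^ 2 := by gcongr
      nlinarith [sq_nonneg (τ * (α * s))]
    have c2 : ((S j).card : ℝ) ^ 2 ≤ (α * s) ^ 2 := by gcongr
    have d1 : lam h j * (1 / 2 * α) * ((1 - 2 * τ) * (α * s) ^ 2) ≤
        lam h j * (1 / 2 * α) * ((S j).card : ℝ) ^ 2 := by gcongr
    have d2 : lam h j * (3 * τ) * ((S j).card : ℝ) ^ 2 ≤ lam h j * (3 * τ) * (α * s) ^ 2 := by gcongr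
    have e2 : s ^ 2 * (1 / 2 - τ) * (α ^ 3 * lam h j) - s ^ 2 * (3 * τ) * (α ^ 2 * lam h j) =
        lam h j * (1 / 2 * α) * ((1 - 2 * τ) * (α * s) ^ 2) - lam h j * (3 * τ) * (α * s) ^ 2 := by
      ring
    rw [e2]
    linarith
  have hup : ∑ j ∈ range k, ((S j).card : ℝ) ≤ A1 * s := by
    rw [hA1, Finset.sum_mul]
    exact Finset.sum_le_sum (fun j hj => hS2 j (Finset.mem_range.1 hj))
  have hA1s : A1 * s ≤ ε / 2 * s ^ 2 := by
    rw [div_le_iff₀ hε] at hsA
    nlinarith
  have hfinal : s ^ 2 * (1 / 2 * A3 - τ * (A3 + 3 * A2)) ≥ s ^ 2 * (8 / 9 - ε) := by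
    apply mul_le_mul_of_nonneg_left _ (by positivity)
    linarith
  have hs2 : 0 < s ^ 2 := by positivity
  nlinarith

end Pool.Agent.Lib.MP_1f2a9f_co
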