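import Pool.Agent.Lib.MP_1f2a9f_co.Defs
import Pool.Agent.Lib.MP_1f2a9f_co.Chern

/-!
# MP_1f2a9f_co, module REL: existence of a pseudo-random relation
-/

namespace Pool.Agent.Lib.MP_1f2a9f_co

open Finset

namespace Rel

/-- Kinds of bad events. -/
inductive Ev (Λ : Type) (b : ℕ) where
  | large : Λ → Finset (Λ × Fin b) → Ev Λ b
  | row : Λ → ℕ → Λ → Ev Λ b
  | col : Λ → Λ × Fin b → Ev Λ b

/-- The relation read off from a Boolean configuration. -/
def rel {Λ : Type} {b T : ℕ} [NeZero T]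
    (x : Λ × Fin T × (Λ × Fin b) → Bool) (l : Λ) (f : ℕ) (κ : Λ × Fin b) : Bool :=
  x (l, Fin.ofNat T f, κ)

lemma ofNat_inj {T f f' : ℕ} [NeZero T] (hf : f < T) (hf' : f' < T)
    (h : Fin.ofNat T f = Fin.ofNat T f') : f = f' := by
  have := congrArg Fin.val h
  simpa [Fin.ofNat, Nat.mod_eq_of_lt hf, Nat.mod_eq_of_lt hf'] using this

end Rel

theorem exists_relation {Λ : Type} [Fintype Λ] [DecidableEq Λ] (b : ℕ) (t : Λ → ℕ)
    (ρ : Λ → Λ → ℝ) (hρ0 : ∀ l l', 0 ≤ ρ l l') (hρ1 : ∀ l l', ρ l l' ≤ 1) (D : ℕ) (γ τ : ℝ)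
    (hγ : 0 < γ) (hγ1 : γ ≤ 1 / 2) (hτ : 0 < τ)
    (hb : ∀ l l', ρ l l' = 0 ∨ τ ≤ ρ l l' * b) (ht : ∀ l l', ρ l l' = 0 ∨ τ ≤ ρ l l' * t l)
    (hbig : ((Fintype.card Λ : ℝ) * ((Fintype.card Λ : ℝ) * b + 1) ^ D +
      (Fintype.card Λ : ℝ) * ((∑ l, (t l : ℝ)) + (Fintype.card Λ : ℝ) * b)) *
        Real.exp (-(γ ^ 2 * τ / 8)) < 1) :
    ∃ S : Λ → ℕ → Λ × Fin b → Bool, GoodRel b t ρ D γ τ S := by
  classical
  set T : ℕ := (∑ l, t l) + 1 with hT
  have : NeZero T := ⟨by omega⟩
  have htT : ∀ l, t l < T := fun l => by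
    have := Finset.single_le_sum (f := t) (fun i _ => Nat.zero_le _) (Finset.mem_univ l)
    omega
  let I := Λ × Fin T × (Λ × Fin b)
  let ρI : I → ℝ := fun i => ρ i.1 i.2.2.1
  have hI0 : ∀ i, 0 ≤ ρI i := fun i => hρ0 _ _
  have hI1 : ∀ i, ρI i ≤ 1 := fun i => hρ1 _ _
  set δ : ℝ := Real.exp (-(γ ^ 2 * τ / 8)) with hδ
  have hδ0 : 0 < δ := Real.exp_pos _
  -- the three kinds of bad events
  let J1 : Λ → Finset ℕ := fun l => range (t l)
  let B1 : Λ → Finset (Λ × Fin b) → ℕ → Finset I := fun l A f =>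
    A.image (fun κ => (l, Fin.ofNat T f, κ))
  let B2 : Λ → ℕ → Λ → Fin b → Finset I := fun l f l' e => {(l, Fin.ofNat T f, (l', e))}
  let B3 : Λ → Λ × Fin b → ℕ → Finset I := fun l κ f => {(l, Fin.ofNat T f, κ)}
  have hB1 : ∀ l A, ∀ f ∈ J1 l, ∀ f' ∈ J1 l, f ≠ f' → Disjoint (B1 l A f) (B1 l A f') := by
    intro l A f hf f' hf' hne
    rw [Finset.disjoint_left]
    intro i hi hi'
    simp only [B1, Finset.mem_image] at hi hi'
    obtain ⟨κ, _, rfl⟩ := hi
    obtain ⟨κ', _, h⟩ := hi'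
    have h' := congrArg (fun i : Λ × Fin T × (Λ × Fin b) => i.2.1) h
    simp only [J1, Finset.mem_range] at hf hf'
    exact hne (Rel.ofNat_inj (hf.trans (htT l)) (hf'.trans (htT l)) h'.symm)
  have hp1 : ∀ l A, ∀ f ∈ J1 l, ∏ i ∈ B1 l A f, ρI i = ∏ κ ∈ A, ρ l κ.1 := by
    intro l A f _
    simp only [B1]
    rw [Finset.prod_image]
    intro κ _ κ' _ h
    exact congrArg (fun i : Λ × Fin T × (Λ × Fin b) => i.2.2) h
  have hB2 : ∀ l f l', ∀ e ∈ (univ : Finset (Fin b)), ∀ e' ∈ (univ : Finset (Fin b)), e ≠ e' →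
      Disjoint (B2 l f l' e) (B2 l f l' e') := by
    intro l f l' e _ e' _ hne
    simp only [B2, Finset.disjoint_singleton]
    intro h
    exact hne (congrArg (fun i : Λ × Fin T × (Λ × Fin b) => i.2.2.2) h)
  have hp2 : ∀ l f l', ∀ e ∈ (univ : Finset (Fin b)), ∏ i ∈ B2 l f l' e, ρI i = ρ l l' := by
    intro l f l' e _
    simp [B2, ρI]
  have hB3 : ∀ l κ, ∀ f ∈ J1 l, ∀ f' ∈ J1 l, f ≠ f' → Disjoint (B3 l κ f) (B3 l κ f') := by
    intro l κ f hf f' hf' hne
    simp only [B3, Finset.disjoint_singleton]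
    intro h
    have h' := congrArg (fun i : Λ × Fin T × (Λ × Fin b) => i.2.1) h
    simp only [J1, Finset.mem_range] at hf hf'
    exact hne (Rel.ofNat_inj (hf.trans (htT l)) (hf'.trans (htT l)) h')
  have hp3 : ∀ l κ, ∀ f ∈ J1 l, ∏ i ∈ B3 l κ f, ρI i = ρ l κ.1 := by
    intro l κ f _
    simp [B3, ρI]
  have hJ1 : ∀ l, ((J1 l).card : ℝ) = t l := fun l => by simp [J1]
  -- events
  let P : Rel.Ev Λ b → (I → Bool) → Prop := fun k x => match k with
    | Rel.Ev.large l A => (Chern.cnt (J1 l) (B1 l A) x : ℝ) <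
        (1 - γ) * ((J1 l).card * ∏ κ ∈ A, ρ l κ.1)
    | Rel.Ev.row l f l' => (1 + γ) * (((univ : Finset (Fin b)).card : ℝ) * ρ l l') <
        (Chern.cnt univ (B2 l f l') x : ℝ)
    | Rel.Ev.col l κ => (1 + γ) * ((J1 l).card * ρ l κ.1) < (Chern.cnt (J1 l) (B3 l κ) x : ℝ)
  let T1 : Finset (Rel.Ev Λ b) := (univ : Finset Λ).biUnion fun l =>
    ((univ : Finset (Finset (Λ × Fin b))).filter
      (fun A => A.card ≤ D ∧ τ ≤ t l * ∏ κ ∈ A, ρ l κ.1)).image (Rel.Ev.large l)
  let T2 : Finset (Rel.Ev Λ b) := (univ : Finset Λ).biUnion fun l =>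
    (range (t l) ×ˢ (univ : Finset Λ)).image (fun p => Rel.Ev.row l p.1 p.2)
  let T3 : Finset (Rel.Ev Λ b) := (univ : Finset (Λ × (Λ × Fin b))).image (fun p => Rel.Ev.col p.1 p.2)
  have hδexp : ∀ q : ℝ, τ ≤ q → Real.exp (-(γ ^ 2 * q / 4)) ≤ δ := by
    intro q hq
    rw [hδ]
    refine Real.exp_le_exp.2 ?_
    have h2 : γ ^ 2 * τ ≤ γ ^ 2 * q := mul_le_mul_of_nonneg_left hq (by positivity)
    have h3 : 0 ≤ γ ^ 2 * τ := by positivity
    linarith
  have hgood : ∃ x : I → Bool, ∀ k ∈ T1 ∪ (T2 ∪ T3), ¬ P k x := by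
    refine Chern.exists_good ρI hI0 hI1 (T1 ∪ (T2 ∪ T3)) P δ ?_ ?_
    · intro k hk
      rw [Finset.mem_union, Finset.mem_union] at hk
      rcases hk with hk | hk | hk
      · simp only [T1, Finset.mem_biUnion, Finset.mem_univ, true_and, Finset.mem_image,
          Finset.mem_filter] at hk
        obtain ⟨l, A, ⟨_, hτA⟩, rfl⟩ := hk
        have hp0 : 0 ≤ ∏ κ ∈ A, ρ l κ.1 := Finset.prod_nonneg fun κ _ => hρ0 _ _
        have hp1' : ∏ κ ∈ A, ρ l κ.1 ≤ 1 :=
          Finset.prod_le_one (fun κ _ => hρ0 _ _) (fun κ _ => hρ1 _ _)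
        refine (Chern.lower ρI hI0 hI1 (J1 l) (B1 l A) (hB1 l A) _ hp0 hp1' (hp1 l A) γ hγ.le
          (by linarith)).trans (hδexp _ ?_)
        rw [hJ1]; exact hτA
      · simp only [T2, Finset.mem_biUnion, Finset.mem_univ, true_and, Finset.mem_image,
          Finset.mem_product, Finset.mem_range, and_true] at hk
        obtain ⟨l, ⟨f, l'⟩, hf, rfl⟩ := hk
        rcases hb l l' with h0 | h0
        · have hz := Chern.upper_zero ρI hI0 hI1 (univ : Finset (Fin b)) (B2 l f l')
            (fun g hg => by rw [hp2 l f l' g hg, h0])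
          simp only [P, h0, mul_zero]
          exact hz.trans hδ0.le
        · refine (Chern.upper ρI hI0 hI1 univ (B2 l f l') (hB2 l f l') _ (hρ0 l l')
            (hp2 l f l') γ hγ.le (by linarith)).trans (hδexp _ ?_)
          rw [Finset.card_univ, Fintype.card_fin]
          linarith
      · simp only [T3, Finset.mem_image, Finset.mem_univ, true_and] at hk
        obtain ⟨⟨l, κ⟩, rfl⟩ := hk
        rcases ht l κ.1 with h0 | h0
        · have hz := Chern.upper_zero ρI hI0 hI1 (J1 l) (B3 l κ)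
            (fun g hg => by rw [hp3 l κ g hg, h0])
          simp only [P, h0, mul_zero]
          exact hz.trans hδ0.le
        · refine (Chern.upper ρI hI0 hI1 (J1 l) (B3 l κ) (hB3 l κ) _ (hρ0 l κ.1)
            (hp3 l κ) γ hγ.le (by linarith)).trans (hδexp _ ?_)
          rw [hJ1]
          linarith
    · refine lt_of_le_of_lt (mul_le_mul_of_nonneg_right ?_ hδ0.le) hbig
      have c1 : T1.card ≤ Fintype.card Λ * (Fintype.card Λ * b + 1) ^ D := by
        refine Finset.card_biUnion_le.trans ?_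
        calc _ ≤ ∑ _l : Λ, (Fintype.card Λ * b + 1) ^ D := by
              refine Finset.sum_le_sum fun l _ => ?_
              refine Finset.card_image_le.trans ?_
              refine (Finset.card_le_card (t := (univ : Finset (Finset (Λ × Fin b))).filter
                (fun A => A.card ≤ D)) ?_).trans ?_
              · intro A hA
                rw [Finset.mem_filter] at hA ⊢
                exact ⟨hA.1, hA.2.1⟩
              · refine (Chern.card_small_subsets D).trans ?_
                rw [Fintype.card_prod, Fintype.card_fin]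
          _ = _ := by rw [Finset.sum_const, Finset.card_univ, smul_eq_mul]
      have c2 : T2.card ≤ Fintype.card Λ * ∑ l, t l := by
        refine Finset.card_biUnion_le.trans ?_
        rw [Finset.mul_sum]
        refine Finset.sum_le_sum fun l _ => ?_
        refine Finset.card_image_le.trans ?_
        rw [Finset.card_product, Finset.card_range, Finset.card_univ, mul_comm]
      have c3 : T3.card ≤ Fintype.card Λ * (Fintype.card Λ * b) := by
        refine Finset.card_image_le.trans ?_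
        rw [Finset.card_univ, Fintype.card_prod, Fintype.card_prod, Fintype.card_fin]
      have c4 : (T1 ∪ (T2 ∪ T3)).card ≤ Fintype.card Λ * (Fintype.card Λ * b + 1) ^ D +
          Fintype.card Λ * ((∑ l, t l) + Fintype.card Λ * b) := by
        refine (Finset.card_union_le _ _).trans ?_
        have := Finset.card_union_le T2 T3
        rw [mul_add]
        omega
      calc ((T1 ∪ (T2 ∪ T3)).card : ℝ) ≤ ((Fintype.card Λ * (Fintype.card Λ * b + 1) ^ D +
          Fintype.card Λ * ((∑ l, t l) + Fintype.card Λ * b) : ℕ) : ℝ) := by exact_mod_cast c4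
        _ = _ := by push_cast; ring
  obtain ⟨x, hx⟩ := hgood
  refine ⟨Rel.rel x, ?_, ?_, ?_⟩
  · intro l A hA hτA
    have h1 : Rel.Ev.large l A ∈ T1 ∪ (T2 ∪ T3) := by
      apply Finset.mem_union_left
      simp only [T1, Finset.mem_biUnion, Finset.mem_univ, true_and, Finset.mem_image,
        Finset.mem_filter]
      exact ⟨l, A, ⟨hA, hτA⟩, rfl⟩
    have h2 := hx _ h1
    simp only [P, not_lt] at h2
    rw [hJ1] at h2
    refine h2.trans (le_of_eq ?_)
    unfold Chern.cnt
    congr 2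
    ext f
    rw [Finset.mem_filter, Finset.mem_filter]
    simp only [J1, B1, Rel.rel, Finset.mem_image, forall_exists_index, and_imp,
      forall_apply_eq_imp_iff₂]
  · intro l f hf l'
    have h1 : Rel.Ev.row l f l' ∈ T1 ∪ (T2 ∪ T3) := by
      apply Finset.mem_union_right
      apply Finset.mem_union_left
      simp only [T2, Finset.mem_biUnion, Finset.mem_univ, true_and, Finset.mem_image,
        Finset.mem_product, Finset.mem_range, and_true]
      exact ⟨l, (f, l'), hf, rfl⟩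
    have h2 := hx _ h1
    simp only [P, not_lt] at h2
    rw [Finset.card_univ, Fintype.card_fin] at h2
    have h3 : (Chern.cnt univ (B2 l f l') x : ℝ) =
        ((univ.filter (fun e : Fin b => Rel.rel x l f (l', e) = true)).card : ℝ) := by
      unfold Chern.cnt
      congr 2
      ext e
      rw [Finset.mem_filter, Finset.mem_filter]
      simp only [B2, Rel.rel, Finset.mem_singleton, forall_eq]
    rw [← h3]
    calc _ ≤ _ := h2
      _ = _ := by ring
  · intro l κ
    have h1 : Rel.Ev.col l κ ∈ T1 ∪ (T2 ∪ T3) := by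
      apply Finset.mem_union_right
      apply Finset.mem_union_right
      simp only [T3, Finset.mem_image, Finset.mem_univ, true_and]
      exact ⟨(l, κ), rfl⟩
    have h2 := hx _ h1
    simp only [P, not_lt] at h2
    rw [hJ1] at h2
    have h3 : (Chern.cnt (J1 l) (B3 l κ) x : ℝ) =
        (((range (t l)).filter (fun f => Rel.rel x l f κ = true)).card : ℝ) := by
      unfold Chern.cnt
      congr 2
      ext f
      rw [Finset.mem_filter, Finset.mem_filter]
      simp only [B3, J1, Rel.rel, Finset.mem_singleton, forall_eq]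
    rw [← h3]
    calc _ ≤ _ := h2
      _ = _ := by ring

end Pool.Agent.Lib.MP_1f2a9f_co
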