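import Pool.Agent.Lib.MP_1f2a9f_co.Defs
import Pool.Agent.Lib.MP_1f2a9f_co.Chern

/-!
# MP_1f2a9f_co, module RELQ: existence of a symmetric pseudo-random relation
-/

namespace Pool.Agent.Lib.MP_1f2a9f_co

open Finset

theorem exists_relation2 {C : Type} [Fintype C] [DecidableEq C] (b : ℕ)
    (ρ : C → C → ℝ) (hρs : ∀ x y, ρ x y = ρ y x) (hρ0 : ∀ x y, 0 ≤ ρ x y)
    (hρ1 : ∀ x y, ρ x y ≤ 1) (D : ℕ) (γ τ : ℝ)
    (hγ : 0 < γ) (hγ1 : γ ≤ 1 / 2) (hτ : 0 < τ)
    (hbig : (Fintype.card C : ℝ) * ((Fintype.card C : ℝ) * b + 1) ^ D * 2 *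
        Real.exp (-(γ ^ 2 * τ / 8)) < 1) :
    ∃ R : C × Fin b → C × Fin b → Bool, GoodRel2 b ρ D γ τ R := by
  classical
  let I := Sym2 (C × Fin b)
  let ρI : I → ℝ := Sym2.lift ⟨fun u v => ρ u.1 v.1, fun u v => hρs u.1 v.1⟩
  have hI : ∀ u v : C × Fin b, ρI s(u, v) = ρ u.1 v.1 := fun u v => by
    simp only [ρI, Sym2.lift_mk]
  have hI0 : ∀ i, 0 ≤ ρI i := Sym2.ind fun u v => by rw [hI]; exact hρ0 _ _
  have hI1 : ∀ i, ρI i ≤ 1 := Sym2.ind fun u v => by rw [hI]; exact hρ1 _ _
  set δ : ℝ := Real.exp (-(γ ^ 2 * τ / 8)) with hδ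
  have hδ0 : 0 < δ := Real.exp_pos _
  let B : C → Finset (C × Fin b) → Fin b → Finset I := fun κ A g =>
    A.image (fun a => s((κ, g), a))
  have hB : ∀ κ A, (∀ a ∈ A, a.1 ≠ κ) → ∀ g ∈ (univ : Finset (Fin b)),
      ∀ g' ∈ (univ : Finset (Fin b)), g ≠ g' → Disjoint (B κ A g) (B κ A g') := by
    intro κ A hA g _ g' _ hne
    rw [Finset.disjoint_left]
    intro i hi hi'
    simp only [B, Finset.mem_image] at hi hi'
    obtain ⟨a, _, rfl⟩ := hi
    obtain ⟨a', ha', h⟩ := hi'
    rw [Sym2.eq_iff] at h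
    rcases h with h | h
    · exact hne (congrArg Prod.snd h.1).symm
    · exact hA a' ha' (by rw [h.2])
  have hp : ∀ κ A g, ∏ i ∈ B κ A g, ρI i = ∏ a ∈ A, ρ κ a.1 := by
    intro κ A g
    simp only [B]
    rw [Finset.prod_image]
    · exact Finset.prod_congr rfl fun a _ => hI _ _
    · intro a _ a' _ h
      rcases Sym2.eq_iff.1 h with h | h
      · exact h.2
      · exact h.2.trans h.1
  let P : (C × Finset (C × Fin b)) × Bool → (I → Bool) → Prop := fun k x => if k.2 = true then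
      (1 + γ) * (((univ : Finset (Fin b)).card : ℝ) * ∏ a ∈ k.1.2, ρ k.1.1 a.1) <
        (Chern.cnt univ (B k.1.1 k.1.2) x : ℝ)
    else (Chern.cnt univ (B k.1.1 k.1.2) x : ℝ) <
      (1 - γ) * (((univ : Finset (Fin b)).card : ℝ) * ∏ a ∈ k.1.2, ρ k.1.1 a.1)
  let T : Finset ((C × Finset (C × Fin b)) × Bool) := (((univ : Finset C) ×ˢ
    ((univ : Finset (Finset (C × Fin b))).filter (fun A => A.card ≤ D))).filter
      (fun k => (∀ a ∈ k.2, a.1 ≠ k.1) ∧ τ ≤ b * ∏ a ∈ k.2, ρ k.1 a.1)) ×ˢ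
        (univ : Finset Bool)
  have hδexp : ∀ q : ℝ, τ ≤ q → Real.exp (-(γ ^ 2 * q / 4)) ≤ δ := by
    intro q hq
    rw [hδ]
    refine Real.exp_le_exp.2 ?_
    have h2 : γ ^ 2 * τ ≤ γ ^ 2 * q := mul_le_mul_of_nonneg_left hq (by positivity)
    have h3 : 0 ≤ γ ^ 2 * τ := by positivity
    linarith
  have hgood : ∃ x : I → Bool, ∀ k ∈ T, ¬ P k x := by
    refine Chern.exists_good ρI hI0 hI1 T P δ ?_ ?_
    · intro k hk
      simp only [T, Finset.mem_product, Finset.mem_filter, Finset.mem_univ, true_and,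
        and_true] at hk
      obtain ⟨⟨κ, A⟩, c⟩ := k
      obtain ⟨_, hA, hτA⟩ := hk
      have hp0 : 0 ≤ ∏ a ∈ A, ρ κ a.1 := Finset.prod_nonneg fun κ _ => hρ0 _ _
      have hp1' : ∏ a ∈ A, ρ κ a.1 ≤ 1 :=
        Finset.prod_le_one (fun κ _ => hρ0 _ _) (fun κ _ => hρ1 _ _)
      cases c with
      | false =>
          simp only [P, Bool.false_eq_true, if_false]
          refine (Chern.lower ρI hI0 hI1 univ (B κ A) (hB κ A hA) _ hp0 hp1'
            (fun g _ => hp κ A g) γ hγ.le (by linarith)).trans (hδexp _ ?_)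
          rw [Finset.card_univ, Fintype.card_fin]; exact hτA
      | true =>
          simp only [P, if_true]
          refine (Chern.upper ρI hI0 hI1 univ (B κ A) (hB κ A hA) _ hp0
            (fun g _ => hp κ A g) γ hγ.le (by linarith)).trans (hδexp _ ?_)
          rw [Finset.card_univ, Fintype.card_fin]; exact hτA
    · refine lt_of_le_of_lt (mul_le_mul_of_nonneg_right ?_ hδ0.le) hbig
      have c1 : T.card ≤ Fintype.card C * (Fintype.card C * b + 1) ^ D * 2 := by
        simp only [T]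
        rw [Finset.card_product, Finset.card_univ, Fintype.card_bool]
        refine Nat.mul_le_mul_right _ ?_
        refine (Finset.card_filter_le _ _).trans ?_
        rw [Finset.card_product, Finset.card_univ]
        refine Nat.mul_le_mul_left _ ?_
        refine (Chern.card_small_subsets D).trans ?_
        rw [Fintype.card_prod, Fintype.card_fin]
      calc (T.card : ℝ) ≤ ((Fintype.card C * (Fintype.card C * b + 1) ^ D * 2 : ℕ) : ℝ) := by
            exact_mod_cast c1
        _ = _ := by push_cast; ring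
  obtain ⟨x, hx⟩ := hgood
  refine ⟨fun u v => x s(u, v), ?_, ?_⟩
  · intro u v
    show x s(u, v) = x s(v, u)
    rw [Sym2.eq_swap]
  · intro κ A hA hAκ hτA
    have hmem : ∀ c : Bool, ((κ, A), c) ∈ T := by
      intro c
      simp only [T, Finset.mem_product, Finset.mem_filter, Finset.mem_univ, true_and,
        and_true]
      exact ⟨hA, hAκ, hτA⟩
    have h1 := hx _ (hmem true)
    have h2 := hx _ (hmem false)
    simp only [P, if_true, not_lt] at h1
    simp only [P, Bool.false_eq_true, if_false, not_lt] at h2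
    rw [Finset.card_univ, Fintype.card_fin] at h1 h2
    have h3 : (Chern.cnt univ (B κ A) x : ℝ) =
        ((univ.filter (fun g : Fin b => ∀ a ∈ A, x s((κ, g), a) = true)).card : ℝ) := by
      unfold Chern.cnt
      congr 2
      ext g
      rw [Finset.mem_filter, Finset.mem_filter]
      simp only [B, Finset.mem_image, forall_exists_index, and_imp, forall_apply_eq_imp_iff₂]
    rw [← h3, abs_le]
    constructor <;> linarith

end Pool.Agent.Lib.MP_1f2a9f_co
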