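import Pool.Agent.Lib.MP_1f2a9f_co.Host
import Pool.Agent.Lib.MP_1f2a9f_co.Rel
import Pool.Agent.Lib.MP_1f2a9f_co.RelQ
import Pool.Agent.Lib.MP_1f2a9f_co.QCount
import Pool.Agent.Lib.MP_1f2a9f_co.Const
import Pool.Agent.Lib.MP_1f2a9f_co.NumA
import Pool.Agent.Lib.MP_1f2a9f_co.NumB
import Pool.Agent.Lib.MP_1f2a9f_co.NumC
import Pool.Agent.Lib.MP_1f2a9f_co.NumD
import Pool.Agent.Lib.MP_1f2a9f_co.NumE
import Pool.Agent.Lib.MP_1f2a9f_co.CostU
import Pool.Agent.Lib.MP_1f2a9f_co.CostS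
import Pool.Agent.Lib.MP_1f2a9f_co.CostQ
import Pool.Agent.Lib.MP_1f2a9f_co.MidW
import Pool.Agent.Lib.MP_1f2a9f_co.Classify
import Pool.Agent.Lib.MP_1f2a9f_co.Embed

namespace Pool.Agent.Lib.MP_1f2a9f_co

open Finset

namespace TopAsm

theorem linked_symm {K j j' : ℕ} (h : Linked K j j') : Linked K j' j := ⟨h.1.symm, h.2.2, h.2.1⟩

theorem QQ_symm {ε : ℝ} {J m B I : ℕ} (K : ℕ)
    (R : ((Fin B × Fin (pq m)) × Fin J) × Fin (pbg ε J m) →
      ((Fin B × Fin (pq m)) × Fin J) × Fin (pbg ε J m) → Bool) (hR : ∀ x y, R x y = R y x)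
    (a c : Lev B I × Pre ε J m) (h : QQ K R a c) : QQ K R c a := by
  obtain ⟨l, a⟩ := a
  obtain ⟨l', c⟩ := c
  rcases l with l | l | l <;> rcases l' with l' | l' | l' <;> simp only [QQ] at h ⊢
  intro j j' hj
  rw [hR]
  exact h j' j (linked_symm hj)

theorem GamF_card {ε : ℝ} {J m : ℕ} (g0 : Pre ε J m) {B I : ℕ} (l : Lev B I) :
    (GamF g0 l).card = gamC ε J m l := by
  rcases l with l | l | l
  · simp [GamF, gamC]
  · simp [GamF, gamC, Fintype.card_prod]
  · simp [GamF, gamC]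

theorem NN_le {ε χ Dc ε₁ : ℝ} {J m B I : ℕ} (g0 : Pre ε J m) (l : Lev B I) (hε : 0 < ε)
    (h1 : 0 < cells ε J m l) (h2 : cells ε J m l ≤ ε * cap ε χ Dc ε₁ m l) :
    ((GamF g0 l).card * pb ε m * tS ε m l * TT ε χ Dc ε₁ J m l : ℝ) ≤
      (1 + 2 * ε) * cap ε χ Dc ε₁ m l := by
  have hcap : 0 < cap ε χ Dc ε₁ m l := by
    by_contra hcon
    push Not at hcon
    nlinarith
  have e1 : ((GamF g0 l).card * pb ε m * tS ε m l : ℝ) = cells ε J m l := by
    rw [GamF_card]; rfl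
  rw [e1]
  have h3 : (TT ε χ Dc ε₁ J m l : ℝ) < (1 + ε) * cap ε χ Dc ε₁ m l / cells ε J m l + 1 := by
    unfold TT
    apply Nat.ceil_lt_add_one
    positivity
  have h4 : cells ε J m l * ((1 + ε) * cap ε χ Dc ε₁ m l / cells ε J m l + 1) =
      (1 + ε) * cap ε χ Dc ε₁ m l + cells ε J m l := by
    field_simp
  have h5 : cells ε J m l * (TT ε χ Dc ε₁ J m l : ℝ) ≤
    cells ε J m l * ((1 + ε) * cap ε χ Dc ε₁ m l / cells ε J m l + 1) := by
    apply mul_le_mul_of_nonneg_left h3.le h1.le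
  rw [h4] at h5
  linarith

theorem rhoG_pow {ε χ : ℝ} {K J B q : ℕ} (hK : kap K J ≠ 0) (x y : Fin B × Fin q) :
    rhoG ε χ K J x y ^ kap K J =
      Real.exp (-((1 - 12 * ε) * ((x.1 : ℝ) + (y.1 : ℝ) + 2) * (χ / B))) := by
  unfold rhoG
  rw [← Real.exp_nat_mul]
  congr 1
  have : (kap K J : ℝ) ≠ 0 := by exact_mod_cast hK
  field_simp

theorem rhoG_ge {ε χ : ℝ} {K J B q : ℕ} (hK : kap K J ≠ 0) (hε : 0 < ε)
    (hχ : 0 < χ) (hB : 0 < B) (x y : Fin B × Fin q) :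
    Real.exp (-(2 * χ / kap K J)) ≤ rhoG ε χ K J x y := by
  unfold rhoG
  apply Real.exp_le_exp.2
  have hk : (0:ℝ) < kap K J := by positivity
  rw [neg_le_neg_iff, div_le_div_iff_of_pos_right hk]
  have h1 : (x.1 : ℝ) + (y.1 : ℝ) + 2 ≤ 2 * B := by
    have h1 : (x.1 : ℕ) + 1 ≤ B := x.1.2
    have h2 : (y.1 : ℕ) + 1 ≤ B := y.1.2
    have h1' : ((x.1 : ℕ) : ℝ) + 1 ≤ B := by exact_mod_cast h1
    have h2' : ((y.1 : ℕ) : ℝ) + 1 ≤ B := by exact_mod_cast h2
    linarith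
  have hB' : (0:ℝ) < B := by positivity
  have h0 : (0:ℝ) ≤ (x.1 : ℝ) + (y.1 : ℝ) + 2 := by positivity
  calc (1 - 12 * ε) * ((x.1 : ℝ) + (y.1 : ℝ) + 2) * (χ / B)
      ≤ 1 * (2 * B) * (χ / B) := by
        apply mul_le_mul_of_nonneg_right _ (by positivity)
        apply mul_le_mul (by linarith) h1 h0 (by norm_num)
    _ = 2 * χ := by field_simp

theorem rhoG_pos {ε χ : ℝ} {K J B q : ℕ} (x y : Fin B × Fin q) : 0 < rhoG ε χ K J x y :=
  Real.exp_pos _

theorem rhoG_le_one {ε χ : ℝ} {K J B q : ℕ} (hε1 : ε ≤ 1 / 1000)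
    (hχ : 0 < χ) (x y : Fin B × Fin q) : rhoG ε χ K J x y ≤ 1 := by
  unfold rhoG
  rw [Real.exp_le_one_iff]
  have : 0 ≤ (1 - 12 * ε) * ((x.1 : ℝ) + (y.1 : ℝ) + 2) * (χ / B) / kap K J := by
    have : 0 ≤ 1 - 12 * ε := by linarith
    positivity
  linarith

theorem rhoG_symm {ε χ : ℝ} {K J B q : ℕ} (x y : Fin B × Fin q) :
    rhoG ε χ K J x y = rhoG ε χ K J y x := by
  unfold rhoG
  congr 1
  ring

theorem QQ_count {ε η χ Dc ε₁ : ℝ} {B K J r : ℕ} (hc : Consts ε η χ Dc ε₁ B K J r) (m I : ℕ)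
    (hχ : 0 < χ) (hk : kap K J ≠ 0) (hbg : 0 < pbg ε J m)
    (hg : 0 < pgamg ε J m)
    (htau : ptaug ε J m ≤ Real.exp (-(2 * χ / kap K J)) ^ (2 * K) * pbg ε J m)
    (R : ((Fin B × Fin (pq m)) × Fin J) × Fin (pbg ε J m) →
      ((Fin B × Fin (pq m)) × Fin J) × Fin (pbg ε J m) → Bool)
    (hR : GoodRel2 (pbg ε J m) (fun κ κ' => rhoG ε χ K J κ.1 κ'.1) (pDg Dc K m) (pgamg ε J m)
        (ptaug ε J m) R) (g0 : Pre ε J m) (l l' : Lev B I) :
    ({p : Pre ε J m × Pre ε J m | p.1 ∈ GamF g0 l ∧ p.2 ∈ GamF g0 l' ∧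
      QQ K R (l, p.1) (l', p.2)}.ncard : ℝ) ≤
      rhoQ ε χ J m l l' * (GamF g0 l).card * (GamF g0 l').card := by
  classical
  have hzero : ∀ l l' : Lev B I, (∀ a c, ¬ QQ K R (l, a) (l', c)) →
      ({p : Pre ε J m × Pre ε J m | p.1 ∈ GamF g0 l ∧ p.2 ∈ GamF g0 l' ∧
      QQ K R (l, p.1) (l', p.2)}.ncard : ℝ) = 0 := by
    intro l l' h
    have : {p : Pre ε J m × Pre ε J m | p.1 ∈ GamF g0 l ∧ p.2 ∈ GamF g0 l' ∧
      QQ K R (l, p.1) (l', p.2)} = ∅ := by
      ext p; simp [h]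
    rw [this]; simp
  rcases l with l | x | l
  · rw [hzero _ _ (by intro a c; simp [QQ])]
    rcases l' with l' | l' | l' <;> simp [rhoQ]
  · rcases l' with l' | y | l'
    · rw [hzero _ _ (by intro a c; simp [QQ])]; simp [rhoQ]
    · -- the main case
      have hpc : ∀ c c' : Fin (pq m),
          ((univ.filter (fun p : (Fin J → Fin (pbg ε J m)) × (Fin J → Fin (pbg ε J m)) =>
            ∀ j j' : Fin J, Linked K j j' →
              R (((x, c), j), p.1 j) (((y, c'), j'), p.2 j') = true)).card : ℝ) ≤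
          (1 + pgamg ε J m) ^ J * ((pbg ε J m : ℝ) ^ J) ^ 2 *
            Real.exp (-((1 - 12 * ε) * ((x : ℝ) + (y : ℝ) + 2) * (χ / B))) := by
        intro c c'
        have hpos : (0:ℝ) < pbg ε J m := by exact_mod_cast hbg
        have := pair_count J K (pbg ε J m) (rhoG ε χ K J) (rhoG_pos) (rhoG_le_one hc.hε1 hχ)
          (pDg Dc K m) (by unfold pDg; nlinarith [Nat.zero_le (pDel Dc m), Nat.zero_le K])
          (pgamg ε J m) (ptaug ε J m) hg R hR (x, c) (y, c') (by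
            refine htau.trans ?_
            rw [mul_comm]
            apply mul_le_mul_of_nonneg_left _ hpos.le
            apply pow_le_pow_left₀ (Real.exp_pos _).le
            exact rhoG_ge hk hc.hε hχ hc.hB _ _)
        rw [rhoG_pow hk] at this
        exact this
      have hset : {p : Pre ε J m × Pre ε J m | p.1 ∈ GamF g0 (.inr (.inl x) : Lev B I) ∧
          p.2 ∈ GamF g0 (.inr (.inl y) : Lev B I) ∧
          QQ K R ((.inr (.inl x) : Lev B I), p.1) ((.inr (.inl y) : Lev B I), p.2)} =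
          ((univ : Finset (Fin (pq m) × Fin (pq m))).biUnion (fun cc =>
            (univ.filter (fun p : (Fin J → Fin (pbg ε J m)) × (Fin J → Fin (pbg ε J m)) =>
            ∀ j j' : Fin J, Linked K j j' →
              R (((x, cc.1), j), p.1 j) (((y, cc.2), j'), p.2 j') = true)).image
              (fun p => (((cc.1, p.1), (cc.2, p.2)) : Pre ε J m × Pre ε J m))) :
              Set (Pre ε J m × Pre ε J m)) := by
        ext ⟨⟨c, g⟩, ⟨c', g'⟩⟩
        simp [GamF, QQ]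
      rw [hset, Set.ncard_coe_finset]
      have hle : (((univ : Finset (Fin (pq m) × Fin (pq m))).biUnion (fun cc =>
            (univ.filter (fun p : (Fin J → Fin (pbg ε J m)) × (Fin J → Fin (pbg ε J m)) =>
            ∀ j j' : Fin J, Linked K j j' →
              R (((x, cc.1), j), p.1 j) (((y, cc.2), j'), p.2 j') = true)).image
              (fun p => (((cc.1, p.1), (cc.2, p.2)) : Pre ε J m × Pre ε J m)))).card : ℝ) ≤
          ∑ _cc : Fin (pq m) × Fin (pq m), (1 + pgamg ε J m) ^ J * ((pbg ε J m : ℝ) ^ J) ^ 2 *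
            Real.exp (-((1 - 12 * ε) * ((x : ℝ) + (y : ℝ) + 2) * (χ / B))) := by
        refine le_trans (b := ((∑ cc : Fin (pq m) × Fin (pq m),
          (univ.filter (fun p : (Fin J → Fin (pbg ε J m)) × (Fin J → Fin (pbg ε J m)) =>
            ∀ j j' : Fin J, Linked K j j' →
              R (((x, cc.1), j), p.1 j) (((y, cc.2), j'), p.2 j') = true)).card : ℕ) : ℝ)) ?_ ?_
        · exact_mod_cast Finset.card_biUnion_le.trans
            (Finset.sum_le_sum (fun cc _ => Finset.card_image_le))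
        · push_cast
          exact Finset.sum_le_sum (fun cc _ => hpc cc.1 cc.2)
      refine hle.trans (le_of_eq ?_)
      rw [GamF_card, GamF_card]
      simp [rhoQ, gamC]
      ring
    · rw [hzero _ _ (by intro a c; simp [QQ])]; simp [rhoQ]
  · rw [hzero _ _ (by intro a c; simp [QQ])]
    rcases l' with l' | l' | l' <;> simp [rhoQ]

end TopAsm

open TopAsm

theorem upper_bound (ε : ℝ) (hε : 0 < ε) : ∃ m0 : ℕ, ∀ m ≥ m0, ∃ (N : ℕ)
    (G : SimpleGraph (Fin N)), Univ m G ∧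
      (G.edgeSet.ncard : ℝ) ≤ (1 / 2 + ε) * ((m : ℝ) / Real.log m) ^ 2 := by
  classical
  obtain ⟨ε', hε'0, hε'1, hε'2⟩ : ∃ ε' : ℝ, 0 < ε' ∧ ε' ≤ 1 / 1000 ∧ 100 * ε' ≤ ε :=
    ⟨min (1 / 1000) (ε / 100), lt_min (by norm_num) (by positivity), min_le_left _ _, by
      have := min_le_right (1 / 1000 : ℝ) (ε / 100)
      linarith⟩
  obtain ⟨η, χ, Dc, ε₁, B, K, J, r, hc⟩ := exists_consts ε' hε'0 hε'1
  have hη0 : 0 < η := by rw [hc.hη]; positivity
  have hχ0 : 0 < χ := by rw [hc.hχ]; positivity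
  have hDc0 : 0 < Dc := by rw [hc.hDc]; positivity
  have hJK : K < J := by
    have h1 := hc.hJ
    have h2 : (K:ℝ) + 1 ≤ J := by
      have : ε' * J ≤ 1 * J := by
        apply mul_le_mul_of_nonneg_right (by linarith) (Nat.cast_nonneg J)
      nlinarith [Nat.cast_nonneg (α := ℝ) K]
    exact_mod_cast h2
  have hkap : kap K J ≠ 0 := by
    have h1 := kap_lower K J hJK
    have h2 := hc.hK
    intro h0
    rw [h0] at h1
    nlinarith
  obtain ⟨m1, H1⟩ := num_basic hc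
  obtain ⟨m2, H2⟩ := num_rel hc
  obtain ⟨m3, H3⟩ := num_relq hc
  obtain ⟨m4, H4⟩ := num_lab hc
  obtain ⟨m5, H5⟩ := num_over hc
  obtain ⟨m6, H6⟩ := cost_univ hc
  obtain ⟨m7, H7⟩ := cost_S hc
  obtain ⟨m8, H8⟩ := cost_Q hc
  obtain ⟨m9, H9⟩ := middle_on hc
  refine ⟨m1 + m2 + m3 + m4 + m5 + m6 + m7 + m8 + m9, fun m hm => ?_⟩
  obtain ⟨-, b1, b2, b3, b4, b5, b6, b7, b8, b9, b10, b11, b12, b13, b14⟩ := H1 m (by omega)
  obtain ⟨c1, c2, c3⟩ := H2 m (by omega)
  obtain ⟨d1, d2⟩ := H3 m (by omega)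
  obtain ⟨e1, e2, e3, e4⟩ := H4 m (by omega)
  have f5 := H5 m (by omega)
  have f6 := H6 m (by omega)
  have f7 := H7 m (by omega)
  have f8 := H8 m (by omega)
  have f9 := H9 m (by omega)
  clear H1 H2 H3 H4 H5 H6 H7 H8 H9
  have hqi0 : ∀ i, 0 < qi ε' m i := fun i => Real.exp_pos _
  have hqi1 : ∀ i, qi ε' m i ≤ 1 := fun i => by
    unfold qi
    rw [Real.exp_le_one_iff]
    have : 0 ≤ min (Real.log m / 2 ^ (i + 2)) (ε' * Real.log m / 16) := by
      apply le_min <;> positivity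
    linarith
  have hrho0 : ∀ l l' : Lev B (pI η m), 0 ≤ rhoS ε' m l l' := by
    intro l l'
    rcases l with l | l | l <;> rcases l' with l' | l' | l' <;> simp only [rhoS] <;>
      first | exact (hqi0 _).le | exact zero_le_one | exact le_rfl | skip
    split_ifs
    · exact (hqi0 _).le
    · exact le_rfl
  have hrho1 : ∀ l l' : Lev B (pI η m), rhoS ε' m l l' ≤ 1 := by
    intro l l'
    rcases l with l | l | l <;> rcases l' with l' | l' | l' <;> simp only [rhoS] <;>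
      first | exact hqi1 _ | exact zero_le_one | exact le_rfl | skip
    split_ifs
    · exact hqi1 _
    · norm_num
  obtain ⟨S, hS⟩ := exists_relation (pb ε' m) (tS ε' m) (rhoS ε' m (B := B) (I := pI η m))
    hrho0 hrho1 (pD m) (pgam ε' m) (ptau ε' m) b6 b7 (by linarith) c1 c2 c3
  obtain ⟨R, hR⟩ := exists_relation2 (C := (Fin B × Fin (pq m)) × Fin J) (pbg ε' J m)
    (fun κ κ' => rhoG ε' χ K J κ.1 κ'.1) (fun x y => rhoG_symm _ _) (fun x y => (rhoG_pos _ _).le)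
    (fun x y => rhoG_le_one hc.hε1 hχ0 _ _) (pDg Dc K m) (pgamg ε' J m) (ptaug ε' J m) b9 b10 b11 d1
  have hmid := f9 R hR
  have g0 : Pre ε' J m := (⟨0, b4⟩, fun _ => ⟨0, b5⟩)
  have htaug : ptaug ε' J m ≤ Real.exp (-(2 * χ / kap K J)) ^ (2 * K) * pbg ε' J m := by
    refine d2.trans ?_
    apply mul_le_mul_of_nonneg_left _ (by positivity)
    have h1 : Real.exp (-((1 - 12 * ε') * (2 * K / kap K J) *
        ((1 + 2 * ε') * ((1 + 5 * ε') * Real.log m)))) ≤ 1 := by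
      rw [Real.exp_le_one_iff]
      have : 0 ≤ (1 - 12 * ε') * (2 * K / kap K J) *
        ((1 + 2 * ε') * ((1 + 5 * ε') * Real.log m)) := by
        have : 0 ≤ 1 - 12 * ε' := by linarith
        positivity
      linarith
    have h2 : (0:ℝ) ≤ pbg ε' J m := by positivity
    nlinarith
  obtain ⟨N, G, hGe, hGu⟩ := exists_host (pb ε' m) (tS ε' m) (TT ε' χ Dc ε₁ J m (B := B) (I := pI η m))
    (rhoS ε' m) (pD m) (pgam ε' m) (ptau ε' m) S hS (GamF g0) (QQ K R)
    (fun x y => QQ_symm K R hR.symm x y) (rhoQ ε' χ J m)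
    (QQ_count hc m (pI η m) hχ0 hkap b5 b9 htaug R hR g0) (pa m)
  refine ⟨N, G, ?_, ?_⟩
  · intro n H hHm hiso
    obtain ⟨A, lev, pre, P, hA, hn, hpre, hcap, hself, hPD, hrev, hcost, hcover, hcoll⟩ :=
      classify hc m b1 b14 b12 b4 b13 e1 e2 e3 R hmid g0 n H hHm hiso
    obtain ⟨e, f, W, q1, q2, q3, q4, q5⟩ := embed hc m b1 b2 b4 b5 b6 b7 b9 b10 b8 e4 f5 S hS R g0
      n H hn A lev pre P hA hpre hcap hself hPD hrev hcost hcover hcoll
    exact hGu n H A lev pre e f W hpre q1 q2 q3 q4 q5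
  · refine hGe.trans ?_
    have hNle : ∀ l : Lev B (pI η m), ((GamF g0 l).card * pb ε' m * tS ε' m l *
        TT ε' χ Dc ε₁ J m l : ℝ) ≤ (1 + 2 * ε') * cap ε' χ Dc ε₁ m l := fun l =>
      NN_le g0 l hε'0 (e4 l).1 (e4 l).2
    have hN0 : ∀ l : Lev B (pI η m), (0:ℝ) ≤ ((GamF g0 l).card * pb ε' m * tS ε' m l *
        TT ε' χ Dc ε₁ J m l : ℝ) := fun l => by positivity
    have hC0 : ∀ l : Lev B (pI η m), (0:ℝ) ≤ (1 + 2 * ε') * cap ε' χ Dc ε₁ m l := fun l =>
      (hN0 l).trans (hNle l)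
    have hQ0 : ∀ l l' : Lev B (pI η m), 0 ≤ rhoQ ε' χ J m l l' := by
      intro l l'
      rcases l with l | l | l <;> rcases l' with l' | l' | l' <;> simp only [rhoQ] <;>
        first | exact le_rfl | positivity
    have t1 : (pa m : ℝ) * (pa m + ∑ l : Lev B (pI η m), ((GamF g0 l).card * pb ε' m * tS ε' m l *
        TT ε' χ Dc ε₁ J m l : ℝ)) ≤ ε' * (m / Real.log m) ^ 2 := by
      refine le_trans ?_ f6
      apply mul_le_mul_of_nonneg_left _ (by positivity)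
      have := Finset.sum_le_sum (fun l (_ : l ∈ (univ : Finset (Lev B (pI η m)))) => hNle l)
      linarith
    have t2 : ∑ l : Lev B (pI η m), ∑ l' : Lev B (pI η m), (1 + pgam ε' m) * rhoS ε' m l l' *
        ((GamF g0 l).card * pb ε' m * tS ε' m l * TT ε' χ Dc ε₁ J m l : ℝ) *
        ((GamF g0 l').card * pb ε' m * tS ε' m l' * TT ε' χ Dc ε₁ J m l' : ℝ) ≤
        40 * ε' * (m / Real.log m) ^ 2 := by
      refine le_trans ?_ f7
      apply Finset.sum_le_sum
      intro l _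
      apply Finset.sum_le_sum
      intro l' _
      apply mul_le_mul _ (hNle l') (hN0 l')
      · have := hrho0 l l'
        have := hC0 l
        positivity
      · apply mul_le_mul_of_nonneg_left (hNle l)
        have := hrho0 l l'
        positivity
    have t3 : 1 / 2 * ∑ l : Lev B (pI η m), ∑ l' : Lev B (pI η m), rhoQ ε' χ J m l l' *
        ((GamF g0 l).card * pb ε' m * tS ε' m l * TT ε' χ Dc ε₁ J m l : ℝ) *
        ((GamF g0 l').card * pb ε' m * tS ε' m l' * TT ε' χ Dc ε₁ J m l' : ℝ) ≤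
        (1 / 2 + 40 * ε') * (m / Real.log m) ^ 2 := by
      refine le_trans ?_ f8
      apply mul_le_mul_of_nonneg_left _ (by norm_num)
      apply Finset.sum_le_sum
      intro l _
      apply Finset.sum_le_sum
      intro l' _
      apply mul_le_mul _ (hNle l') (hN0 l')
      · have := hQ0 l l'
        have := hC0 l
        positivity
      · apply mul_le_mul_of_nonneg_left (hNle l) (hQ0 l l')
    have hfin : (ε' + 40 * ε' + (1 / 2 + 40 * ε')) * (m / Real.log m) ^ 2 ≤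
        (1 / 2 + ε) * (m / Real.log m) ^ 2 := by
      apply mul_le_mul_of_nonneg_right _ (by positivity)
      linarith
    linarith

end Pool.Agent.Lib.MP_1f2a9f_co
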