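import Pool.Agent.Lib.MP_1f2a9f_co.Defs

/-!
# MP_1f2a9f_co, module LAB: random labels and fine digits with few collisions
-/

namespace Pool.Agent.Lib.MP_1f2a9f_co

open Finset

namespace Lab

variable {V : Type} [Fintype V] [DecidableEq V]

lemma sum_prod_eq (b : ℕ) (G : V → Fin b → ℝ) :
    ∑ e : V → Fin b, ∏ i, G i (e i) = ∏ i, ∑ y, G i y := by
  have h := (Finset.prod_univ_sum (fun _ : V => (univ : Finset (Fin b))) G).symm
  rwa [Fintype.piFinset_univ] at h

lemma ite_and3 (X Y Z : Prop) [Decidable X] [Decidable Y] [Decidable Z] :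
    (if X ∧ Y ∧ Z then (1 : ℝ) else 0) =
      (if X then 1 else 0) * (if Y then 1 else 0) * (if Z then 1 else 0) := by
  by_cases hX : X <;> by_cases hY : Y <;> by_cases hZ : Z <;> simp [hX, hY, hZ]

/-- Expectation of the collision of two far vertices at a fixed digit. -/
lemma far_bound (b : ℕ) (hb : 0 < b) (P P' : Finset V) (v v' : V) (hne : v ≠ v')
    (h1 : v ∉ P) (h2 : v' ∉ P) (h3 : v ∉ P') (h4 : v' ∉ P') (hd : Disjoint P P')
    (R R' : V → Fin b → Prop) [∀ i, DecidablePred (R i)] [∀ i, DecidablePred (R' i)]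
    (r r' : V → ℝ)
    (hR : ∀ i, ((univ.filter (fun e : Fin b => R i e)).card : ℝ) ≤ r i * b)
    (hR' : ∀ i, ((univ.filter (fun e : Fin b => R' i e)).card : ℝ) ≤ r' i * b) :
    ∑ e : V → Fin b, (if e v = e v' ∧ (∀ u ∈ P, R u (e u)) ∧ (∀ u ∈ P', R' u (e u))
      then (1 : ℝ) else 0) ≤
      (b : ℝ) ^ Fintype.card V * ((b : ℝ)⁻¹ * (∏ u ∈ P, r u) * ∏ u ∈ P', r' u) := by
  have hb' : (0 : ℝ) < b := by exact_mod_cast hb
  let G : Fin b → V → Fin b → ℝ := fun x i y =>
    (if i = v then (if y = x then 1 else 0) else 1) *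
    (if i = v' then (if y = x then 1 else 0) else 1) *
    (if i ∈ P then (if R i y then 1 else 0) else 1) *
    (if i ∈ P' then (if R' i y then 1 else 0) else 1)
  have hG : ∀ (x : Fin b) (e : V → Fin b), ∏ i, G x i (e i) =
      (if e v = x then 1 else 0) * (if e v' = x then 1 else 0) *
        (if ∀ u ∈ P, R u (e u) then 1 else 0) * (if ∀ u ∈ P', R' u (e u) then 1 else 0) := by
    intro x e
    simp only [G]
    rw [Finset.prod_mul_distrib, Finset.prod_mul_distrib, Finset.prod_mul_distrib]
    have hall : ∀ (Q : Finset V) (T : V → Fin b → Prop) [∀ i, DecidablePred (T i)],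
        ∏ i, (if i ∈ Q then (if T i (e i) then (1 : ℝ) else 0) else 1) =
          if ∀ u ∈ Q, T u (e u) then 1 else 0 := by
      intro Q T _
      rw [Finset.prod_ite_mem, Finset.univ_inter]
      by_cases hx : ∀ u ∈ Q, T u (e u)
      · rw [if_pos hx]
        exact Finset.prod_eq_one fun u hu => if_pos (hx u hu)
      · rw [if_neg hx]
        push Not at hx
        obtain ⟨u, hu, hT⟩ := hx
        exact Finset.prod_eq_zero hu (if_neg hT)
    rw [hall P R, hall P' R']
    congr 1
    congr 1
    congr 1
    · rw [Finset.prod_ite_eq' univ v, if_pos (Finset.mem_univ v)]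
    · rw [Finset.prod_ite_eq' univ v', if_pos (Finset.mem_univ v')]
  have hLHS : ∀ e : V → Fin b, (if e v = e v' ∧ (∀ u ∈ P, R u (e u)) ∧ (∀ u ∈ P', R' u (e u))
      then (1 : ℝ) else 0) = ∑ x : Fin b, ∏ i, G x i (e i) := by
    intro e
    simp_rw [hG]
    rw [← Finset.sum_mul, ← Finset.sum_mul]
    have : ∑ x : Fin b, (if e v = x then (1 : ℝ) else 0) * (if e v' = x then 1 else 0) =
        if e v = e v' then 1 else 0 := by
      rw [Finset.sum_eq_single (e v)]
      · simp [eq_comm]
      · intro x _ hx
        rw [if_neg (fun h => hx h.symm), zero_mul]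
      · intro h
        exact absurd (Finset.mem_univ _) h
    rw [this, ite_and3]
  let d : V → ℝ := fun i =>
    (if i = v then (b : ℝ)⁻¹ else 1) * (if i = v' then (b : ℝ)⁻¹ else 1) *
    (if i ∈ P then r i else 1) * (if i ∈ P' then r' i else 1)
  have hdi : ∀ (x : Fin b) (i : V), ∑ y, G x i y ≤ b * d i := by
    intro x i
    simp only [G, d]
    by_cases c1 : i = v
    · subst c1
      have c2 : i ≠ v' := hne
      simp only [if_true, c2, if_false, h1, h3, mul_one]
      rw [mul_inv_cancel₀ hb'.ne']
      simp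
    · by_cases c2 : i = v'
      · subst c2
        simp only [if_true, c1, if_false, h2, h4, mul_one, one_mul]
        rw [mul_inv_cancel₀ hb'.ne']
        simp
      · by_cases c3 : i ∈ P
        · have c4 : i ∉ P' := fun h => (Finset.disjoint_left.1 hd) c3 h
          simp only [c1, c2, c3, c4, if_true, if_false, one_mul, mul_one]
          rw [Finset.sum_boole]
          refine (hR i).trans ?_
          rw [mul_comm]
        · by_cases c4 : i ∈ P'
          · simp only [c1, c2, c3, c4, if_true, if_false, one_mul, mul_one]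
            rw [Finset.sum_boole]
            refine (hR' i).trans ?_
            rw [mul_comm]
          · simp only [c1, c2, c3, c4, if_false, mul_one]
            simp
  have hG0 : ∀ (x : Fin b) (i : V) (y : Fin b), 0 ≤ G x i y := by
    intro x i y
    simp only [G]
    positivity
  have hdprod : ∏ i, d i = (b : ℝ)⁻¹ * (b : ℝ)⁻¹ * (∏ u ∈ P, r u) * ∏ u ∈ P', r' u := by
    simp only [d]
    rw [Finset.prod_mul_distrib, Finset.prod_mul_distrib, Finset.prod_mul_distrib,
      Finset.prod_ite_mem, Finset.prod_ite_mem, Finset.univ_inter, Finset.univ_inter,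
      Finset.prod_ite_eq' univ v, if_pos (Finset.mem_univ v),
      Finset.prod_ite_eq' univ v', if_pos (Finset.mem_univ v')]
  calc ∑ e : V → Fin b, (if e v = e v' ∧ (∀ u ∈ P, R u (e u)) ∧ (∀ u ∈ P', R' u (e u))
      then (1 : ℝ) else 0) = ∑ e : V → Fin b, ∑ x : Fin b, ∏ i, G x i (e i) :=
        Finset.sum_congr rfl fun e _ => hLHS e
    _ = ∑ x : Fin b, ∏ i, ∑ y, G x i y := by
        rw [Finset.sum_comm]
        exact Finset.sum_congr rfl fun x _ => sum_prod_eq b (G x)
    _ ≤ ∑ _x : Fin b, ∏ i, (b * d i) := by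
        refine Finset.sum_le_sum fun x _ => ?_
        exact Finset.prod_le_prod (fun i _ => Finset.sum_nonneg fun y _ => hG0 x i y)
          (fun i _ => hdi x i)
    _ = (b : ℝ) ^ Fintype.card V * ((b : ℝ)⁻¹ * (∏ u ∈ P, r u) * ∏ u ∈ P', r' u) := by
        rw [Finset.sum_const, Finset.card_univ, Fintype.card_fin, nsmul_eq_mul,
          Finset.prod_mul_distrib, hdprod, Finset.prod_const, Finset.card_univ]
        field_simp

/-- Number of choice functions which agree at two places. -/
lemma pi_agree (C : V → Finset ℕ) (v v' : V) (hne : v ≠ v') :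
    (((Fintype.piFinset C).filter (fun f => f v = f v')).card : ℝ) *
      ((C v).card * (C v').card : ℝ) =
      (Fintype.piFinset C).card * ((C v ∩ C v').card : ℝ) := by
  have hsum : ∀ x : ℕ, (∑ f ∈ Fintype.piFinset C,
      (if f v = x then (1 : ℝ) else 0) * (if f v' = x then 1 else 0)) *
        ((C v).card * (C v').card : ℝ) =
      (Fintype.piFinset C).card * (if x ∈ C v ∩ C v' then 1 else 0) := by
    intro x
    let g : V → ℕ → ℝ := fun i y =>
      (if i = v then (if y = x then 1 else 0) else 1) *
      (if i = v' then (if y = x then 1 else 0) else 1)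
    have e1 : ∀ f : V → ℕ, (if f v = x then (1 : ℝ) else 0) * (if f v' = x then 1 else 0) =
        ∏ i, g i (f i) := by
      intro f
      simp only [g]
      rw [Finset.prod_mul_distrib, Finset.prod_ite_eq' univ v, if_pos (Finset.mem_univ v),
        Finset.prod_ite_eq' univ v', if_pos (Finset.mem_univ v')]
    have e2 : ∑ f ∈ Fintype.piFinset C, ∏ i, g i (f i) = ∏ i, ∑ y ∈ C i, g i y :=
      (Finset.prod_univ_sum C g).symm
    simp_rw [e1]
    rw [e2]
    have e3 : ∀ i, (∑ y ∈ C i, g i y) *
        ((if i = v then ((C v).card : ℝ) else 1) * (if i = v' then ((C v').card : ℝ) else 1)) =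
        ((C i).card : ℝ) * ((if i = v then (if x ∈ C v then 1 else 0) else 1) *
          (if i = v' then (if x ∈ C v' then 1 else 0) else 1)) := by
      intro i
      simp only [g]
      by_cases c1 : i = v
      · subst c1
        simp only [if_true, hne, if_false, mul_one]
        rw [Finset.sum_ite_eq' (C i) x]
        split_ifs <;> simp
      · by_cases c2 : i = v'
        · subst c2
          simp only [if_true, c1, if_false, one_mul]
          rw [Finset.sum_ite_eq' (C i) x]
          split_ifs <;> simp
        · simp only [c1, c2, if_false, mul_one]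
          simp
    have e4 : (∏ i, ∑ y ∈ C i, g i y) * ((C v).card * (C v').card : ℝ) =
        ∏ i, ((∑ y ∈ C i, g i y) * ((if i = v then ((C v).card : ℝ) else 1) *
          (if i = v' then ((C v').card : ℝ) else 1))) := by
      rw [Finset.prod_mul_distrib, Finset.prod_mul_distrib, Finset.prod_ite_eq' univ v,
        if_pos (Finset.mem_univ v), Finset.prod_ite_eq' univ v', if_pos (Finset.mem_univ v')]
    rw [e4, Finset.prod_congr rfl fun i _ => e3 i, Finset.prod_mul_distrib,
      Finset.prod_mul_distrib, Finset.prod_ite_eq' univ v,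
        if_pos (Finset.mem_univ v), Finset.prod_ite_eq' univ v', if_pos (Finset.mem_univ v'),
        Fintype.card_piFinset]
    push_cast
    congr 1
    by_cases c1 : x ∈ C v <;> by_cases c2 : x ∈ C v' <;> simp [c1, c2]
  have hA : (((Fintype.piFinset C).filter (fun f => f v = f v')).card : ℝ) =
      ∑ x ∈ C v, ∑ f ∈ Fintype.piFinset C,
        (if f v = x then (1 : ℝ) else 0) * (if f v' = x then 1 else 0) := by
    rw [Finset.sum_comm, Finset.card_filter]
    push_cast
    refine Finset.sum_congr rfl fun f hf => ?_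
    have hfv : f v ∈ C v := (Fintype.mem_piFinset.1 hf) v
    rw [Finset.sum_eq_single (f v)]
    · simp [eq_comm]
    · intro x _ hx
      rw [if_neg (fun h => hx h.symm), zero_mul]
    · intro h
      exact absurd hfv h
  rw [hA, Finset.sum_mul, Finset.sum_congr rfl fun x _ => hsum x, ← Finset.mul_sum]
  congr 1
  rw [Finset.sum_boole]
  congr 2
  ext x
  simp only [Finset.mem_filter, Finset.mem_inter]
  tauto

/-- The product over the image is at least the product over the set. -/
lemma prod_image_ge {K : Type} [DecidableEq K] (P : Finset V) (c : V → K) (q : K → ℝ)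
    (h0 : ∀ k, 0 ≤ q k) (h1 : ∀ k, q k ≤ 1) :
    ∏ u ∈ P, q (c u) ≤ ∏ κ ∈ P.image c, q κ := by
  rw [← Finset.prod_fiberwise_of_maps_to (s := P) (t := P.image c) (g := c)
    (fun u hu => Finset.mem_image_of_mem c hu) (fun u => q (c u))]
  refine Finset.prod_le_prod (fun κ _ => Finset.prod_nonneg fun u _ => h0 _) fun κ hκ => ?_
  obtain ⟨u, hu, rfl⟩ := Finset.mem_image.1 hκ
  have : ∏ i ∈ P with c i = c u, q (c i) = q (c u) ^ (P.filter (fun i => c i = c u)).card := by
    rw [← Finset.prod_const]
    exact Finset.prod_congr rfl fun i hi => by rw [(Finset.mem_filter.1 hi).2]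
  rw [this]
  have hpos : (P.filter (fun i => c i = c u)).card ≠ 0 := by
    rw [Finset.card_ne_zero]
    exact ⟨u, Finset.mem_filter.2 ⟨hu, rfl⟩⟩
  exact pow_le_of_le_one (h0 _) (h1 _) hpos

end Lab

open Lab

theorem exists_labels {Λ Γ V : Type} [Fintype Λ] [DecidableEq Λ] [DecidableEq Γ] [Fintype V]
    [DecidableEq V] (b : ℕ) (hb : 0 < b) (t : Λ → ℕ) (ρ : Λ → Λ → ℝ)
    (hρ0 : ∀ l l', 0 ≤ ρ l l') (hρ1 : ∀ l l', ρ l l' ≤ 1) (D D1 : ℕ) (γ τ : ℝ)
    (hγ : 0 < γ) (hγ1 : γ ≤ 1 / 2) (hτ : 1 ≤ τ)
    (S : Λ → ℕ → Λ × Fin b → Bool) (hS : GoodRel b t ρ D γ τ S)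
    (lev : V → Λ) (pre : V → Γ) (P : V → Finset V) (hself : ∀ v, v ∉ P v)
    (hPD : ∀ v, (P v).card ≤ D) (hrev : ∀ u, (univ.filter (fun v => u ∈ P v)).card ≤ D1)
    (hcost : ∀ v, τ ≤ t (lev v) * ∏ u ∈ P v, ρ (lev v) (lev u))
    (U : Finset V) (W : Λ → ℝ) (hW : ∀ l, 0 ≤ W l) :
    ∃ (e : V → Fin b) (f : V → ℕ), (∀ v, f v < t (lev v)) ∧
      (∀ v, ∀ u ∈ P v, S (lev v) (f v) (lev u, e u) = true) ∧
      ∑ p ∈ (U ×ˢ U).filter (fun p => lev p.1 = lev p.2 ∧ pre p.1 = pre p.2 ∧ e p.1 = e p.2 ∧
          f p.1 = f p.2), W (lev p.1) ≤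
        (1 + γ) ^ (2 * D) / (1 - γ) ^ 2 *
          (∑ p ∈ (U ×ˢ U).filter (fun p => lev p.1 = lev p.2 ∧ pre p.1 = pre p.2),
            W (lev p.1) / ((b : ℝ) * t (lev p.1))) +
        (∑ v ∈ U, W (lev v)) * ((D + 1) * (D1 + 1)) := by
  classical
  have hb' : (0 : ℝ) < b := by exact_mod_cast hb
  have h1γ : 0 < 1 - γ := by linarith
  -- candidate sets
  let C : (V → Fin b) → V → Finset ℕ := fun e v =>
    (range (t (lev v))).filter (fun f => ∀ u ∈ P v, S (lev v) f (lev u, e u) = true)
  let q : V → ℝ := fun v => t (lev v) * ∏ u ∈ P v, ρ (lev v) (lev u)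
  have hq : ∀ v, 1 ≤ q v := fun v => hτ.trans (hcost v)
  have htpos : ∀ v, (0 : ℝ) < t (lev v) := by
    intro v
    by_contra hcon
    push Not at hcon
    have h0 : (t (lev v) : ℝ) = 0 := le_antisymm hcon (Nat.cast_nonneg _)
    have := hq v
    simp only [q, h0, zero_mul] at this
    linarith
  have hC : ∀ e v, (1 - γ) * q v ≤ ((C e v).card : ℝ) := by
    intro e v
    let A : Finset (Λ × Fin b) := (P v).image (fun u => (lev u, e u))
    have hA : A.card ≤ D := Finset.card_image_le.trans (hPD v)
    have hprod : ∏ u ∈ P v, ρ (lev v) (lev u) ≤ ∏ κ ∈ A, ρ (lev v) κ.1 :=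
      prod_image_ge (P v) (fun u => (lev u, e u)) (fun κ => ρ (lev v) κ.1)
        (fun κ => hρ0 _ _) (fun κ => hρ1 _ _)
    have hq2 : q v ≤ t (lev v) * ∏ κ ∈ A, ρ (lev v) κ.1 :=
      mul_le_mul_of_nonneg_left hprod (htpos v).le
    have h := hS.large (lev v) A hA ((hcost v).trans hq2)
    have hCA : C e v = (range (t (lev v))).filter (fun f => ∀ κ ∈ A, S (lev v) f κ = true) := by
      simp only [C, A]
      refine Finset.filter_congr fun f _ => ?_
      simp
    rw [hCA]
    exact (mul_le_mul_of_nonneg_left hq2 h1γ.le).trans h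
  have hCpos : ∀ e v, (0 : ℝ) < ((C e v).card : ℝ) := fun e v => by
    have := hC e v
    have h2 := hq v
    nlinarith
  have hC1 : ∀ e v, (1 : ℝ) ≤ ((C e v).card : ℝ) := fun e v => by
    have h := hCpos e v
    have : 0 < (C e v).card := by exact_mod_cast h
    exact_mod_cast this
  -- pairs
  let F : Finset (V × V) := (U ×ˢ U).filter (fun p => lev p.1 = lev p.2 ∧ pre p.1 = pre p.2)
  let far : V × V → Prop := fun p => p.1 ≠ p.2 ∧ p.2 ∉ P p.1 ∧ p.1 ∉ P p.2 ∧
    Disjoint (P p.1) (P p.2)
  let r : (V → Fin b) → V × V → ℝ := fun e p => if p.1 = p.2 then 1 else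
    ((C e p.1 ∩ C e p.2).card : ℝ) / ((C e p.1).card * (C e p.2).card)
  have hr0 : ∀ e p, 0 ≤ r e p := by
    intro e p
    simp only [r]
    positivity
  have hr1 : ∀ e p, r e p ≤ 1 := by
    intro e p
    simp only [r]
    split_ifs
    · exact le_refl _
    · rw [div_le_one (mul_pos (hCpos e _) (hCpos e _))]
      have h1 : ((C e p.1 ∩ C e p.2).card : ℝ) ≤ ((C e p.1).card : ℝ) := by
        exact_mod_cast Finset.card_le_card Finset.inter_subset_left
      have h2 := hC1 e p.2
      have h3 := hCpos e p.1
      nlinarith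
  -- expectation for far pairs
  let KK : ℝ := (1 + γ) ^ (2 * D) / (1 - γ) ^ 2
  have hKK : 0 ≤ KK := by positivity
  have hfar : ∀ p ∈ F, far p → ∑ e : V → Fin b, (if e p.1 = e p.2 then r e p else 0) ≤
      (b : ℝ) ^ Fintype.card V * (KK / ((b : ℝ) * t (lev p.1))) := by
    rintro ⟨v, v'⟩ hp ⟨hne, hn1, hn2, hdis⟩
    simp only at hne hn1 hn2 hdis
    simp only [F, Finset.mem_filter] at hp
    have hlev : lev v = lev v' := hp.2.1
    have hterm : ∀ e : V → Fin b, (if e v = e v' then r e (v, v') else 0) ≤
        ((1 - γ) ^ 2 * (q v * q v'))⁻¹ * ∑ f ∈ range (t (lev v)),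
          (if e v = e v' ∧ (∀ u ∈ P v, S (lev v) f (lev u, e u) = true) ∧
            (∀ u ∈ P v', S (lev v') f (lev u, e u) = true) then (1 : ℝ) else 0) := by
      intro e
      have hpos : 0 < (1 - γ) ^ 2 * (q v * q v') := by
        have := hq v
        have := hq v'
        positivity
      by_cases he : e v = e v'
      · rw [if_pos he]
        have hr : r e (v, v') = ((C e v ∩ C e v').card : ℝ) /
            ((C e v).card * (C e v').card) := by
          simp only [r, if_neg hne]
        rw [hr, div_eq_inv_mul]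
        have hcard : ((C e v ∩ C e v').card : ℝ) = ∑ f ∈ range (t (lev v)),
          (if e v = e v' ∧ (∀ u ∈ P v, S (lev v) f (lev u, e u) = true) ∧
            (∀ u ∈ P v', S (lev v') f (lev u, e u) = true) then (1 : ℝ) else 0) := by
          rw [Finset.sum_boole]
          congr 2
          ext f
          simp only [C, Finset.mem_inter, Finset.mem_filter, Finset.mem_range]
          constructor
          · rintro ⟨⟨a1, a2⟩, _, a3⟩
            exact ⟨a1, he, a2, a3⟩
          · rintro ⟨a1, _, a2, a3⟩
            exact ⟨⟨a1, a2⟩, hlev ▸ a1, a3⟩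
        rw [← hcard]
        refine mul_le_mul_of_nonneg_right ?_ (Nat.cast_nonneg _)
        refine inv_anti₀ hpos ?_
        have a1 := hC e v
        have a2 := hC e v'
        have a3 := hq v
        have a4 := hq v'
        calc (1 - γ) ^ 2 * (q v * q v') = ((1 - γ) * q v) * ((1 - γ) * q v') := by ring
          _ ≤ _ := mul_le_mul a1 a2 (by positivity) (Nat.cast_nonneg _)
      · rw [if_neg he]
        refine mul_nonneg (inv_nonneg.2 hpos.le) (Finset.sum_nonneg fun f _ => ?_)
        positivity
    have hrow : ∀ f ∈ range (t (lev v)), ∑ e : V → Fin b,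
        (if e v = e v' ∧ (∀ u ∈ P v, S (lev v) f (lev u, e u) = true) ∧
            (∀ u ∈ P v', S (lev v') f (lev u, e u) = true) then (1 : ℝ) else 0) ≤
        (b : ℝ) ^ Fintype.card V * ((b : ℝ)⁻¹ * (∏ u ∈ P v, (1 + γ) * ρ (lev v) (lev u)) *
          ∏ u ∈ P v', (1 + γ) * ρ (lev v') (lev u)) := by
      intro f hf
      rw [Finset.mem_range] at hf
      refine far_bound b hb (P v) (P v') v v' hne (hself v) hn1 hn2 (hself v') hdis
        (fun u y => S (lev v) f (lev u, y) = true) (fun u y => S (lev v') f (lev u, y) = true)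
        (fun u => (1 + γ) * ρ (lev v) (lev u)) (fun u => (1 + γ) * ρ (lev v') (lev u)) ?_ ?_
      · intro i
        exact hS.row (lev v) f hf (lev i)
      · intro i
        exact hS.row (lev v') f (hlev ▸ hf) (lev i)
    calc ∑ e : V → Fin b, (if e v = e v' then r e (v, v') else 0)
        ≤ ∑ e : V → Fin b, ((1 - γ) ^ 2 * (q v * q v'))⁻¹ * ∑ f ∈ range (t (lev v)),
          (if e v = e v' ∧ (∀ u ∈ P v, S (lev v) f (lev u, e u) = true) ∧
            (∀ u ∈ P v', S (lev v') f (lev u, e u) = true) then (1 : ℝ) else 0) :=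
          Finset.sum_le_sum fun e _ => hterm e
      _ = ((1 - γ) ^ 2 * (q v * q v'))⁻¹ * ∑ f ∈ range (t (lev v)), ∑ e : V → Fin b,
          (if e v = e v' ∧ (∀ u ∈ P v, S (lev v) f (lev u, e u) = true) ∧
            (∀ u ∈ P v', S (lev v') f (lev u, e u) = true) then (1 : ℝ) else 0) := by
          rw [← Finset.mul_sum, Finset.sum_comm]
      _ ≤ ((1 - γ) ^ 2 * (q v * q v'))⁻¹ * ∑ _f ∈ range (t (lev v)),
          ((b : ℝ) ^ Fintype.card V * ((b : ℝ)⁻¹ * (∏ u ∈ P v, (1 + γ) * ρ (lev v) (lev u)) *
          ∏ u ∈ P v', (1 + γ) * ρ (lev v') (lev u))) := by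
          have := hq v
          have := hq v'
          refine mul_le_mul_of_nonneg_left (Finset.sum_le_sum hrow) (by positivity)
      _ = (b : ℝ) ^ Fintype.card V * (((1 + γ) ^ (P v).card * (1 + γ) ^ (P v').card) /
            (1 - γ) ^ 2 / ((b : ℝ) * t (lev v))) := by
          rw [Finset.sum_const, Finset.card_range, nsmul_eq_mul, Finset.prod_mul_distrib,
            Finset.prod_mul_distrib, Finset.prod_const, Finset.prod_const]
          have e1 : ∏ u ∈ P v, ρ (lev v) (lev u) = q v / t (lev v) := by
            simp only [q]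
            have := htpos v
            field_simp
          have e2 : ∏ u ∈ P v', ρ (lev v') (lev u) = q v' / t (lev v) := by
            simp only [q]
            rw [hlev]
            have := htpos v'
            field_simp
          rw [e1, e2]
          have := hq v
          have := hq v'
          have := htpos v
          field_simp
      _ ≤ (b : ℝ) ^ Fintype.card V * (KK / ((b : ℝ) * t (lev v))) := by
          have := htpos v
          refine mul_le_mul_of_nonneg_left ?_ (by positivity)
          refine div_le_div_of_nonneg_right ?_ (by positivity)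
          simp only [KK]
          refine div_le_div_of_nonneg_right ?_ (by positivity)
          rw [← pow_add]
          refine pow_le_pow_right₀ (by linarith) ?_
          have := hPD v
          have := hPD v'
          omega
  -- non-far pairs
  have hnf : ∀ v : V, (((univ : Finset V).filter (fun v' => ¬ far (v, v'))).card : ℝ) ≤
      ((D : ℝ) + 1) * (D1 + 1) := by
    intro v
    have hsub : (univ : Finset V).filter (fun v' => ¬ far (v, v')) ⊆
        (insert v (P v)) ∪ (insert v (P v)).biUnion (fun u =>
          (univ : Finset V).filter (fun v' => u ∈ P v')) := by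
      intro v' hv'
      rw [Finset.mem_filter] at hv'
      by_contra hcon
      apply hv'.2
      simp only [Finset.mem_union, Finset.mem_insert, Finset.mem_biUnion, Finset.mem_filter,
        Finset.mem_univ, true_and, not_or, not_exists, not_and] at hcon
      obtain ⟨⟨a1, a2⟩, a3⟩ := hcon
      refine ⟨fun h => a1 h.symm, a2, fun h => a3 v (Or.inl rfl) h, ?_⟩
      rw [Finset.disjoint_left]
      intro u hu hu'
      exact a3 u (Or.inr hu) hu'
    have h1 : ((univ : Finset V).filter (fun v' => ¬ far (v, v'))).card ≤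
        (D + 1) + (D + 1) * D1 := by
      refine (Finset.card_le_card hsub).trans ((Finset.card_union_le _ _).trans ?_)
      have c1 : (insert v (P v)).card ≤ D + 1 :=
        (Finset.card_insert_le _ _).trans (Nat.succ_le_succ (hPD v))
      refine Nat.add_le_add c1 ?_
      refine Finset.card_biUnion_le.trans ?_
      calc _ ≤ ∑ _u ∈ insert v (P v), D1 := Finset.sum_le_sum fun u _ => hrev u
        _ = (insert v (P v)).card * D1 := by rw [Finset.sum_const, smul_eq_mul]
        _ ≤ _ := Nat.mul_le_mul_right _ c1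
    calc (((univ : Finset V).filter (fun v' => ¬ far (v, v'))).card : ℝ) ≤
        (((D + 1) + (D + 1) * D1 : ℕ) : ℝ) := by exact_mod_cast h1
      _ = _ := by push_cast; ring
  let RHS : ℝ := KK * (∑ p ∈ F, W (lev p.1) / ((b : ℝ) * t (lev p.1))) +
        (∑ v ∈ U, W (lev v)) * ((D + 1) * (D1 + 1))
  -- choice of e
  have hE : ∃ e : V → Fin b, ∑ p ∈ F, W (lev p.1) * (if e p.1 = e p.2 then r e p else 0) ≤
      RHS := by
    by_contra hcon
    push Not at hcon
    have : Nonempty (Fin b) := ⟨⟨0, hb⟩⟩
    have hsum : (b : ℝ) ^ Fintype.card V * RHS < ∑ e : V → Fin b,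
        ∑ p ∈ F, W (lev p.1) * (if e p.1 = e p.2 then r e p else 0) := by
      have h := Finset.sum_lt_sum_of_nonempty (s := (univ : Finset (V → Fin b)))
        Finset.univ_nonempty (fun e _ => hcon e)
      rw [Finset.sum_const, Finset.card_univ, Fintype.card_fun, Fintype.card_fin,
        nsmul_eq_mul] at h
      push_cast at h
      exact h
    have hle : ∑ e : V → Fin b,
        ∑ p ∈ F, W (lev p.1) * (if e p.1 = e p.2 then r e p else 0) ≤
        (b : ℝ) ^ Fintype.card V * RHS := by
      rw [Finset.sum_comm]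
      have hp : ∀ p ∈ F, ∑ e : V → Fin b, W (lev p.1) * (if e p.1 = e p.2 then r e p else 0) ≤
          (b : ℝ) ^ Fintype.card V * (KK * (W (lev p.1) / ((b : ℝ) * t (lev p.1))) +
            W (lev p.1) * (if far p then 0 else 1)) := by
        intro p hp
        rw [← Finset.mul_sum]
        by_cases hf : far p
        · rw [if_pos hf]
          refine (mul_le_mul_of_nonneg_left (hfar p hp hf) (hW _)).trans (le_of_eq ?_)
          ring
        · rw [if_neg hf]
          have h1 : ∑ e : V → Fin b, (if e p.1 = e p.2 then r e p else 0) ≤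
              (b : ℝ) ^ Fintype.card V := by
            calc _ ≤ ∑ _e : V → Fin b, (1 : ℝ) := by
                  refine Finset.sum_le_sum fun e _ => ?_
                  split_ifs
                  · exact hr1 e p
                  · exact zero_le_one
              _ = _ := by
                  rw [Finset.sum_const, Finset.card_univ, Fintype.card_fun, Fintype.card_fin,
                    nsmul_eq_mul]
                  push_cast
                  ring
          have h2 : 0 ≤ (b : ℝ) ^ Fintype.card V *
              (KK * (W (lev p.1) / ((b : ℝ) * t (lev p.1)))) := by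
            have := hW (lev p.1)
            positivity
          have h3 := mul_le_mul_of_nonneg_left h1 (hW (lev p.1))
          calc _ ≤ _ := h3
            _ ≤ _ := by
                rw [mul_add, mul_one]
                linarith
      refine (Finset.sum_le_sum hp).trans ?_
      rw [← Finset.mul_sum, Finset.sum_add_distrib, ← Finset.mul_sum]
      refine mul_le_mul_of_nonneg_left ?_ (by positivity)
      simp only [RHS]
      refine add_le_add (le_refl _) ?_
      calc ∑ p ∈ F, W (lev p.1) * (if far p then 0 else 1)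
          ≤ ∑ p ∈ U ×ˢ (univ : Finset V), W (lev p.1) * (if far p then 0 else 1) := by
            refine Finset.sum_le_sum_of_subset_of_nonneg ?_ ?_
            · intro p hp
              simp only [F, Finset.mem_filter, Finset.mem_product] at hp
              exact Finset.mem_product.2 ⟨hp.1.1, Finset.mem_univ _⟩
            · intro p _ _
              have := hW (lev p.1)
              positivity
        _ = ∑ v ∈ U, W (lev v) * (((univ : Finset V).filter (fun v' => ¬ far (v, v'))).card : ℝ) := by
            rw [Finset.sum_product]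
            refine Finset.sum_congr rfl fun v _ => ?_
            rw [Finset.card_filter]
            push_cast
            rw [Finset.mul_sum]
            refine Finset.sum_congr rfl fun v' _ => ?_
            by_cases h : far (v, v') <;> simp [h]
        _ ≤ ∑ v ∈ U, W (lev v) * (((D : ℝ) + 1) * (D1 + 1)) :=
            Finset.sum_le_sum fun v _ => mul_le_mul_of_nonneg_left (hnf v) (hW _)
        _ = _ := by rw [Finset.sum_mul]
    linarith
  obtain ⟨e, he⟩ := hE
  -- choice of f
  let Pi := Fintype.piFinset (C e)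
  have hPine : Pi.Nonempty := by
    rw [Fintype.piFinset_nonempty]
    intro v
    have := hCpos e v
    exact Finset.card_pos.1 (by exact_mod_cast this)
  have hPicard : (0 : ℝ) < (Pi.card : ℝ) := by exact_mod_cast Finset.card_pos.2 hPine
  have hF : ∃ f ∈ Pi, ∑ p ∈ F, W (lev p.1) * (if e p.1 = e p.2 ∧ f p.1 = f p.2 then 1 else 0) ≤
      RHS := by
    by_contra hcon
    push Not at hcon
    have hsum : (Pi.card : ℝ) * RHS < ∑ f ∈ Pi,
        ∑ p ∈ F, W (lev p.1) * (if e p.1 = e p.2 ∧ f p.1 = f p.2 then 1 else 0) := by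
      have h := Finset.sum_lt_sum_of_nonempty hPine hcon
      rwa [Finset.sum_const, nsmul_eq_mul] at h
    have hle : ∑ f ∈ Pi,
        ∑ p ∈ F, W (lev p.1) * (if e p.1 = e p.2 ∧ f p.1 = f p.2 then 1 else 0) ≤
        (Pi.card : ℝ) * RHS := by
      rw [Finset.sum_comm]
      refine le_trans (le_of_eq ?_) (mul_le_mul_of_nonneg_left he hPicard.le)
      rw [Finset.mul_sum]
      refine Finset.sum_congr rfl fun p _ => ?_
      rw [← Finset.mul_sum]
      by_cases h1 : e p.1 = e p.2
      · simp only [h1, true_and, if_true]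
        by_cases h2 : p.1 = p.2
        · simp only [r, h2, if_true, Finset.sum_const, nsmul_eq_mul, mul_one]
          ring
        · have h3 := pi_agree (C e) p.1 p.2 h2
          have h4 : ∑ f ∈ Pi, (if f p.1 = f p.2 then (1 : ℝ) else 0) =
              ((Pi.filter (fun f => f p.1 = f p.2)).card : ℝ) := by
            rw [Finset.sum_boole]
          rw [h4]
          simp only [r, h2, if_false]
          have h5 := hCpos e p.1
          have h6 := hCpos e p.2
          have h7 : ((Pi.filter (fun f => f p.1 = f p.2)).card : ℝ) =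
              Pi.card * (((C e p.1 ∩ C e p.2).card : ℝ) /
                ((C e p.1).card * (C e p.2).card)) := by
            rw [← mul_div_assoc, eq_div_iff (mul_pos h5 h6).ne']
            exact h3
          rw [h7]
          ring
      · simp [h1]
    linarith
  obtain ⟨f, hfPi, hf⟩ := hF
  have hfC : ∀ v, f v ∈ C e v := fun v => (Fintype.mem_piFinset.1 hfPi) v
  refine ⟨e, f, ?_, ?_, ?_⟩
  · intro v
    have := hfC v
    simp only [C, Finset.mem_filter, Finset.mem_range] at this
    exact this.1
  · intro v u hu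
    have := hfC v
    simp only [C, Finset.mem_filter, Finset.mem_range] at this
    exact this.2 u hu
  · refine le_trans (le_of_eq ?_) hf
    rw [← Finset.sum_filter_add_sum_filter_not F (fun p => e p.1 = e p.2 ∧ f p.1 = f p.2)]
    have z : ∑ p ∈ F.filter (fun p => ¬ (e p.1 = e p.2 ∧ f p.1 = f p.2)),
        W (lev p.1) * (if e p.1 = e p.2 ∧ f p.1 = f p.2 then (1 : ℝ) else 0) = 0 := by
      refine Finset.sum_eq_zero fun p hp => ?_
      rw [if_neg (Finset.mem_filter.1 hp).2, mul_zero]
    rw [z, add_zero]
    have y : ∑ p ∈ F.filter (fun p => (e p.1 = e p.2 ∧ f p.1 = f p.2)),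
        W (lev p.1) * (if e p.1 = e p.2 ∧ f p.1 = f p.2 then (1 : ℝ) else 0) =
        ∑ p ∈ F.filter (fun p => (e p.1 = e p.2 ∧ f p.1 = f p.2)), W (lev p.1) := by
      refine Finset.sum_congr rfl fun p hp => ?_
      rw [if_pos (Finset.mem_filter.1 hp).2, mul_one]
    rw [y]
    simp only [F]
    rw [Finset.filter_filter]
    refine Finset.sum_congr ?_ fun _ _ => rfl
    refine Finset.filter_congr fun p _ => ?_
    tauto

end Pool.Agent.Lib.MP_1f2a9f_co
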