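import Pool.Agent.Lib.MP_1f2a9f_co.TopDefs

/-!
# Auxiliary asymptotics for the numerical modules
-/

namespace Pool.Agent.Lib.MP_1f2a9f_co.NumAux

open Filter Finset

theorem ev_log_pow_le (k : ℕ) (C c : ℝ) (hc : 0 < c) :
    ∀ᶠ m : ℕ in atTop, C * Real.log m ^ k ≤ (m : ℝ) ^ c := by
  have h1 := isLittleO_log_rpow_rpow_atTop (k : ℝ) hc
  have h2 := h1.def (c := 1 / (|C| + 1)) (by positivity)
  have h3 : ∀ᶠ x : ℝ in atTop, C * Real.log x ^ k ≤ x ^ c := by
    filter_upwards [h2, eventually_ge_atTop (1 : ℝ)] with x hx hx1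
    have hlog : 0 ≤ Real.log x := Real.log_nonneg hx1
    rw [Real.rpow_natCast, Real.norm_of_nonneg (by positivity),
      Real.norm_of_nonneg (by positivity)] at hx
    have hC : 0 < |C| + 1 := by positivity
    have h4 : (|C| + 1) * Real.log x ^ k ≤ x ^ c := by
      calc (|C| + 1) * Real.log x ^ k ≤ (|C| + 1) * (1 / (|C| + 1) * x ^ c) :=
            mul_le_mul_of_nonneg_left hx hC.le
        _ = x ^ c := by field_simp
    calc C * Real.log x ^ k ≤ (|C| + 1) * Real.log x ^ k := by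
          apply mul_le_mul_of_nonneg_right _ (by positivity)
          linarith [le_abs_self C]
      _ ≤ x ^ c := h4
  exact tendsto_natCast_atTop_atTop.eventually h3

theorem ev_log_pow_le_self (k : ℕ) (C : ℝ) :
    ∀ᶠ m : ℕ in atTop, C * Real.log m ^ k ≤ (m : ℝ) := by
  have := ev_log_pow_le k C 1 one_pos
  simpa using this

theorem ev_rpow_ge (C c : ℝ) (hc : 0 < c) : ∀ᶠ m : ℕ in atTop, C ≤ (m : ℝ) ^ c := by
  have := ev_log_pow_le 0 C c hc
  simpa using this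

theorem ev_log_ge (C : ℝ) : ∀ᶠ m : ℕ in atTop, C ≤ Real.log m :=
  (Real.tendsto_log_atTop.comp tendsto_natCast_atTop_atTop).eventually (eventually_ge_atTop C)

theorem exp_log_mul {m : ℕ} (hm : 0 < m) (a : ℝ) :
    (m : ℝ) ^ a = Real.exp (Real.log m * a) :=
  Real.rpow_def_of_pos (by exact_mod_cast hm) a

theorem qi_ge {ε : ℝ} {m : ℕ} (hm : 0 < m) (i : ℕ) : (m : ℝ) ^ (-(ε / 16)) ≤ qi ε m i := by
  unfold qi
  rw [exp_log_mul hm, Real.exp_le_exp]
  have := min_le_right (Real.log m / 2 ^ (i + 2)) (ε * Real.log m / 16)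
  nlinarith

theorem qi_pos (ε : ℝ) (m i : ℕ) : 0 < qi ε m i := Real.exp_pos _

theorem qi_le_one {ε : ℝ} (hε : 0 ≤ ε) {m : ℕ} (i : ℕ) : qi ε m i ≤ 1 := by
  unfold qi
  rw [Real.exp_le_one_iff]
  have hl : 0 ≤ Real.log (m : ℝ) := Real.log_natCast_nonneg m
  have : 0 ≤ min (Real.log m / 2 ^ (i + 2)) (ε * Real.log m / 16) :=
    le_min (by positivity) (by positivity)
  linarith

theorem half_le_floor {x : ℝ} (hx : 1 ≤ x) : x / 2 ≤ (⌊x⌋₊ : ℝ) := by
  have h1 := Nat.lt_floor_add_one x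
  have h2 : (1 : ℝ) ≤ (⌊x⌋₊ : ℝ) := by
    have : 1 ≤ ⌊x⌋₊ := Nat.le_floor (by simpa using hx)
    exact_mod_cast this
  linarith

theorem card_lev (B I : ℕ) : Fintype.card (Lev B I) = 1 + (B + I) := by
  simp [Lev]

/-- `i < pI η m ↔ 2 ^ i < η log m`. -/
theorem lt_pI {η : ℝ} (hη : 0 < η) {m : ℕ} (hl : 0 < Real.log m) (i : ℕ) :
    i < pI η m ↔ (2 : ℝ) ^ i < η * Real.log m := by
  unfold pI
  rw [Nat.lt_ceil, Real.lt_logb_iff_rpow_lt (by norm_num) (by positivity), Real.rpow_natCast]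

theorem pI_le {η : ℝ} (hη : 0 < η) (hη1 : η ≤ 1) {m : ℕ} (hl : 3 ≤ Real.log m) :
    (pI η m : ℝ) ≤ Real.log m := by
  have hl0 : 0 < Real.log m := by linarith
  rcases Nat.eq_zero_or_pos (pI η m) with h0 | hpos
  · rw [h0]; simpa using hl0.le
  have h1 : pI η m - 1 < pI η m := by omega
  rw [lt_pI hη hl0] at h1
  have h2 : (2 : ℝ) ^ (pI η m - 1) < Real.log m := by nlinarith
  have h3 : ∀ k : ℕ, ((k : ℝ) + 1) ≤ 2 ^ k := by
    intro k
    induction k with
    | zero => simp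
    | succ k ih => push_cast; rw [pow_succ]; nlinarith
  have h4 := h3 (pI η m - 1)
  have h5 : ((pI η m - 1 : ℕ) : ℝ) + 1 = pI η m := by
    rw [Nat.cast_sub hpos]; simp
  linarith

end Pool.Agent.Lib.MP_1f2a9f_co.NumAux
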